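import Pool.Agent.LAll.SumA

set_option autoImplicit false

/-! UV06. Types at the infinite places. -/

namespace Pool.Agent.LAll

open Filter Topology Module

variable {ι : Type} [Fintype ι] [DecidableEq ι] {J : Type}

omit [Fintype ι] [DecidableEq ι] in
private theorem mass_mul_le (C : Cfg ι) (f g : C.V → ℝ) (p : C.V → Prop) (R : ℝ)
    (h : ∀ v, p v → R * f v ≤ g v) : R * C.mass f p ≤ C.mass g p := by
  classical
  unfold Cfg.mass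
  rw [Finset.mul_sum]
  refine Finset.sum_le_sum fun v _ => ?_
  by_cases h1 : p v
  · rw [if_pos h1, if_pos h1]
    exact h v h1
  · rw [if_neg h1, if_neg h1, mul_zero]

/-- **A type which carries a positive proportion of the infinite places is charged.**

Proof. Let `ε, μ` be as in `ArchCharged` and `C` as in `Tame.sig_le` (for `W`), `R = 2 C / μ`. Places with
`σ v > R w v` have `w`-mass at most `C / R = μ / 2` (`Cfg.markov`), so for all `δ' > 0` and most `j` the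
places with `ATyp W S c ε δ'` and `σ v ≤ R w v` have `w`-mass at least `μ / 2` (`Cfg.mass_or_le`,
`Cfg.mass_mono`). At such a place with `w v > 0`: for `k ∈ S`, `A v k ≥ ε w v ≥ (ε / R) σ v`; `S ≠ ∅`, so
`σ v ≥ ε w v`, and for `k ∈ W \ S`: `A v k ≤ δ' w v ≤ (δ' / ε) σ v` (places with `w v = 0` of this kind have
`σ v ≤ 0`, so `σ v = 0` and all is trivially true, too). So `Typ W S c (ε / R) (δ' / ε) v`, and
`σ v ≥ ε w v`: the `σ`-mass of `Typ W S c (ε / R) (δ' / ε)` is at least `ε μ / 2`. Given `δ > 0` take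
`δ' = ε δ`. -/
theorem charged_of_arch {𝒰 : Ultrafilter J} {𝒞 : J → Cfg ι} {W₀ : Finset ι} (hT : Tame 𝒰 𝒞 W₀)
    (W : Finset ι) (S : Finset ι) (c : ι → Fin 3) (hS : S ⊆ W) (hS0 : S.Nonempty)
    (h : ArchCharged 𝒰 𝒞 W S c) : Charged 𝒰 𝒞 W S c := by
  obtain ⟨ε, μ, hε, hμ, h⟩ := h
  obtain ⟨C, hC, hsig⟩ := hT.sig_le W
  have hR : 0 < 2 * C / μ := by positivity
  refine ⟨ε / (2 * C / μ), ε * (μ / 2), by positivity, by positivity, ?_⟩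
  intro δ hδ
  have h1 := h (ε * δ) (by positivity)
  filter_upwards [h1, hsig] with j hj1 hj2
  -- the places with large sigma
  have hbig : (𝒞 j).mass (𝒞 j).w (fun v => ¬ (𝒞 j).sig W v ≤ 2 * C / μ * (𝒞 j).w v) ≤
      μ / 2 := by
    have h2 := (𝒞 j).markov (𝒞 j).w ((𝒞 j).sig W)
      (fun v => ¬ (𝒞 j).sig W v ≤ 2 * C / μ * (𝒞 j).w v) (2 * C / μ)
      (fun v => (𝒞 j).sig_nonneg W v) (fun v hv => (not_le.1 hv).le)
    have h3 : 2 * C / μ * (𝒞 j).mass (𝒞 j).w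
        (fun v => ¬ (𝒞 j).sig W v ≤ 2 * C / μ * (𝒞 j).w v) ≤ 2 * C / μ * (μ / 2) := by
      refine (h2.trans hj2).trans (le_of_eq ?_)
      field_simp
    exact le_of_mul_le_mul_left h3 hR
  have hor : (𝒞 j).mass (𝒞 j).w ((𝒞 j).ATyp W S c ε (ε * δ)) ≤
      (𝒞 j).mass (𝒞 j).w (fun v => (𝒞 j).ATyp W S c ε (ε * δ) v ∧
        (𝒞 j).sig W v ≤ 2 * C / μ * (𝒞 j).w v) +
      (𝒞 j).mass (𝒞 j).w (fun v => ¬ (𝒞 j).sig W v ≤ 2 * C / μ * (𝒞 j).w v) := by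
    refine le_trans ((𝒞 j).mass_mono (𝒞 j).w _ _ (𝒞 j).w0 ?_)
      ((𝒞 j).mass_or_le (𝒞 j).w _ _ (𝒞 j).w0)
    intro v hv
    by_cases hs : (𝒞 j).sig W v ≤ 2 * C / μ * (𝒞 j).w v
    · exact Or.inl ⟨hv, hs⟩
    · exact Or.inr hs
  have hhalf : μ / 2 ≤ (𝒞 j).mass (𝒞 j).w (fun v => (𝒞 j).ATyp W S c ε (ε * δ) v ∧
        (𝒞 j).sig W v ≤ 2 * C / μ * (𝒞 j).w v) := by linarith
  obtain ⟨k₀, hk₀⟩ := hS0
  have hlow : ∀ v, (𝒞 j).ATyp W S c ε (ε * δ) v → ε * (𝒞 j).w v ≤ (𝒞 j).sig W v := by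
    intro v hv
    refine (hv.1 k₀ hk₀).2.trans ?_
    unfold Cfg.sig
    exact Finset.single_le_sum (f := fun k => (𝒞 j).A v k) (fun k _ => (𝒞 j).A0 v k) (hS hk₀)
  calc ε * (μ / 2) ≤ ε * (𝒞 j).mass (𝒞 j).w (fun v => (𝒞 j).ATyp W S c ε (ε * δ) v ∧
        (𝒞 j).sig W v ≤ 2 * C / μ * (𝒞 j).w v) := mul_le_mul_of_nonneg_left hhalf hε.le
    _ ≤ (𝒞 j).mass ((𝒞 j).sig W) (fun v => (𝒞 j).ATyp W S c ε (ε * δ) v ∧
        (𝒞 j).sig W v ≤ 2 * C / μ * (𝒞 j).w v) :=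
      mass_mul_le (𝒞 j) _ _ _ ε (fun v hv => hlow v hv.1)
    _ ≤ (𝒞 j).mass ((𝒞 j).sig W) ((𝒞 j).Typ W S c (ε / (2 * C / μ)) δ) := by
      refine (𝒞 j).mass_mono _ _ _ (fun v => (𝒞 j).sig_nonneg W v) ?_
      rintro v ⟨hv, hs⟩
      refine ⟨fun k hk => ⟨(hv.1 k hk).1, ?_⟩, fun k hk hkS => ?_⟩
      · refine le_trans ?_ (hv.1 k hk).2
        calc ε / (2 * C / μ) * (𝒞 j).sig W v ≤ ε / (2 * C / μ) * (2 * C / μ * (𝒞 j).w v) :=
              mul_le_mul_of_nonneg_left hs (by positivity)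
          _ = ε * (𝒞 j).w v := by
              rw [← mul_assoc, div_mul_cancel₀ _ hR.ne']
      · refine (hv.2 k hk hkS).trans ?_
        calc ε * δ * (𝒞 j).w v = δ * (ε * (𝒞 j).w v) := by ring
          _ ≤ δ * (𝒞 j).sig W v := mul_le_mul_of_nonneg_left (hlow v hv) hδ.le

omit [DecidableEq ι] in
/-- one step of the recursion in `arch_types` -/
private theorem arch_step (𝒰 : Ultrafilter J) (𝒞 : J → Cfg ι) (W : Finset ι) (μ : ℝ) (hμ : 0 < μ)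
    (ε : ℝ) (hε : 0 < ε) :
    ∃ δ : ℝ, 0 < δ ∧ δ ≤ ε ∧ ∀ᶠ j in (𝒰 : Filter J), ∀ a : Finset ι × (ι → Fin 3),
      ¬ ArchCharged 𝒰 𝒞 W a.1 a.2 →
        (𝒞 j).mass (𝒞 j).w ((𝒞 j).ATyp W a.1 a.2 ε δ) < μ := by
  classical
  have key : ∀ a : Finset ι × (ι → Fin 3), ∀ᶠ δ in 𝓝[>] (0 : ℝ),
      ∀ᶠ j in (𝒰 : Filter J), ¬ ArchCharged 𝒰 𝒞 W a.1 a.2 →
        (𝒞 j).mass (𝒞 j).w ((𝒞 j).ATyp W a.1 a.2 ε δ) < μ := by
    intro a
    by_cases ha : ArchCharged 𝒰 𝒞 W a.1 a.2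
    · exact Eventually.of_forall fun δ => Eventually.of_forall fun j hn => absurd ha hn
    · have h1 : ∃ δ : ℝ, 0 < δ ∧ ∀ᶠ j in (𝒰 : Filter J),
          (𝒞 j).mass (𝒞 j).w ((𝒞 j).ATyp W a.1 a.2 ε δ) < μ := by
        by_contra hcon
        push Not at hcon
        refine ha ⟨ε, μ, hε, hμ, fun δ hδ => ?_⟩
        exact hcon δ hδ
      obtain ⟨δ₁, hδ₁, hj⟩ := h1
      have h3 : ∀ᶠ δ in 𝓝[>] (0 : ℝ), δ < δ₁ :=
        (Iio_mem_nhds hδ₁ |> mem_nhdsWithin_of_mem_nhds)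
      filter_upwards [h3] with δ hδ
      filter_upwards [hj] with j hj _
      refine lt_of_le_of_lt ((𝒞 j).mass_mono _ _ _ (𝒞 j).w0 ?_) hj
      intro v hv
      refine ⟨hv.1, fun k hk hkS => (hv.2 k hk hkS).trans ?_⟩
      exact mul_le_mul_of_nonneg_right hδ.le ((𝒞 j).w0 v)
  have h4 : ∀ᶠ δ in 𝓝[>] (0 : ℝ), ∀ a : Finset ι × (ι → Fin 3),
      ∀ᶠ j in (𝒰 : Filter J), ¬ ArchCharged 𝒰 𝒞 W a.1 a.2 →
        (𝒞 j).mass (𝒞 j).w ((𝒞 j).ATyp W a.1 a.2 ε δ) < μ := eventually_all.2 key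
  have h5 : ∀ᶠ δ in 𝓝[>] (0 : ℝ), δ < ε := (Iio_mem_nhds hε |> mem_nhdsWithin_of_mem_nhds)
  have h6 : ∀ᶠ δ in 𝓝[>] (0 : ℝ), 0 < δ := self_mem_nhdsWithin
  obtain ⟨δ, hδ4, hδ5, hδ6⟩ := (h4.and (h5.and h6)).exists
  exact ⟨δ, hδ6, hδ5.le, eventually_all.2 hδ4⟩

omit [Fintype ι] [DecidableEq ι] in
/-- the pigeonhole step in `arch_types` -/
private theorem arch_pigeon (W : Finset ι) (A : ι → ℝ) (w : ℝ) (hw : 0 ≤ w) (e : ℕ → ℝ)
    (he : Antitone e) :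
    ∃ i : Fin (W.card + 1), ∀ k ∈ W, ¬ (e (i + 1) * w ≤ A k ∧ A k < e i * w) := by
  classical
  by_contra hcon
  push Not at hcon
  choose f hfW hf1 hf2 using hcon
  have hinj : Function.Injective (fun i : Fin (W.card + 1) => (⟨f i, hfW i⟩ : {x // x ∈ W})) := by
    intro i i' hii
    have hff : f i = f i' := congrArg Subtype.val hii
    by_contra hne
    rcases lt_or_gt_of_ne hne with hlt | hlt
    · have h1 : (i : ℕ) + 1 ≤ (i' : ℕ) := hlt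
      have h2 := mul_le_mul_of_nonneg_right (he h1) hw
      have h3 := hf1 i
      have h4 := hf2 i'
      rw [hff] at h3
      linarith
    · have h1 : (i' : ℕ) + 1 ≤ (i : ℕ) := hlt
      have h2 := mul_le_mul_of_nonneg_right (he h1) hw
      have h3 := hf1 i'
      have h4 := hf2 i
      rw [hff] at h4
      linarith
  have hcard := Fintype.card_le_of_injective _ hinj
  rw [Fintype.card_fin, Fintype.card_coe] at hcard
  omega

/-- **Most infinite places have an arch-charged type.** For all `δ₀, η > 0`, for most `j`, the places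
which are near an arch-charged type with inactive coordinates `≤ δ₀` have `w`-mass at least `1 - η`.

Proof. `n = W.card`, `Q = Fintype.card (Finset ι × (ι → Fin 3))`, `μ = η / ((n + 1) Q)`. If `(S, c)` is not
arch-charged, then for every `ε > 0` there is `δ > 0` with `mass w (ATyp W S c ε δ) < μ` for most `j`
(not for most `j` `μ ≤ mass`; `Ultrafilter.eventually_not`). So for every `ε > 0` there is
`δ ∈ (0, ε]` which works for all `(S, c)`, `S ⊆ W`, not arch-charged. Recursion: `ε 0 = δ₀ ≥ ε 1 ≥ ... ≥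
ε (n + 1) > 0` such that for most `j`, all `i ≤ n` and all these `(S, c)`:
`mass w (ATyp W S c (ε i) (ε (i + 1))) < μ`. For a place `v` with `w v > 0` one of the `n + 1` intervals
`[ε (i+1), ε i)`, `i ≤ n`, contains none of the `n` ratios `A v k / w v`, `k ∈ W` (pigeonhole); with
`S = {k ∈ W | ε i * w v ≤ A v k}` and `c = c v`: `ATyp W S c (ε i) (ε (i+1)) v`. If this `(S, c)` is
arch-charged, then `v` is as wanted (`A v k ≤ ε (i+1) w v ≤ δ₀ w v` for `k ∈ W \ S`); otherwise `v` is in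
one of at most `(n + 1) Q` sets of `w`-mass `< μ` each. (Places with `w v = 0` do not matter.) The total
mass is `1` (`Cfg.w1`, `Cfg.mass_not`, `Cfg.mass_exists_le`). -/
theorem arch_types (𝒰 : Ultrafilter J) (𝒞 : J → Cfg ι) (W : Finset ι) (δ₀ η : ℝ) (hδ₀ : 0 < δ₀)
    (hη : 0 < η) :
    ∀ᶠ j in (𝒰 : Filter J), 1 - η ≤ (𝒞 j).mass (𝒞 j).w (fun v =>
      ∃ (S : Finset ι) (c : ι → Fin 3), S ⊆ W ∧ ArchCharged 𝒰 𝒞 W S c ∧
        (∀ k ∈ S, (𝒞 j).c v k = c k) ∧ ∀ k ∈ W, k ∉ S → (𝒞 j).A v k ≤ δ₀ * (𝒞 j).w v) := by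
  classical
  have hne : Nonempty (Finset ι × (ι → Fin 3)) := ⟨(∅, fun _ => 0)⟩
  have hQ : 0 < Fintype.card (Finset ι × (ι → Fin 3)) := Fintype.card_pos
  have hQ' : (0 : ℝ) < Fintype.card (Finset ι × (ι → Fin 3)) := by exact_mod_cast hQ
  have hn' : (0 : ℝ) < (W.card : ℝ) + 1 := by positivity
  obtain ⟨μ, hμdef⟩ : ∃ μ : ℝ, μ = η / (((W.card : ℝ) + 1) *
    Fintype.card (Finset ι × (ι → Fin 3))) := ⟨_, rfl⟩
  have hμ : 0 < μ := by rw [hμdef]; positivity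
  choose g hg0 hgle hg using fun (ε : ℝ) (hε : 0 < ε) => arch_step 𝒰 𝒞 W μ hμ ε hε
  -- the sequence
  obtain ⟨e, he0, hepos, hstep⟩ : ∃ e : ℕ → ℝ, e 0 = δ₀ ∧ (∀ i, 0 < e i) ∧
      ∀ i, ∀ hi : 0 < e i, e (i + 1) = g (e i) hi := by
    obtain ⟨s, hs0, hs⟩ : ∃ s : ℕ → {x : ℝ // 0 < x}, s 0 = ⟨δ₀, hδ₀⟩ ∧
        ∀ i, s (i + 1) = ⟨g (s i).1 (s i).2, hg0 _ _⟩ :=
      ⟨fun n => Nat.rec ⟨δ₀, hδ₀⟩ (fun _ x => ⟨g x.1 x.2, hg0 _ _⟩) n, rfl, fun _ => rfl⟩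
    refine ⟨fun i => (s i).1, by simp only [hs0], fun i => (s i).2, fun i hi => ?_⟩
    simp only [hs i]
  have hanti : Antitone e := by
    refine antitone_nat_of_succ_le fun i => ?_
    rw [hstep i (hepos i)]
    exact hgle _ _
  have hev : ∀ᶠ j in (𝒰 : Filter J), ∀ i : Fin (W.card + 1), ∀ a : Finset ι × (ι → Fin 3),
      ¬ ArchCharged 𝒰 𝒞 W a.1 a.2 →
        (𝒞 j).mass (𝒞 j).w ((𝒞 j).ATyp W a.1 a.2 (e i) (e (i + 1))) < μ := by
    refine eventually_all.2 fun i => ?_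
    rw [hstep i (hepos i)]
    exact hg _ _
  filter_upwards [hev] with j hj
  -- the bad places
  have hbad : (𝒞 j).mass (𝒞 j).w (fun v => ¬ ∃ (S : Finset ι) (c : ι → Fin 3), S ⊆ W ∧
      ArchCharged 𝒰 𝒞 W S c ∧ (∀ k ∈ S, (𝒞 j).c v k = c k) ∧
        ∀ k ∈ W, k ∉ S → (𝒞 j).A v k ≤ δ₀ * (𝒞 j).w v) ≤ η := by
    have h1 : (𝒞 j).mass (𝒞 j).w (fun v => ¬ ∃ (S : Finset ι) (c : ι → Fin 3), S ⊆ W ∧
        ArchCharged 𝒰 𝒞 W S c ∧ (∀ k ∈ S, (𝒞 j).c v k = c k) ∧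
          ∀ k ∈ W, k ∉ S → (𝒞 j).A v k ≤ δ₀ * (𝒞 j).w v) ≤
        (𝒞 j).mass (𝒞 j).w (fun v => ∃ a ∈ (Finset.univ :
          Finset (Fin (W.card + 1) × (Finset ι × (ι → Fin 3)))),
            ¬ ArchCharged 𝒰 𝒞 W a.2.1 a.2.2 ∧
              (𝒞 j).ATyp W a.2.1 a.2.2 (e a.1) (e (a.1 + 1)) v) := by
      refine (𝒞 j).mass_mono _ _ _ (𝒞 j).w0 ?_
      intro v hv
      obtain ⟨i, hi⟩ := arch_pigeon W ((𝒞 j).A v) ((𝒞 j).w v) ((𝒞 j).w0 v) e hanti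
      have hA : ∀ k ∈ W, ¬ e i * (𝒞 j).w v ≤ (𝒞 j).A v k →
          (𝒞 j).A v k < e (i + 1) * (𝒞 j).w v := by
        intro k hk hk2
        by_contra hk3
        exact hi k hk ⟨not_lt.1 hk3, not_le.1 hk2⟩
      refine ⟨(i, (W.filter fun k => e i * (𝒞 j).w v ≤ (𝒞 j).A v k, (𝒞 j).c v)),
        Finset.mem_univ _, ?_, ?_, ?_⟩
      · intro hAC
        refine hv ⟨_, _, Finset.filter_subset _ _, hAC, fun k _ => rfl, fun k hk hkS => ?_⟩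
        have h2 : ¬ e i * (𝒞 j).w v ≤ (𝒞 j).A v k := fun h3 =>
          hkS (Finset.mem_filter.2 ⟨hk, h3⟩)
        refine (hA k hk h2).le.trans (mul_le_mul_of_nonneg_right ?_ ((𝒞 j).w0 v))
        rw [← he0]
        exact hanti (Nat.zero_le _)
      · intro k hk
        exact ⟨rfl, (Finset.mem_filter.1 hk).2⟩
      · intro k hk hkS
        have h2 : ¬ e i * (𝒞 j).w v ≤ (𝒞 j).A v k := fun h3 =>
          hkS (Finset.mem_filter.2 ⟨hk, h3⟩)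
        exact (hA k hk h2).le
    refine h1.trans (((𝒞 j).mass_exists_le (𝒞 j).w _ _ (𝒞 j).w0).trans ?_)
    have h2 : ∀ a ∈ (Finset.univ : Finset (Fin (W.card + 1) × (Finset ι × (ι → Fin 3)))),
        (𝒞 j).mass (𝒞 j).w (fun v => ¬ ArchCharged 𝒰 𝒞 W a.2.1 a.2.2 ∧
          (𝒞 j).ATyp W a.2.1 a.2.2 (e a.1) (e (a.1 + 1)) v) ≤ μ := by
      intro a _
      by_cases ha : ArchCharged 𝒰 𝒞 W a.2.1 a.2.2
      · have h3 : (𝒞 j).mass (𝒞 j).w (fun v => ¬ ArchCharged 𝒰 𝒞 W a.2.1 a.2.2 ∧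
            (𝒞 j).ATyp W a.2.1 a.2.2 (e a.1) (e (a.1 + 1)) v) = 0 := by
          unfold Cfg.mass
          refine Finset.sum_eq_zero fun v _ => ?_
          rw [if_neg]
          rintro ⟨h4, _⟩
          exact h4 ha
        rw [h3]
        exact hμ.le
      · refine le_trans ((𝒞 j).mass_mono _ _ _ (𝒞 j).w0 ?_) (hj a.1 a.2 ha).le
        exact fun v hv => hv.2
    refine (Finset.sum_le_sum h2).trans (le_of_eq ?_)
    rw [Finset.sum_const, Finset.card_univ, Fintype.card_prod, Fintype.card_fin, nsmul_eq_mul,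
      hμdef]
    push_cast
    field_simp
  have htot := (𝒞 j).mass_not (𝒞 j).w (fun v => ∃ (S : Finset ι) (c : ι → Fin 3), S ⊆ W ∧
      ArchCharged 𝒰 𝒞 W S c ∧ (∀ k ∈ S, (𝒞 j).c v k = c k) ∧
        ∀ k ∈ W, k ∉ S → (𝒞 j).A v k ≤ δ₀ * (𝒞 j).w v)
  rw [(𝒞 j).w1] at htot
  linarith

end Pool.Agent.LAll
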