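import Pool.Agent.LAll.ProdCoeff

set_option autoImplicit false

/-! UV13. The auxiliary polynomial (Siegel's lemma). -/

namespace Pool.Agent.LAll

open MvPolynomial

section

attribute [local instance] Matrix.seminormedAddCommGroup

private theorem siegel_aux {I Q : Type} [Fintype I] [Fintype Q] (a : Q → I → ℤ) (Y : ℝ)
    (hY : 1 ≤ Y) (ha : ∀ q i, |(a q i : ℝ)| ≤ Y) (hQ : 0 < Fintype.card Q)
    (hcard : 2 * Fintype.card Q ≤ Fintype.card I) :
    ∃ c : I → ℤ, c ≠ 0 ∧ (∀ i, |(c i : ℝ)| ≤ Fintype.card I * Y) ∧ ∀ q, ∑ i, a q i * c i = 0 := by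
  obtain ⟨c, hc, h0, hn⟩ := Int.Matrix.exists_ne_zero_int_vec_norm_le (Matrix.of a)
    (by omega) hQ
  refine ⟨c, hc, fun i => ?_, fun q => ?_⟩
  · have h1 : |(c i : ℝ)| ≤ ‖c‖ := by
      have := norm_le_pi_norm c i
      rwa [Int.norm_eq_abs] at this
    refine (h1.trans hn).trans ?_
    have hm : (0 : ℝ) < Fintype.card Q := by exact_mod_cast hQ
    have hmn : (2 : ℝ) * Fintype.card Q ≤ Fintype.card I := by exact_mod_cast hcard
    have hI1 : (1 : ℝ) ≤ Fintype.card I := by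
      have : 1 ≤ Fintype.card I := by omega
      exact_mod_cast this
    have hA : ‖(Matrix.of a : Matrix Q I ℤ)‖ ≤ Y := by
      rw [Matrix.norm_le_iff (by linarith)]
      intro q i
      rw [Matrix.of_apply, Int.norm_eq_abs]
      exact ha q i
    have hmax : max 1 ‖(Matrix.of a : Matrix Q I ℤ)‖ ≤ Y := max_le hY hA
    have hbase : 1 ≤ (Fintype.card I : ℝ) * max 1 ‖(Matrix.of a : Matrix Q I ℤ)‖ := by
      have h2 : (1 : ℝ) ≤ max 1 ‖(Matrix.of a : Matrix Q I ℤ)‖ := le_max_left _ _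
      nlinarith
    have hexp : (Fintype.card Q : ℝ) / (Fintype.card I - Fintype.card Q) ≤ 1 := by
      rw [div_le_one (by linarith)]
      linarith
    calc ((Fintype.card I : ℝ) * max 1 ‖(Matrix.of a : Matrix Q I ℤ)‖) ^
          ((Fintype.card Q : ℝ) / (Fintype.card I - Fintype.card Q))
        ≤ ((Fintype.card I : ℝ) * max 1 ‖(Matrix.of a : Matrix Q I ℤ)‖) ^ (1 : ℝ) :=
          Real.rpow_le_rpow_of_exponent_le hbase hexp
      _ = (Fintype.card I : ℝ) * max 1 ‖(Matrix.of a : Matrix Q I ℤ)‖ := Real.rpow_one _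
      _ ≤ (Fintype.card I : ℝ) * Y := mul_le_mul_of_nonneg_left hmax (by linarith)
  · have h1 := congrFun h0 q
    simpa [Matrix.mulVec, dotProduct] using h1

end

/-- Siegel's lemma: at least twice as many unknowns as equations
(`Int.Matrix.exists_ne_zero_int_vec_norm_le`; the exponent `m / (n - m)` is at most `1`; if there is no
equation take a unit vector). -/
theorem siegel {I Q : Type} [Fintype I] [Fintype Q] [Nonempty I] (a : Q → I → ℤ) (Y : ℝ)
    (hY : 1 ≤ Y) (ha : ∀ q i, |(a q i : ℝ)| ≤ Y) (hcard : 2 * Fintype.card Q ≤ Fintype.card I) :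
    ∃ c : I → ℤ, c ≠ 0 ∧ (∀ i, |(c i : ℝ)| ≤ Fintype.card I * Y) ∧ ∀ q, ∑ i, a q i * c i = 0 := by
  rcases Nat.eq_zero_or_pos (Fintype.card Q) with hQ | hQ
  · have hE : IsEmpty Q := Fintype.card_eq_zero_iff.1 hQ
    have hI : (1 : ℝ) ≤ Fintype.card I := by
      have : 1 ≤ Fintype.card I := Fintype.card_pos
      exact_mod_cast this
    refine ⟨fun _ => 1, ?_, fun i => ?_, fun q => (hE.false q).elim⟩
    · intro h
      have := congrFun h (Classical.arbitrary I)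
      simp at this
    · simp only [Int.cast_one, abs_one]
      nlinarith
  · exact siegel_aux a Y hY ha hQ hcard

variable {W : Type} [Fintype W] [DecidableEq W]

private theorem abs_round_le (y : ℝ) : |(round y : ℝ)| ≤ |y| + 1 / 2 := by
  have h1 := abs_sub_round y
  have h2 : (round y : ℝ) = y - (y - round y) := by ring
  rw [h2]
  exact (abs_sub _ _).trans (by linarith)

private theorem round_sum_le {κ B R m : ℕ} (hm : 1 ≤ m) (x : Fin κ → ℝ) (hx : ∀ j, |x j| ≤ R)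
    (e : Fin κ → ℕ) (he : ∀ j, e j ≤ B) :
    |∑ j, (e j : ℝ) * (round ((m : ℝ) * x j) : ℝ)| ≤ (B * κ * (R + 1) * m : ℕ) := by
  have hm1 : (1 : ℝ) ≤ m := by exact_mod_cast hm
  calc |∑ j, (e j : ℝ) * (round ((m : ℝ) * x j) : ℝ)|
      ≤ ∑ j, |(e j : ℝ) * (round ((m : ℝ) * x j) : ℝ)| := Finset.abs_sum_le_sum_abs _ _
    _ ≤ ∑ _j : Fin κ, (B : ℝ) * ((R + 1) * m) := by
        refine Finset.sum_le_sum fun j _ => ?_
        rw [abs_mul, abs_of_nonneg (Nat.cast_nonneg (e j))]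
        have h1 : (e j : ℝ) ≤ B := by exact_mod_cast he j
        have h2 := abs_round_le ((m : ℝ) * x j)
        have hm0 : |(m : ℝ)| = m := abs_of_nonneg (Nat.cast_nonneg m)
        rw [abs_mul, hm0] at h2
        have h3 : (m : ℝ) * |x j| ≤ m * R := mul_le_mul_of_nonneg_left (hx j) (by linarith)
        refine mul_le_mul h1 ?_ (abs_nonneg _) (Nat.cast_nonneg B)
        nlinarith
    _ = (B * κ * (R + 1) * m : ℕ) := by
        rw [Finset.sum_const, Finset.card_univ, Fintype.card_fin, nsmul_eq_mul]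
        push_cast
        ring

private theorem exists_nat (z : ℤ) (x : ℝ) (h : (z : ℝ) = x) (h0 : 0 ≤ x) :
    ∃ p : ℕ, (p : ℝ) = x := by
  have hz : 0 ≤ z := by
    have : (0 : ℝ) ≤ z := by rw [h]; exact h0
    exact_mod_cast this
  obtain ⟨p, hp⟩ := Int.eq_ofNat_of_zero_le hz
  refine ⟨p, ?_⟩
  rw [← h, hp]
  simp

omit [Fintype W] [DecidableEq W] in
/-- the shifted order vectors determine the index -/
private theorem index_inj {κ B : ℕ} (o : Fin κ → W → ℝ)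
    (hsep : ∀ e : Fin κ → ℤ, e ≠ 0 → ∃ k, 2 ≤ |∑ j, (e j : ℝ) * o j k|)
    (n : W → ℕ) (hn : ∀ k, κ * B + 1 ≤ n k) (a b : (Fin κ → Fin B) × (∀ k, Fin (n k)))
    (h : ∀ k, ∑ j, ((a.1 j : ℕ) : ℝ) * (round ((n k : ℝ) * o j k) : ℝ) + ((a.2 k : ℕ) : ℝ) =
      ∑ j, ((b.1 j : ℕ) : ℝ) * (round ((n k : ℝ) * o j k) : ℝ) + ((b.2 k : ℕ) : ℝ)) : a = b := by
  have h1 : a.1 = b.1 := by
    by_contra hne
    obtain ⟨k, hk⟩ := hsep (fun j => ((a.1 j : ℕ) : ℤ) - ((b.1 j : ℕ) : ℤ)) (by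
      intro h0
      apply hne
      funext j
      have := congrFun h0 j
      simp only [Pi.zero_apply] at this
      exact Fin.ext (by omega))
    have hd : ∀ j, |(((a.1 j : ℕ) : ℝ) - ((b.1 j : ℕ) : ℝ))| ≤ B := by
      intro j
      have e1 : ((a.1 j : ℕ) : ℝ) ≤ B := by exact_mod_cast (a.1 j).2.le
      have e2 : ((b.1 j : ℕ) : ℝ) ≤ B := by exact_mod_cast (b.1 j).2.le
      have e3 : (0 : ℝ) ≤ ((a.1 j : ℕ) : ℝ) := Nat.cast_nonneg _
      have e4 : (0 : ℝ) ≤ ((b.1 j : ℕ) : ℝ) := Nat.cast_nonneg _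
      rw [abs_le]
      constructor <;> linarith
    have hnk : ((κ * B + 1 : ℕ) : ℝ) ≤ n k := by exact_mod_cast hn k
    push_cast at hnk
    have hnk0 : (0 : ℝ) ≤ n k := Nat.cast_nonneg _
    -- the rounding error
    have herr : |(n k : ℝ) * ∑ j, (((a.1 j : ℕ) : ℝ) - ((b.1 j : ℕ) : ℝ)) * o j k -
        ∑ j, (((a.1 j : ℕ) : ℝ) - ((b.1 j : ℕ) : ℝ)) * (round ((n k : ℝ) * o j k) : ℝ)| ≤
        κ * (B * (1 / 2)) := by
      rw [Finset.mul_sum, ← Finset.sum_sub_distrib]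
      refine (Finset.abs_sum_le_sum_abs _ _).trans ?_
      calc _ ≤ ∑ _j : Fin κ, (B : ℝ) * (1 / 2) := by
            refine Finset.sum_le_sum fun j _ => ?_
            have e1 : (n k : ℝ) * ((((a.1 j : ℕ) : ℝ) - ((b.1 j : ℕ) : ℝ)) * o j k) -
                (((a.1 j : ℕ) : ℝ) - ((b.1 j : ℕ) : ℝ)) * (round ((n k : ℝ) * o j k) : ℝ) =
                (((a.1 j : ℕ) : ℝ) - ((b.1 j : ℕ) : ℝ)) *
                  ((n k : ℝ) * o j k - round ((n k : ℝ) * o j k)) := by ring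
            rw [e1, abs_mul]
            exact mul_le_mul (hd j) (abs_sub_round _) (abs_nonneg _) (Nat.cast_nonneg B)
        _ = κ * (B * (1 / 2)) := by
            rw [Finset.sum_const, Finset.card_univ, Fintype.card_fin, nsmul_eq_mul]
    have hsum : ∑ j, (((a.1 j : ℕ) : ℝ) - ((b.1 j : ℕ) : ℝ)) *
        (round ((n k : ℝ) * o j k) : ℝ) = ((b.2 k : ℕ) : ℝ) - ((a.2 k : ℕ) : ℝ) := by
      simp only [sub_mul, Finset.sum_sub_distrib]
      linarith [h k]
    rw [hsum] at herr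
    have hi : |((b.2 k : ℕ) : ℝ) - ((a.2 k : ℕ) : ℝ)| ≤ n k := by
      have e1 : ((a.2 k : ℕ) : ℝ) ≤ n k := by exact_mod_cast (a.2 k).2.le
      have e2 : ((b.2 k : ℕ) : ℝ) ≤ n k := by exact_mod_cast (b.2 k).2.le
      have e3 : (0 : ℝ) ≤ ((a.2 k : ℕ) : ℝ) := Nat.cast_nonneg _
      have e4 : (0 : ℝ) ≤ ((b.2 k : ℕ) : ℝ) := Nat.cast_nonneg _
      rw [abs_le]
      constructor <;> linarith
    have hk' : 2 ≤ |∑ j, (((a.1 j : ℕ) : ℝ) - ((b.1 j : ℕ) : ℝ)) * o j k| := by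
      simpa using hk
    have hmul : 2 * (n k : ℝ) ≤
        |(n k : ℝ) * ∑ j, (((a.1 j : ℕ) : ℝ) - ((b.1 j : ℕ) : ℝ)) * o j k| := by
      rw [abs_mul, abs_of_nonneg hnk0]
      nlinarith
    have htri := abs_sub_abs_le_abs_sub
      ((n k : ℝ) * ∑ j, (((a.1 j : ℕ) : ℝ) - ((b.1 j : ℕ) : ℝ)) * o j k)
      (((b.2 k : ℕ) : ℝ) - ((a.2 k : ℕ) : ℝ))
    have hκB : (0 : ℝ) ≤ (κ : ℝ) * B := by positivity
    linarith
  refine Prod.ext h1 (funext fun k => Fin.ext ?_)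
  have h2 := h k
  rw [h1] at h2
  have h3 : ((a.2 k : ℕ) : ℝ) = ((b.2 k : ℕ) : ℝ) := by linarith
  exact_mod_cast h3

omit [DecidableEq W] in
private theorem card_index_le {κ B : ℕ} [Nonempty W] (n : W → ℕ) (hn : ∀ k, 1 ≤ n k) :
    ((B ^ κ * ∏ k, n k : ℕ) : ℝ) ≤ Real.exp (((κ * B : ℕ) + 1 : ℝ) * ∑ k, (n k : ℝ)) := by
  have hsum : (1 : ℝ) ≤ ∑ k, (n k : ℝ) := by
    obtain ⟨k0⟩ := ‹Nonempty W›
    calc (1 : ℝ) ≤ n k0 := by exact_mod_cast hn k0
      _ ≤ ∑ k, (n k : ℝ) :=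
        Finset.single_le_sum (f := fun k => (n k : ℝ)) (fun k _ => Nat.cast_nonneg _)
          (Finset.mem_univ k0)
  have hle : ∀ m : ℕ, (m : ℝ) ≤ Real.exp m := fun m => by
    have := Real.add_one_le_exp (m : ℝ)
    linarith
  have h1 : ((B ^ κ : ℕ) : ℝ) ≤ Real.exp (((κ * B : ℕ) : ℝ) * ∑ k, (n k : ℝ)) := by
    calc ((B ^ κ : ℕ) : ℝ) = (B : ℝ) ^ κ := by push_cast; ring
      _ ≤ Real.exp B ^ κ := pow_le_pow_left₀ (Nat.cast_nonneg _) (hle B) κ
      _ = Real.exp ((κ * B : ℕ) : ℝ) := by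
          rw [← Real.exp_nat_mul]
          push_cast
          ring_nf
      _ ≤ _ := by
          refine Real.exp_le_exp.2 ?_
          have h0 : (0 : ℝ) ≤ ((κ * B : ℕ) : ℝ) := Nat.cast_nonneg _
          nlinarith
  have h2 : ((∏ k, n k : ℕ) : ℝ) ≤ Real.exp (∑ k, (n k : ℝ)) := by
    rw [Real.exp_sum]
    push_cast
    exact Finset.prod_le_prod (fun k _ => Nat.cast_nonneg _) fun k _ => hle (n k)
  rw [Nat.cast_mul, add_mul, one_mul, Real.exp_add]
  exact mul_le_mul h1 h2 (Nat.cast_nonneg _) (Real.exp_pos _).le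

/-- **The auxiliary polynomial.** `S ≠ ∅` the active coordinates, `κ = |Sᶜ| + 1` exponent vectors
`α j` (exponents of `X_k`, `0` for `k ∈ S`), `β j` (exponents of `1 - X_k`) whose nonzero integral
combinations have an order coordinate of absolute value `≥ 2`.

The polynomial is `F = ∑_a c_a bin (p_a) (q_a)`, the index `a` runs over
`I = (Fin κ → Fin B) × (∀ k, Fin (n k))`, `a = (e, i)`, and
`p_a k = C₂ n_k + ∑ j, e_j round (n_k α_jk) + (0 if k ∈ S, i_k if k ∉ S)`,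
`q_a k = C₂ n_k + ∑ j, e_j round (n_k β_jk) + (i_k if k ∈ S, 0 if k ∉ S)`.

Constants: `R : ℕ` a bound of all `|α j k|`, `|β j k|`; `C₃ = κ (R + 1) + 1`;
`B = 2 Θ ^ |S| (5 C₃) ^ |Sᶜ|`; `C₂ = B κ (R + 1) + 1`; `N₀ = κ B + 1`.
(1) `|∑ j, e_j round (n_k α_jk)| ≤ κ B (R n_k + 1/2) ≤ C₂ n_k` for `n_k ≥ 1`, so the integers `p_a k`,
`q_a k` defined by `Int.toNat` are as stated, and `p_a k + q_a k ≤ (4 C₂ + 1) n_k`.
(2) The order vectors `(q_a k)_(k ∈ S), (p_a k)_(k ∉ S)` are different for different `a`: for `(e, i)` and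
`(e', i')` with `e ≠ e'` there is `k` with `2 ≤ |∑ (e_j - e'_j) o_jk|`, `o = β` or `α`, so
`|∑ (e_j - e'_j) round (n_k o_jk)| ≥ 2 n_k - κ B / 2 > n_k - 1 ≥ |i_k - i'_k|`
(`abs_sub_round`: `|x - round x| ≤ 1/2`). For `e = e'`: `i = i'`. So `bin_independent` applies, and
`F ≠ 0` if `c ≠ 0`.
(3) Equations (`siegel`): the coefficient of `X ^ m` in `F` is `0` for all `m` with
`m_k = C₂ n_k + s_k`, `s_k < Θ n_k` for `k ∈ S`, and `m_k < 5 C₃ B n_k` for `k ∉ S`:
`card Q = ∏_{k ∈ S} Θ n_k * ∏_{k ∉ S} 5 C₃ B n_k = Θ ^ |S| (5 C₃) ^ |Sᶜ| B ^ |Sᶜ| ∏ n_k`, and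
`card I = B ^ (|Sᶜ| + 1) ∏ n_k = 2 card Q`. The coefficients are bounded by `abs_coeff_bin_le`:
`Y = exp ((4 C₂ + 1) ∑ n_k)`; `card I ≤ exp (C ∑ n_k)` (`n_k ≤ exp n_k`, `B ^ κ ≤ exp (B κ n_k)`).
(4) Every `m` in the support of `F` is in `[p_a, p_a + q_a]` for some `a`
(`coeff_bin_support`), so `m_k ≥ p_a k = C₂ n_k` for `k ∈ S` (`α_jk = 0`), and
`m_k ≤ (4 B κ (R+1) + 3) n_k < 5 C₃ B n_k` for `k ∉ S`. By (3) some `k ∈ S` has
`m_k ≥ C₂ n_k + Θ n_k`. -/
theorem aux_poly (S : Finset W) (hS : S.Nonempty) {κ : ℕ} (hκ : Sᶜ.card + 1 = κ)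
    (α β : Fin κ → W → ℝ) (hα : ∀ j, ∀ k ∈ S, α j k = 0)
    (hsep : ∀ e : Fin κ → ℤ, e ≠ 0 →
      ∃ k, 2 ≤ |∑ j, (e j : ℝ) * (if k ∈ S then β j k else α j k)|)
    (Θ : ℕ) (hΘ : 1 ≤ Θ) :
    ∃ (B C₂ N₀ : ℕ) (C : ℝ), 1 ≤ B ∧ 1 ≤ C₂ ∧ 1 ≤ N₀ ∧ 1 ≤ C ∧ ∀ n : W → ℕ, (∀ k, N₀ ≤ n k) →
      ∃ (I : Type) (_ : Fintype I) (e : I → Fin κ → ℕ) (i p q : I → W → ℕ) (c : I → ℤ),
        (∀ a j, e a j ≤ B) ∧ (∀ a k, i a k ≤ n k) ∧
        (∀ a k, (p a k : ℝ) = C₂ * n k + ∑ j, (e a j : ℝ) * (round (n k * α j k) : ℝ) +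
          if k ∈ S then 0 else (i a k : ℝ)) ∧
        (∀ a k, (q a k : ℝ) = C₂ * n k + ∑ j, (e a j : ℝ) * (round (n k * β j k) : ℝ) +
          if k ∈ S then (i a k : ℝ) else 0) ∧
        (∀ a k, (p a k : ℝ) + q a k ≤ C * n k) ∧
        (Fintype.card I : ℝ) ≤ Real.exp (C * ∑ k, (n k : ℝ)) ∧
        (∀ a, |(c a : ℝ)| ≤ Real.exp (C * ∑ k, (n k : ℝ))) ∧
        (∑ a, MvPolynomial.C (c a) * bin (p a) (q a)) ≠ 0 ∧
        ∀ m : W →₀ ℕ, (∑ a, MvPolynomial.C (c a) * bin (p a) (q a)).coeff m ≠ 0 →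
          (∀ k ∈ S, C₂ * n k ≤ m k) ∧ ∃ k ∈ S, C₂ * n k + Θ * n k ≤ m k := by
  classical
  obtain ⟨k0, hk0⟩ := hS
  have : Nonempty W := ⟨k0⟩
  -- the bound of the exponents
  obtain ⟨R, hRα, hRβ⟩ : ∃ R : ℕ, (∀ j k, |α j k| ≤ R) ∧ ∀ j k, |β j k| ≤ R := by
    refine ⟨⌈∑ j, ∑ k, (|α j k| + |β j k|)⌉₊, fun j k => ?_, fun j k => ?_⟩
    all_goals
      refine le_trans ?_ (Nat.le_ceil _)
      refine le_trans ?_ (Finset.single_le_sum (f := fun j => ∑ k, (|α j k| + |β j k|))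
        (fun j _ => Finset.sum_nonneg fun k _ => add_nonneg (abs_nonneg _) (abs_nonneg _))
        (Finset.mem_univ j))
      refine le_trans ?_ (Finset.single_le_sum (f := fun k => |α j k| + |β j k|)
        (fun k _ => add_nonneg (abs_nonneg _) (abs_nonneg _)) (Finset.mem_univ k))
      first
        | exact le_add_of_nonneg_right (abs_nonneg _)
        | exact le_add_of_nonneg_left (abs_nonneg _)
  obtain ⟨C₃, hC₃⟩ : ∃ C₃ : ℕ, C₃ = κ * (R + 1) + 1 := ⟨_, rfl⟩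
  obtain ⟨B, hB⟩ : ∃ B : ℕ, B = 2 * Θ ^ S.card * (5 * C₃) ^ Sᶜ.card := ⟨_, rfl⟩
  obtain ⟨G, hG⟩ : ∃ G : ℕ, G = B * κ * (R + 1) := ⟨_, rfl⟩
  have hB1 : 1 ≤ B := by
    have h1 : 0 < Θ ^ S.card := pow_pos (by omega) _
    have h2 : 0 < (5 * C₃) ^ Sᶜ.card := pow_pos (by omega) _
    rw [hB]
    exact Nat.mul_pos (Nat.mul_pos two_pos h1) h2
  have hD : 4 * G + 3 + 1 ≤ 5 * C₃ * B := by
    rw [hG, hC₃]
    nlinarith [Nat.zero_le (B * κ * (R + 1))]
  refine ⟨B, G + 1, κ * B + 1, (4 * G + 3 : ℕ) + ((κ * B : ℕ) + 1), hB1, by omega, by omega, ?_, ?_⟩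
  · have h1 : (0 : ℝ) ≤ ((4 * G + 3 : ℕ) : ℝ) := Nat.cast_nonneg _
    have h2 : (0 : ℝ) ≤ ((κ * B : ℕ) : ℝ) := Nat.cast_nonneg _
    linarith
  intro n hn
  have hn1 : ∀ k, 1 ≤ n k := fun k => le_trans (by omega) (hn k)
  have hn1' : ∀ k, (1 : ℝ) ≤ n k := fun k => by exact_mod_cast hn1 k
  have hSum : (0 : ℝ) ≤ ∑ k, (n k : ℝ) := Finset.sum_nonneg fun k _ => Nat.cast_nonneg _
  let I : Type := (Fin κ → Fin B) × (∀ k, Fin (n k))
  have hI : Nonempty I := by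
    have : ∀ k, Nonempty (Fin (n k)) := fun k => ⟨⟨0, hn1 k⟩⟩
    have : Nonempty (Fin B) := ⟨⟨0, hB1⟩⟩
    exact inferInstanceAs (Nonempty ((Fin κ → Fin B) × (∀ k, Fin (n k))))
  let e : I → Fin κ → ℕ := fun a j => (a.1 j : ℕ)
  let i : I → W → ℕ := fun a k => (a.2 k : ℕ)
  have he : ∀ a j, e a j ≤ B := fun a j => (a.1 j).2.le
  have hi : ∀ a k, i a k ≤ n k := fun a k => (a.2 k).2.le
  have hi' : ∀ a k, (i a k : ℝ) ≤ n k := fun a k => by exact_mod_cast hi a k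
  have hi0 : ∀ a k, (0 : ℝ) ≤ i a k := fun a k => Nat.cast_nonneg _
  have hsα : ∀ a k, |∑ j, (e a j : ℝ) * (round ((n k : ℝ) * α j k) : ℝ)| ≤ (G : ℝ) * n k := by
    intro a k
    have h := round_sum_le (hn1 k) (fun j => α j k) (fun j => hRα j k) (e a) (he a)
    rw [← hG] at h
    push_cast at h
    exact h
  have hsβ : ∀ a k, |∑ j, (e a j : ℝ) * (round ((n k : ℝ) * β j k) : ℝ)| ≤ (G : ℝ) * n k := by
    intro a k
    have h := round_sum_le (hn1 k) (fun j => β j k) (fun j => hRβ j k) (e a) (he a)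
    rw [← hG] at h
    push_cast at h
    exact h
  have hp : ∀ a k, ∃ p : ℕ, (p : ℝ) = ((G + 1 : ℕ) : ℝ) * n k +
      ∑ j, (e a j : ℝ) * (round ((n k : ℝ) * α j k) : ℝ) +
        if k ∈ S then 0 else (i a k : ℝ) := by
    intro a k
    refine exists_nat (((G + 1 : ℕ) : ℤ) * n k + ∑ j, (e a j : ℤ) * round ((n k : ℝ) * α j k) +
      if k ∈ S then 0 else (i a k : ℤ)) _ ?_ ?_
    · push_cast
      rfl
    · have h1 := (abs_le.1 (hsα a k)).1
      have h2 := hn1' k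
      have h3 := hi0 a k
      push_cast
      split_ifs <;> nlinarith
  have hq : ∀ a k, ∃ q : ℕ, (q : ℝ) = ((G + 1 : ℕ) : ℝ) * n k +
      ∑ j, (e a j : ℝ) * (round ((n k : ℝ) * β j k) : ℝ) +
        if k ∈ S then (i a k : ℝ) else 0 := by
    intro a k
    refine exists_nat (((G + 1 : ℕ) : ℤ) * n k + ∑ j, (e a j : ℤ) * round ((n k : ℝ) * β j k) +
      if k ∈ S then (i a k : ℤ) else 0) _ ?_ ?_
    · push_cast
      rfl
    · have h1 := (abs_le.1 (hsβ a k)).1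
      have h2 := hn1' k
      have h3 := hi0 a k
      push_cast
      split_ifs <;> nlinarith
  choose p hp using hp
  choose q hq using hq
  have hpq : ∀ a k, (p a k : ℝ) + q a k ≤ ((4 * G + 3 : ℕ) : ℝ) * n k := by
    intro a k
    have h1 := (abs_le.1 (hsα a k)).2
    have h2 := (abs_le.1 (hsβ a k)).2
    have h3 := hn1' k
    have h4 := hi' a k
    rw [hp, hq]
    push_cast
    split_ifs <;> nlinarith
  -- independence
  have hinj : Function.Injective fun a k => if k ∈ S then q a k else p a k := by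
    intro a b hab
    refine index_inj (fun j k => if k ∈ S then β j k else α j k) hsep n hn a b fun k => ?_
    have h1 := congrFun hab k
    simp only at h1
    by_cases hk : k ∈ S
    · rw [if_pos hk, if_pos hk] at h1
      have h2 : (q a k : ℝ) = q b k := by exact_mod_cast h1
      rw [hq, hq, if_pos hk, if_pos hk] at h2
      simp only [if_pos hk]
      linarith
    · rw [if_neg hk, if_neg hk] at h1
      have h2 : (p a k : ℝ) = p b k := by exact_mod_cast h1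
      rw [hp, hp, if_neg hk, if_neg hk] at h2
      simp only [if_neg hk]
      linarith
  have hli := bin_independent S p q hinj
  -- the equations
  let bd : W → ℕ := fun k => (if k ∈ S then Θ else 5 * C₃ * B) * n k
  let mq : (∀ k, Fin (bd k)) → (W →₀ ℕ) := fun x => Finsupp.equivFunOnFinite.symm
    fun k => if k ∈ S then (G + 1) * n k + (x k : ℕ) else (x k : ℕ)
  have hcardI : Fintype.card I = B ^ κ * ∏ k, n k := by
    change Fintype.card ((Fin κ → Fin B) × (∀ k, Fin (n k))) = _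
    rw [Fintype.card_prod, Fintype.card_pi, Fintype.card_pi]
    simp only [Fintype.card_fin, Finset.prod_const, Finset.card_univ]
  have hcardQ : 2 * Fintype.card (∀ k, Fin (bd k)) ≤ Fintype.card I := by
    rw [hcardI, Fintype.card_pi]
    simp only [Fintype.card_fin, bd, Finset.prod_mul_distrib]
    have h1 : ∏ k, (if k ∈ S then Θ else 5 * C₃ * B) = Θ ^ S.card * (5 * C₃ * B) ^ Sᶜ.card := by
      rw [Finset.prod_ite, Finset.prod_const, Finset.prod_const]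
      congr 3
      · simp
      · rw [Finset.filter_not]
        congr 1
        ext k
        simp
    rw [h1, ← hκ, pow_succ, mul_pow (5 * C₃) B, ← mul_assoc]
    refine Nat.mul_le_mul_right _ (le_of_eq ?_)
    calc 2 * (Θ ^ S.card * ((5 * C₃) ^ Sᶜ.card * B ^ Sᶜ.card))
        = B ^ Sᶜ.card * (2 * Θ ^ S.card * (5 * C₃) ^ Sᶜ.card) := by ring
      _ = B ^ Sᶜ.card * B := by rw [← hB]
  have hcardI' : (Fintype.card I : ℝ) ≤ Real.exp (((κ * B : ℕ) + 1 : ℝ) * ∑ k, (n k : ℝ)) := by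
    rw [hcardI]
    exact card_index_le n hn1
  have hYexp : (1 : ℝ) ≤ Real.exp (((4 * G + 3 : ℕ) : ℝ) * ∑ k, (n k : ℝ)) :=
    Real.one_le_exp (mul_nonneg (Nat.cast_nonneg _) hSum)
  have hcoeff : ∀ (m : W →₀ ℕ) (a : I), |(((bin (p a) (q a)).coeff m : ℤ) : ℝ)| ≤
      Real.exp (((4 * G + 3 : ℕ) : ℝ) * ∑ k, (n k : ℝ)) := by
    intro m a
    refine (abs_coeff_bin_le _ _ _).trans (Real.exp_le_exp.2 ?_)
    rw [Finset.mul_sum]
    refine Finset.sum_le_sum fun k _ => ?_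
    have h1 := hpq a k
    have h2 : (0 : ℝ) ≤ p a k := Nat.cast_nonneg _
    linarith
  obtain ⟨c, hc0, hcb, hc⟩ := siegel (fun x a => (bin (p a) (q a)).coeff (mq x))
    (Real.exp (((4 * G + 3 : ℕ) : ℝ) * ∑ k, (n k : ℝ))) hYexp (fun x a => hcoeff _ a) hcardQ
  have hF : (∑ a, MvPolynomial.C (c a) * bin (p a) (q a)) = ∑ a, c a • bin (p a) (q a) :=
    Finset.sum_congr rfl fun a _ => (MvPolynomial.smul_eq_C_mul _ _).symm
  have hFc : ∀ m : W →₀ ℕ, (∑ a, MvPolynomial.C (c a) * bin (p a) (q a)).coeff m =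
      ∑ a, c a * (bin (p a) (q a)).coeff m := by
    intro m
    rw [coeff_sum]
    exact Finset.sum_congr rfl fun a _ => coeff_C_mul _ _ _
  refine ⟨I, inferInstance, e, i, p, q, c, he, hi, hp, hq, ?_, ?_, ?_, ?_, ?_⟩
  · intro a k
    refine (hpq a k).trans (mul_le_mul_of_nonneg_right ?_ (Nat.cast_nonneg _))
    have h2 : (0 : ℝ) ≤ ((κ * B : ℕ) : ℝ) := Nat.cast_nonneg _
    linarith
  · refine hcardI'.trans (Real.exp_le_exp.2 (mul_le_mul_of_nonneg_right ?_ hSum))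
    have h2 : (0 : ℝ) ≤ ((4 * G + 3 : ℕ) : ℝ) := Nat.cast_nonneg _
    linarith
  · intro a
    refine (hcb a).trans ?_
    rw [add_mul, Real.exp_add, mul_comm (Real.exp _)]
    exact mul_le_mul_of_nonneg_right hcardI' (Real.exp_pos _).le
  · rw [hF]
    intro h0
    exact hc0 (funext fun a => (Fintype.linearIndependent_iff.1 hli c h0 a))
  · intro m hm
    rw [hFc] at hm
    obtain ⟨a, -, ha⟩ := Finset.exists_ne_zero_of_sum_ne_zero hm
    have hbin : (bin (p a) (q a)).coeff m ≠ 0 := right_ne_zero_of_mul ha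
    have hsupp := coeff_bin_support _ _ m hbin
    have hpS : ∀ k ∈ S, p a k = (G + 1) * n k := by
      intro k hk
      have h1 := hp a k
      rw [if_pos hk] at h1
      have h2 : ∑ j, (e a j : ℝ) * (round ((n k : ℝ) * α j k) : ℝ) = 0 := by
        refine Finset.sum_eq_zero fun j _ => ?_
        rw [hα j k hk, mul_zero, round_zero, Int.cast_zero, mul_zero]
      rw [h2] at h1
      have h3 : (p a k : ℝ) = ((G + 1) * n k : ℕ) := by
        rw [h1]
        push_cast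
        ring
      exact_mod_cast h3
    refine ⟨fun k hk => ?_, ?_⟩
    · rw [← hpS k hk]
      exact (hsupp k).1
    · by_contra hcon
      push Not at hcon
      apply hm
      have hlt : ∀ k, (if k ∈ S then m k - (G + 1) * n k else m k) < bd k := by
        intro k
        by_cases hk : k ∈ S
        · have h1 := hcon k hk
          have h2 : (G + 1) * n k ≤ m k := by
            rw [← hpS k hk]
            exact (hsupp k).1
          simp only [bd, if_pos hk]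
          omega
        · have h1 : (m k : ℝ) ≤ ((4 * G + 3 : ℕ) : ℝ) * n k := by
            refine le_trans ?_ (hpq a k)
            exact_mod_cast (hsupp k).2
          have h2 : m k ≤ (4 * G + 3) * n k := by exact_mod_cast h1
          have h3 : (4 * G + 3) * n k < 5 * C₃ * B * n k :=
            Nat.mul_lt_mul_of_pos_right (by omega) (hn1 k)
          simp only [bd, if_neg hk]
          omega
      have hmq : mq (fun k => ⟨_, hlt k⟩) = m := by
        ext k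
        simp only [mq, Finsupp.equivFunOnFinite_symm_apply_apply]
        by_cases hk : k ∈ S
        · have h2 : (G + 1) * n k ≤ m k := by
            rw [← hpS k hk]
            exact (hsupp k).1
          simp only [if_pos hk]
          omega
        · simp only [if_neg hk]
      have h1 := hc fun k => ⟨_, hlt k⟩
      simp only [hmq] at h1
      rw [← h1]
      exact Finset.sum_congr rfl fun a _ => mul_comm _ _

end Pool.Agent.LAll
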