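import Pool.Agent.LAll.PtCfg

set_option autoImplicit false

/-! UV25. Values of integral polynomials in the bounded coordinates. -/

namespace Pool.Agent.LAll

open NumberField Height Real Module Filter Topology

/-- The polynomial with coefficients `c n`, in the variables `k ∈ B`. -/
noncomputable def polyB {ι : Type} [DecidableEq ι] (B : Finset ι) {N : ℕ}
    (c : ({k // k ∈ B} → Fin (N + 1)) → ℤ) : MvPolynomial ι ℤ :=
  ∑ n, MvPolynomial.C (c n) * ∏ k : {k // k ∈ B}, MvPolynomial.X (k : ι) ^ (n k : ℕ)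

/-- The exponent of the monomial `n`. -/
private noncomputable def expB {ι : Type} (B : Finset ι) {N : ℕ}
    (n : {k // k ∈ B} → Fin (N + 1)) : ι →₀ ℕ :=
  ∑ k : {k // k ∈ B}, Finsupp.single (k : ι) (n k : ℕ)

private theorem expB_apply {ι : Type} (B : Finset ι) {N : ℕ}
    (n : {k // k ∈ B} → Fin (N + 1)) (k : {k // k ∈ B}) : expB B n (k : ι) = (n k : ℕ) := by
  classical
  unfold expB
  rw [Finsupp.finsetSum_apply, Finset.sum_eq_single k]
  · rw [Finsupp.single_eq_same]
  · intro l _ hl
    rw [Finsupp.single_apply, if_neg]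
    exact fun h => hl (Subtype.ext h)
  · intro h
    exact absurd (Finset.mem_univ k) h

private theorem expB_inj {ι : Type} (B : Finset ι) {N : ℕ} {n m : {k // k ∈ B} → Fin (N + 1)}
    (h : expB B n = expB B m) : n = m := by
  funext k
  apply Fin.ext
  rw [← expB_apply B n k, ← expB_apply B m k, h]

private theorem polyB_eq {ι : Type} [DecidableEq ι] (B : Finset ι) {N : ℕ}
    (c : ({k // k ∈ B} → Fin (N + 1)) → ℤ) :
    polyB B c = ∑ n, MvPolynomial.monomial (expB B n) (c n) := by
  unfold polyB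
  refine Finset.sum_congr rfl fun n _ => ?_
  have h : (∏ k : {k // k ∈ B}, MvPolynomial.X (R := ℤ) (k : ι) ^ (n k : ℕ)) =
      MvPolynomial.monomial (expB B n) 1 := by
    unfold expB
    rw [MvPolynomial.monomial_sum_one]
    exact Finset.prod_congr rfl fun k _ => MvPolynomial.X_pow_eq_monomial
  rw [h, MvPolynomial.C_mul_monomial, mul_one]

/-- Different `n` give different monomials. -/
theorem polyB_ne_zero {ι : Type} [DecidableEq ι] (B : Finset ι) {N : ℕ}
    (c : ({k // k ∈ B} → Fin (N + 1)) → ℤ) (hc : c ≠ 0) : polyB B c ≠ 0 := by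
  classical
  intro h0
  apply hc
  funext m
  have h1 : MvPolynomial.coeff (expB B m) (polyB B c) = c m := by
    rw [polyB_eq, MvPolynomial.coeff_sum, Finset.sum_eq_single m]
    · rw [MvPolynomial.coeff_monomial, if_pos rfl]
    · intro n _ hn
      rw [MvPolynomial.coeff_monomial, if_neg]
      exact fun h => hn (expB_inj B h)
    · intro h
      exact absurd (Finset.mem_univ m) h
  rw [h0, MvPolynomial.coeff_zero] at h1
  exact h1.symm

theorem aeval_polyB {ι : Type} [DecidableEq ι] (B : Finset ι) {N : ℕ}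
    (c : ({k // k ∈ B} → Fin (N + 1)) → ℤ) {F : Type} [Field F] (x : ι → F) :
    MvPolynomial.aeval x (polyB B c) =
      ∑ n, (c n : F) * ∏ k : {k // k ∈ B}, x k ^ (n k : ℕ) := by
  unfold polyB
  rw [map_sum]
  refine Finset.sum_congr rfl fun n _ => ?_
  rw [map_mul, map_prod, MvPolynomial.aeval_C]
  congr 1
  refine Finset.prod_congr rfl fun k _ => ?_
  rw [map_pow, MvPolynomial.aeval_X]

/-- **One point.** If the value `y` of the polynomial is not zero and at places of weight at least `1/2`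
its logarithm is at most `- G N w v`, then `G ≤ 2 (1 + b + ∑_{k ∈ B} H k)`.

Proof. `0 ≤ ∑ lam v y` (`sum_lam_nonneg`, `IntOff`), and for all `v`
`lam v y ≤ (if good then - G N w v else 0) + N ∑_{k ∈ B} max (lam v x_k) 0 + w v (N + b N)`
(`lam_sum_le` with `M = (N + 1) ^ b`, `log M ≤ b N`, `lam_int_le`, `log |c n| ≤ N`); `sum_max_lam`,
`sum_wt`; divide by `N ≥ 1`. -/
theorem value_bound {ι : Type} [Fintype ι] [DecidableEq ι] (P : Pt ι) (B : Finset ι) (N : ℕ)
    (hN : 1 ≤ N) (c : ({k // k ∈ B} → Fin (N + 1)) → ℤ) (hc : ∀ n, |(c n : ℝ)| ≤ exp N)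
    (G : ℝ) (hG : 0 ≤ G) (hne : MvPolynomial.aeval P.x (polyB B c) ≠ 0)
    (hm : 1 / 2 ≤ (P.cfg B).mass (P.cfg B).w (fun v =>
      lam (K := P.K) (S := P.S) v (MvPolynomial.aeval P.x (polyB B c)) ≤
        -G * N * wt (K := P.K) (S := P.S) v)) :
    G ≤ 2 * (1 + B.card + ∑ k ∈ B, P.H k) := by
  classical
  have hN0 : (0 : ℝ) < N := by exact_mod_cast hN
  obtain ⟨y, hy⟩ : ∃ y : P.K, y = MvPolynomial.aeval P.x (polyB B c) := ⟨_, rfl⟩
  rw [← hy] at hne hm
  have hyd := hy
  rw [aeval_polyB] at hyd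
  -- the general upper bound
  have hlogM : log (((N + 1 : ℕ) : ℝ) ^ B.card) ≤ B.card * N := by
    rw [log_pow]
    refine mul_le_mul_of_nonneg_left ?_ (Nat.cast_nonneg _)
    have h1 : (0 : ℝ) < ((N + 1 : ℕ) : ℝ) := by positivity
    have h2 := log_le_sub_one_of_pos h1
    push_cast at h2 ⊢
    linarith
  have hup : ∀ v : Plc P.K P.S, lam v y ≤
      N * ∑ k ∈ B, max (lam v (P.x k)) 0 + wt v * (N + B.card * N) := by
    intro v
    have hw := wt_nonneg v
    have h1 : lam v (∑ n : {k // k ∈ B} → Fin (N + 1), (c n : P.K) *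
        ∏ k : {k // k ∈ B}, P.x k ^ (n k : ℕ)) ≤
        (wt v * N + N * ∑ k ∈ B, max (lam v (P.x k)) 0) +
          wt v * log (((N + 1 : ℕ) : ℝ) ^ B.card) := by
      refine lam_sum_le v Finset.univ _ _ _ ?_ ?_ ?_
      · rw [Finset.card_univ, Fintype.card_fun, Fintype.card_fin, Fintype.card_coe]
        push_cast
        exact le_rfl
      · intro n _ hn0
        have hc0 : (c n : P.K) ≠ 0 := left_ne_zero_of_mul hn0
        have hp0 := right_ne_zero_of_mul hn0
        have hcz : c n ≠ 0 := fun h => hc0 (by rw [h, Int.cast_zero])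
        rw [lam_mul v hc0 hp0, lam_prod v _ _ fun k _ => pow_ne_zero _ (P.ne0 _)]
        refine add_le_add ?_ ?_
        · refine (lam_int_le v (c n) hcz).trans (mul_le_mul_of_nonneg_left ?_ hw)
          have h2 : (0 : ℝ) < |(c n : ℝ)| := abs_pos.2 (by exact_mod_cast hcz)
          rw [log_le_iff_le_exp h2]
          exact hc n
        · rw [Finset.mul_sum, ← Finset.sum_coe_sort B]
          refine Finset.sum_le_sum fun k _ => ?_
          rw [lam_pow]
          have h3 : ((n k : ℕ) : ℝ) ≤ N := by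
            have := (n k).is_lt
            exact_mod_cast Nat.lt_succ_iff.1 this
          have h4 : (0 : ℝ) ≤ ((n k : ℕ) : ℝ) := Nat.cast_nonneg _
          calc ((n k : ℕ) : ℝ) * lam v (P.x k) ≤ ((n k : ℕ) : ℝ) * max (lam v (P.x k)) 0 :=
                mul_le_mul_of_nonneg_left (le_max_left _ _) h4
            _ ≤ N * max (lam v (P.x k)) 0 :=
                mul_le_mul_of_nonneg_right h3 (le_max_right _ _)
      · rw [← hyd]
        exact hne
    rw [← hyd] at h1
    have h5 := mul_le_mul_of_nonneg_left hlogM hw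
    linarith
  have hint : IntOff P.S y := by
    rw [hyd]
    refine IntOff.sum _ _ fun n _ => (intOff_int (c n)).mul ?_
    exact IntOff.prod _ _ fun k _ => (off_iff_intOff (P.off0 k)).pow _
  have h0 := sum_lam_nonneg hne hint
  -- the mass
  have hmass : (P.cfg B).mass (P.cfg B).w (fun v =>
      lam (K := P.K) (S := P.S) v y ≤ -G * N * wt (K := P.K) (S := P.S) v) =
      ∑ v : Plc P.K P.S, if lam v y ≤ -G * N * wt v then wt v else 0 := by
    unfold Cfg.mass
    refine Finset.sum_congr rfl fun v _ => ?_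
    by_cases h : lam (K := P.K) (S := P.S) v y ≤ -G * N * wt (K := P.K) (S := P.S) v
    · rw [if_pos h, if_pos h]
      rfl
    · rw [if_neg h, if_neg h]
  rw [hmass] at hm
  have hall : ∀ v : Plc P.K P.S, lam v y ≤
      -(G * N) * (if lam v y ≤ -G * N * wt v then wt v else 0) +
        (N * ∑ k ∈ B, max (lam v (P.x k)) 0 + wt v * (N + B.card * N)) := by
    intro v
    have hw := wt_nonneg v
    have hs : 0 ≤ ∑ k ∈ B, max (lam v (P.x k)) 0 :=
      Finset.sum_nonneg fun k _ => le_max_right _ _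
    have ht : 0 ≤ (N : ℝ) * ∑ k ∈ B, max (lam v (P.x k)) 0 + wt v * (N + B.card * N) := by
      positivity
    by_cases h : lam v y ≤ -G * N * wt v
    · rw [if_pos h]
      have h6 : -(G * N) * wt v = -G * N * wt v := by ring
      rw [h6]
      linarith
    · rw [if_neg h, mul_zero, zero_add]
      exact hup v
  have hsum := Finset.sum_le_sum fun v (_ : v ∈ (Finset.univ : Finset (Plc P.K P.S))) => hall v
  rw [Finset.sum_add_distrib, Finset.sum_add_distrib, ← Finset.mul_sum, ← Finset.mul_sum,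
    ← Finset.sum_mul, sum_wt, one_mul, Finset.sum_comm] at hsum
  have hH : ∑ k ∈ B, ∑ v : Plc P.K P.S, max (lam v (P.x k)) 0 = ∑ k ∈ B, P.H k :=
    Finset.sum_congr rfl fun k _ => sum_max_lam (P.ne0 k) (off_iff_intOff (P.off0 k))
  rw [hH] at hsum
  have h7 : G * N * (1 / 2) ≤
      G * N * ∑ v : Plc P.K P.S, (if lam v y ≤ -G * N * wt v then wt v else 0) :=
    mul_le_mul_of_nonneg_left hm (by positivity)
  have h8 : G * N ≤ 2 * (1 + B.card + ∑ k ∈ B, P.H k) * N := by nlinarith
  exact le_of_mul_le_mul_right h8 hN0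

end Pool.Agent.LAll
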