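import Pool.Agent.LAll.SmallCoefD
import Pool.Agent.LThree.Pw
import Pool.Agent.LThree.Tri

set_option autoImplicit false

/-! UV24. Integer polynomials in `b` variables which are tiny near finitely many subspaces (in
logarithmic coordinates). The case `b = 2` is `Pool/Agent/LThree/SmallPoly.lean`. -/

namespace Pool.Agent.LAll

open Real Module

/-- **Parametrisation of the bounded part of a subspace** of dimension `≤ d`: a basis of `A`, padded
by zeros to `d` vectors, scaled by a constant (the coordinates of `y ∈ A` are bounded by `C ‖y‖`,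
finite dimension). -/
theorem param {F : Type} [NormedAddCommGroup F] [NormedSpace ℝ F] [FiniteDimensional ℝ F]
    (A : Submodule ℝ F) (d : ℕ) (hd : finrank ℝ A ≤ d) (U : ℝ) :
    ∃ u : Fin d → F, (∀ l, u l ∈ A) ∧ ∀ y ∈ A, ‖y‖ ≤ U →
      ∃ t : Fin d → ℝ, (∀ l, |t l| ≤ 1) ∧ y = ∑ l, t l • u l := by
  classical
  let b := Module.finBasis ℝ A
  let f : A →L[ℝ] (Fin (finrank ℝ A) → ℝ) := LinearMap.toContinuousLinearMap
    (b.equivFun : A →ₗ[ℝ] (Fin (finrank ℝ A) → ℝ))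
  have hf : ∀ (y : A) i, |b.repr y i| ≤ ‖f‖ * ‖y‖ := by
    intro y i
    have h1 : b.repr y i = f y i := rfl
    rw [h1]
    exact (norm_le_pi_norm (f y) i).trans (f.le_opNorm y)
  obtain ⟨K, hK⟩ : ∃ K : ℝ, K = ‖f‖ * |U| + 1 := ⟨_, rfl⟩
  have hK0 : 0 < K := by
    rw [hK]
    positivity
  have hinj : Function.Injective (Fin.castLE hd) := Fin.castLE_injective hd
  refine ⟨Function.extend (Fin.castLE hd) (fun i => K • (b i : F)) 0, ?_, ?_⟩
  · intro l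
    by_cases hl : ∃ i, Fin.castLE hd i = l
    · obtain ⟨i, rfl⟩ := hl
      rw [hinj.extend_apply]
      exact A.smul_mem _ (b i).2
    · rw [Function.extend_apply' _ _ _ hl]
      exact A.zero_mem
  · intro y hy hyU
    refine ⟨Function.extend (Fin.castLE hd) (fun i => b.repr ⟨y, hy⟩ i / K) 0, ?_, ?_⟩
    · intro l
      by_cases hl : ∃ i, Fin.castLE hd i = l
      · obtain ⟨i, rfl⟩ := hl
        rw [hinj.extend_apply, abs_div, abs_of_pos hK0, div_le_one hK0, hK]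
        refine (hf _ i).trans ?_
        have h1 : ‖(⟨y, hy⟩ : A)‖ ≤ |U| := by
          exact hyU.trans (le_abs_self U)
        have h2 := mul_le_mul_of_nonneg_left h1 (norm_nonneg f)
        linarith
      · rw [Function.extend_apply' _ _ _ hl]
        simp
    · have h1 : y = ∑ i, b.repr ⟨y, hy⟩ i • (b i : F) := by
        have h2 := congrArg Subtype.val (b.sum_repr ⟨y, hy⟩)
        refine h2.symm.trans ?_
        rw [Submodule.coe_sum]
        rfl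
      conv_lhs => rw [h1]
      refine Fintype.sum_of_injective (Fin.castLE hd) hinj _ _ ?_ ?_
      · intro l hl
        rw [Function.extend_apply' _ _ _ (fun h => hl h)]
        simp
      · intro i
        rw [hinj.extend_apply, hinj.extend_apply, smul_smul, div_mul_cancel₀ _ hK0.ne']

/-- the difference of two products -/
private theorem prod_diff {ι : Type} [DecidableEq ι] (s : Finset ι) (a b : ι → ℝ) (M D : ℝ)
    (hM : 1 ≤ M) (hD : 0 ≤ D) (ha : ∀ i, |a i| ≤ M) (hb : ∀ i, |b i| ≤ M)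
    (hab : ∀ i, |a i - b i| ≤ D) :
    |∏ i ∈ s, a i| ≤ M ^ s.card ∧ |∏ i ∈ s, a i - ∏ i ∈ s, b i| ≤ s.card * D * M ^ s.card := by
  induction s using Finset.induction_on with
  | empty => simp
  | insert j s hj ih =>
    obtain ⟨h1, h2⟩ := ih
    have hM0 : 0 ≤ M := by linarith
    have hpow : 0 ≤ M ^ s.card := pow_nonneg hM0 _
    rw [Finset.prod_insert hj, Finset.prod_insert hj, Finset.card_insert_of_notMem hj]
    constructor
    · rw [abs_mul, pow_succ, mul_comm (M ^ s.card)]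
      exact mul_le_mul (ha j) h1 (abs_nonneg _) hM0
    · have e : a j * ∏ i ∈ s, a i - b j * ∏ i ∈ s, b i =
          (a j - b j) * ∏ i ∈ s, a i + b j * (∏ i ∈ s, a i - ∏ i ∈ s, b i) := by ring
      rw [e]
      refine (abs_add_le _ _).trans ?_
      rw [abs_mul, abs_mul]
      have h3 : |a j - b j| * |∏ i ∈ s, a i| ≤ D * M ^ s.card :=
        mul_le_mul (hab j) h1 (abs_nonneg _) hD
      have h4 : |b j| * |∏ i ∈ s, a i - ∏ i ∈ s, b i| ≤ M * (s.card * D * M ^ s.card) :=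
        mul_le_mul (hb j) h2 (abs_nonneg _) hM0
      have h5 : D * M ^ s.card ≤ D * M ^ (s.card + 1) :=
        mul_le_mul_of_nonneg_left (pow_le_pow_right₀ hM (Nat.le_succ _)) hD
      have h6 : ((s.card + 1 : ℕ) : ℝ) * D * M ^ (s.card + 1) =
          D * M ^ (s.card + 1) + M * (s.card * D * M ^ s.card) := by
        push_cast
        ring
      rw [h6]
      linarith

/-- one complex number with prescribed logarithms -/
private theorem one_point (V ε : ℝ) (hε : 0 ≤ ε) (hε1 : ε ≤ 1) (y0 y1 : ℝ)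
    (hy0 : |y0| ≤ V) (hy1 : |y1| ≤ V) (z : ℂ) (hz0 : z ≠ 0) (hz1 : z ≠ 1)
    (h0 : |log ‖z‖ - y0| ≤ ε) (h1 : |log ‖1 - z‖ - y1| ≤ ε) :
    ‖z‖ ≤ exp (V + 1) ∧ ∀ (N i : ℕ), i ≤ N → ∀ a : Fin 2,
      |LThree.pwc (1 + ‖z‖ ^ 2 - ‖1 - z‖ ^ 2) (‖z‖ ^ 2) i a| ≤
        (4 * (3 * exp (V + 1) ^ 2)) ^ N ∧
      |LThree.pwc (1 + exp (2 * y0) - exp (2 * y1)) (exp (2 * y0)) i a| ≤
        (4 * (3 * exp (V + 1) ^ 2)) ^ N ∧
      |LThree.pwc (1 + ‖z‖ ^ 2 - ‖1 - z‖ ^ 2) (‖z‖ ^ 2) i a -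
        LThree.pwc (1 + exp (2 * y0) - exp (2 * y1)) (exp (2 * y0)) i a| ≤
        4 * ε * exp (V + 1) ^ 2 * (4 * (3 * exp (V + 1) ^ 2)) ^ N := by
  have hV0 : 0 ≤ V := (abs_nonneg _).trans hy0
  set E : ℝ := exp (V + 1) with hE
  have hE1 : 1 ≤ E := Real.one_le_exp (by linarith)
  have hE2 : 1 ≤ E ^ 2 := one_le_pow₀ hE1
  set R : ℝ := 3 * E ^ 2 with hR
  have hR1 : 1 ≤ R := by
    rw [hR]
    linarith
  have h8 : E ^ 2 = exp (2 * (V + 1)) := by
    rw [hE, ← Real.exp_nat_mul]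
    norm_num
  -- norms
  have norms : ∀ (w : ℂ) (x : ℝ), w ≠ 0 → |x| ≤ V → |log ‖w‖ - x| ≤ ε →
      ‖w‖ ≤ E ∧ exp (2 * x) ≤ E ^ 2 ∧ |‖w‖ ^ 2 - exp (2 * x)| ≤ 2 * ε * E ^ 2 := by
    intro w x hw hx hwx
    have hpos : 0 < ‖w‖ := norm_pos_iff.2 hw
    obtain ⟨h1, h2⟩ := abs_le.1 hwx
    obtain ⟨h3, h4⟩ := abs_le.1 hx
    have h5 : ‖w‖ = exp (log ‖w‖) := (Real.exp_log hpos).symm
    have h6 : log ‖w‖ ≤ V + 1 := by linarith
    have h7 : ‖w‖ ≤ E := by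
      rw [h5, hE]
      exact Real.exp_le_exp.2 h6
    have h9 : exp (2 * x) ≤ E ^ 2 := by
      rw [h8]
      exact Real.exp_le_exp.2 (by linarith)
    refine ⟨h7, h9, ?_⟩
    have h10 : ‖w‖ ^ 2 = exp (2 * log ‖w‖) := by
      conv_lhs => rw [h5]
      rw [← Real.exp_nat_mul]
      norm_num
    -- the exponential is Lipschitz
    have lip : ∀ p q : ℝ, q ≤ p → p ≤ 2 * (V + 1) → exp p - exp q ≤ E ^ 2 * (p - q) := by
      intro p q hqp hp
      have h11 : exp q = exp p * exp (q - p) := by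
        rw [← Real.exp_add]
        congr 1
        ring
      have h12 := Real.add_one_le_exp (q - p)
      have h13 : exp p ≤ E ^ 2 := by
        rw [h8]
        exact Real.exp_le_exp.2 hp
      have h14 : 0 < exp p := Real.exp_pos p
      rw [h11]
      have h15 : exp p - exp p * exp (q - p) ≤ exp p * (p - q) := by nlinarith
      exact h15.trans (mul_le_mul_of_nonneg_right h13 (by linarith))
    rw [h10, abs_le]
    rcases le_total (2 * log ‖w‖) (2 * x) with h | h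
    · have h16 := lip _ _ h (by linarith)
      have h17 := Real.exp_le_exp.2 h
      have h18 : E ^ 2 * (2 * x - 2 * log ‖w‖) ≤ E ^ 2 * (2 * ε) :=
        mul_le_mul_of_nonneg_left (by linarith) (by linarith)
      have h19 : 0 ≤ 2 * ε * E ^ 2 := by positivity
      constructor <;> linarith
    · have h16 := lip _ _ h (by linarith)
      have h17 := Real.exp_le_exp.2 h
      have h18 : E ^ 2 * (2 * log ‖w‖ - 2 * x) ≤ E ^ 2 * (2 * ε) :=
        mul_le_mul_of_nonneg_left (by linarith) (by linarith)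
      have h19 : 0 ≤ 2 * ε * E ^ 2 := by positivity
      constructor <;> linarith
  obtain ⟨n1, n2, n3⟩ := norms z y0 hz0 hy0 h0
  obtain ⟨m1, m2, m3⟩ := norms (1 - z) y1 (sub_ne_zero.2 (Ne.symm hz1)) hy1 h1
  refine ⟨n1, fun N i hi a => ?_⟩
  have p1 : ‖z‖ ^ 2 ≤ E ^ 2 := pow_le_pow_left₀ (norm_nonneg _) n1 2
  have p2 : ‖1 - z‖ ^ 2 ≤ E ^ 2 := pow_le_pow_left₀ (norm_nonneg _) m1 2
  have q1 : 0 ≤ ‖z‖ ^ 2 := by positivity
  have q2 : 0 ≤ ‖1 - z‖ ^ 2 := by positivity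
  have q3 : 0 < exp (2 * y0) := Real.exp_pos _
  have q4 : 0 < exp (2 * y1) := Real.exp_pos _
  have bS : |1 + ‖z‖ ^ 2 - ‖1 - z‖ ^ 2| ≤ R := by
    rw [hR, abs_le]
    constructor <;> linarith
  have bQ : |‖z‖ ^ 2| ≤ R := by
    rw [hR, abs_of_nonneg q1]
    linarith
  have bS' : |1 + exp (2 * y0) - exp (2 * y1)| ≤ R := by
    rw [hR, abs_le]
    constructor <;> linarith
  have bQ' : |exp (2 * y0)| ≤ R := by
    rw [hR, abs_of_pos q3]
    linarith
  have hεE : 0 ≤ ε * E ^ 2 := by positivity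
  have dS : |(1 + ‖z‖ ^ 2 - ‖1 - z‖ ^ 2) - (1 + exp (2 * y0) - exp (2 * y1))| ≤
      4 * ε * E ^ 2 := by
    obtain ⟨r1, r2⟩ := abs_le.1 n3
    obtain ⟨r3, r4⟩ := abs_le.1 m3
    rw [abs_le]
    constructor <;> linarith
  have dQ : |‖z‖ ^ 2 - exp (2 * y0)| ≤ 4 * ε * E ^ 2 := by
    refine n3.trans ?_
    linarith
  have hmono : (2 * R) ^ i ≤ (4 * R) ^ N := by
    calc (2 * R) ^ i ≤ (4 * R) ^ i := pow_le_pow_left₀ (by linarith) (by linarith) i
      _ ≤ (4 * R) ^ N := pow_le_pow_right₀ (by linarith) hi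
  have hmono' : (4 * R) ^ i ≤ (4 * R) ^ N := pow_le_pow_right₀ (by linarith) hi
  refine ⟨(LThree.pwc_bound _ _ R hR1 bS bQ i a).trans hmono,
    (LThree.pwc_bound _ _ R hR1 bS' bQ' i a).trans hmono, ?_⟩
  refine (LThree.pwc_lip _ _ _ _ R _ hR1 bS bQ bS' bQ' dS dQ i a).trans ?_
  exact mul_le_mul_of_nonneg_left hmono' (by positivity)

/-- **Tiny integer polynomials.** Enumerate the finitely many subspaces `A ∈ 𝒜`, `u` from `param`
(`d = |β| - 1`, bound `max U 0` + 1). `small_coefD` with `G + G'`. For complex `z_i` with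
`|log ‖z_i‖ - y i 0| ≤ ε`, `|log ‖1 - z_i‖ - y i 1| ≤ ε`, `|y| ≤ U`: `z_i ^ 2 = S_i z_i - Q_i` with
`S_i = 1 + ‖z_i‖² - ‖1 - z_i‖²`, `Q_i = ‖z_i‖²` (`LThree.sq_eq`), so
`∏ z_i ^ n_i = ∑_J ∏ pwc S_i Q_i (n_i) (J_i) ∏ z_i ^ J_i` (`LThree.pow_eq_pwc`, `Finset.prod_univ_sum`),
and replacing the `pwc` by their values on the subspace costs a factor that tends to `0` with `ε` for
fixed `N` (`LThree.pwc_bound`, `LThree.pwc_lip`; product of `b` factors bounded by `(4 R) ^ N`). As in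
`LThree.small_poly`: `N` first, then `ε`. -/
theorem small_polyD {β : Type} [Fintype β] [DecidableEq β]
    (𝒜 : Finset (Submodule ℝ (β → Fin 2 → ℝ)))
    (h𝒜 : ∀ A ∈ 𝒜, finrank ℝ A + 1 ≤ Fintype.card β) (U G : ℝ) :
    ∃ N : ℕ, 1 ≤ N ∧ ∃ ε : ℝ, 0 < ε ∧ ∃ c : (β → Fin (N + 1)) → ℤ, c ≠ 0 ∧
      (∀ n, |(c n : ℝ)| ≤ exp N) ∧
      ∀ z : β → ℂ, (∀ i, z i ≠ 0) → (∀ i, z i ≠ 1) →
        (∃ A ∈ 𝒜, ∃ y ∈ A, (∀ i l, |y i l| ≤ U) ∧
          ∀ i, |log ‖z i‖ - y i 0| ≤ ε ∧ |log ‖1 - z i‖ - y i 1| ≤ ε) →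
        ‖∑ n, (c n : ℂ) * ∏ i, z i ^ (n i : ℕ)‖ ≤ exp (-G * N) := by
  rcases Nat.eq_zero_or_pos (Fintype.card β) with hb0 | hbpos
  · refine ⟨1, le_rfl, 1, one_pos, fun _ => 1, ?_, ?_, ?_⟩
    · intro h
      have := congrFun h fun _ => 0
      simp at this
    · intro _
      simp only [Int.cast_one, abs_one]
      exact Real.one_le_exp (by positivity)
    · rintro z - - ⟨A, hA, -⟩
      have := h𝒜 A hA
      omega
  obtain ⟨d, hd⟩ : ∃ d, d + 1 = Fintype.card β := ⟨Fintype.card β - 1, by omega⟩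
  obtain ⟨b, hb⟩ : ∃ b, b = Fintype.card β := ⟨_, rfl⟩
  set V : ℝ := max U 0 with hV
  have hV0 : 0 ≤ V := le_max_right _ _
  have hUV : U ≤ V := le_max_left _ _
  -- the parametrisations
  have hpar : ∀ A : 𝒜, ∃ u : Fin d → β → Fin 2 → ℝ, (∀ l, u l ∈ A.1) ∧ ∀ y ∈ A.1, ‖y‖ ≤ V →
      ∃ t : Fin d → ℝ, (∀ l, |t l| ≤ 1) ∧ y = ∑ l, t l • u l := fun A =>
    param A.1 d (by have := h𝒜 A.1 A.2; omega) V
  choose u hu1 hu2 using hpar
  set E : ℝ := exp (V + 1) with hE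
  have hE1 : 1 ≤ E := Real.one_le_exp (by linarith)
  have hE0 : 0 < E := by linarith
  have hE2 : 1 ≤ E ^ 2 := one_le_pow₀ hE1
  set R : ℝ := 3 * E ^ 2 with hR
  have hR1 : 1 ≤ R := by
    rw [hR]
    linarith
  set G' : ℝ := 1 + b + (V + 1) * b with hG'
  have hG'0 : 0 ≤ G' := by
    rw [hG']
    positivity
  obtain ⟨N0, hN0⟩ := small_coefD (β := β) 𝒜.card d hd.le
    (fun a => u (𝒜.equivFin.symm a)) (G + G')
  set N : ℕ := max N0 1 with hN
  have hN1 : 1 ≤ N := le_max_right _ _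
  have hN1R : (1 : ℝ) ≤ N := by exact_mod_cast hN1
  set M : ℝ := (4 * R) ^ N with hM
  have hM1 : 1 ≤ M := one_le_pow₀ (by linarith)
  set K : ℝ := 2 ^ b * (E ^ b * (((N : ℝ) + 1) ^ b * (exp N * (b * (4 * E ^ 2 * M) * M ^ b)))) + 1
    with hK
  have hKpos : 0 < K := by
    rw [hK]
    positivity
  set ε : ℝ := min 1 (exp (-G * N) / (2 * K)) with hε
  have hεpos : 0 < ε := lt_min one_pos (by positivity)
  have hε1 : ε ≤ 1 := min_le_left _ _
  have hεK : K * ε ≤ exp (-G * N) / 2 := by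
    have h1 : ε ≤ exp (-G * N) / (2 * K) := min_le_right _ _
    have h2 := mul_le_mul_of_nonneg_left h1 hKpos.le
    have h3 : K * (exp (-G * N) / (2 * K)) = exp (-G * N) / 2 := by
      field_simp
    rwa [h3] at h2
  obtain ⟨c, hc0, hcb, hc⟩ := hN0 N (le_max_left _ _)
  refine ⟨N, hN1, ε, hεpos, c, hc0, hcb, ?_⟩
  rintro z hz0 hz1 ⟨A, hA, y, hy, hyU, hzy⟩
  have hyV : ∀ i l, |y i l| ≤ V := fun i l => (hyU i l).trans hUV
  have hyn : ‖y‖ ≤ V := by
    rw [pi_norm_le_iff_of_nonneg hV0]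
    intro i
    rw [pi_norm_le_iff_of_nonneg hV0]
    intro l
    exact hyV i l
  obtain ⟨t, ht, hyt⟩ := hu2 ⟨A, hA⟩ y hy hyn
  have hyt' : ∀ i l, ∑ j, t j * u ⟨A, hA⟩ j i l = y i l := by
    intro i l
    rw [hyt]
    simp [Finset.sum_apply]
  have hcJ : ∀ J : β → Fin 2, |∑ n : β → Fin (N + 1), (c n : ℝ) *
      ∏ i, LThree.pwc (1 + exp (2 * y i 0) - exp (2 * y i 1)) (exp (2 * y i 0)) (n i) (J i)| ≤
      exp (-(G + G') * N) := by
    intro J
    have h1 := hc (𝒜.equivFin ⟨A, hA⟩) t ht J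
    rw [Equiv.symm_apply_apply] at h1
    unfold gco at h1
    simp only [hyt'] at h1
    exact h1
  -- the points
  have hpt := fun i => one_point V ε hεpos.le hε1 (y i 0) (y i 1) (hyV i 0) (hyV i 1) (z i)
    (hz0 i) (hz1 i) (hzy i).1 (hzy i).2
  -- the coefficients
  have hcoef : ∀ J : β → Fin 2, |∑ n : β → Fin (N + 1), (c n : ℝ) *
      ∏ i, LThree.pwc (1 + ‖z i‖ ^ 2 - ‖1 - z i‖ ^ 2) (‖z i‖ ^ 2) (n i) (J i)| ≤
      exp (-(G + G') * N) + ((N : ℝ) + 1) ^ b * (exp N * (b * (4 * ε * E ^ 2 * M) * M ^ b)) := by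
    intro J
    have h1 : ∑ n : β → Fin (N + 1), (c n : ℝ) *
        ∏ i, LThree.pwc (1 + ‖z i‖ ^ 2 - ‖1 - z i‖ ^ 2) (‖z i‖ ^ 2) (n i) (J i) =
        ∑ n : β → Fin (N + 1), (c n : ℝ) *
          ∏ i, LThree.pwc (1 + exp (2 * y i 0) - exp (2 * y i 1)) (exp (2 * y i 0)) (n i) (J i) +
        ∑ n : β → Fin (N + 1), (c n : ℝ) *
          (∏ i, LThree.pwc (1 + ‖z i‖ ^ 2 - ‖1 - z i‖ ^ 2) (‖z i‖ ^ 2) (n i) (J i) -
          ∏ i, LThree.pwc (1 + exp (2 * y i 0) - exp (2 * y i 1)) (exp (2 * y i 0)) (n i)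
            (J i)) := by
      rw [← Finset.sum_add_distrib]
      refine Finset.sum_congr rfl fun n _ => ?_
      ring
    rw [h1]
    refine (abs_add_le _ _).trans (add_le_add (hcJ J) ?_)
    refine (Finset.abs_sum_le_sum_abs _ _).trans ?_
    have h2 : ∀ n ∈ (Finset.univ : Finset (β → Fin (N + 1))), |(c n : ℝ) *
          (∏ i, LThree.pwc (1 + ‖z i‖ ^ 2 - ‖1 - z i‖ ^ 2) (‖z i‖ ^ 2) (n i) (J i) -
          ∏ i, LThree.pwc (1 + exp (2 * y i 0) - exp (2 * y i 1)) (exp (2 * y i 0)) (n i)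
            (J i))| ≤ exp N * (b * (4 * ε * E ^ 2 * M) * M ^ b) := by
      intro n _
      rw [abs_mul]
      refine mul_le_mul (hcb n) ?_ (abs_nonneg _) (Real.exp_pos _).le
      have h3 := (prod_diff Finset.univ
        (fun i => LThree.pwc (1 + ‖z i‖ ^ 2 - ‖1 - z i‖ ^ 2) (‖z i‖ ^ 2) (n i) (J i))
        (fun i => LThree.pwc (1 + exp (2 * y i 0) - exp (2 * y i 1)) (exp (2 * y i 0)) (n i) (J i))
        M (4 * ε * E ^ 2 * M) hM1 (by positivity)
        (fun i => ((hpt i).2 N (n i) (Nat.lt_succ_iff.1 (n i).isLt) (J i)).1)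
        (fun i => ((hpt i).2 N (n i) (Nat.lt_succ_iff.1 (n i).isLt) (J i)).2.1)
        (fun i => ((hpt i).2 N (n i) (Nat.lt_succ_iff.1 (n i).isLt) (J i)).2.2)).2
      rw [Finset.card_univ, ← hb] at h3
      exact h3
    refine (Finset.sum_le_card_nsmul _ _ _ h2).trans ?_
    rw [Finset.card_univ, Fintype.card_fun, Fintype.card_fin, ← hb, nsmul_eq_mul]
    push_cast
    exact le_rfl
  -- the expansion
  have hexp : ∑ n : β → Fin (N + 1), (c n : ℂ) * ∏ i, z i ^ (n i : ℕ) =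
      ∑ J : β → Fin 2, ((∑ n : β → Fin (N + 1), (c n : ℝ) *
        ∏ i, LThree.pwc (1 + ‖z i‖ ^ 2 - ‖1 - z i‖ ^ 2) (‖z i‖ ^ 2) (n i) (J i) : ℝ) : ℂ) *
          ∏ i, z i ^ (J i : ℕ) := by
    have h1 : ∀ n : β → Fin (N + 1), ∏ i, z i ^ (n i : ℕ) = ∑ J : β → Fin 2,
        ∏ i, ((LThree.pwc (1 + ‖z i‖ ^ 2 - ‖1 - z i‖ ^ 2) (‖z i‖ ^ 2) (n i) (J i) : ℝ) : ℂ) *
          z i ^ (J i : ℕ) := by
      intro n
      have h2 : ∏ i, z i ^ (n i : ℕ) = ∏ i, ∑ a : Fin 2,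
          ((LThree.pwc (1 + ‖z i‖ ^ 2 - ‖1 - z i‖ ^ 2) (‖z i‖ ^ 2) (n i) a : ℝ) : ℂ) *
          z i ^ (a : ℕ) :=
        Finset.prod_congr rfl fun i _ => LThree.pow_eq_pwc (z i) _ _ (LThree.sq_eq (z i)) _
      rw [h2, Finset.prod_univ_sum, Fintype.piFinset_univ]
    simp only [h1, Finset.prod_mul_distrib, Finset.mul_sum]
    rw [Finset.sum_comm]
    refine Finset.sum_congr rfl fun J _ => ?_
    push_cast
    rw [Finset.sum_mul]
    refine Finset.sum_congr rfl fun n _ => ?_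
    ring
  rw [hexp]
  set B : ℝ := exp (-(G + G') * N) +
    ((N : ℝ) + 1) ^ b * (exp N * (b * (4 * ε * E ^ 2 * M) * M ^ b)) with hB
  have hB0 : 0 ≤ B := by
    rw [hB]
    positivity
  have hterm : ∀ J ∈ (Finset.univ : Finset (β → Fin 2)),
      ‖((∑ n : β → Fin (N + 1), (c n : ℝ) *
        ∏ i, LThree.pwc (1 + ‖z i‖ ^ 2 - ‖1 - z i‖ ^ 2) (‖z i‖ ^ 2) (n i) (J i) : ℝ) : ℂ) *
          ∏ i, z i ^ (J i : ℕ)‖ ≤ B * E ^ b := by
    intro J _
    rw [norm_mul, Complex.norm_real, Real.norm_eq_abs]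
    refine mul_le_mul (hcoef J) ?_ (norm_nonneg _) hB0
    rw [norm_prod, hb, ← Finset.card_univ, ← Finset.prod_const]
    refine Finset.prod_le_prod (fun i _ => norm_nonneg _) fun i _ => ?_
    rw [norm_pow]
    have h1 := (hpt i).1
    rcases (show (J i : ℕ) = 0 ∨ (J i : ℕ) = 1 by have := (J i).isLt; omega) with h | h
    · rw [h, pow_zero]
      exact hE1
    · rw [h, pow_one]
      exact h1
  refine (norm_sum_le _ _).trans ((Finset.sum_le_card_nsmul _ _ _ hterm).trans ?_)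
  rw [Finset.card_univ, Fintype.card_fun, Fintype.card_fin, ← hb, nsmul_eq_mul]
  push_cast
  -- numerics
  have n1 : 2 ^ b * (exp (-(G + G') * N) * E ^ b) ≤ exp (-G * N) / 2 := by
    have e1 : (2 : ℝ) ≤ exp 1 := by
      have := Real.add_one_le_exp (1 : ℝ)
      linarith
    have e2 : (2 : ℝ) ^ b ≤ exp b := by
      have h1 : exp (b : ℝ) = exp 1 ^ b := by
        rw [← Real.exp_nat_mul, mul_one]
      rw [h1]
      exact pow_le_pow_left₀ (by norm_num) e1 b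
    have e3 : E ^ b = exp ((V + 1) * b) := by
      rw [hE, ← Real.exp_nat_mul, mul_comm]
    have e4 : 2 * (2 ^ b * (exp (-(G + G') * N) * E ^ b)) ≤
        exp 1 * (exp b * (exp (-(G + G') * N) * exp ((V + 1) * b))) := by
      rw [e3]
      gcongr
    have e5 : exp 1 * (exp b * (exp (-(G + G') * N) * exp ((V + 1) * b))) ≤ exp (-G * N) := by
      rw [← Real.exp_add, ← Real.exp_add, ← Real.exp_add, Real.exp_le_exp]
      have h10 : G' * 1 ≤ G' * (N : ℝ) := mul_le_mul_of_nonneg_left hN1R hG'0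
      have h11 : G' = 1 + b + (V + 1) * b := hG'
      linarith
    linarith
  have n2 : 2 ^ b * (((N : ℝ) + 1) ^ b * (exp N * (b * (4 * ε * E ^ 2 * M) * M ^ b)) * E ^ b) ≤
      K * ε := by
    have h1 : 2 ^ b * (((N : ℝ) + 1) ^ b * (exp N * (b * (4 * ε * E ^ 2 * M) * M ^ b)) * E ^ b) =
        (K - 1) * ε := by
      rw [hK]
      ring
    rw [h1]
    nlinarith
  have n3 : 2 ^ b * (B * E ^ b) = 2 ^ b * (exp (-(G + G') * N) * E ^ b) +
      2 ^ b * (((N : ℝ) + 1) ^ b * (exp N * (b * (4 * ε * E ^ 2 * M) * M ^ b)) * E ^ b) := by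
    rw [hB]
    ring
  rw [n3]
  linarith

end Pool.Agent.LAll
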