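import Pool.Agent.LAll.NearSub
import Pool.Agent.LAll.SmallPolyD
import Pool.Agent.LAll.PolyB

set_option autoImplicit false

/-! UV26. Bounded coordinates. -/

namespace Pool.Agent.LAll

open NumberField Height Real Module Filter Topology

/-- **Bounded coordinates.** `W ⊆ Bᶜ` with (Ia) and (Ib), `B ≠ ∅`:
`finrank (ker ⊓ supp (W ∪ B)) ≤ |W| + |B|`.

Proof. Otherwise `near_subspaces` (`W₀ = Bᶜ`, `tame_cfg`) gives `𝒜`. The restriction map
`ρ : E ι → ({k // k ∈ B} → Fin 2 → ℝ)` maps every `A ∈ 𝒜` to a space of dimension `≤ |B| - 1`; let `𝒜'` be the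
set of the images. `H₀` a bound of the heights `H k`, `k ∈ B`, for most `j`. Choose `U₀` such that for most
`j` the places with `|L v k i| > U₀ w v` for some `k ∈ B`, `i`, have weight at most `1/8`
(`Cfg.markov`, `Tame.bd`), `U = U₀ + 1`, `G = 2 (1 + |B| + |B| H₀) + 1`, and `N, ε, c` from `small_polyD`.
Apply the property of `near_subspaces` with `min ε 1` and `η = 1/4`. At a place `v` with `w v > 0` outside
the exceptional sets (of total weight `≤ 3/8 < 1/2`), `v` is infinite, `lam v z = w v log |z|_v`, and the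
scale is `1` (`k ∈ B`), so with `z_k = φ_v (x_k) ∈ ℂ` (`InfinitePlace.embedding`,
`InfinitePlace.norm_embedding_eq`): `|log ‖z_k‖ - a k 0| ≤ ε`, `|log ‖1 - z_k‖ - a k 1| ≤ ε`,
`|a k i| ≤ U₀ + 1`, so `‖φ_v (aeval x (polyB B c))‖ ≤ exp (-G N)` (`aeval_polyB`), i.e.
`lam v (...) ≤ - G N w v`. By `Gen` and `polyB_ne_zero` the value is not zero for most `j`; `value_bound`
gives `G ≤ 2 (1 + |B| + |B| H₀)`: contradiction. -/
theorem bounded_rank {ι J : Type} [Fintype ι] [DecidableEq ι] {𝒰 : Ultrafilter J} {P : J → Pt ι}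
    {B : Finset ι} (hG : Gen 𝒰 P) (hB : Split 𝒰 P B) (hBne : B.Nonempty) (W : Finset ι)
    (hW : W ⊆ Bᶜ)
    (hIa : finrank ℝ (ker 𝒰 (fun j => (P j).cfg B) ⊓ supp W : Submodule ℝ (E ι)) ≤ W.card)
    (hIb : ∀ (S : Finset ι) (c : ι → Fin 3), S ⊆ W → S.Nonempty →
      Charged 𝒰 (fun j => (P j).cfg B) W S c →
      finrank ℝ (ker 𝒰 (fun j => (P j).cfg B) ⊓ supp W ⊓ ZZ S c : Submodule ℝ (E ι)) ≤
        (W \ S).card) :
    finrank ℝ (ker 𝒰 (fun j => (P j).cfg B) ⊓ supp (W ∪ B) : Submodule ℝ (E ι)) ≤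
      W.card + B.card := by
  classical
  by_contra hcon
  have hker : W.card + B.card + 1 ≤
      finrank ℝ (ker 𝒰 (fun j => (P j).cfg B) ⊓ supp (W ∪ B) : Submodule ℝ (E ι)) := by omega
  have hT := tame_cfg 𝒰 P B hB
  have hWB : Disjoint W B := by
    rw [Finset.disjoint_left]
    intro k hk hkB
    exact (Finset.mem_compl.mp (hW hk)) hkB
  obtain ⟨𝒜, h𝒜, hnear⟩ := near_subspaces hT W B hW hWB hIa hIb hker
  -- the restriction map
  let ρ : E ι →ₗ[ℝ] ({k // k ∈ B} → Fin 2 → ℝ) :=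
    { toFun := fun y k => y k
      map_add' := fun _ _ => rfl
      map_smul' := fun _ _ => rfl }
  let 𝒜' : Finset (Submodule ℝ ({k // k ∈ B} → Fin 2 → ℝ)) := 𝒜.image fun A => A.map ρ
  have h𝒜' : ∀ A ∈ 𝒜', finrank ℝ A + 1 ≤ Fintype.card {k // k ∈ B} := by
    intro A' hA'
    obtain ⟨A, hA, rfl⟩ := Finset.mem_image.mp hA'
    have h1 := (h𝒜 A hA).2
    have h2 : finrank ℝ (A.map ρ) ≤ finrank ℝ A := Submodule.finrank_map_le ρ A
    rw [Fintype.card_coe]
    omega
  -- the heights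
  have hH : ∃ H₀ : ℝ, 0 ≤ H₀ ∧ ∀ᶠ j in (𝒰 : Filter J), ∑ k ∈ B, (P j).H k ≤ H₀ := by
    have h1 : ∀ k : ι, ∃ C : ℝ, k ∈ B → ∀ᶠ j in (𝒰 : Filter J), (P j).H k ≤ C := by
      intro k
      by_cases hk : k ∈ B
      · obtain ⟨C, hC⟩ := hB.bdd k hk
        exact ⟨C, fun _ => hC⟩
      · exact ⟨0, fun h => absurd h hk⟩
    choose C hC using h1
    refine ⟨∑ k ∈ B, |C k|, Finset.sum_nonneg fun k _ => abs_nonneg _, ?_⟩
    have h2 : ∀ᶠ j in (𝒰 : Filter J), ∀ k ∈ B, (P j).H k ≤ C k :=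
      (Finset.eventually_all B).mpr fun k hk => hC k hk
    filter_upwards [h2] with j hj
    exact Finset.sum_le_sum fun k hk => (hj k hk).trans (le_abs_self _)
  obtain ⟨H₀, hH₀, hH⟩ := hH
  -- the logarithms
  have hL : ∃ U₀ : ℝ, 0 < U₀ ∧ ∀ᶠ j in (𝒰 : Filter J),
      ((P j).cfg B).mass ((P j).cfg B).w (fun v => ∃ a ∈ B ×ˢ (Finset.univ : Finset (Fin 2)),
        U₀ * ((P j).cfg B).w v < |((P j).cfg B).L v a.1 a.2|) ≤ 1 / 8 := by
    choose C hC using hT.bd
    set T : ℝ := ∑ a ∈ B ×ˢ (Finset.univ : Finset (Fin 2)), |C a.1| with hTdef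
    have hT0 : 0 ≤ T := Finset.sum_nonneg fun a _ => abs_nonneg _
    refine ⟨8 * T + 1, by positivity, ?_⟩
    have h2 : ∀ᶠ j in (𝒰 : Filter J), ∀ k, ∀ i, ∑ v, |((P j).cfg B).L v k i| ≤ C k :=
      Filter.eventually_all.mpr fun k => hC k
    filter_upwards [h2] with j hj
    refine (Cfg.mass_exists_le _ _ _ _ ((P j).cfg B).w0).trans ?_
    have h3 : ∀ a ∈ B ×ˢ (Finset.univ : Finset (Fin 2)),
        ((P j).cfg B).mass ((P j).cfg B).w (fun v =>
          (8 * T + 1) * ((P j).cfg B).w v < |((P j).cfg B).L v a.1 a.2|) ≤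
          |C a.1| / (8 * T + 1) := by
      intro a _
      have h4 := Cfg.markov ((P j).cfg B) ((P j).cfg B).w
        (fun v => |((P j).cfg B).L v a.1 a.2|)
        (fun v => (8 * T + 1) * ((P j).cfg B).w v < |((P j).cfg B).L v a.1 a.2|) (8 * T + 1)
        (fun v => abs_nonneg _) (fun v hv => hv.le)
      rw [le_div_iff₀ (by positivity), mul_comm]
      exact h4.trans ((hj a.1 a.2).trans (le_abs_self _))
    refine (Finset.sum_le_sum h3).trans ?_
    rw [← Finset.sum_div, ← hTdef, div_le_iff₀ (by positivity)]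
    linarith
  obtain ⟨U₀, hU₀, hL⟩ := hL
  set G : ℝ := 2 * (1 + B.card + H₀) + 1 with hGdef
  have hG0 : 0 ≤ G := by positivity
  obtain ⟨N, hN, ε, hε, c, hc0, hcb, hsmall⟩ := small_polyD 𝒜' h𝒜' (U₀ + 1) G
  have hnear' := hnear (min ε 1) (1 / 4) (lt_min hε one_pos) (by norm_num)
  have hgen := hG (polyB B c) (polyB_ne_zero B c hc0)
  obtain ⟨j, hj1, hj2, hj3, hj4⟩ := (((hH.and (hL.and (hnear'.and hgen)))).exists)
  -- the good places
  have hgood : ∀ v : (P j).V, 0 < wt (K := (P j).K) (S := (P j).S) v →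
      (∃ A ∈ 𝒜, ∃ a ∈ A, ∀ k ∈ B, ∀ i, |((P j).cfg B).L v k i - ((P j).cfg B).w v * a k i| ≤
        min ε 1 * ((P j).cfg B).w v) →
      (¬ ∃ a ∈ B ×ˢ (Finset.univ : Finset (Fin 2)),
        U₀ * ((P j).cfg B).w v < |((P j).cfg B).L v a.1 a.2|) →
      lam (K := (P j).K) (S := (P j).S) v (MvPolynomial.aeval (P j).x (polyB B c)) ≤
        -G * N * wt (K := (P j).K) (S := (P j).S) v := by
    intro v hv hA hbad
    obtain v0 | v0 := v
    swap
    · exact absurd hv (lt_irrefl _)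
    obtain ⟨A, hA, a, ha, hcl⟩ := hA
    push Not at hbad
    have hlam : ∀ y : (P j).K, lam (K := (P j).K) (S := (P j).S) (Sum.inl v0) y =
        wt (K := (P j).K) (S := (P j).S) (Sum.inl v0) * log (v0 y) := by
      intro y
      change (v0.mult : ℝ) * log (v0 y) / finrank ℚ (P j).K =
        (v0.mult : ℝ) / finrank ℚ (P j).K * log (v0 y)
      ring
    set ω : ℝ := wt (K := (P j).K) (S := (P j).S) (Sum.inl v0) with hω
    have hLk : ∀ k ∈ B, ∀ i, ((P j).cfg B).L (Sum.inl v0) k i = ω * log (v0 ((P j).z k i)) := by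
      intro k hk i
      change lam (K := (P j).K) (S := (P j).S) (Sum.inl v0) ((P j).z k i) / (P j).sc B k = _
      rw [hlam, Pt.sc, if_pos hk, div_one]
    have h1 : ∀ k ∈ B, ∀ i, |log (v0 ((P j).z k i)) - a k i| ≤ min ε 1 := by
      intro k hk i
      have h := hcl k hk i
      rw [hLk k hk i] at h
      change |ω * log (v0 ((P j).z k i)) - ω * a k i| ≤ min ε 1 * ω at h
      rw [← mul_sub, abs_mul, abs_of_pos hv, mul_comm] at h
      exact le_of_mul_le_mul_right h hv
    have h2 : ∀ k ∈ B, ∀ i, |log (v0 ((P j).z k i))| ≤ U₀ := by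
      intro k hk i
      have h := hbad (k, i) (Finset.mem_product.mpr ⟨hk, Finset.mem_univ _⟩)
      rw [hLk k hk i] at h
      change |ω * log (v0 ((P j).z k i))| ≤ U₀ * ω at h
      rw [abs_mul, abs_of_pos hv, mul_comm] at h
      exact le_of_mul_le_mul_right h hv
    have h3 := hsmall (fun k => v0.embedding ((P j).x k))
      (fun k => by
        rw [Ne, map_eq_zero]
        exact (P j).ne0 k)
      (fun k h => by
        have h' : v0.embedding (1 - (P j).x k) = 0 := by
          rw [map_sub, map_one, h, sub_self]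
        rw [map_eq_zero] at h'
        exact (P j).ne1 k h')
      ⟨A.map ρ, Finset.mem_image.mpr ⟨A, hA, rfl⟩, ρ a, Submodule.mem_map_of_mem ha, ?_, ?_⟩
    rotate_left
    · intro k i
      have h4 := h1 k k.2 i
      have h5 := h2 k k.2 i
      change |a k i| ≤ U₀ + 1
      have h6 : |log (v0 ((P j).z k i)) - a k i| ≤ 1 := h4.trans (min_le_right _ _)
      rw [abs_le] at h5 h6 ⊢
      constructor <;> linarith [h5.1, h5.2, h6.1, h6.2]
    · intro k
      constructor
      · rw [InfinitePlace.norm_embedding_eq]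
        exact (h1 k k.2 0).trans (min_le_left _ _)
      · have e1 : (1 : ℂ) - v0.embedding ((P j).x k) = v0.embedding (1 - (P j).x k) := by
          rw [map_sub, map_one]
        rw [e1, InfinitePlace.norm_embedding_eq]
        exact (h1 k k.2 1).trans (min_le_left _ _)
    have e2 : v0.embedding (MvPolynomial.aeval (P j).x (polyB B c)) =
        ∑ n, (c n : ℂ) * ∏ i : {k // k ∈ B}, v0.embedding ((P j).x i) ^ (n i : ℕ) := by
      rw [aeval_polyB, map_sum]
      refine Finset.sum_congr rfl fun n _ => ?_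
      rw [map_mul, map_intCast, map_prod]
      simp only [map_pow]
    rw [← e2, InfinitePlace.norm_embedding_eq] at h3
    have hpos : 0 < v0 (MvPolynomial.aeval (P j).x (polyB B c)) :=
      InfinitePlace.pos_iff.mpr hj4
    have h4 : log (v0 (MvPolynomial.aeval (P j).x (polyB B c))) ≤ -G * N :=
      (log_le_log hpos h3).trans (by rw [log_exp])
    rw [hlam]
    calc ω * log (v0 (MvPolynomial.aeval (P j).x (polyB B c))) ≤ ω * (-G * N) :=
          mul_le_mul_of_nonneg_left h4 hv.le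
      _ = -G * N * ω := by ring
  have hmass : 1 / 2 ≤ ((P j).cfg B).mass ((P j).cfg B).w (fun v =>
      lam (K := (P j).K) (S := (P j).S) v (MvPolynomial.aeval (P j).x (polyB B c)) ≤
        -G * N * wt (K := (P j).K) (S := (P j).S) v) := by
    have h1 : ((P j).cfg B).mass ((P j).cfg B).w (fun v => ∃ A ∈ 𝒜, ∃ a ∈ A, ∀ k ∈ B, ∀ i,
          |((P j).cfg B).L v k i - ((P j).cfg B).w v * a k i| ≤ min ε 1 * ((P j).cfg B).w v) ≤
        ((P j).cfg B).mass ((P j).cfg B).w (fun v =>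
          lam (K := (P j).K) (S := (P j).S) v (MvPolynomial.aeval (P j).x (polyB B c)) ≤
            -G * N * wt (K := (P j).K) (S := (P j).S) v) +
        ((P j).cfg B).mass ((P j).cfg B).w
          (fun v => ∃ a ∈ B ×ˢ (Finset.univ : Finset (Fin 2)),
            U₀ * ((P j).cfg B).w v < |((P j).cfg B).L v a.1 a.2|) := by
      unfold Cfg.mass
      rw [← Finset.sum_add_distrib]
      refine Finset.sum_le_sum fun v _ => ?_
      have hw0 := ((P j).cfg B).w0 v
      by_cases hn : ∃ A ∈ 𝒜, ∃ a ∈ A, ∀ k ∈ B, ∀ i,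
          |((P j).cfg B).L v k i - ((P j).cfg B).w v * a k i| ≤ min ε 1 * ((P j).cfg B).w v
      · rw [if_pos hn]
        by_cases hb : ∃ a ∈ B ×ˢ (Finset.univ : Finset (Fin 2)),
            U₀ * ((P j).cfg B).w v < |((P j).cfg B).L v a.1 a.2|
        · rw [if_pos hb]
          split_ifs <;> linarith
        · rw [if_neg hb]
          rcases hw0.eq_or_lt with h0 | h0
          · rw [← h0]
            split_ifs <;> simp
          · rw [if_pos (hgood v h0 hn hb)]
            linarith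
      · rw [if_neg hn]
        split_ifs <;> linarith
    linarith
  have hfin := value_bound (P j) B N hN c hcb G hG0 hj4 hmass
  linarith

end Pool.Agent.LAll
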