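import Pool.Agent.LAll.Defs

set_option autoImplicit false

/-! UV02. Some type is charged (thresholds and the pigeonhole principle). -/

namespace Pool.Agent.LAll

open Filter Topology Module

variable {ι : Type} [Fintype ι] [DecidableEq ι] {J : Type}

omit [Fintype ι] in
/-- A place has one of the finitely many types: pigeonhole for the thresholds `e 0 ≥ e 1 ≥ ...`. -/
private theorem exists_typ (C : Cfg ι) (W : Finset ι) (hW : W.Nonempty) (e : ℕ → ℝ)
    (h0 : e 0 = 1 / W.card) (he : ∀ i, e (i + 1) ≤ e i) (v : C.V) :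
    ∃ i < W.card, ∃ S ⊆ W, S.Nonempty ∧ C.Typ W S (C.c v) (e i) (e (i + 1)) v := by
  classical
  have hσ : 0 ≤ C.sig W v := C.sig_nonneg W v
  set T : ℕ → Finset ι := fun i => W.filter fun k => e i * C.sig W v ≤ C.A v k with hT
  have hTW : ∀ i, T i ⊆ W := fun i => Finset.filter_subset _ _
  have hmono : ∀ i, T i ⊆ T (i + 1) := by
    intro i k hk
    rw [hT, Finset.mem_filter] at hk ⊢
    exact ⟨hk.1, (mul_le_mul_of_nonneg_right (he i) hσ).trans hk.2⟩
  have hn : (0 : ℝ) < W.card := by exact_mod_cast hW.card_pos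
  have hT0 : (T 0).Nonempty := by
    have h1 : ∑ k ∈ W, C.sig W v / W.card ≤ ∑ k ∈ W, C.A v k := by
      rw [Finset.sum_const, nsmul_eq_mul, mul_div_cancel₀ _ hn.ne']
      exact le_rfl
    obtain ⟨k, hk, h2⟩ := Finset.exists_le_of_sum_le hW h1
    refine ⟨k, ?_⟩
    rw [hT, Finset.mem_filter]
    refine ⟨hk, ?_⟩
    rw [h0, one_div, inv_mul_eq_div]
    exact h2
  have hne : ∀ i, (T i).Nonempty := by
    intro i
    induction i with
    | zero => exact hT0
    | succ i ih => exact ih.mono (hmono i)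
  have hex : ∃ i < W.card, T i = T (i + 1) := by
    by_contra hc
    push Not at hc
    have hcard : ∀ i ≤ W.card, i + 1 ≤ (T i).card := by
      intro i
      induction i with
      | zero => exact fun _ => hT0.card_pos
      | succ i ih =>
        intro hi
        have h1 := ih (by omega)
        have h2 : T i ⊂ T (i + 1) := (hmono i).ssubset_of_ne (hc i (by omega))
        have h3 := Finset.card_lt_card h2
        omega
    have h1 := hcard W.card le_rfl
    have h2 := Finset.card_le_card (hTW W.card)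
    omega
  obtain ⟨i, hi, hii⟩ := hex
  refine ⟨i, hi, T i, hTW i, hne i, fun k hk => ⟨rfl, ?_⟩, fun k hkW hk => ?_⟩
  · rw [hT, Finset.mem_filter] at hk
    exact hk.2
  · rw [hii, hT, Finset.mem_filter, not_and] at hk
    exact (not_le.1 (hk hkW)).le

/-- **Some nonempty type is charged.**

Proof. `n = W.card ≥ 1`. The number of pairs `(S, c)` with `S : Finset ι`, `c : ι → Fin 3` is finite, say
`Q = Fintype.card (Finset ι × (ι → Fin 3))`; put `μ = μ₀ / (n Q)` (or anything smaller).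
Suppose that no `(S, c)` with `S ⊆ W`, `S ≠ ∅` is charged. Then for every `ε > 0` there is
`δ ∈ (0, ε]` such that for all `(S, c)` (`S ⊆ W`, `S ≠ ∅`), for most `j`,
`mass σ (Typ W S c ε δ) < μ` (not charged with `(ε, μ)`: there is `δ > 0` such that NOT for most `j`
`μ ≤ mass`; `𝒰` is an ultrafilter (`Ultrafilter.eventually_not`), so for most `j` `mass < μ`; `mass` is
monotone in `δ`, as `σ ≥ 0`; take the minimum over the finitely many `(S, c)` and `ε`).
So (recursion) there are `ε 0 = 1 / n ≥ ε 1 ≥ ... ≥ ε n > 0` such that for most `j` and all `i < n`, all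
`(S, c)`: `mass σ_j (Typ W S c (ε i) (ε (i+1))) < μ`. Fix such a `j` with also `μ₀ ≤ ∑ σ`.
Every place `v` is in one of these classes: if `σ v = 0` all the inequalities are `0 ≤ 0` (`A v k = 0`
for `k ∈ W`) - take any `S = W`, `i = 0`, `c = c v`. If `σ v > 0`: the maximum of the ratios
`A v k / σ v`, `k ∈ W`, is at least `1 / n = ε 0`; so at most `n - 1` of the ratios are `< ε 0`, and one of
the `n` intervals `[ε (i+1), ε i)`, `i < n`, contains no ratio (pigeonhole); with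
`S = {k ∈ W | ε i * σ v ≤ A v k} ≠ ∅` and `c = c v` we get `Typ W S c (ε i) (ε (i+1)) v` (for
`k ∈ W \ S` the ratio is `< ε i`, hence `< ε (i+1)`). (The intervals with `ε (i+1) = ε i` are empty,
no problem.) So `μ₀ ≤ ∑ σ ≤ ∑_{i, S, c} mass (Typ ...) < n Q μ ≤ μ₀` (`Cfg.mass_exists_le`):
contradiction. -/
theorem exists_charged (𝒰 : Ultrafilter J) (𝒞 : J → Cfg ι) (W : Finset ι) (hW : W.Nonempty)
    (μ₀ : ℝ) (hμ₀ : 0 < μ₀) (h : ∀ᶠ j in (𝒰 : Filter J), μ₀ ≤ ∑ v, (𝒞 j).sig W v) :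
    ∃ (S : Finset ι) (c : ι → Fin 3), S ⊆ W ∧ S.Nonempty ∧ Charged 𝒰 𝒞 W S c := by
  classical
  by_contra hcon
  have hcon' : ∀ (S : Finset ι) (c : ι → Fin 3), S ⊆ W → S.Nonempty → ¬ Charged 𝒰 𝒞 W S c :=
    fun S c h1 h2 h3 => hcon ⟨S, c, h1, h2, h3⟩
  have hn : 0 < W.card := hW.card_pos
  have hnR : (0 : ℝ) < W.card := by exact_mod_cast hn
  set Q : ℕ := Fintype.card (Finset ι × (ι → Fin 3)) with hQ
  have hQ0 : 0 < Q := Fintype.card_pos
  have hQR : (0 : ℝ) < Q := by exact_mod_cast hQ0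
  set μ : ℝ := μ₀ / (2 * (W.card * Q)) with hμ
  have hμ0 : 0 < μ := by positivity
  -- one step of the choice of the thresholds
  have step : ∀ ε : ℝ, 0 < ε → ∃ δ : ℝ, 0 < δ ∧ δ ≤ ε ∧
      ∀ᶠ j in (𝒰 : Filter J), ∀ a : Finset ι × (ι → Fin 3), a.1 ⊆ W → a.1.Nonempty →
        (𝒞 j).mass ((𝒞 j).sig W) ((𝒞 j).Typ W a.1 a.2 ε δ) < μ := by
    intro ε hε
    have h1 : ∀ a : Finset ι × (ι → Fin 3), ∃ δ : ℝ, 0 < δ ∧ (a.1 ⊆ W → a.1.Nonempty →
        ∀ᶠ j in (𝒰 : Filter J),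
          (𝒞 j).mass ((𝒞 j).sig W) ((𝒞 j).Typ W a.1 a.2 ε δ) < μ) := by
      intro a
      by_cases ha : a.1 ⊆ W ∧ a.1.Nonempty
      · have h2 := hcon' a.1 a.2 ha.1 ha.2
        have h3 : ∃ δ : ℝ, 0 < δ ∧ ¬ ∀ᶠ j in (𝒰 : Filter J),
            μ ≤ (𝒞 j).mass ((𝒞 j).sig W) ((𝒞 j).Typ W a.1 a.2 ε δ) := by
          by_contra hc
          refine h2 ⟨ε, μ, hε, hμ0, fun δ hδ => ?_⟩
          by_contra hc'
          exact hc ⟨δ, hδ, hc'⟩
        obtain ⟨δ, hδ, h4⟩ := h3
        refine ⟨δ, hδ, fun _ _ => ?_⟩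
        have h5 := Ultrafilter.eventually_not.2 h4
        filter_upwards [h5] with j hj
        exact not_le.1 hj
      · exact ⟨1, one_pos, fun h3 h4 => absurd ⟨h3, h4⟩ ha⟩
    choose d hd0 hd using h1
    have hne : (Finset.univ : Finset (Finset ι × (ι → Fin 3))).Nonempty := Finset.univ_nonempty
    refine ⟨min ε (Finset.univ.inf' hne d), lt_min hε ?_, min_le_left _ _, ?_⟩
    · rw [Finset.lt_inf'_iff]
      exact fun a _ => hd0 a
    · rw [eventually_all]
      intro a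
      by_cases ha : a.1 ⊆ W ∧ a.1.Nonempty
      · filter_upwards [hd a ha.1 ha.2] with j hj _ _
        refine lt_of_le_of_lt ?_ hj
        refine (𝒞 j).mass_mono _ _ _ (fun v => (𝒞 j).sig_nonneg W v) fun v hv => ?_
        refine ⟨hv.1, fun k hk hk' => (hv.2 k hk hk').trans ?_⟩
        refine mul_le_mul_of_nonneg_right ?_ ((𝒞 j).sig_nonneg W v)
        exact (min_le_right _ _).trans (Finset.inf'_le d (Finset.mem_univ a))
      · exact Eventually.of_forall fun j h3 h4 => absurd ⟨h3, h4⟩ ha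
  choose D hD0 hDle hD using step
  -- the thresholds
  let f : ℕ → {x : ℝ // 0 < x} := fun i =>
    Nat.rec ⟨1 / W.card, by positivity⟩ (fun _ x => ⟨D x.1 x.2, hD0 x.1 x.2⟩) i
  set e : ℕ → ℝ := fun i => (f i).1 with he
  have he0 : e 0 = 1 / W.card := rfl
  have hele : ∀ i, e (i + 1) ≤ e i := fun i => hDle (f i).1 (f i).2
  have hev : ∀ᶠ j in (𝒰 : Filter J), ∀ i ∈ Finset.range W.card,
      ∀ a : Finset ι × (ι → Fin 3), a.1 ⊆ W → a.1.Nonempty →
        (𝒞 j).mass ((𝒞 j).sig W) ((𝒞 j).Typ W a.1 a.2 (e i) (e (i + 1))) < μ := by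
    rw [Filter.eventually_all_finset]
    exact fun i _ => hD (f i).1 (f i).2
  obtain ⟨j, hj, hj'⟩ := (hev.and h).exists
  set C := 𝒞 j with hC
  have hσ : ∀ v, 0 ≤ C.sig W v := fun v => C.sig_nonneg W v
  let s : Finset (ℕ × (Finset ι × (ι → Fin 3))) :=
    (Finset.range W.card ×ˢ Finset.univ).filter fun a => a.2.1 ⊆ W ∧ a.2.1.Nonempty
  have hcover : ∀ v, ∃ a ∈ s, C.Typ W a.2.1 a.2.2 (e a.1) (e (a.1 + 1)) v := by
    intro v
    obtain ⟨i, hi, S, hS, hS', ht⟩ := exists_typ C W hW e he0 hele v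
    refine ⟨(i, (S, C.c v)), ?_, ht⟩
    rw [Finset.mem_filter, Finset.mem_product]
    exact ⟨⟨Finset.mem_range.2 hi, Finset.mem_univ _⟩, hS, hS'⟩
  have h1 : ∑ v, C.sig W v ≤ ∑ a ∈ s, C.mass (C.sig W)
      (C.Typ W a.2.1 a.2.2 (e a.1) (e (a.1 + 1))) := by
    refine le_trans (le_of_eq ?_) (C.mass_exists_le (C.sig W) s
      (fun a => C.Typ W a.2.1 a.2.2 (e a.1) (e (a.1 + 1))) hσ)
    unfold Cfg.mass
    refine Finset.sum_congr rfl fun v _ => ?_
    rw [if_pos (hcover v)]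
  have h2 : ∑ a ∈ s, C.mass (C.sig W) (C.Typ W a.2.1 a.2.2 (e a.1) (e (a.1 + 1))) ≤
      ∑ _a ∈ s, μ := by
    refine Finset.sum_le_sum fun a ha => ?_
    rw [Finset.mem_filter, Finset.mem_product] at ha
    exact (hj a.1 ha.1.1 a.2 ha.2.1 ha.2.2).le
  have h3 : (s.card : ℝ) ≤ W.card * Q := by
    have h4 : s.card ≤ W.card * Q := by
      refine (Finset.card_filter_le _ _).trans (le_of_eq ?_)
      rw [Finset.card_product, Finset.card_range, Finset.card_univ]
    exact_mod_cast h4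
  rw [Finset.sum_const, nsmul_eq_mul] at h2
  have h4 : (W.card * Q : ℝ) * μ = μ₀ / 2 := by
    rw [hμ]
    field_simp
  have h5 := mul_le_mul_of_nonneg_right h3 hμ0.le
  linarith

end Pool.Agent.LAll
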