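import Pool.Agent.LAll.PtCfg

set_option autoImplicit false

/-! UV27. Generic sequences, classes of heights. -/

namespace Pool.Agent.LAll

open NumberField Height Real Module Filter Topology

private theorem exists_uf (R : Type) [CommRing R] [IsDomain R] :
    ∃ 𝒰 : Ultrafilter {f : R // f ≠ 0}, ∀ g : R, g ≠ 0 →
      ∀ᶠ f in (𝒰 : Filter {f : R // f ≠ 0}), g ∣ f.1 := by
  let A : {f : R // f ≠ 0} → Set {f : R // f ≠ 0} := fun g => {f | g.1 ∣ f.1}
  have : Nonempty {f : R // f ≠ 0} := ⟨⟨1, one_ne_zero⟩⟩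
  have hdir : Directed (· ≥ ·) fun g => Filter.principal (A g) := by
    intro g1 g2
    refine ⟨⟨g1.1 * g2.1, mul_ne_zero g1.2 g2.2⟩, ?_, ?_⟩
    · refine Filter.principal_mono.2 fun f hf => ?_
      exact (Dvd.intro _ rfl).trans (hf : g1.1 * g2.1 ∣ f.1)
    · refine Filter.principal_mono.2 fun f hf => ?_
      exact (Dvd.intro_left _ rfl).trans (hf : g1.1 * g2.1 ∣ f.1)
  have hne : (⨅ g, Filter.principal (A g)).NeBot :=
    Filter.iInf_neBot_of_directed' hdir fun g =>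
      Filter.principal_neBot_iff.2 ⟨g, dvd_refl g.1⟩
  refine ⟨Ultrafilter.of (⨅ g, Filter.principal (A g)), fun g hg => ?_⟩
  exact Ultrafilter.of_le _ (Filter.mem_iInf_of_mem ⟨g, hg⟩ (Filter.mem_principal_self _))

/-- **Generic sequences.** If no nonzero integral polynomial vanishes at all the points with a property
`Q`, then there is a generic sequence of such points.

Proof. `J = {f : MvPolynomial ι ℤ // f ≠ 0}`; for `f ∈ J` choose `P f` with `Q (P f)` and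
`f(x) ≠ 0`. The sets `{f | g ∣ f}`, `g ≠ 0`, have the finite intersection property (`∏ g_i` is in all of
them, it is `≠ 0`), so there is an ultrafilter containing all of them (the filter
`⨅ g, 𝓟 {f | g ∣ f}` is `NeBot`: directed, `Filter.iInf_neBot_of_directed`; `Ultrafilter.of`). If `g ∣ f`
then `g(x) ≠ 0` for `x` the point `P f`. -/
theorem exists_generic {ι : Type} (Q : Pt ι → Prop)
    (h : ¬ ∃ f : MvPolynomial ι ℤ, f ≠ 0 ∧ ∀ P : Pt ι, Q P → MvPolynomial.aeval P.x f = 0) :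
    ∃ (J : Type) (𝒰 : Ultrafilter J) (P : J → Pt ι), (∀ j, Q (P j)) ∧ Gen 𝒰 P := by
  obtain ⟨𝒰, hU⟩ := exists_uf (MvPolynomial ι ℤ)
  have h1 : ∀ f : {f : MvPolynomial ι ℤ // f ≠ 0}, ∃ P : Pt ι, Q P ∧
      MvPolynomial.aeval P.x f.1 ≠ 0 := by
    intro f
    by_contra hcon
    refine h ⟨f.1, f.2, fun P hP => ?_⟩
    by_contra h2
    exact hcon ⟨P, hP, h2⟩
  refine ⟨_, 𝒰, fun f => (h1 f).choose, fun f => (h1 f).choose_spec.1, ?_⟩
  intro f hf
  filter_upwards [hU f hf] with j hj h0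
  obtain ⟨c, hc⟩ := hj
  refine (h1 j).choose_spec.2 ?_
  have h3 : MvPolynomial.aeval (h1 j).choose.x j.1 =
      MvPolynomial.aeval (h1 j).choose.x f * MvPolynomial.aeval (h1 j).choose.x c := by
    rw [← map_mul, ← hc]
  rw [h3, h0, zero_mul]

section

variable {ι J : Type} [Fintype ι] [DecidableEq ι] (𝒰 : Ultrafilter J) (P : J → Pt ι)

/-- `B` = the coordinates whose height is bounded along `𝒰`; an unbounded one tends to infinity along
the ultrafilter. -/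
theorem exists_split : ∃ B : Finset ι, Split 𝒰 P B := by
  classical
  refine ⟨Finset.univ.filter fun k => ∃ C : ℝ, ∀ᶠ j in (𝒰 : Filter J), (P j).H k ≤ C, ?_, ?_⟩
  · intro k hk
    exact (Finset.mem_filter.1 hk).2
  · intro k hk
    have h1 : ¬ ∃ C : ℝ, ∀ᶠ j in (𝒰 : Filter J), (P j).H k ≤ C := fun h =>
      hk (Finset.mem_filter.2 ⟨Finset.mem_univ _, h⟩)
    rw [not_exists] at h1
    refine tendsto_atTop.2 fun C => ?_
    have h2 := Ultrafilter.eventually_not.2 (h1 C)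
    filter_upwards [h2] with j hj
    exact (not_le.1 hj).le

/-- Heights are comparable along `𝒰`. -/
def Comp (k l : ι) : Prop :=
  (∃ A : ℝ, ∀ᶠ j in (𝒰 : Filter J), (P j).H k ≤ A * (P j).H l) ∧
    ∃ A : ℝ, ∀ᶠ j in (𝒰 : Filter J), (P j).H l ≤ A * (P j).H k

theorem comp_equivalence : Equivalence (Comp 𝒰 P) := by
  have key : ∀ k l m : ι, (∃ A : ℝ, ∀ᶠ j in (𝒰 : Filter J), (P j).H k ≤ A * (P j).H l) →
      (∃ A : ℝ, ∀ᶠ j in (𝒰 : Filter J), (P j).H l ≤ A * (P j).H m) →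
      ∃ A : ℝ, ∀ᶠ j in (𝒰 : Filter J), (P j).H k ≤ A * (P j).H m := by
    rintro k l m ⟨A, hA⟩ ⟨A', hA'⟩
    refine ⟨|A| * |A'|, ?_⟩
    filter_upwards [hA, hA'] with j h1 h2
    have h3 : 0 ≤ (P j).H l := ht_nonneg _
    have h4 : 0 ≤ (P j).H m := ht_nonneg _
    calc (P j).H k ≤ A * (P j).H l := h1
      _ ≤ |A| * (P j).H l := mul_le_mul_of_nonneg_right (le_abs_self _) h3
      _ ≤ |A| * (|A'| * (P j).H m) := by
        refine mul_le_mul_of_nonneg_left ?_ (abs_nonneg _)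
        exact h2.trans (mul_le_mul_of_nonneg_right (le_abs_self _) h4)
      _ = |A| * |A'| * (P j).H m := by ring
  refine ⟨fun k => ?_, fun h => ⟨h.2, h.1⟩, fun h1 h2 => ⟨key _ _ _ h1.1 h2.1, key _ _ _ h2.2 h1.2⟩⟩
  have h : ∃ A : ℝ, ∀ᶠ j in (𝒰 : Filter J), (P j).H k ≤ A * (P j).H k :=
    ⟨1, Filter.Eventually.of_forall fun j => by rw [one_mul]⟩
  exact ⟨h, h⟩

private theorem not_comp_aux {B : Finset ι} (hB : Split 𝒰 P B) (k l : ι) (hk : k ∉ B) (hl : l ∉ B)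
    (h : ¬ ∃ A : ℝ, ∀ᶠ j in (𝒰 : Filter J), (P j).H k ≤ A * (P j).H l) :
    Tendsto (fun j => (P j).H l / (P j).H k) (𝒰 : Filter J) (𝓝 0) := by
  rw [not_exists] at h
  have hk1 : ∀ᶠ j in (𝒰 : Filter J), 0 < (P j).H k :=
    (hB.unb k hk).eventually (eventually_gt_atTop 0)
  have hl1 : ∀ᶠ j in (𝒰 : Filter J), 0 < (P j).H l :=
    (hB.unb l hl).eventually (eventually_gt_atTop 0)
  rw [Metric.tendsto_nhds]
  intro ε hε
  have h2 := Ultrafilter.eventually_not.2 (h ε⁻¹)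
  filter_upwards [hk1, hl1, h2] with j h3 h4 h5
  rw [Real.dist_eq, sub_zero, abs_of_pos (div_pos h4 h3), div_lt_iff₀ h3]
  have h6 := not_le.1 h5
  rwa [inv_mul_lt_iff₀ hε] at h6

/-- If the heights (tending to infinity) are not comparable, one of the ratios tends to `0`: if
`H k ≤ A H l` fails for all `A` along `𝒰`, then `H k > A H l` for most `j` (ultrafilter), for all `A`. -/
theorem not_comp {B : Finset ι} (hB : Split 𝒰 P B) (k l : ι) (hk : k ∉ B) (hl : l ∉ B)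
    (h : ¬ Comp 𝒰 P k l) :
    Tendsto (fun j => (P j).H k / (P j).H l) (𝒰 : Filter J) (𝓝 0) ∨
      Tendsto (fun j => (P j).H l / (P j).H k) (𝒰 : Filter J) (𝓝 0) := by
  by_cases h1 : ∃ A : ℝ, ∀ᶠ j in (𝒰 : Filter J), (P j).H k ≤ A * (P j).H l
  · by_cases h2 : ∃ A : ℝ, ∀ᶠ j in (𝒰 : Filter J), (P j).H l ≤ A * (P j).H k
    · exact absurd ⟨h1, h2⟩ h
    · exact Or.inl (not_comp_aux 𝒰 P hB l k hl hk h2)
  · exact Or.inr (not_comp_aux 𝒰 P hB k l hk hl h1)

end

end Pool.Agent.LAll
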