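import Pool.Agent.LAll.PlDefs

set_option autoImplicit false

/-! UV08. Logarithms of absolute values, product formula, height. Templates for all of this:
`Pool/Agent/LThree/HtVal.lean` (values of integers, ultrametric inequality for sums, finite support) and
`Pool/Agent/LThree/Mass.lean`. -/

namespace Pool.Agent.LAll

open NumberField Height Real Module

variable {K : Type} [Field K] [NumberField K] {S : Finset (FinitePlace K)}

private theorem fr_pos (K : Type) [Field K] [NumberField K] : (0 : ℝ) < finrank ℚ K := by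
  exact_mod_cast finrank_pos

private theorem dg_pos (v : Plc K S) : 0 < dg v := by
  rcases v with v | v
  · change (0 : ℝ) < (v.mult : ℝ)
    exact_mod_cast InfinitePlace.mult_pos
  · exact one_pos

theorem ab_pos (v : Plc K S) {z : K} (hz : z ≠ 0) : 0 < ab v z := by
  rcases v with v | v
  · exact InfinitePlace.pos_iff.2 hz
  · exact FinitePlace.pos_iff.2 hz

theorem ab_nonneg (v : Plc K S) (z : K) : 0 ≤ ab v z := by
  rcases v with v | v
  · exact apply_nonneg v z
  · exact apply_nonneg v.1 z

theorem ab_mul (v : Plc K S) (y z : K) : ab v (y * z) = ab v y * ab v z := by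
  rcases v with v | v
  · exact map_mul v y z
  · exact map_mul v.1 y z

private theorem ab_one (v : Plc K S) : ab v (1 : K) = 1 := by
  rcases v with v | v
  · exact map_one v
  · exact map_one v.1

private theorem ab_zero (v : Plc K S) : ab v (0 : K) = 0 := by
  rcases v with v | v
  · exact map_zero v
  · exact map_zero v.1

private theorem ab_neg (v : Plc K S) (z : K) : ab v (-z) = ab v z := by
  rcases v with v | v
  · exact v.1.map_neg z
  · exact map_neg_eq_map v.1 z

theorem lam_one (v : Plc K S) : lam v (1 : K) = 0 := by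
  unfold lam
  rw [ab_one, log_one, mul_zero, zero_div]

theorem lam_neg (v : Plc K S) (z : K) : lam v (-z) = lam v z := by
  unfold lam
  rw [ab_neg]

theorem lam_mul (v : Plc K S) {y z : K} (hy : y ≠ 0) (hz : z ≠ 0) :
    lam v (y * z) = lam v y + lam v z := by
  unfold lam
  rw [ab_mul, log_mul (ab_pos v hy).ne' (ab_pos v hz).ne']
  ring

private theorem lam_zero (v : Plc K S) : lam v (0 : K) = 0 := by
  unfold lam
  rw [ab_zero, log_zero, mul_zero, zero_div]

theorem lam_inv (v : Plc K S) (z : K) : lam v z⁻¹ = -lam v z := by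
  rcases eq_or_ne z 0 with rfl | hz
  · rw [inv_zero, lam_zero, neg_zero]
  · have h := lam_mul v hz (inv_ne_zero hz)
    rw [mul_inv_cancel₀ hz, lam_one] at h
    linarith

theorem lam_pow (v : Plc K S) (z : K) (n : ℕ) : lam v (z ^ n) = n * lam v z := by
  rcases eq_or_ne z 0 with rfl | hz
  · rcases Nat.eq_zero_or_pos n with rfl | hn
    · rw [pow_zero, lam_one, Nat.cast_zero, zero_mul]
    · rw [zero_pow hn.ne', lam_zero, mul_zero]
  · induction n with
    | zero => rw [pow_zero, lam_one, Nat.cast_zero, zero_mul]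
    | succ n ih =>
      rw [pow_succ, lam_mul v (pow_ne_zero n hz) hz, ih]
      push_cast
      ring

theorem lam_zpow (v : Plc K S) (z : K) (n : ℤ) : lam v (z ^ n) = n * lam v z := by
  obtain ⟨m, rfl | rfl⟩ := n.eq_nat_or_neg
  · rw [zpow_natCast, lam_pow, Int.cast_natCast]
  · rw [zpow_neg, zpow_natCast, lam_inv, lam_pow, Int.cast_neg, Int.cast_natCast]
    ring

theorem lam_prod (v : Plc K S) {α : Type} (s : Finset α) (f : α → K) (h : ∀ a ∈ s, f a ≠ 0) :
    lam v (∏ a ∈ s, f a) = ∑ a ∈ s, lam v (f a) := by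
  classical
  induction s using Finset.induction_on with
  | empty => rw [Finset.prod_empty, Finset.sum_empty, lam_one]
  | insert a s ha ih =>
    rw [Finset.prod_insert ha, Finset.sum_insert ha,
      lam_mul v (h a (Finset.mem_insert_self a s))
        (Finset.prod_ne_zero_iff.2 fun b hb => h b (Finset.mem_insert_of_mem hb)),
      ih fun b hb => h b (Finset.mem_insert_of_mem hb)]

theorem wt_nonneg (v : Plc K S) : 0 ≤ wt v := by
  rcases v with v | v
  · exact div_nonneg (Nat.cast_nonneg _) (fr_pos K).le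
  · exact le_rfl

private theorem sum_plc (f : Plc K S → ℝ) : ∑ v : Plc K S, f v =
    ∑ v : InfinitePlace K, f (Sum.inl v) + ∑ v : {v : FinitePlace K // v ∈ S}, f (Sum.inr v) :=
  Fintype.sum_sum_type f

/-- `InfinitePlace.sum_mult_eq`. -/
theorem sum_wt : ∑ v : Plc K S, wt v = 1 := by
  rw [sum_plc]
  have h1 : ∑ v : InfinitePlace K, wt (Sum.inl v : Plc K S) = 1 := by
    change ∑ v : InfinitePlace K, (v.mult : ℝ) / finrank ℚ K = 1
    rw [← Finset.sum_div, ← Nat.cast_sum, InfinitePlace.sum_mult_eq, div_self (fr_pos K).ne']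
  have h2 : ∑ v : {v : FinitePlace K // v ∈ S}, wt (Sum.inr v : Plc K S) = 0 :=
    Finset.sum_eq_zero fun v _ => rfl
  rw [h1, h2, add_zero]

private theorem sum_lam_eq (z : K) : ∑ v : Plc K S, lam v z =
    (∑ v : InfinitePlace K, (v.mult : ℝ) * log (v z) + ∑ v ∈ S, log (v z)) / finrank ℚ K := by
  rw [sum_plc, add_div, Finset.sum_div, Finset.sum_div]
  congr 1
  change ∑ v : {v : FinitePlace K // v ∈ S}, (1 * log (v.1 z) / (finrank ℚ K : ℝ)) = _
  rw [← Finset.sum_coe_sort S]
  exact Finset.sum_congr rfl fun v _ => by rw [one_mul]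

private theorem supp_fin {z : K} (hz : z ≠ 0) :
    (Function.mulSupport fun v : FinitePlace K => v z).Finite := FinitePlace.hasFiniteMulSupport hz

private theorem prod_formula {z : K} (hz : z ≠ 0) (T : Finset (FinitePlace K))
    (hT : ∀ v : FinitePlace K, v z ≠ 1 → v ∈ T) :
    ∑ v : InfinitePlace K, (v.mult : ℝ) * log (v z) + ∑ v ∈ T, log (v z) = 0 := by
  have h := prod_abs_eq_one hz
  have h1 : ∏ᶠ w : FinitePlace K, w z = ∏ w ∈ T, w z :=
    finprod_eq_prod_of_mulSupport_subset _ fun v hv => hT v hv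
  rw [h1] at h
  have h2 := congrArg Real.log h
  rw [log_one, log_mul, log_prod, log_prod] at h2
  · rw [← h2]
    congr 1
    exact Finset.sum_congr rfl fun v _ => (log_pow _ _).symm
  · exact fun v _ => (FinitePlace.pos_iff.2 hz).ne'
  · exact fun v _ => pow_ne_zero _ (InfinitePlace.pos_iff.2 hz).ne'
  · exact Finset.prod_ne_zero_iff.2 fun v _ => pow_ne_zero _ (InfinitePlace.pos_iff.2 hz).ne'
  · exact Finset.prod_ne_zero_iff.2 fun v _ => (FinitePlace.pos_iff.2 hz).ne'

/-- Product formula; the finite places outside `S` contribute at most `0`. -/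
theorem sum_lam_nonneg {z : K} (hz : z ≠ 0) (h : IntOff S z) : 0 ≤ ∑ v : Plc K S, lam v z := by
  classical
  rw [sum_lam_eq]
  refine div_nonneg ?_ (fr_pos K).le
  have h1 := prod_formula hz (S ∪ (supp_fin hz).toFinset) fun v hv =>
    Finset.mem_union_right _ ((supp_fin hz).mem_toFinset.2 hv)
  have h2 : ∑ v ∈ S ∪ (supp_fin hz).toFinset, log (v z) ≤ ∑ v ∈ S, log (v z) := by
    rw [← Finset.sum_sdiff (Finset.subset_union_left (s₁ := S) (s₂ := (supp_fin hz).toFinset))]
    have h3 : ∑ v ∈ (S ∪ (supp_fin hz).toFinset) \ S, log (v z) ≤ 0 := by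
      refine Finset.sum_nonpos fun v hv => ?_
      rw [Finset.mem_sdiff] at hv
      exact log_nonpos (apply_nonneg v z) (h v hv.2)
    linarith
  linarith

theorem off_iff_intOff {z : K} (h : Off S z) : IntOff S z := fun v hv => (h v hv).le

private theorem Off.inv' {z : K} (h : Off S z) : Off S z⁻¹ := by
  intro v hv
  rw [map_inv₀, h v hv, inv_one]

/-- **Product formula** (`NumberField.prod_abs_eq_one`; the `finprod` over the finite places has
support in `S`). -/
theorem sum_lam {z : K} (hz : z ≠ 0) (h : Off S z) : ∑ v : Plc K S, lam v z = 0 := by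
  have h1 := sum_lam_nonneg hz (off_iff_intOff h)
  have h2 := sum_lam_nonneg (inv_ne_zero hz) (off_iff_intOff h.inv')
  have h3 : ∑ v : Plc K S, lam v z⁻¹ = -∑ v : Plc K S, lam v z := by
    rw [← Finset.sum_neg_distrib]
    exact Finset.sum_congr rfl fun v _ => lam_inv v z
  rw [h3] at h2
  linarith

/-- The height is the sum of the positive parts (`NumberField.logHeight₁_eq`). -/
theorem sum_max_lam {z : K} (hz : z ≠ 0) (h : IntOff S z) :
    ∑ v : Plc K S, max (lam v z) 0 = ht z := by
  have hn := fr_pos K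
  have h1 : ∀ v : Plc K S, max (lam v z) 0 = dg v * log⁺ (ab v z) / finrank ℚ K := by
    intro v
    unfold lam
    rw [Real.posLog, mul_div_right_comm, mul_div_right_comm, mul_comm (dg v / _) (log _),
      mul_comm (dg v / _) (max 0 _), max_comm 0 (log _),
      max_mul_of_nonneg _ _ (div_nonneg (dg_pos v).le hn.le), zero_mul]
  rw [Finset.sum_congr rfl fun v _ => h1 v, ← Finset.sum_div]
  unfold ht
  rw [NumberField.logHeight₁_eq, sum_plc]
  congr 2
  have h2 : ∑ᶠ v : FinitePlace K, log⁺ (v z) = ∑ v ∈ S, log⁺ (v z) := by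
    refine finsum_eq_sum_of_support_subset _ fun v hv => ?_
    by_contra hvS
    apply hv
    exact Real.posLog_eq_zero_iff (v z) |>.2 (by
      rw [abs_of_nonneg (apply_nonneg v z)]
      exact h v hvS)
  rw [h2]
  change ∑ v : {v : FinitePlace K // v ∈ S}, (1 * log⁺ (v.1 z)) = _
  rw [← Finset.sum_coe_sort S]
  exact Finset.sum_congr rfl fun v _ => by rw [one_mul]

/-- `|t| = 2 max t 0 - t`. -/
theorem sum_abs_lam {z : K} (hz : z ≠ 0) (h : Off S z) : ∑ v : Plc K S, |lam v z| = 2 * ht z := by
  have h1 : ∀ t : ℝ, |t| = 2 * max t 0 - t := by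
    intro t
    rcases le_total 0 t with ht | ht
    · rw [abs_of_nonneg ht, max_eq_left ht]
      ring
    · rw [abs_of_nonpos ht, max_eq_right ht]
      ring
  rw [Finset.sum_congr rfl fun v _ => h1 (lam v z), Finset.sum_sub_distrib, ← Finset.mul_sum,
    sum_max_lam hz (off_iff_intOff h), sum_lam hz h, sub_zero]

/-- Finitely many nonzero numbers are units outside a finite set (`FinitePlace.hasFiniteMulSupport` or
`FinitePlace.mulSupport_finite`). -/
theorem exists_S (K : Type) [Field K] [NumberField K] {α : Type} [Finite α] (z : α → K)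
    (hz : ∀ a, z a ≠ 0) : ∃ S : Finset (FinitePlace K), ∀ a, Off S (z a) := by
  classical
  have : Fintype α := Fintype.ofFinite α
  refine ⟨Finset.univ.biUnion fun a => (supp_fin (hz a)).toFinset, fun a v hv => ?_⟩
  by_contra h
  exact hv (Finset.mem_biUnion.2 ⟨a, Finset.mem_univ a, (supp_fin (hz a)).mem_toFinset.2 h⟩)

omit [NumberField K] in
private theorem pl_inf_int (v : InfinitePlace K) (n : ℤ) : v (n : K) = |(n : ℝ)| := by
  rcases Int.natAbs_eq n with h | h
  · rw [h]
    simp only [Int.cast_natCast, InfinitePlace.map_natCast, Nat.abs_cast]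
  · rw [h]
    have e : v (-((n.natAbs : ℕ) : K)) = v ((n.natAbs : ℕ) : K) := v.1.map_neg _
    simp only [Int.cast_neg, Int.cast_natCast, abs_neg, Nat.abs_cast]
    rw [e, InfinitePlace.map_natCast]

private theorem pl_fin_nat (v : FinitePlace K) (p : ℕ) : v (p : K) ≤ 1 := by
  have h := NumberField.FinitePlace.norm_le_one K v.maximalIdeal (p : 𝓞 K)
  rw [FinitePlace.norm_embedding_eq] at h
  simpa using h

private theorem pl_fin_int (v : FinitePlace K) (n : ℤ) : v (n : K) ≤ 1 := by
  rcases Int.natAbs_eq n with h | h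
  · rw [h]
    simp only [Int.cast_natCast]
    exact pl_fin_nat v _
  · rw [h]
    simp only [Int.cast_neg, Int.cast_natCast, map_neg_eq_map]
    exact pl_fin_nat v _

private theorem pl_fin_sum (v : FinitePlace K) {β : Type} (s : Finset β) (f : β → K) (B : ℝ)
    (hB : 0 ≤ B) (h : ∀ i ∈ s, v (f i) ≤ B) : v (∑ i ∈ s, f i) ≤ B := by
  classical
  induction s using Finset.induction_on with
  | empty => rw [Finset.sum_empty, map_zero]; exact hB
  | insert a s ha ih =>
    rw [Finset.sum_insert ha]
    refine (FinitePlace.add_le v _ _).trans (max_le (h a (Finset.mem_insert_self a s)) ?_)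
    exact ih fun i hi => h i (Finset.mem_insert_of_mem hi)

/-- `|n| ≥ 1` at infinite places, `≤ 1` at finite places. -/
theorem lam_int_le (v : Plc K S) (n : ℤ) (hn : n ≠ 0) : lam v (n : K) ≤ wt v * log |(n : ℝ)| := by
  rcases v with v | v
  · change (v.mult : ℝ) * log (v (n : K)) / finrank ℚ K ≤ (v.mult : ℝ) / finrank ℚ K * log |(n : ℝ)|
    rw [pl_inf_int]
    exact le_of_eq (by ring)
  · change (1 : ℝ) * log (v.1 (n : K)) / finrank ℚ K ≤ 0 * log |(n : ℝ)|
    rw [zero_mul, one_mul]
    exact div_nonpos_of_nonpos_of_nonneg (log_nonpos (apply_nonneg _ _) (pl_fin_int v.1 n))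
      (fr_pos K).le

/-- **Sums.** If all nonzero terms have `lam ≤ X` and there are at most `M` terms, then a nonzero sum
has `lam ≤ X + wt * log M` (at infinite places the sum is at most `M` times the maximum; at finite places
at most the maximum). -/
theorem lam_sum_le (v : Plc K S) {α : Type} (s : Finset α) (z : α → K) (X M : ℝ)
    (hM : (s.card : ℝ) ≤ M) (h : ∀ a ∈ s, z a ≠ 0 → lam v (z a) ≤ X)
    (hne : ∑ a ∈ s, z a ≠ 0) : lam v (∑ a ∈ s, z a) ≤ X + wt v * log M := by
  have hn := fr_pos K
  have hD : 0 < dg v / finrank ℚ K := div_pos (dg_pos v) hn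
  obtain ⟨D, hDdef⟩ : ∃ D, D = dg v / finrank ℚ K := ⟨_, rfl⟩
  rw [← hDdef] at hD
  have hlam : ∀ y : K, lam v y = D * log (ab v y) := by
    intro y
    rw [hDdef]
    unfold lam
    ring
  have hcard : 1 ≤ s.card := by
    by_contra h0
    have h1 : s = ∅ := Finset.card_eq_zero.1 (by omega)
    rw [h1, Finset.sum_empty] at hne
    exact hne rfl
  have hM1 : 1 ≤ M := le_trans (by exact_mod_cast hcard) hM
  have hB : ∀ a ∈ s, ab v (z a) ≤ exp (X / D) := by
    intro a ha
    rcases eq_or_ne (z a) 0 with h0 | h0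
    · rw [h0, ab_zero]
      exact (exp_pos _).le
    · have h1 := h a ha h0
      rw [hlam] at h1
      rw [← log_le_iff_le_exp (ab_pos v h0), le_div_iff₀ hD]
      linarith
  have hpos := ab_pos v hne
  rcases v with v | v
  · have h1 : v (∑ a ∈ s, z a) ≤ ∑ a ∈ s, v (z a) := v.1.sum_le _ _
    have h2 : ∑ a ∈ s, v (z a) ≤ M * exp (X / D) := by
      refine (Finset.sum_le_card_nsmul s _ (exp (X / D)) hB).trans ?_
      rw [nsmul_eq_mul]
      exact mul_le_mul_of_nonneg_right hM (exp_pos _).le
    have h3 : ab (Sum.inl v : Plc K S) (∑ a ∈ s, z a) ≤ M * exp (X / D) := h1.trans h2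
    have h4 := log_le_log hpos h3
    rw [log_mul (by linarith) (exp_pos _).ne', log_exp] at h4
    have h5 : wt (Sum.inl v : Plc K S) = D := by
      rw [hDdef]
      rfl
    rw [h5, hlam]
    have h6 := mul_le_mul_of_nonneg_left h4 hD.le
    have h7 : D * (log M + X / D) = X + D * log M := by
      field_simp
      ring
    linarith
  · have h1 : v.1 (∑ a ∈ s, z a) ≤ exp (X / D) := pl_fin_sum v.1 s z _ (exp_pos _).le hB
    have h4 := log_le_log hpos (show ab (Sum.inr v : Plc K S) (∑ a ∈ s, z a) ≤ _ from h1)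
    rw [log_exp] at h4
    have h5 : wt (Sum.inr v : Plc K S) = 0 := rfl
    rw [h5, hlam, zero_mul, add_zero]
    have h6 := mul_le_mul_of_nonneg_left h4 hD.le
    rwa [mul_div_cancel₀ X hD.ne'] at h6

theorem intOff_int (n : ℤ) : IntOff S (n : K) := fun v _ => pl_fin_int v n

theorem IntOff.mul {y z : K} (hy : IntOff S y) (hz : IntOff S z) : IntOff S (y * z) := by
  intro v hv
  rw [map_mul]
  exact mul_le_one₀ (hy v hv) (apply_nonneg v z) (hz v hv)

theorem IntOff.pow {z : K} (hz : IntOff S z) (n : ℕ) : IntOff S (z ^ n) := by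
  intro v hv
  rw [map_pow]
  exact pow_le_one₀ (apply_nonneg v z) (hz v hv)

theorem IntOff.sum {α : Type} (s : Finset α) (z : α → K) (h : ∀ a ∈ s, IntOff S (z a)) :
    IntOff S (∑ a ∈ s, z a) := fun v hv =>
  pl_fin_sum v s z 1 zero_le_one fun a ha => h a ha v hv

theorem IntOff.prod {α : Type} (s : Finset α) (z : α → K) (h : ∀ a ∈ s, IntOff S (z a)) :
    IntOff S (∏ a ∈ s, z a) := by
  intro v hv
  rw [map_prod]
  exact Finset.prod_le_one (fun a _ => apply_nonneg v _) fun a ha => h a ha v hv

/-- A root of unity has `lam = 0` at all places. -/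
theorem lam_of_pow_eq_one (v : Plc K S) (z : K) (m : ℕ) (hm : 0 < m) (h : z ^ m = 1) :
    lam v z = 0 := by
  have h1 := lam_pow v z m
  rw [h, lam_one] at h1
  have h2 : (0 : ℝ) < m := by exact_mod_cast hm
  rcases mul_eq_zero.1 h1.symm with h3 | h3
  · linarith
  · exact h3

private theorem total_eq (K : Type) [Field K] [NumberField K] :
    (totalWeight K : ℝ) = finrank ℚ K := by
  have h := NumberField.sum_archAbsVal_eq (K := K) (fun _ => (1 : ℕ))
  rw [Multiset.map_const', Multiset.sum_replicate, smul_eq_mul, mul_one] at h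
  have h2 : ∑ v : InfinitePlace K, v.mult • (1 : ℕ) = finrank ℚ K := by
    rw [← InfinitePlace.sum_mult_eq (K := K)]
    exact Finset.sum_congr rfl fun v _ => by rw [smul_eq_mul, mul_one]
  rw [h2] at h
  exact_mod_cast h

/-- `ht (1 - x) ≤ ht x + log 2` (`|1 - x| ≤ 2 max 1 |x|`; see `Pool/Agent` for
`logHeight₁_one_sub`-like lemmas, or Mathlib's bound for the height of a sum). -/
theorem ht_one_sub (x : K) : ht (1 - x) ≤ ht x + log 2 := by
  have hn := fr_pos K
  have h := logHeight₁_sub_le (1 : K) x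
  rw [logHeight₁_one, total_eq, add_zero] at h
  unfold ht
  rw [div_le_iff₀ hn, add_mul, div_mul_cancel₀ _ hn.ne']
  linarith

theorem ht_inv (x : K) : ht x⁻¹ = ht x := by
  unfold ht
  rw [logHeight₁_inv]

theorem ht_nonneg (x : K) : 0 ≤ ht x := div_nonneg (zero_le_logHeight₁ x) (fr_pos K).le

end Pool.Agent.LAll
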