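import Pool.Agent.LAll.ProdCoeff
import Pool.Agent.LAll.Places

set_option autoImplicit false

/-! UV14. Sizes of Taylor coefficients. -/

namespace Pool.Agent.LAll

open NumberField Height Real Module

variable {W : Type} [Fintype W] [DecidableEq W]
variable {K : Type} [Field K] [NumberField K] {S : Finset (FinitePlace K)}

private lemma tb_lam_natCast (v : Plc K S) (n : ℕ) (hn : n ≠ 0) :
    lam v (n : K) ≤ wt v * log n := by
  have h := lam_int_le v (n : ℤ) (by exact_mod_cast hn) (K := K)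
  simpa using h

private lemma tb_lam_choose (v : Plc K S) (n a : ℕ) (h : a ≤ n) :
    lam v ((n.choose a : ℕ) : K) ≤ wt v * n := by
  refine (tb_lam_natCast v _ (Nat.choose_pos h).ne').trans ?_
  refine mul_le_mul_of_nonneg_left ?_ (wt_nonneg v)
  have h1 : ((n.choose a : ℕ) : ℝ) ≤ 2 ^ n := by exact_mod_cast Nat.choose_le_two_pow n a
  have h2 : (0 : ℝ) < ((n.choose a : ℕ) : ℝ) := by exact_mod_cast Nat.choose_pos h
  have h3 := Real.log_le_log h2 h1
  rw [Real.log_pow] at h3
  have h4 : Real.log 2 ≤ 1 := by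
    have := Real.log_two_lt_d9
    linarith
  have h5 : (0 : ℝ) ≤ n := Nat.cast_nonneg n
  nlinarith

private lemma tb_lam_neg_one_pow (v : Plc K S) (n : ℕ) : lam v ((-1 : K) ^ n) = 0 := by
  rw [lam_pow, lam_neg, lam_one, mul_zero]

omit [NumberField K] in
private lemma tb_coeff_X_add (r : K) (n a : ℕ) :
    ((Polynomial.X + Polynomial.C r) ^ n).coeff a = r ^ (n - a) * (n.choose a : K) :=
  Polynomial.coeff_X_add_C_pow r n a

omit [NumberField K] in
private lemma tb_coeff_C_sub (r : K) (n a : ℕ) :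
    ((Polynomial.C r - Polynomial.X) ^ n).coeff a =
      (-1) ^ n * ((-r) ^ (n - a) * (n.choose a : K)) := by
  have h : (Polynomial.C r - Polynomial.X : Polynomial K) ^ n =
      Polynomial.C ((-1) ^ n) * (Polynomial.X + Polynomial.C (-r)) ^ n := by
    rw [Polynomial.C_pow, ← mul_pow]
    congr 1
    simp only [Polynomial.C_neg, Polynomial.C_1]
    ring
  rw [h, Polynomial.coeff_C_mul, Polynomial.coeff_X_add_C_pow]

/-- the case of one variable -/
private lemma tb_one (v : Plc K S) (t : K) (ht : t ≠ 0) (ht' : 1 - t ≠ 0) (p q m : ℕ)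
    (h : ((Polynomial.X + Polynomial.C t) ^ p *
      (Polynomial.C (1 - t) - Polynomial.X) ^ q : Polynomial K).coeff m ≠ 0) :
    lam v (((Polynomial.X + Polynomial.C t) ^ p *
      (Polynomial.C (1 - t) - Polynomial.X) ^ q : Polynomial K).coeff m) ≤
      (p * lam v t + q * lam v (1 - t) + m * (|lam v t| + |lam v (1 - t)|)) +
        2 * wt v * ((p : ℝ) + q) := by
  rw [Polynomial.coeff_mul] at h ⊢
  have hw := wt_nonneg v
  -- nonzero terms
  have hterm : ∀ x : ℕ × ℕ, ((Polynomial.X + Polynomial.C t : Polynomial K) ^ p).coeff x.1 *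
      ((Polynomial.C (1 - t) - Polynomial.X : Polynomial K) ^ q).coeff x.2 ≠ 0 →
      x.1 ≤ p ∧ x.2 ≤ q := by
    intro x hx
    constructor
    · by_contra hlt
      apply hx
      rw [tb_coeff_X_add, Nat.choose_eq_zero_of_lt (not_le.1 hlt)]
      simp
    · by_contra hlt
      apply hx
      rw [tb_coeff_C_sub, Nat.choose_eq_zero_of_lt (not_le.1 hlt)]
      simp
  have hm : m ≤ p + q := by
    by_contra hlt
    apply h
    refine Finset.sum_eq_zero fun x hx => ?_
    by_contra hne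
    have h1 := hterm x hne
    rw [Finset.HasAntidiagonal.mem_antidiagonal] at hx
    omega
  have h1 := lam_sum_le v (Finset.HasAntidiagonal.antidiagonal m)
    (fun x : ℕ × ℕ => ((Polynomial.X + Polynomial.C t : Polynomial K) ^ p).coeff x.1 *
      ((Polynomial.C (1 - t) - Polynomial.X : Polynomial K) ^ q).coeff x.2)
    ((p * lam v t + q * lam v (1 - t) + m * (|lam v t| + |lam v (1 - t)|)) +
      wt v * ((p : ℝ) + q)) (m + 1) (by
        rw [Finset.Nat.card_antidiagonal]
        push_cast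
        exact le_rfl) (fun x hx hne => ?_) h
  · refine h1.trans ?_
    have h2 : log ((m : ℝ) + 1) ≤ m := by
      have := Real.log_le_sub_one_of_pos (show (0 : ℝ) < (m : ℝ) + 1 by positivity)
      linarith
    have h3 : (m : ℝ) ≤ (p : ℝ) + q := by exact_mod_cast hm
    have h4 := mul_le_mul_of_nonneg_left (h2.trans h3) hw
    linarith
  · obtain ⟨ha, hb⟩ := hterm x hne
    rw [Finset.HasAntidiagonal.mem_antidiagonal] at hx
    have hca : ((p.choose x.1 : ℕ) : K) ≠ 0 := by
      exact_mod_cast (Nat.choose_pos ha).ne'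
    have hcb : ((q.choose x.2 : ℕ) : K) ≠ 0 := by
      exact_mod_cast (Nat.choose_pos hb).ne'
    have hneg : -(1 - t) ≠ 0 := neg_ne_zero.2 ht'
    have hone : ((-1 : K) ^ q) ≠ 0 := pow_ne_zero _ (neg_ne_zero.2 one_ne_zero)
    rw [tb_coeff_X_add, tb_coeff_C_sub, lam_mul v (mul_ne_zero (pow_ne_zero _ ht) hca)
      (mul_ne_zero hone (mul_ne_zero (pow_ne_zero _ hneg) hcb)),
      lam_mul v (pow_ne_zero _ ht) hca, lam_mul v hone (mul_ne_zero (pow_ne_zero _ hneg) hcb),
      lam_mul v (pow_ne_zero _ hneg) hcb, tb_lam_neg_one_pow, lam_pow, lam_pow, lam_neg,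
      Nat.cast_sub ha, Nat.cast_sub hb]
    have e1 := tb_lam_choose (K := K) v p x.1 ha
    have e2 := tb_lam_choose (K := K) v q x.2 hb
    have e3 : (x.1 : ℝ) ≤ m := by exact_mod_cast (by omega : x.1 ≤ m)
    have e4 : (x.2 : ℝ) ≤ m := by exact_mod_cast (by omega : x.2 ≤ m)
    have e5 : -((x.1 : ℝ) * lam v t) ≤ m * |lam v t| := by
      have h1 := neg_abs_le (lam v t)
      have h2 : -((x.1 : ℝ) * lam v t) ≤ (x.1 : ℝ) * |lam v t| := by
        have h0 : (0 : ℝ) ≤ x.1 := Nat.cast_nonneg _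
        nlinarith
      exact h2.trans (mul_le_mul_of_nonneg_right e3 (abs_nonneg _))
    have e6 : -((x.2 : ℝ) * lam v (1 - t)) ≤ m * |lam v (1 - t)| := by
      have h1 := neg_abs_le (lam v (1 - t))
      have h2 : -((x.2 : ℝ) * lam v (1 - t)) ≤ (x.2 : ℝ) * |lam v (1 - t)| := by
        have h0 : (0 : ℝ) ≤ x.2 := Nat.cast_nonneg _
        nlinarith
      exact h2.trans (mul_le_mul_of_nonneg_right e4 (abs_nonneg _))
    nlinarith

omit [NumberField K] in
private lemma tb_coeff_bin (t : W → K) (p q : W → ℕ) (m : W →₀ ℕ) :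
    (tay t (bin p q)).coeff m = ∏ k, ((Polynomial.X + Polynomial.C (t k)) ^ p k *
      (Polynomial.C (1 - t k) - Polynomial.X) ^ q k : Polynomial K).coeff (m k) := by
  rw [← coeff_prod]
  congr 1
  rw [tay, bin, map_prod]
  refine Finset.prod_congr rfl fun k _ => ?_
  simp only [map_mul, map_pow, map_add, map_sub, map_one, MvPolynomial.aeval_X,
    Polynomial.aeval_X, Polynomial.aeval_C, MvPolynomial.algebraMap_eq]
  congr 2
  ring

/-- **Taylor coefficients of a product.** If it is not zero,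
`lam v (coefficient m of bin p q at t) ≤ ∑ p_k lam t_k + q_k lam (1 - t_k) + m_k (|lam t_k| + |lam (1 - t_k)|)`
`+ 2 wt v ∑ (p_k + q_k)`.

Proof. `tay t (bin p q) = ∏_k ((X_k + t_k)^p_k * (1 - t_k - X_k)^q_k)`, so by `coeff_prod` (with
`g k = (X + C (t k)) ^ p k * (C (1 - t k) - X) ^ q k`) the coefficient is the product of
`∑_{a + b = m_k} choose p_k a * t_k ^ (p_k - a) * choose q_k b * (-1) ^ b * (1 - t_k) ^ (q_k - b)`
(`Polynomial.coeff_mul`, `Polynomial.coeff_X_add_C_pow`). A nonzero term has `a ≤ p_k`, `b ≤ q_k` and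
`lam ≤ wt (p_k + q_k) log 2 + p_k lam t_k + q_k lam (1 - t_k) + a |lam t_k| + b |lam (1 - t_k)|`
(`lam_mul`, `lam_pow`, `lam_int_le`, `Nat.choose_le_two_pow`). `lam_sum_le` with `M = m_k + 1`;
`log (m_k + 1) ≤ m_k ≤ p_k + q_k` (nonzero terms exist), `log 2 ≤ 1`. `lam_prod`. -/
theorem lam_tay_bin (v : Plc K S) (t : W → K) (ht : ∀ k, t k ≠ 0 ∧ 1 - t k ≠ 0) (p q : W → ℕ)
    (m : W →₀ ℕ) (h : (tay t (bin p q)).coeff m ≠ 0) :
    lam v ((tay t (bin p q)).coeff m) ≤
      ∑ k, (p k * lam v (t k) + q k * lam v (1 - t k) +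
        m k * (|lam v (t k)| + |lam v (1 - t k)|)) + 2 * wt v * ∑ k, ((p k : ℝ) + q k) := by
  rw [tb_coeff_bin] at h ⊢
  have hne : ∀ k, ((Polynomial.X + Polynomial.C (t k)) ^ p k *
      (Polynomial.C (1 - t k) - Polynomial.X) ^ q k : Polynomial K).coeff (m k) ≠ 0 :=
    fun k => Finset.prod_ne_zero_iff.1 h k (Finset.mem_univ k)
  rw [lam_prod v _ _ fun k _ => hne k, Finset.mul_sum, ← Finset.sum_add_distrib]
  exact Finset.sum_le_sum fun k _ => tb_one v (t k) (ht k).1 (ht k).2 (p k) (q k) (m k) (hne k)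

/-- The Taylor coefficients in terms of the coefficients (`aeval` of a polynomial as a sum over the
support, `coeff_prod` or `MvPolynomial` binomial formula for `∏ (X_k + C t_k) ^ n_k`). -/
theorem coeff_tay (t : W → K) (F : MvPolynomial W ℤ) (m : W →₀ ℕ) :
    (tay t F).coeff m =
      ∑ n ∈ F.support, ((F.coeff n : ℤ) : K) * ∏ k, (((n k).choose (m k) : ℕ) : K) * t k ^ (n k - m k) := by
  rw [tay, MvPolynomial.aeval_def, MvPolynomial.eval₂_eq', MvPolynomial.coeff_sum]
  refine Finset.sum_congr rfl fun n _ => ?_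
  have h1 : algebraMap ℤ (MvPolynomial W K) (F.coeff n) = MvPolynomial.C ((F.coeff n : ℤ) : K) := by
    simp
  have h2 : (∏ k, (MvPolynomial.X k + MvPolynomial.C (t k) : MvPolynomial W K) ^ n k) =
      ∏ k, Polynomial.aeval (MvPolynomial.X k : MvPolynomial W K)
        ((Polynomial.X + Polynomial.C (t k)) ^ n k) := by
    refine Finset.prod_congr rfl fun k _ => ?_
    simp only [map_pow, map_add, Polynomial.aeval_X, Polynomial.aeval_C,
      MvPolynomial.algebraMap_eq]
  rw [h1, h2, MvPolynomial.coeff_C_mul, coeff_prod]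
  congr 1
  refine Finset.prod_congr rfl fun k _ => ?_
  rw [Polynomial.coeff_X_add_C_pow, mul_comm]

/-- The value is the coefficient `0`. -/
theorem coeff_zero_tay (t : W → K) (F : MvPolynomial W ℤ) :
    (tay t F).coeff 0 = MvPolynomial.aeval t F := by
  rw [coeff_tay, MvPolynomial.aeval_def, MvPolynomial.eval₂_eq']
  refine Finset.sum_congr rfl fun n _ => ?_
  simp

/-- **Monomial estimate.** If the Taylor coefficient `m` of `F` is not zero, all coefficients of `F`
are at most `exp Y`, all exponents `n_k` in the support of `F` are at most `D_k`, and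
`∑ k, (n_k - m_k) lam t_k ≤ X` for all `n` in the support with `m ≤ n`, then
`lam v (...) ≤ X + wt v (Y + 2 ∑ D_k)`.

Proof. `coeff_tay`; a nonzero term has `m_k ≤ n_k` for all `k`; `lam_int_le`, `lam_pow`, `lam_prod`;
`choose ≤ 2 ^ n_k`; the number of terms is at most `∏ (D_k + 1) ≤ exp (∑ D_k)`; `lam_sum_le`. -/
theorem lam_tay_mono (v : Plc K S) (t : W → K) (ht : ∀ k, t k ≠ 0) (F : MvPolynomial W ℤ)
    (m : W →₀ ℕ) (h : (tay t F).coeff m ≠ 0) (X Y : ℝ) (D : W → ℕ)
    (hY : ∀ n, |((F.coeff n : ℤ) : ℝ)| ≤ exp Y)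
    (hD : ∀ n ∈ F.support, ∀ k, n k ≤ D k)
    (hX : ∀ n ∈ F.support, (∀ k, m k ≤ n k) →
      ∑ k, ((n k : ℝ) - m k) * lam v (t k) ≤ X) :
    lam v ((tay t F).coeff m) ≤ X + wt v * (Y + 2 * ∑ k, (D k : ℝ)) := by
  classical
  have hw := wt_nonneg v
  rw [coeff_tay] at h ⊢
  have hcard : (F.support.card : ℝ) ≤ ∏ k, ((D k : ℝ) + 1) := by
    have h1 : F.support.card ≤ (Fintype.piFinset fun k => Finset.range (D k + 1)).card := by
      refine Finset.card_le_card_of_injOn (fun n => fun k => n k) (fun n hn => ?_)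
        (fun n _ n' _ hnn => DFunLike.coe_injective hnn)
      rw [Finset.mem_coe, Fintype.mem_piFinset]
      intro k
      rw [Finset.mem_range]
      exact Nat.lt_succ_of_le (hD n hn k)
    rw [Fintype.card_piFinset] at h1
    simp only [Finset.card_range] at h1
    exact_mod_cast h1
  have hlog : log (∏ k, ((D k : ℝ) + 1)) ≤ ∑ k, (D k : ℝ) := by
    rw [Real.log_prod (fun k _ => by positivity)]
    refine Finset.sum_le_sum fun k _ => ?_
    have := Real.log_le_sub_one_of_pos (show (0 : ℝ) < (D k : ℝ) + 1 by positivity)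
    linarith
  have h1 := lam_sum_le v F.support
    (fun n => ((F.coeff n : ℤ) : K) * ∏ k, (((n k).choose (m k) : ℕ) : K) * t k ^ (n k - m k))
    (X + wt v * (Y + ∑ k, (D k : ℝ))) _ hcard (fun n hn hne => ?_) h
  · refine h1.trans ?_
    have h2 := mul_le_mul_of_nonneg_left hlog hw
    linarith
  · have hmn : ∀ k, m k ≤ n k := by
      intro k
      by_contra hlt
      apply hne
      rw [Finset.prod_eq_zero (Finset.mem_univ k), mul_zero]
      rw [Nat.choose_eq_zero_of_lt (not_le.1 hlt)]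
      simp
    have hck : ∀ k, (((n k).choose (m k) : ℕ) : K) ≠ 0 := fun k => by
      exact_mod_cast (Nat.choose_pos (hmn k)).ne'
    have hF : F.coeff n ≠ 0 := MvPolynomial.mem_support_iff.1 hn
    have hFK : ((F.coeff n : ℤ) : K) ≠ 0 := by exact_mod_cast hF
    have hpk : ∀ k ∈ Finset.univ, (((n k).choose (m k) : ℕ) : K) * t k ^ (n k - m k) ≠ 0 :=
      fun k _ => mul_ne_zero (hck k) (pow_ne_zero _ (ht k))
    rw [lam_mul v hFK (Finset.prod_ne_zero_iff.2 hpk), lam_prod v _ _ hpk]
    have e1 : lam v ((F.coeff n : ℤ) : K) ≤ wt v * Y := by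
      refine (lam_int_le v _ hF).trans (mul_le_mul_of_nonneg_left ?_ hw)
      rw [Real.log_le_iff_le_exp (abs_pos.2 (by exact_mod_cast hF))]
      exact hY n
    have e2 : ∑ k, lam v ((((n k).choose (m k) : ℕ) : K) * t k ^ (n k - m k)) ≤
        ∑ k, (wt v * (D k : ℝ) + ((n k : ℝ) - m k) * lam v (t k)) := by
      refine Finset.sum_le_sum fun k _ => ?_
      rw [lam_mul v (hck k) (pow_ne_zero _ (ht k)), lam_pow, Nat.cast_sub (hmn k)]
      have e3 := tb_lam_choose (K := K) v (n k) (m k) (hmn k)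
      have e4 : wt v * (n k : ℝ) ≤ wt v * (D k : ℝ) :=
        mul_le_mul_of_nonneg_left (by exact_mod_cast hD n hn k) hw
      linarith
    rw [Finset.sum_add_distrib, ← Finset.mul_sum] at e2
    have e5 := hX n hn hmn
    linarith

/-- Outside `S` everything is integral. -/
theorem intOff_tay (t : W → K) (ht : ∀ k, Off S (t k)) (F : MvPolynomial W ℤ) (m : W →₀ ℕ) :
    IntOff S ((tay t F).coeff m) := by
  rw [coeff_tay]
  refine IntOff.sum _ _ fun n _ => IntOff.mul (intOff_int _) (IntOff.prod _ _ fun k _ => ?_)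
  refine IntOff.mul ?_ (IntOff.pow (off_iff_intOff (ht k)) _)
  have h := intOff_int (S := S) (((n k).choose (m k) : ℕ) : ℤ) (K := K)
  simpa using h

end Pool.Agent.LAll
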