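import Pool.Agent.LAll.AuxPoly
import Pool.Agent.LAll.TayBd

set_option autoImplicit false

/-! UV15. The core: a finite statement about one point. -/

namespace Pool.Agent.LAll

open NumberField Height Real Module

variable {W : Type} [Fintype W] [DecidableEq W]

private theorem core_coeff_eq {I : Type} [Fintype I] (c : I → ℤ) (p q : I → W → ℕ)
    (m : W →₀ ℕ) : (∑ a, MvPolynomial.C (c a) * bin (p a) (q a)).coeff m =
      ∑ a, c a * (bin (p a) (q a)).coeff m := by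
  rw [MvPolynomial.coeff_sum]
  exact Finset.sum_congr rfl fun a _ => MvPolynomial.coeff_C_mul _ _ _

private theorem core_tay_eq {K : Type} [Field K] {I : Type} [Fintype I] (t : W → K) (c : I → ℤ)
    (p q : I → W → ℕ) (m : W →₀ ℕ) :
    (tay t (∑ a, MvPolynomial.C (c a) * bin (p a) (q a))).coeff m =
      ∑ a, (c a : K) * (tay t (bin (p a) (q a))).coeff m := by
  rw [tay_sum, MvPolynomial.coeff_sum]
  refine Finset.sum_congr rfl fun a _ => ?_
  have h : tay t (MvPolynomial.C (c a)) = MvPolynomial.C ((c a : ℤ) : K) := by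
    unfold tay
    rw [MvPolynomial.aeval_C, eq_intCast, map_intCast]
  rw [tay_mul, h, MvPolynomial.coeff_C_mul]

private theorem core_supp {I : Type} [Fintype I] (c : I → ℤ) (p q : I → W → ℕ) (m : W →₀ ℕ)
    (n : W → ℕ) (C₁ : ℝ) (hpq : ∀ a k, (p a k : ℝ) + q a k ≤ C₁ * n k)
    (h : (∑ a, MvPolynomial.C (c a) * bin (p a) (q a)).coeff m ≠ 0) (k : W) :
    (m k : ℝ) ≤ C₁ * n k := by
  rw [core_coeff_eq] at h
  obtain ⟨a, -, ha⟩ := Finset.exists_ne_zero_of_sum_ne_zero h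
  have h1 := coeff_bin_support (p a) (q a) m (right_ne_zero_of_mul ha) k
  have h2 : (m k : ℝ) ≤ (p a k : ℝ) + q a k := by exact_mod_cast h1.2
  exact h2.trans (hpq a k)

private theorem core_q_sum {I : Type} (p q : I → W → ℕ) (n : W → ℕ) (C₁ : ℝ)
    (hpq : ∀ a k, (p a k : ℝ) + q a k ≤ C₁ * n k) (a : I) :
    ∑ k, (q a k : ℝ) ≤ C₁ * ∑ k, (n k : ℝ) := by
  rw [Finset.mul_sum]
  refine Finset.sum_le_sum fun k _ => ?_
  have h1 := hpq a k
  have h2 : (0 : ℝ) ≤ p a k := Nat.cast_nonneg _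
  linarith

private theorem core_coeff_le {I : Type} [Fintype I] (c : I → ℤ) (p q : I → W → ℕ) (m : W →₀ ℕ)
    (n : W → ℕ) (C₁ : ℝ) (hpq : ∀ a k, (p a k : ℝ) + q a k ≤ C₁ * n k)
    (hI : (Fintype.card I : ℝ) ≤ exp (C₁ * ∑ k, (n k : ℝ)))
    (hc : ∀ a, |(c a : ℝ)| ≤ exp (C₁ * ∑ k, (n k : ℝ))) :
    |(((∑ a, MvPolynomial.C (c a) * bin (p a) (q a)).coeff m : ℤ) : ℝ)| ≤
      exp (3 * C₁ * ∑ k, (n k : ℝ)) := by
  rw [core_coeff_eq]
  push_cast
  refine (Finset.abs_sum_le_sum_abs _ _).trans ?_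
  have h1 : ∀ a ∈ (Finset.univ : Finset I),
      |(c a : ℝ) * (((bin (p a) (q a)).coeff m : ℤ) : ℝ)| ≤
        exp (C₁ * ∑ k, (n k : ℝ)) * exp (C₁ * ∑ k, (n k : ℝ)) := by
    intro a _
    rw [abs_mul]
    refine mul_le_mul (hc a) ?_ (abs_nonneg _) (exp_pos _).le
    exact (abs_coeff_bin_le (p a) (q a) m).trans (exp_le_exp.2 (core_q_sum p q n C₁ hpq a))
  refine (Finset.sum_le_sum h1).trans ?_
  rw [Finset.sum_const, nsmul_eq_mul, Finset.card_univ]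
  have h2 : exp (3 * C₁ * ∑ k, (n k : ℝ)) = exp (C₁ * ∑ k, (n k : ℝ)) *
      (exp (C₁ * ∑ k, (n k : ℝ)) * exp (C₁ * ∑ k, (n k : ℝ))) := by
    rw [← exp_add, ← exp_add]
    congr 1
    ring
  rw [h2]
  exact mul_le_mul_of_nonneg_right hI (by positivity)

/-- the real inequality for (a) -/
private theorem core_real_a (S : Finset W) {κ : ℕ} (rα rβ : Fin κ → W → ℝ) (e : Fin κ → ℕ)
    (i p q n m : W → ℕ) (B C₂ : ℕ) (he : ∀ j, e j ≤ B) (hi : ∀ k, i k ≤ n k) (hm : ∀ k, m k ≤ n k)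
    (hp : ∀ k, (p k : ℝ) = C₂ * n k + ∑ j, (e j : ℝ) * rα j k + if k ∈ S then 0 else (i k : ℝ))
    (hq : ∀ k, (q k : ℝ) = C₂ * n k + ∑ j, (e j : ℝ) * rβ j k + if k ∈ S then (i k : ℝ) else 0)
    (x y : W → ℝ) :
    ∑ k, (p k * x k + q k * y k + m k * (|x k| + |y k|)) ≤
      C₂ * ∑ k, n k * (x k + y k) + B * ∑ j, |∑ k, (rα j k * x k + rβ j k * y k)| +
        2 * ∑ k, n k * (|x k| + |y k|) := by
  have h1 : ∀ k ∈ (Finset.univ : Finset W),
      (p k * x k + q k * y k + m k * (|x k| + |y k|) : ℝ) ≤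
      C₂ * (n k * (x k + y k)) + ∑ j, (e j : ℝ) * (rα j k * x k + rβ j k * y k) +
        2 * (n k * (|x k| + |y k|)) := by
    intro k _
    have hi' : (i k : ℝ) ≤ n k := by exact_mod_cast hi k
    have hm' : (m k : ℝ) ≤ n k := by exact_mod_cast hm k
    have hi0 : (0 : ℝ) ≤ i k := Nat.cast_nonneg _
    have hx := abs_nonneg (x k)
    have hy := abs_nonneg (y k)
    have hs : (if k ∈ S then 0 else (i k : ℝ)) * x k + (if k ∈ S then (i k : ℝ) else 0) * y k ≤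
        n k * (|x k| + |y k|) := by
      split_ifs
      · rw [zero_mul, zero_add]
        have h2 : (i k : ℝ) * y k ≤ i k * |y k| := mul_le_mul_of_nonneg_left (le_abs_self _) hi0
        have h3 : (i k : ℝ) * |y k| ≤ n k * |y k| := mul_le_mul_of_nonneg_right hi' hy
        have h4 : (0 : ℝ) ≤ n k * |x k| := mul_nonneg (Nat.cast_nonneg _) hx
        linarith
      · rw [zero_mul, add_zero]
        have h2 : (i k : ℝ) * x k ≤ i k * |x k| := mul_le_mul_of_nonneg_left (le_abs_self _) hi0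
        have h3 : (i k : ℝ) * |x k| ≤ n k * |x k| := mul_le_mul_of_nonneg_right hi' hx
        have h4 : (0 : ℝ) ≤ n k * |y k| := mul_nonneg (Nat.cast_nonneg _) hy
        linarith
    have hm2 : (m k : ℝ) * (|x k| + |y k|) ≤ n k * (|x k| + |y k|) :=
      mul_le_mul_of_nonneg_right hm' (add_nonneg hx hy)
    have hsum : ∑ j, (e j : ℝ) * (rα j k * x k + rβ j k * y k) =
        (∑ j, (e j : ℝ) * rα j k) * x k + (∑ j, (e j : ℝ) * rβ j k) * y k := by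
      rw [Finset.sum_mul, Finset.sum_mul, ← Finset.sum_add_distrib]
      refine Finset.sum_congr rfl fun j _ => ?_
      ring
    rw [hsum, hp k, hq k]
    linarith
  refine (Finset.sum_le_sum h1).trans ?_
  rw [Finset.sum_add_distrib, Finset.sum_add_distrib, ← Finset.mul_sum, ← Finset.mul_sum,
    Finset.sum_comm]
  have h2 : ∑ j, ∑ k, (e j : ℝ) * (rα j k * x k + rβ j k * y k) ≤
      B * ∑ j, |∑ k, (rα j k * x k + rβ j k * y k)| := by
    rw [Finset.mul_sum]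
    refine Finset.sum_le_sum fun j _ => ?_
    rw [← Finset.mul_sum]
    have he' : (e j : ℝ) ≤ B := by exact_mod_cast he j
    calc (e j : ℝ) * ∑ k, (rα j k * x k + rβ j k * y k)
        ≤ e j * |∑ k, (rα j k * x k + rβ j k * y k)| :=
          mul_le_mul_of_nonneg_left (le_abs_self _) (Nat.cast_nonneg _)
      _ ≤ B * |∑ k, (rα j k * x k + rβ j k * y k)| :=
          mul_le_mul_of_nonneg_right he' (abs_nonneg _)
  linarith

/-- (a) -/
private theorem core_a {K : Type} [Field K] [NumberField K] {T₀ : Finset (FinitePlace K)}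
    (S : Finset W) {κ : ℕ} (rα rβ : Fin κ → W → ℝ) {I : Type} [Fintype I]
    (e : I → Fin κ → ℕ) (i p q : I → W → ℕ) (c : I → ℤ) (n : W → ℕ) (B C₂ : ℕ) (C₁ : ℝ)
    (he : ∀ a j, e a j ≤ B) (hi : ∀ a k, i a k ≤ n k)
    (hp : ∀ a k, (p a k : ℝ) = C₂ * n k + ∑ j, (e a j : ℝ) * rα j k +
      if k ∈ S then 0 else (i a k : ℝ))
    (hq : ∀ a k, (q a k : ℝ) = C₂ * n k + ∑ j, (e a j : ℝ) * rβ j k +
      if k ∈ S then (i a k : ℝ) else 0)
    (hpq : ∀ a k, (p a k : ℝ) + q a k ≤ C₁ * n k)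
    (hI : (Fintype.card I : ℝ) ≤ exp (C₁ * ∑ k, (n k : ℝ)))
    (hc : ∀ a, |(c a : ℝ)| ≤ exp (C₁ * ∑ k, (n k : ℝ)))
    (v : Plc K T₀) (t : W → K) (ht : ∀ k, t k ≠ 0 ∧ 1 - t k ≠ 0) (m : W →₀ ℕ)
    (hm : ∀ k, m k ≤ n k)
    (h : (tay t (∑ a, MvPolynomial.C (c a) * bin (p a) (q a))).coeff m ≠ 0) :
    lam v ((tay t (∑ a, MvPolynomial.C (c a) * bin (p a) (q a))).coeff m) ≤
      C₂ * ∑ k, n k * (lam v (t k) + lam v (1 - t k)) +
        B * ∑ j, |∑ k, (rα j k * lam v (t k) + rβ j k * lam v (1 - t k))| +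
        2 * ∑ k, n k * (|lam v (t k)| + |lam v (1 - t k)|) +
        wt v * (4 * C₁ * ∑ k, (n k : ℝ)) := by
  have hw := wt_nonneg v
  rw [core_tay_eq] at h ⊢
  have h1 := lam_sum_le v (Finset.univ : Finset I)
    (fun a => (c a : K) * (tay t (bin (p a) (q a))).coeff m)
    (C₂ * ∑ k, n k * (lam v (t k) + lam v (1 - t k)) +
        B * ∑ j, |∑ k, (rα j k * lam v (t k) + rβ j k * lam v (1 - t k))| +
        2 * ∑ k, n k * (|lam v (t k)| + |lam v (1 - t k)|) +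
        wt v * (3 * C₁ * ∑ k, (n k : ℝ))) (exp (C₁ * ∑ k, (n k : ℝ)))
    (by rw [Finset.card_univ]; exact hI) ?_ h
  · rw [log_exp] at h1
    linarith
  · intro a _ ha
    have hca : (c a : K) ≠ 0 := left_ne_zero_of_mul ha
    have hca' : c a ≠ 0 := fun h0 => hca (by rw [h0, Int.cast_zero])
    have hta := right_ne_zero_of_mul ha
    rw [lam_mul v hca hta]
    have h2 := lam_int_le v (c a) hca'
    have h3 := lam_tay_bin v t ht (p a) (q a) m hta
    have h4 := core_real_a S rα rβ (e a) (i a) (p a) (q a) n m B C₂ (he a) (hi a) hm (hp a)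
      (hq a) (fun k => lam v (t k)) (fun k => lam v (1 - t k))
    have h5 : log |(c a : ℝ)| ≤ C₁ * ∑ k, (n k : ℝ) := by
      rw [← log_exp (C₁ * ∑ k, (n k : ℝ))]
      exact log_le_log (abs_pos.2 (by exact_mod_cast hca')) (hc a)
    have h6 : wt v * log |(c a : ℝ)| ≤ wt v * (C₁ * ∑ k, (n k : ℝ)) :=
      mul_le_mul_of_nonneg_left h5 hw
    have h7 : ∑ k, ((p a k : ℝ) + q a k) ≤ C₁ * ∑ k, (n k : ℝ) := by
      rw [Finset.mul_sum]
      exact Finset.sum_le_sum fun k _ => hpq a k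
    have h8 : 2 * wt v * ∑ k, ((p a k : ℝ) + q a k) ≤ 2 * wt v * (C₁ * ∑ k, (n k : ℝ)) :=
      mul_le_mul_of_nonneg_left h7 (by linarith)
    have h9 : wt v * (3 * C₁ * ∑ k, (n k : ℝ)) =
        wt v * (C₁ * ∑ k, (n k : ℝ)) + 2 * wt v * (C₁ * ∑ k, (n k : ℝ)) := by ring
    rw [h9]
    linarith

/-- the real inequality for (b) -/
private theorem core_real_b (S : Finset W) (n n' m : W → ℕ) (C₂ Θ : ℕ) (C₁ g : ℝ)
    (hC₁ : 0 ≤ C₁) (hg : 0 ≤ g) (x y : W → ℝ) (hn : ∀ k, 0 < n k) (hgx : ∀ k ∈ S, g ≤ -(n k * x k))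
    (hm : ∀ k, m k ≤ n k) (hm' : ∀ k, m k ≤ n' k) (hn' : ∀ k, (n' k : ℝ) ≤ C₁ * n k)
    (hS : ∀ k ∈ S, C₂ * n k ≤ n' k) (k₀ : W) (hk₀ : k₀ ∈ S)
    (hk₀' : C₂ * n k₀ + Θ * n k₀ ≤ n' k₀) :
    ∑ k, ((n' k : ℝ) - m k) * x k ≤
      C₂ * ∑ k, n k * (x k + y k) - Θ * g +
        (C₂ + C₁) * (∑ k ∈ Sᶜ, n k * (|x k| + |y k|) + ∑ k ∈ S, n k * |y k|) +
        ∑ k, n k * (|x k| + |y k|) := by
  have hxS : ∀ k ∈ S, x k ≤ 0 := by
    intro k hk
    have h1 := hgx k hk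
    have h2 : (0 : ℝ) < n k := by exact_mod_cast hn k
    by_contra h3
    push Not at h3
    have := mul_pos h2 h3
    linarith
  have h1 : ∀ k ∈ S, ((n' k : ℝ) - m k) * x k ≤
      C₂ * (n k * (x k + y k)) - (if k = k₀ then Θ * g else 0) +
        (C₂ + C₁) * (n k * |y k|) + n k * (|x k| + |y k|) := by
    intro k hk
    have hx := hxS k hk
    have hy := abs_nonneg (y k)
    have hny : (0 : ℝ) ≤ n k * |y k| := mul_nonneg (Nat.cast_nonneg _) hy
    have hy2 : -(n k * |y k|) ≤ n k * y k := by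
      rw [← mul_neg]
      exact mul_le_mul_of_nonneg_left (neg_abs_le _) (Nat.cast_nonneg _)
    have hC₂ : (0 : ℝ) ≤ C₂ := Nat.cast_nonneg _
    have hy3 : (C₂ : ℝ) * -(n k * |y k|) ≤ C₂ * (n k * y k) := mul_le_mul_of_nonneg_left hy2 hC₂
    have hy4 : 0 ≤ C₁ * (n k * |y k|) := mul_nonneg hC₁ hny
    have hmx : -((m k : ℝ) * x k) ≤ n k * |x k| := by
      rw [abs_of_nonpos hx, ← mul_neg]
      exact mul_le_mul_of_nonneg_right (by exact_mod_cast hm k) (by linarith)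
    have hmain : (n' k : ℝ) * x k ≤ C₂ * (n k * x k) - (if k = k₀ then Θ * g else 0) := by
      split_ifs with h2
      · subst h2
        have h3 : ((C₂ * n k + Θ * n k : ℕ) : ℝ) ≤ n' k := by exact_mod_cast hk₀'
        push_cast at h3
        have h4 := mul_le_mul_of_nonpos_right h3 hx
        have h5 : (Θ : ℝ) * g ≤ Θ * -(n k * x k) :=
          mul_le_mul_of_nonneg_left (hgx k hk) (Nat.cast_nonneg _)
        have h6 : ((C₂ : ℝ) * n k + Θ * n k) * x k = C₂ * (n k * x k) + Θ * (n k * x k) := by ring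
        rw [h6] at h4
        linarith
      · have h3 : ((C₂ * n k : ℕ) : ℝ) ≤ n' k := by exact_mod_cast hS k hk
        push_cast at h3
        have h4 := mul_le_mul_of_nonpos_right h3 hx
        have h6 : (C₂ : ℝ) * n k * x k = C₂ * (n k * x k) := by ring
        rw [h6] at h4
        linarith
    have e1 : ((n' k : ℝ) - m k) * x k = n' k * x k - m k * x k := by ring
    have e2 : (C₂ : ℝ) * (n k * (x k + y k)) = C₂ * (n k * x k) + C₂ * (n k * y k) := by ring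
    have e3 : (n k : ℝ) * (|x k| + |y k|) = n k * |x k| + n k * |y k| := by ring
    have e4 : (C₂ + C₁) * (n k * |y k|) = C₂ * (n k * |y k|) + C₁ * (n k * |y k|) := by ring
    rw [e1, e2, e3, e4]
    linarith
  have h2 : ∀ k ∈ Sᶜ, ((n' k : ℝ) - m k) * x k ≤
      C₂ * (n k * (x k + y k)) + (C₂ + C₁) * (n k * (|x k| + |y k|)) +
        n k * (|x k| + |y k|) := by
    intro k _
    have hx := abs_nonneg (x k)
    have hy := abs_nonneg (y k)
    have hn0 : (0 : ℝ) ≤ n k := Nat.cast_nonneg _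
    have hC₂ : (0 : ℝ) ≤ C₂ := Nat.cast_nonneg _
    have h3 : (0 : ℝ) ≤ (n' k : ℝ) - m k := by
      have : (m k : ℝ) ≤ n' k := by exact_mod_cast hm' k
      linarith
    have h4 : ((n' k : ℝ) - m k) * x k ≤ (C₁ * n k) * |x k| := by
      refine (mul_le_mul_of_nonneg_left (le_abs_self _) h3).trans ?_
      refine mul_le_mul_of_nonneg_right ?_ hx
      have := hn' k
      have hm0 : (0 : ℝ) ≤ m k := Nat.cast_nonneg _
      linarith
    have h5 : -((n k : ℝ) * (|x k| + |y k|)) ≤ n k * (x k + y k) := by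
      rw [← mul_neg]
      refine mul_le_mul_of_nonneg_left ?_ hn0
      have := neg_abs_le (x k)
      have := neg_abs_le (y k)
      linarith
    have h6 : (C₂ : ℝ) * -((n k : ℝ) * (|x k| + |y k|)) ≤ C₂ * (n k * (x k + y k)) :=
      mul_le_mul_of_nonneg_left h5 hC₂
    have h7 : 0 ≤ C₁ * (n k * |y k|) := mul_nonneg hC₁ (mul_nonneg hn0 hy)
    have h8 : (0 : ℝ) ≤ n k * (|x k| + |y k|) := mul_nonneg hn0 (by linarith)
    have e4 : (C₂ + C₁) * (n k * (|x k| + |y k|)) = C₂ * (n k * (|x k| + |y k|)) +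
      C₁ * n k * |x k| + C₁ * (n k * |y k|) := by ring
    rw [e4]
    linarith
  rw [← Finset.sum_add_sum_compl S fun k => ((n' k : ℝ) - m k) * x k,
    ← Finset.sum_add_sum_compl S fun k => (n k : ℝ) * (x k + y k),
    ← Finset.sum_add_sum_compl S fun k => (n k : ℝ) * (|x k| + |y k|)]
  have h3 := Finset.sum_le_sum h1
  have h4 := Finset.sum_le_sum h2
  rw [Finset.sum_add_distrib, Finset.sum_add_distrib, Finset.sum_sub_distrib,
    ← Finset.mul_sum, ← Finset.mul_sum, Finset.sum_ite_eq' S k₀ fun _ => (Θ : ℝ) * g,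
    if_pos hk₀] at h3
  rw [Finset.sum_add_distrib, Finset.sum_add_distrib, ← Finset.mul_sum, ← Finset.mul_sum] at h4
  rw [mul_add, mul_add]
  linarith

/-- (b) -/
private theorem core_b {K : Type} [Field K] [NumberField K] {T₀ : Finset (FinitePlace K)}
    (S : Finset W) (F : MvPolynomial W ℤ) (n : W → ℕ) (C₂ Θ : ℕ) (C₁ g : ℝ)
    (hC₁ : 0 ≤ C₁) (hg : 0 ≤ g) (hn : ∀ k, 0 < n k)
    (hF : ∀ m : W →₀ ℕ, F.coeff m ≠ 0 → ∀ k, (m k : ℝ) ≤ C₁ * n k)
    (hY : ∀ m : W →₀ ℕ, |((F.coeff m : ℤ) : ℝ)| ≤ exp (3 * C₁ * ∑ k, (n k : ℝ)))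
    (hS : ∀ m : W →₀ ℕ, F.coeff m ≠ 0 →
      (∀ k ∈ S, C₂ * n k ≤ m k) ∧ ∃ k ∈ S, C₂ * n k + Θ * n k ≤ m k)
    (v : Plc K T₀) (t : W → K) (ht : ∀ k, t k ≠ 0 ∧ 1 - t k ≠ 0) (m : W →₀ ℕ)
    (hm : ∀ k, m k ≤ n k) (hgx : ∀ k ∈ S, g ≤ -(n k * lam v (t k)))
    (h : (tay t F).coeff m ≠ 0) :
    lam v ((tay t F).coeff m) ≤
      C₂ * ∑ k, n k * (lam v (t k) + lam v (1 - t k)) - Θ * g +
        (C₂ + C₁) * (∑ k ∈ Sᶜ, n k * (|lam v (t k)| + |lam v (1 - t k)|) +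
          ∑ k ∈ S, n k * |lam v (1 - t k)|) +
        ∑ k, n k * (|lam v (t k)| + |lam v (1 - t k)|) +
        wt v * (5 * C₁ * ∑ k, (n k : ℝ)) := by
  have hw := wt_nonneg v
  have h1 := lam_tay_mono v t (fun k => (ht k).1) F m h
    (C₂ * ∑ k, n k * (lam v (t k) + lam v (1 - t k)) - Θ * g +
        (C₂ + C₁) * (∑ k ∈ Sᶜ, n k * (|lam v (t k)| + |lam v (1 - t k)|) +
          ∑ k ∈ S, n k * |lam v (1 - t k)|) +
        ∑ k, n k * (|lam v (t k)| + |lam v (1 - t k)|)) (3 * C₁ * ∑ k, (n k : ℝ))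
    (fun k => ⌊C₁ * n k⌋₊) hY ?_ ?_
  · have h2 : ∑ k, ((⌊C₁ * n k⌋₊ : ℕ) : ℝ) ≤ C₁ * ∑ k, (n k : ℝ) := by
      rw [Finset.mul_sum]
      exact Finset.sum_le_sum fun k _ =>
        Nat.floor_le (mul_nonneg hC₁ (Nat.cast_nonneg _))
    have h3 : wt v * (3 * C₁ * ∑ k, (n k : ℝ) + 2 * ∑ k, ((⌊C₁ * n k⌋₊ : ℕ) : ℝ)) ≤
        wt v * (5 * C₁ * ∑ k, (n k : ℝ)) := by
      refine mul_le_mul_of_nonneg_left ?_ hw
      linarith
    linarith
  · intro n' hn' k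
    exact Nat.le_floor (hF n' (MvPolynomial.mem_support_iff.1 hn') k)
  · intro n' hn' hmn
    have h4 := MvPolynomial.mem_support_iff.1 hn'
    obtain ⟨k₀, hk₀, hk₀'⟩ := (hS n' h4).2
    exact core_real_b S n n' m C₂ Θ C₁ g hC₁ hg (fun k => lam v (t k)) (fun k => lam v (1 - t k))
      hn hgx hm hmn (hF n' h4) (hS n' h4).1 k₀ hk₀ hk₀'

/-- rounding -/
private theorem core_round (n : W → ℕ) (α β : W → ℝ) (x y : W → ℝ) :
    |∑ k, ((round (n k * α k) : ℝ) * x k + (round (n k * β k) : ℝ) * y k)| ≤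
      |∑ k, n k * (α k * x k + β k * y k)| + 1 / 2 * ∑ k, (|x k| + |y k|) := by
  have h1 : ∑ k, ((round (n k * α k) : ℝ) * x k + (round (n k * β k) : ℝ) * y k) =
      ∑ k, n k * (α k * x k + β k * y k) +
        ∑ k, (((round (n k * α k) : ℝ) - n k * α k) * x k +
          ((round (n k * β k) : ℝ) - n k * β k) * y k) := by
    rw [← Finset.sum_add_distrib]
    refine Finset.sum_congr rfl fun k _ => ?_
    ring
  rw [h1]
  refine (abs_add_le _ _).trans (add_le_add le_rfl ?_)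
  refine (Finset.abs_sum_le_sum_abs _ _).trans ?_
  rw [Finset.mul_sum]
  refine Finset.sum_le_sum fun k _ => ?_
  refine (abs_add_le _ _).trans ?_
  rw [abs_mul, abs_mul, mul_add]
  have h2 : |(round (n k * α k) : ℝ) - n k * α k| ≤ 1 / 2 := by
    rw [abs_sub_comm]
    exact abs_sub_round _
  have h3 : |(round (n k * β k) : ℝ) - n k * β k| ≤ 1 / 2 := by
    rw [abs_sub_comm]
    exact abs_sub_round _
  exact add_le_add (mul_le_mul_of_nonneg_right h2 (abs_nonneg _))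
    (mul_le_mul_of_nonneg_right h3 (abs_nonneg _))

/-- **CORE.** `|Sᶜ| + 1` numbers `φ_j = ∏ t_k ^ (n_k α_jk) (1 - t_k) ^ (n_k β_jk)` of small height,
without `t_k` for `k ∈ S`, of independent orders, and places at which all `t_k`, `k ∈ S`, are small and
the other coordinates are not active, give a polynomial with very small Taylor coefficients, which
therefore vanish.

Proof. Let `κ = |Sᶜ| + 1`, `Θ : ℕ` with `Θ μ ≥ 3 |W| C₀ + 2`, `Θ ≥ 1`; `B, C₂, N₁, C₁` from `aux_poly`.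
`C₅ = 20 (C₁ + 1) (|W| + 1)` (generous), `C = C₅`; `δ = 1 / (2 (B κ + C₂ + 2 C₅ + 1))` (or smaller);
`N₀ ≥ N₁`, `N₀ ≥ B κ |W| C₀ + 1`. Let `K, T₀, t, n, T, 𝒱, g` be as in the hypotheses, `F` the polynomial of
`aux_poly`. `degreeOf k F ≤ C₁ n_k` (`coeff_bin_support`: every `m` in the support is `≤ p_a + q_a` for
some `a`), `|coeff| ≤ |I| exp (C₁ ∑ n) exp (C₁ ∑ n) ≤ exp (3 C₁ ∑ n)` (`abs_coeff_bin_le`). Let
`∑ m_k / n_k ≤ 1`, so `m_k ≤ n_k`, and suppose `z = (tay t F).coeff m ≠ 0`. Put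
`com v = C₂ ∑ k, n_k (lam t_k + lam (1 - t_k))`, `D v = ∑ k, n_k (|lam t_k| + |lam (1 - t_k)|)`,
`ψ_j v = ∑ k, round (n_k α_jk) lam t_k + round (n_k β_jk) lam (1 - t_k)`,
`sm v = ∑_{k ∉ S} n_k (|lam t_k| + |lam (1 - t_k)|) + ∑_{k ∈ S} n_k |lam (1 - t_k)|`.
(a) All `v` (used for `v ∉ 𝒱`): `z = ∑_a c_a (tay t (bin p_a q_a)).coeff m`; by `lam_tay_bin`, `lam_int_le`
and `lam_sum_le`: `lam v z ≤ com v + B ∑ j, |ψ_j v| + 2 D v + wt v C₅ ∑ n`
(`p_a k lam t_k + q_a k lam (1 - t_k) = com-part + ∑ j e_j (...) + i_k lam (t_k or 1 - t_k)`).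
(b) `v ∈ 𝒱`: `lam t_k ≤ 0` for `k ∈ S` (`0 ≤ g v ≤ - n_k lam t_k`, `n_k > 0`). For `n'` in the support of `F`
with `m ≤ n'`, and `k₀ ∈ S` with `n'_k₀ ≥ (C₂ + Θ) n_k₀`:
`∑ (n'_k - m_k) lam t_k ≤ ∑_{k ∈ S} C₂ n_k lam t_k + Θ n_k₀ lam t_k₀ + ∑_{k ∈ S} m_k |lam t_k| +
∑_{k ∉ S} C₁ n_k |lam t_k| ≤ com v + (C₂ + C₁) sm v - Θ g v + D v`
(`com v - ∑_{k ∈ S} C₂ n_k lam t_k ≥ - C₂ sm v`). `lam_tay_mono` with `Y = 3 C₁ ∑ n`, `D_k = ⌊C₁ n_k⌋`:
`lam v z ≤ com v - Θ g v + (C₂ + C₁) sm v + D v + wt v C₅ ∑ n`.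
(c) Sum over all `v`: `0 ≤ ∑ lam v z` (`sum_lam_nonneg`, `intOff_tay`), `∑ com v = 0` (`sum_lam`),
`∑ D v ≤ |W| C₀ T`, `∑_v |ψ_j v| ≤ δ T + (1/2) ∑ k, ∑ v (|lam t_k| + |lam (1 - t_k)|) ≤
δ T + |W| C₀ T / (2 N₀)` (`abs_sub_round`), `∑ wt = 1`, `∑ n ≤ δ T`:
`0 ≤ T (B κ δ + B κ |W| C₀ / (2 N₀) + 2 |W| C₀ + |W| C₀ + (C₂ + C₁) δ + C₅ δ - Θ μ) < 0`. -/
theorem core (S : Finset W) (hS : S.Nonempty) {κ : ℕ} (hκ : Sᶜ.card + 1 = κ)
    (α β : Fin κ → W → ℝ) (hα : ∀ j, ∀ k ∈ S, α j k = 0)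
    (hsep : ∀ e : Fin κ → ℤ, e ≠ 0 →
      ∃ k, 2 ≤ |∑ j, (e j : ℝ) * (if k ∈ S then β j k else α j k)|)
    (C₀ μ : ℝ) (hC₀ : 0 < C₀) (hμ : 0 < μ) :
    ∃ (C δ : ℝ) (N₀ : ℕ), 0 < C ∧ 0 < δ ∧ ∀ (K : Type) [Field K] [NumberField K]
      (T₀ : Finset (FinitePlace K)) (t : W → K) (n : W → ℕ) (T : ℝ), 0 < T →
      (∀ k, t k ≠ 0 ∧ 1 - t k ≠ 0) → (∀ k, Off T₀ (t k) ∧ Off T₀ (1 - t k)) →
      (∀ k, N₀ ≤ n k) →
      (∀ k, n k * ∑ v : Plc K T₀, (|lam v (t k)| + |lam v (1 - t k)|) ≤ C₀ * T) →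
      (∀ j, ∑ v : Plc K T₀,
        |∑ k, n k * (α j k * lam v (t k) + β j k * lam v (1 - t k))| ≤ δ * T) →
      ∑ k, (n k : ℝ) ≤ δ * T →
      (∃ (𝒱 : Finset (Plc K T₀)) (g : Plc K T₀ → ℝ), (∀ v ∈ 𝒱, 0 ≤ g v) ∧
        (∀ v ∈ 𝒱, ∀ k ∈ S, g v ≤ -(n k * lam v (t k))) ∧ μ * T ≤ ∑ v ∈ 𝒱, g v ∧
        ∑ v ∈ 𝒱, (∑ k ∈ Sᶜ, n k * (|lam v (t k)| + |lam v (1 - t k)|) +
          ∑ k ∈ S, n k * |lam v (1 - t k)|) ≤ δ * T) →
      ∃ F : MvPolynomial W ℤ, F ≠ 0 ∧ (∀ k, (F.degreeOf k : ℝ) ≤ C * n k) ∧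
        (∀ m, |((F.coeff m : ℤ) : ℝ)| ≤ exp (C * ∑ k, (n k : ℝ))) ∧
        ∀ m : W →₀ ℕ, ∑ k, (m k : ℝ) / n k ≤ 1 → (tay t F).coeff m = 0 := by
  obtain ⟨Θ, hΘ⟩ := exists_nat_ge ((2 * (Fintype.card W : ℝ) * C₀ + 3) / μ)
  have hΘμ : 2 * (Fintype.card W : ℝ) * C₀ + 3 ≤ Θ * μ := (div_le_iff₀ hμ).1 hΘ
  have hcW : (0 : ℝ) ≤ Fintype.card W := Nat.cast_nonneg _
  have hΘ1 : 1 ≤ Θ := by
    rcases Nat.eq_zero_or_pos Θ with h0 | h0
    · rw [h0, Nat.cast_zero, zero_mul] at hΘμ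
      have : 0 ≤ 2 * (Fintype.card W : ℝ) * C₀ := by positivity
      linarith
    · exact h0
  obtain ⟨B, C₂, N₁, C₁, hB, hC₂, hN₁, hC₁, haux⟩ := aux_poly S hS hκ α β hα hsep Θ hΘ1
  obtain ⟨N₂, hN₂⟩ := exists_nat_ge ((B : ℝ) * κ * Fintype.card W * C₀)
  have hC₁0 : (0 : ℝ) ≤ C₁ := by linarith
  have hden : (0 : ℝ) < B * κ + C₂ + 6 * C₁ := by
    have : (0 : ℝ) ≤ B * κ := by positivity
    have : (0 : ℝ) ≤ C₂ := Nat.cast_nonneg _
    linarith
  refine ⟨3 * C₁, 1 / (B * κ + C₂ + 6 * C₁), max N₁ (N₂ + 1), by linarith, by positivity, ?_⟩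
  intro K _ _ T₀ t n T hT ht hOff hn hC hψ hns ⟨𝒱, g, hg, hgx, hμg, hsm⟩
  set δ : ℝ := 1 / (B * κ + C₂ + 6 * C₁) with hδ
  obtain ⟨I, _, e, i, p, q, c, he, hi, hp, hq, hpq, hI, hc, hF0, hFS⟩ :=
    haux n fun k => (le_max_left _ _).trans (hn k)
  have hn0 : ∀ k, 0 < n k := fun k =>
    lt_of_lt_of_le (Nat.succ_pos N₂) ((le_max_right _ _).trans (hn k))
  have hnN : ∀ k, (N₂ : ℝ) + 1 ≤ n k := fun k => by
    exact_mod_cast (le_max_right _ _).trans (hn k)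
  have hdeg : ∀ m : W →₀ ℕ, (∑ a, MvPolynomial.C (c a) * bin (p a) (q a)).coeff m ≠ 0 →
      ∀ k, (m k : ℝ) ≤ C₁ * n k := fun m h k => core_supp c p q m n C₁ hpq h k
  have hco : ∀ m : W →₀ ℕ,
      |(((∑ a, MvPolynomial.C (c a) * bin (p a) (q a)).coeff m : ℤ) : ℝ)| ≤
        exp (3 * C₁ * ∑ k, (n k : ℝ)) := fun m => core_coeff_le c p q m n C₁ hpq hI hc
  refine ⟨∑ a, MvPolynomial.C (c a) * bin (p a) (q a), hF0, fun k => ?_, hco, ?_⟩
  · have h1 : (∑ a, MvPolynomial.C (c a) * bin (p a) (q a)).degreeOf k ≤ ⌊C₁ * n k⌋₊ := by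
      rw [MvPolynomial.degreeOf_le_iff]
      intro m hm
      exact Nat.le_floor (hdeg m (MvPolynomial.mem_support_iff.1 hm) k)
    have h2 : (((∑ a, MvPolynomial.C (c a) * bin (p a) (q a)).degreeOf k : ℕ) : ℝ) ≤ C₁ * n k :=
      (Nat.cast_le.2 h1).trans (Nat.floor_le (mul_nonneg hC₁0 (Nat.cast_nonneg _)))
    have h3 : 0 ≤ C₁ * n k := mul_nonneg hC₁0 (Nat.cast_nonneg _)
    linarith
  · intro m hmn
    by_contra hz
    have hm : ∀ k, m k ≤ n k := by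
      intro k
      have h1 : (m k : ℝ) / n k ≤ ∑ k, (m k : ℝ) / n k :=
        Finset.single_le_sum (f := fun k => (m k : ℝ) / n k)
          (fun k _ => div_nonneg (Nat.cast_nonneg _) (Nat.cast_nonneg _)) (Finset.mem_univ k)
      have h2 : (0 : ℝ) < n k := by exact_mod_cast hn0 k
      have h3 := (div_le_iff₀ h2).1 (h1.trans hmn)
      rw [one_mul] at h3
      exact_mod_cast h3
    classical
    set F : MvPolynomial W ℤ := ∑ a, MvPolynomial.C (c a) * bin (p a) (q a) with hF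
    set z : K := (tay t F).coeff m with hzdef
    set s : ℝ := ∑ k, (n k : ℝ) with hs
    have hs0 : 0 ≤ s := Finset.sum_nonneg fun k _ => Nat.cast_nonneg _
    -- the upper bound at every place
    have hU : ∀ v : Plc K T₀, lam v z ≤
        C₂ * ∑ k, n k * (lam v (t k) + lam v (1 - t k)) +
        B * ∑ j, |∑ k, ((round (n k * α j k) : ℝ) * lam v (t k) +
          (round (n k * β j k) : ℝ) * lam v (1 - t k))| +
        2 * ∑ k, n k * (|lam v (t k)| + |lam v (1 - t k)|) +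
        wt v * (5 * C₁ * s) +
        (if v ∈ 𝒱 then -(Θ * g v) + (C₂ + C₁) * (∑ k ∈ Sᶜ, n k * (|lam v (t k)| +
          |lam v (1 - t k)|) + ∑ k ∈ S, n k * |lam v (1 - t k)|) else 0) := by
      intro v
      have hw := wt_nonneg v
      have hD0 : 0 ≤ ∑ k, (n k : ℝ) * (|lam v (t k)| + |lam v (1 - t k)|) :=
        Finset.sum_nonneg fun k _ => by positivity
      have hψ0 : 0 ≤ (B : ℝ) * ∑ j, |∑ k, ((round (n k * α j k) : ℝ) * lam v (t k) +
          (round (n k * β j k) : ℝ) * lam v (1 - t k))| :=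
        mul_nonneg (Nat.cast_nonneg _) (Finset.sum_nonneg fun j _ => abs_nonneg _)
      split_ifs with hv
      · have h1 := core_b S F n C₂ Θ C₁ (g v) hC₁0 (hg v hv) hn0 hdeg hco hFS v t ht m hm
          (hgx v hv) hz
        linarith
      · have h1 := core_a S (fun j k => (round (n k * α j k) : ℝ))
          (fun j k => (round (n k * β j k) : ℝ)) e i p q c n B C₂ C₁ he hi hp hq hpq hI hc v t ht
          m hm hz
        have h2 : wt v * (4 * C₁ * s) ≤ wt v * (5 * C₁ * s) := by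
          refine mul_le_mul_of_nonneg_left ?_ hw
          have := mul_nonneg hC₁0 hs0
          linarith
        linarith
    have hsum : 0 ≤ ∑ v : Plc K T₀, lam v z :=
      sum_lam_nonneg hz (intOff_tay t (fun k => (hOff k).1) F m)
    have hle := hsum.trans (Finset.sum_le_sum fun v _ => hU v)
    rw [Finset.sum_add_distrib, Finset.sum_add_distrib, Finset.sum_add_distrib,
      Finset.sum_add_distrib, ← Finset.mul_sum, ← Finset.mul_sum, ← Finset.mul_sum,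
      ← Finset.sum_mul, sum_wt, one_mul, Finset.sum_ite_mem, Finset.univ_inter,
      Finset.sum_add_distrib, ← Finset.mul_sum, Finset.sum_neg_distrib, ← Finset.mul_sum] at hle
    -- the common part
    have hcom : ∑ v : Plc K T₀, ∑ k, (n k : ℝ) * (lam v (t k) + lam v (1 - t k)) = 0 := by
      rw [Finset.sum_comm]
      refine Finset.sum_eq_zero fun k _ => ?_
      rw [← Finset.mul_sum, Finset.sum_add_distrib, sum_lam (ht k).1 (hOff k).1,
        sum_lam (ht k).2 (hOff k).2, add_zero, mul_zero]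
    -- the large part
    have hD : ∑ v : Plc K T₀, ∑ k, (n k : ℝ) * (|lam v (t k)| + |lam v (1 - t k)|) ≤
        Fintype.card W * (C₀ * T) := by
      rw [Finset.sum_comm]
      have h1 : ∀ k ∈ (Finset.univ : Finset W),
          ∑ v : Plc K T₀, (n k : ℝ) * (|lam v (t k)| + |lam v (1 - t k)|) ≤ C₀ * T := by
        intro k _
        rw [← Finset.mul_sum]
        exact hC k
      refine (Finset.sum_le_sum h1).trans ?_
      rw [Finset.sum_const, nsmul_eq_mul, Finset.card_univ]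
    -- the exponents
    have hhalf : ∀ k, ∑ v : Plc K T₀, (|lam v (t k)| + |lam v (1 - t k)|) ≤
        C₀ * T / (N₂ + 1) := by
      intro k
      have h1 : (0 : ℝ) < (N₂ : ℝ) + 1 := by positivity
      rw [le_div_iff₀ h1]
      have h2 : 0 ≤ ∑ v : Plc K T₀, (|lam v (t k)| + |lam v (1 - t k)|) :=
        Finset.sum_nonneg fun v _ => by positivity
      have h3 := mul_le_mul_of_nonneg_right (hnN k) h2
      have h4 := hC k
      linarith
    have hψs : ∀ j, ∑ v : Plc K T₀, |∑ k, ((round (n k * α j k) : ℝ) * lam v (t k) +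
          (round (n k * β j k) : ℝ) * lam v (1 - t k))| ≤
        δ * T + 1 / 2 * (Fintype.card W * (C₀ * T / (N₂ + 1))) := by
      intro j
      have h1 : ∀ v ∈ (Finset.univ : Finset (Plc K T₀)),
          |∑ k, ((round (n k * α j k) : ℝ) * lam v (t k) +
            (round (n k * β j k) : ℝ) * lam v (1 - t k))| ≤
          |∑ k, n k * (α j k * lam v (t k) + β j k * lam v (1 - t k))| +
            1 / 2 * ∑ k, (|lam v (t k)| + |lam v (1 - t k)|) := fun v _ =>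
        core_round n (α j) (β j) (fun k => lam v (t k)) fun k => lam v (1 - t k)
      refine (Finset.sum_le_sum h1).trans ?_
      rw [Finset.sum_add_distrib, ← Finset.mul_sum]
      refine add_le_add (hψ j) (mul_le_mul_of_nonneg_left ?_ (by norm_num))
      rw [Finset.sum_comm]
      refine (Finset.sum_le_sum fun k _ => hhalf k).trans ?_
      rw [Finset.sum_const, nsmul_eq_mul, Finset.card_univ]
    have hψt : ∑ v : Plc K T₀, ∑ j, |∑ k, ((round (n k * α j k) : ℝ) * lam v (t k) +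
          (round (n k * β j k) : ℝ) * lam v (1 - t k))| ≤
        κ * (δ * T + 1 / 2 * (Fintype.card W * (C₀ * T / (N₂ + 1)))) := by
      rw [Finset.sum_comm]
      refine (Finset.sum_le_sum fun j _ => hψs j).trans ?_
      rw [Finset.sum_const, nsmul_eq_mul, Finset.card_univ, Fintype.card_fin]
    have hψB := mul_le_mul_of_nonneg_left hψt (Nat.cast_nonneg B : (0 : ℝ) ≤ B)
    have hsm' : (C₂ + C₁) * ∑ v ∈ 𝒱, (∑ k ∈ Sᶜ, (n k : ℝ) * (|lam v (t k)| +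
          |lam v (1 - t k)|) + ∑ k ∈ S, n k * |lam v (1 - t k)|) ≤ (C₂ + C₁) * (δ * T) :=
      mul_le_mul_of_nonneg_left hsm (by
        have : (0 : ℝ) ≤ C₂ := Nat.cast_nonneg _
        linarith)
    have hgs : Θ * (μ * T) ≤ Θ * ∑ v ∈ 𝒱, g v :=
      mul_le_mul_of_nonneg_left hμg (Nat.cast_nonneg _)
    have hss : 5 * C₁ * s ≤ 5 * C₁ * (δ * T) :=
      mul_le_mul_of_nonneg_left hns (by linarith)
    rw [hcom, mul_zero, zero_add] at hle
    -- numbers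
    have hN : (B : ℝ) * (κ * (1 / 2 * (Fintype.card W * (C₀ * T / (N₂ + 1))))) ≤ T := by
      have h1 : (0 : ℝ) < (N₂ : ℝ) + 1 := by positivity
      have h2 : (B : ℝ) * (κ * (1 / 2 * (Fintype.card W * (C₀ * T / (N₂ + 1))))) =
          1 / 2 * ((B : ℝ) * κ * Fintype.card W * C₀) * T / (N₂ + 1) := by ring
      rw [h2, div_le_iff₀ h1]
      have h3 := mul_le_mul_of_nonneg_right hN₂ hT.le
      have h4 : (0 : ℝ) ≤ N₂ * T := by positivity
      nlinarith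
    have hδT : (B * κ + C₂ + 6 * C₁) * (δ * T) = T := by
      rw [hδ, ← mul_assoc, mul_one_div_cancel hden.ne', one_mul]
    have hΘT : (2 * (Fintype.card W : ℝ) * C₀ + 3) * T ≤ Θ * μ * T :=
      mul_le_mul_of_nonneg_right hΘμ hT.le
    have e1 : (B : ℝ) * (κ * (δ * T + 1 / 2 * (Fintype.card W * (C₀ * T / (N₂ + 1))))) =
        B * κ * (δ * T) + B * (κ * (1 / 2 * (Fintype.card W * (C₀ * T / (N₂ + 1))))) := by ring
    rw [e1] at hψB
    have e2 : (B * κ + C₂ + 6 * C₁) * (δ * T) =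
        B * κ * (δ * T) + (C₂ + C₁) * (δ * T) + 5 * C₁ * (δ * T) := by ring
    rw [e2] at hδT
    nlinarith

end Pool.Agent.LAll
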