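import Mathlib

set_option autoImplicit false

/-! UV28. Counting blocks and chains. -/

namespace Pool.Agent.LAll

/-- **Counting.** `B` and the classes of an equivalence relation on the complement: all classes and all
systems of representatives are bounded as in the theorem, so there are at most `(ρ - 1) ^ 2 + 1` elements.

Proof. `s` = number of classes in `Bᶜ`, `u` = maximal size of a class; `|Bᶜ| ≤ s u`
(`Finset.card_le_mul_card_image` for the quotient map, or `Finset.card_eq_sum_card_fiberwise`). A class is a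
set as in `hblock`, a system of representatives (`Quotient.out`) as in `hchain`. If `B = ∅`: `Bᶜ ≠ ∅` (or
`ι` is empty and the claim is trivial), `u + 1 ≤ ρ`, `s + 1 ≤ ρ`, so `|ι| ≤ (ρ - 1)²`. If `b = |B| ≥ 1`:
`b ≤ ρ` (`hblock` for `W = ∅`), `u + b ≤ ρ`, `s + b ≤ ρ`, so `|ι| ≤ b + (ρ - b)² ≤ 1 + (ρ - 1)²`
(write `ρ = b + t`, `b = 1 + a`: `1 + a + t² ≤ 1 + (a + t)²`, true for naturals as `a ≤ a²`). -/
theorem count_classes {ι : Type} [Fintype ι] [DecidableEq ι] (B : Finset ι) (R : ι → ι → Prop)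
    (hR : Equivalence R) (ρ : ℕ) (hρ : 1 ≤ ρ)
    (hblock : ∀ W : Finset ι, W ⊆ Bᶜ → (∀ k ∈ W, ∀ l ∈ W, R k l) →
      (W.Nonempty → W.card + 1 ≤ ρ) ∧ (B.Nonempty → W.card + B.card ≤ ρ))
    (hchain : ∀ W : Finset ι, W ⊆ Bᶜ → (∀ k ∈ W, ∀ l ∈ W, k ≠ l → ¬ R k l) →
      (W.Nonempty → W.card + 1 ≤ ρ) ∧ (B.Nonempty → W.card + B.card ≤ ρ)) :
    Fintype.card ι ≤ (ρ - 1) ^ 2 + 1 := by
  classical
  let S : Setoid ι := ⟨R, hR⟩
  let q : ι → Quotient S := fun x => Quotient.mk S x
  have hq : ∀ x y, q x = q y ↔ R x y := fun x y => Quotient.eq (r := S)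
  set Q : Finset (Quotient S) := Bᶜ.image q with hQ
  -- a section on `Q`
  have hsec : ∀ c : Quotient S, ∃ x : ι, c ∈ Q → x ∈ Bᶜ ∧ q x = c := by
    intro c
    by_cases hc : c ∈ Q
    · obtain ⟨x, hx, hxc⟩ := Finset.mem_image.mp hc
      exact ⟨x, fun _ => ⟨hx, hxc⟩⟩
    · obtain ⟨x, -⟩ := Quotient.exists_rep c
      exact ⟨x, fun h => absurd h hc⟩
  choose r hr using hsec
  have hrinj : Set.InjOn r (Q : Set (Quotient S)) := by
    intro c hc d hd h
    rw [← (hr c hc).2, ← (hr d hd).2, h]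
  have hWcard : (Q.image r).card = Q.card := Finset.card_image_of_injOn hrinj
  have hWsub : Q.image r ⊆ Bᶜ := by
    intro x hx
    obtain ⟨c, hc, rfl⟩ := Finset.mem_image.mp hx
    exact (hr c hc).1
  have hWch : ∀ k ∈ Q.image r, ∀ l ∈ Q.image r, k ≠ l → ¬ R k l := by
    intro k hk l hl hkl hRkl
    obtain ⟨c, hc, rfl⟩ := Finset.mem_image.mp hk
    obtain ⟨d, hd, rfl⟩ := Finset.mem_image.mp hl
    apply hkl
    have h1 : q (r c) = q (r d) := (hq _ _).mpr hRkl
    rw [(hr c hc).2, (hr d hd).2] at h1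
    rw [h1]
  obtain ⟨hs1, hs2⟩ := hchain _ hWsub hWch
  rw [hWcard] at hs1 hs2
  -- fibres
  have hfib : ∀ c : Quotient S,
      ((Bᶜ.filter (fun x => q x = c)).Nonempty →
        (Bᶜ.filter (fun x => q x = c)).card + 1 ≤ ρ) ∧
      (B.Nonempty → (Bᶜ.filter (fun x => q x = c)).card + B.card ≤ ρ) := by
    intro c
    apply hblock
    · exact Finset.filter_subset _ _
    · intro k hk l hl
      rw [← hq, (Finset.mem_filter.mp hk).2, (Finset.mem_filter.mp hl).2]
  have hcard : Fintype.card ι = B.card + Bᶜ.card := (Finset.card_add_card_compl B).symm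
  obtain ⟨t, rfl⟩ : ∃ t, ρ = t + 1 := ⟨ρ - 1, by omega⟩
  rw [Nat.add_sub_cancel]
  rcases Finset.eq_empty_or_nonempty B with hB | hB
  · have hb0 : B.card = 0 := by rw [hB, Finset.card_empty]
    have hle : Bᶜ.card ≤ t * Q.card := by
      apply Finset.card_le_mul_card_image
      intro c hc
      by_cases hne : (Bᶜ.filter (fun x => q x = c)).Nonempty
      · have := (hfib c).1 hne
        omega
      · rw [Finset.not_nonempty_iff_eq_empty] at hne
        rw [hne, Finset.card_empty]
        exact Nat.zero_le _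
    have hQt : Q.card ≤ t := by
      by_cases hne : (Q.image r).Nonempty
      · have := hs1 hne
        omega
      · rw [Finset.not_nonempty_iff_eq_empty] at hne
        rw [← hWcard, hne, Finset.card_empty]
        exact Nat.zero_le _
    rw [hcard, hb0]
    nlinarith
  · have hb1 : 1 ≤ B.card := Finset.card_pos.mpr hB
    obtain ⟨a, ha⟩ : ∃ a, B.card = a + 1 := ⟨B.card - 1, by omega⟩
    have hs := hs2 hB
    obtain ⟨m, hm⟩ : ∃ m, t = a + m := ⟨t - a, by omega⟩
    have hle : Bᶜ.card ≤ m * Q.card := by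
      apply Finset.card_le_mul_card_image
      intro c hc
      have := (hfib c).2 hB
      omega
    have hQm : Q.card ≤ m := by omega
    rw [hcard, ha, hm]
    have h1 : m * Q.card ≤ m * m := Nat.mul_le_mul_left _ hQm
    have h2 : a ≤ a * a := by
      rcases Nat.eq_zero_or_pos a with h | h
      · rw [h]
      · exact Nat.le_mul_of_pos_left a h
    nlinarith [Nat.zero_le (a * m)]

end Pool.Agent.LAll
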