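import Pool.Agent.LThree.Defs

set_option autoImplicit false

/-! Theorems U and V (MP_b7926e_nt): definitions of the real part of the proof.

`x_k`, `k : ι`, are the coordinates of a point of `L^ι` over a number field. A configuration `Cfg ι` is
the real data of such a point: finitely many places `v` with weights `w v`, normalised logarithms
`L v k 0` (of `x_k`) and `L v k 1` (of `1 - x_k`), and for every place and every coordinate a corner
`c v k` (`0`: `x_k` is small, `1`: `1 - x_k` is small, `2`: `x_k` is large) and a size `A v k ≥ 0`. -/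

namespace Pool.Agent.LAll

open Filter Topology Module

/-- The three directions of the tropical line. -/
def dir (c : Fin 3) : Fin 2 → ℝ := ![![-1, 0], ![0, -1], ![1, 1]] c

/-- The exponent of the small coordinate `t_c` (`x`, `1 - x`, `1 / (1 - x)`) in
`x ^ y 0 * (1 - x) ^ y 1`. -/
def al (c : Fin 3) : (Fin 2 → ℝ) →ₗ[ℝ] ℝ where
  toFun y := ![y 0, y 1, -y 0 - y 1] c
  map_add' y z := by
    fin_cases c <;> simp <;> ring
  map_smul' r y := by
    fin_cases c <;> simp <;> ring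

/-- The exponent of `1 - t_c` (`1 - x`, `x`, `- x / (1 - x)`) in `x ^ y 0 * (1 - x) ^ y 1`. -/
def be (c : Fin 3) : (Fin 2 → ℝ) →ₗ[ℝ] ℝ where
  toFun y := ![y 1, y 0, y 0] c
  map_add' y z := by
    fin_cases c <;> simp
  map_smul' r y := by
    fin_cases c <;> simp

theorem al_zero (y : Fin 2 → ℝ) : al 0 y = y 0 := rfl
theorem al_one (y : Fin 2 → ℝ) : al 1 y = y 1 := rfl
theorem al_two (y : Fin 2 → ℝ) : al 2 y = -y 0 - y 1 := rfl
theorem be_zero (y : Fin 2 → ℝ) : be 0 y = y 1 := rfl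
theorem be_one (y : Fin 2 → ℝ) : be 1 y = y 0 := rfl
theorem be_two (y : Fin 2 → ℝ) : be 2 y = y 0 := rfl

theorem sum_mul_dir (c : Fin 3) (y : Fin 2 → ℝ) : ∑ i, y i * dir c i = -al c y := by
  fin_cases c
  · simp [dir, al]
  · simp [dir, al]
  · simp [dir, al]
    ring

theorem eq_zero_of_al_be (c : Fin 3) (y : Fin 2 → ℝ) (h1 : al c y = 0) (h2 : be c y = 0) : y = 0 := by
  funext i
  fin_cases c <;> fin_cases i <;> simp [al, be] at h1 h2 ⊢ <;> linarith

/-- Vectors of real exponents: `y k 0` of `x_k` and `y k 1` of `1 - x_k`. -/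
abbrev E (ι : Type) : Type := ι → Fin 2 → ℝ

/-- The exponent vectors supported on `M`. -/
def supp {ι : Type} (M : Finset ι) : Submodule ℝ (E ι) where
  carrier := {y | ∀ k ∉ M, y k = 0}
  add_mem' := fun {a b} ha hb k hk => by rw [Pi.add_apply, ha k hk, hb k hk, add_zero]
  zero_mem' := fun k _ => rfl
  smul_mem' := fun r a ha k hk => by rw [Pi.smul_apply, ha k hk, smul_zero]

theorem mem_supp {ι : Type} {M : Finset ι} {y : E ι} : y ∈ supp M ↔ ∀ k ∉ M, y k = 0 := Iff.rfl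

theorem supp_mono {ι : Type} {M M' : Finset ι} (h : M ⊆ M') : supp M ≤ supp M' :=
  fun _ hy k hk => hy k fun h' => hk (h h')

/-- The exponent vectors which do not contain `t_(c k)` for `k ∈ S`. -/
def ZZ {ι : Type} (S : Finset ι) (c : ι → Fin 3) : Submodule ℝ (E ι) where
  carrier := {y | ∀ k ∈ S, al (c k) (y k) = 0}
  add_mem' := fun {a b} ha hb k hk => by rw [Pi.add_apply, map_add, ha k hk, hb k hk, add_zero]
  zero_mem' := fun k _ => by rw [Pi.zero_apply, map_zero]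
  smul_mem' := fun r a ha k hk => by rw [Pi.smul_apply, map_smul, ha k hk, smul_zero]

theorem mem_ZZ {ι : Type} {S : Finset ι} {c : ι → Fin 3} {y : E ι} :
    y ∈ ZZ S c ↔ ∀ k ∈ S, al (c k) (y k) = 0 := Iff.rfl

/-- The real data of a point of `L^ι` over a number field. -/
structure Cfg (ι : Type) where
  V : Type
  [fV : Fintype V]
  w : V → ℝ
  L : V → ι → Fin 2 → ℝ
  c : V → ι → Fin 3
  A : V → ι → ℝ
  e : ι → ℝ
  w0 : ∀ v, 0 ≤ w v
  w1 : ∑ v, w v = 1
  A0 : ∀ v k, 0 ≤ A v k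
  e0 : ∀ k, 0 ≤ e k
  e2 : ∀ k, e k ≤ 2
  tri : ∀ v k i, |L v k i - A v k * dir (c v k) i| ≤ w v * e k

attribute [instance] Cfg.fV

section

variable {ι : Type}

/-- The total `f`-mass of the places with the property `p`. -/
noncomputable def Cfg.mass (C : Cfg ι) (f : C.V → ℝ) (p : C.V → Prop) : ℝ :=
  open Classical in ∑ v, if p v then f v else 0

theorem Cfg.mass_nonneg (C : Cfg ι) (f : C.V → ℝ) (p : C.V → Prop) (hf : ∀ v, 0 ≤ f v) :
    0 ≤ C.mass f p := by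
  classical
  unfold Cfg.mass
  refine Finset.sum_nonneg fun v _ => ?_
  split_ifs
  · exact hf v
  · exact le_rfl

theorem Cfg.mass_mono (C : Cfg ι) (f : C.V → ℝ) (p q : C.V → Prop) (hf : ∀ v, 0 ≤ f v)
    (h : ∀ v, p v → q v) : C.mass f p ≤ C.mass f q := by
  classical
  unfold Cfg.mass
  refine Finset.sum_le_sum fun v _ => ?_
  by_cases h1 : p v
  · rw [if_pos h1, if_pos (h v h1)]
  · rw [if_neg h1]
    split_ifs
    · exact hf v
    · exact le_rfl

theorem Cfg.mass_le_sum (C : Cfg ι) (f : C.V → ℝ) (p : C.V → Prop) (hf : ∀ v, 0 ≤ f v) :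
    C.mass f p ≤ ∑ v, f v := by
  classical
  unfold Cfg.mass
  refine Finset.sum_le_sum fun v _ => ?_
  split_ifs
  · exact le_rfl
  · exact hf v

theorem Cfg.mass_or_le (C : Cfg ι) (f : C.V → ℝ) (p q : C.V → Prop) (hf : ∀ v, 0 ≤ f v) :
    C.mass f (fun v => p v ∨ q v) ≤ C.mass f p + C.mass f q := by
  classical
  unfold Cfg.mass
  rw [← Finset.sum_add_distrib]
  refine Finset.sum_le_sum fun v _ => ?_
  have := hf v
  by_cases h1 : p v <;> by_cases h2 : q v <;> simp [h1, h2, this]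

/-- Union bound over a finite family of properties. -/
theorem Cfg.mass_exists_le (C : Cfg ι) (f : C.V → ℝ) {α : Type} (s : Finset α)
    (p : α → C.V → Prop) (hf : ∀ v, 0 ≤ f v) :
    C.mass f (fun v => ∃ a ∈ s, p a v) ≤ ∑ a ∈ s, C.mass f (p a) := by
  classical
  unfold Cfg.mass
  rw [Finset.sum_comm]
  refine Finset.sum_le_sum fun v _ => ?_
  by_cases h1 : ∃ a ∈ s, p a v
  · rw [if_pos h1]
    obtain ⟨a, ha, h2⟩ := h1
    have h3 : f v = if p a v then f v else 0 := by rw [if_pos h2]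
    rw [h3]
    refine (Finset.single_le_sum (f := fun a => if p a v then f v else 0) (fun b _ => ?_) ha).trans ?_
    · split_ifs
      · exact hf v
      · exact le_rfl
    · refine Finset.sum_le_sum fun b _ => ?_
      split_ifs <;> exact le_rfl
  · rw [if_neg h1]
    refine Finset.sum_nonneg fun b _ => ?_
    split_ifs
    · exact hf v
    · exact le_rfl

theorem Cfg.mass_not (C : Cfg ι) (f : C.V → ℝ) (p : C.V → Prop) :
    C.mass f p + C.mass f (fun v => ¬ p v) = ∑ v, f v := by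
  classical
  unfold Cfg.mass
  rw [← Finset.sum_add_distrib]
  refine Finset.sum_congr rfl fun v _ => ?_
  by_cases h1 : p v <;> simp [h1]

/-- Markov's inequality: `R * mass f p ≤ ∑ g` if `R f ≤ g` on `p`. -/
theorem Cfg.markov (C : Cfg ι) (f g : C.V → ℝ) (p : C.V → Prop) (R : ℝ) (hg : ∀ v, 0 ≤ g v)
    (h : ∀ v, p v → R * f v ≤ g v) : R * C.mass f p ≤ ∑ v, g v := by
  classical
  unfold Cfg.mass
  rw [Finset.mul_sum]
  refine Finset.sum_le_sum fun v _ => ?_
  by_cases h1 : p v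
  · rw [if_pos h1]
    exact h v h1
  · rw [if_neg h1, mul_zero]
    exact hg v

variable [Fintype ι]

/-- The pairing of an exponent vector with the logarithms at `v`. -/
def Cfg.pair (C : Cfg ι) (v : C.V) (y : E ι) : ℝ := ∑ k, ∑ i, y k i * C.L v k i

theorem Cfg.pair_add (C : Cfg ι) (v : C.V) (y z : E ι) :
    C.pair v (y + z) = C.pair v y + C.pair v z := by
  simp only [Cfg.pair, Pi.add_apply, add_mul, Finset.sum_add_distrib]

theorem Cfg.pair_smul (C : Cfg ι) (v : C.V) (r : ℝ) (y : E ι) :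
    C.pair v (r • y) = r * C.pair v y := by
  simp only [Cfg.pair, Pi.smul_apply, smul_eq_mul, Finset.mul_sum, mul_assoc]

/-- The (normalised, twice the) height of the number with exponent vector `y`. -/
def Cfg.N (C : Cfg ι) (y : E ι) : ℝ := ∑ v, |C.pair v y|

theorem Cfg.N_nonneg (C : Cfg ι) (y : E ι) : 0 ≤ C.N y :=
  Finset.sum_nonneg fun _ _ => abs_nonneg _

theorem Cfg.N_zero (C : Cfg ι) : C.N 0 = 0 := by
  simp [Cfg.N, Cfg.pair]

theorem Cfg.N_add (C : Cfg ι) (y z : E ι) : C.N (y + z) ≤ C.N y + C.N z := by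
  unfold Cfg.N
  rw [← Finset.sum_add_distrib]
  refine Finset.sum_le_sum fun v _ => ?_
  rw [Cfg.pair_add]
  exact abs_add_le _ _

theorem Cfg.N_smul (C : Cfg ι) (r : ℝ) (y : E ι) : C.N (r • y) = |r| * C.N y := by
  unfold Cfg.N
  rw [Finset.mul_sum]
  refine Finset.sum_congr rfl fun v _ => ?_
  rw [Cfg.pair_smul, abs_mul]

/-- `N y ≤ (max |y|) * ∑ |L|`. -/
theorem Cfg.N_le (C : Cfg ι) (y : E ι) (Y : ℝ) (hY : ∀ k i, |y k i| ≤ Y) :
    C.N y ≤ Y * ∑ k, ∑ i, ∑ v, |C.L v k i| := by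
  unfold Cfg.N
  have h1 : ∀ v, |C.pair v y| ≤ ∑ k, ∑ i, Y * |C.L v k i| := by
    intro v
    unfold Cfg.pair
    refine (Finset.abs_sum_le_sum_abs _ _).trans (Finset.sum_le_sum fun k _ => ?_)
    refine (Finset.abs_sum_le_sum_abs _ _).trans (Finset.sum_le_sum fun i _ => ?_)
    rw [abs_mul]
    exact mul_le_mul_of_nonneg_right (hY k i) (abs_nonneg _)
  refine (Finset.sum_le_sum fun v _ => h1 v).trans (le_of_eq ?_)
  rw [Finset.sum_comm, Finset.mul_sum]
  refine Finset.sum_congr rfl fun k _ => ?_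
  rw [Finset.sum_comm, Finset.mul_sum]
  refine Finset.sum_congr rfl fun i _ => ?_
  rw [Finset.mul_sum]

variable {J : Type}

/-- The exponent vectors of numbers of height `0` in the limit. -/
def ker (𝒰 : Ultrafilter J) (𝒞 : J → Cfg ι) : Submodule ℝ (E ι) where
  carrier := {y | Tendsto (fun j => (𝒞 j).N y) (𝒰 : Filter J) (𝓝 0)}
  add_mem' := fun {a b} ha hb => by
    have h1 : Tendsto (fun j => (𝒞 j).N a + (𝒞 j).N b) (𝒰 : Filter J) (𝓝 (0 + 0)) := ha.add hb
    rw [add_zero] at h1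
    exact squeeze_zero (fun j => (𝒞 j).N_nonneg _) (fun j => (𝒞 j).N_add a b) h1
  zero_mem' := by
    show Tendsto (fun j => (𝒞 j).N 0) (𝒰 : Filter J) (𝓝 0)
    simp only [Cfg.N_zero]
    exact tendsto_const_nhds
  smul_mem' := fun r a ha => by
    have h1 : Tendsto (fun j => |r| * (𝒞 j).N a) (𝒰 : Filter J) (𝓝 (|r| * 0)) := ha.const_mul _
    rw [mul_zero] at h1
    show Tendsto (fun j => (𝒞 j).N (r • a)) (𝒰 : Filter J) (𝓝 0)
    simp only [Cfg.N_smul]
    exact h1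

theorem mem_ker {𝒰 : Ultrafilter J} {𝒞 : J → Cfg ι} {y : E ι} :
    y ∈ ker 𝒰 𝒞 ↔ Tendsto (fun j => (𝒞 j).N y) (𝒰 : Filter J) (𝓝 0) := Iff.rfl

/-- The standing hypotheses: `W` is a set of coordinates whose heights tend to infinity (so the errors
`e k` tend to `0`), all logarithms are bounded in the mean, and for `k ∈ W` they are normalised. -/
structure Tame (𝒰 : Ultrafilter J) (𝒞 : J → Cfg ι) (W : Finset ι) : Prop where
  bd : ∀ k, ∃ C : ℝ, ∀ᶠ j in (𝒰 : Filter J), ∀ i, ∑ v, |(𝒞 j).L v k i| ≤ C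
  low : ∀ k ∈ W, ∀ᶠ j in (𝒰 : Filter J), 1 ≤ ∑ v, |(𝒞 j).L v k 0|
  err : ∀ k ∈ W, Tendsto (fun j => (𝒞 j).e k) (𝒰 : Filter J) (𝓝 0)

end

section

variable {ι : Type} {J : Type}

/-- `σ_v = ∑_{k ∈ W} A v k`. -/
def Cfg.sig (C : Cfg ι) (W : Finset ι) (v : C.V) : ℝ := ∑ k ∈ W, C.A v k

theorem Cfg.sig_nonneg (C : Cfg ι) (W : Finset ι) (v : C.V) : 0 ≤ C.sig W v :=
  Finset.sum_nonneg fun k _ => C.A0 v k

/-- The coordinates in `S` are near the corners `c` at `v`, those in `W \ S` are not active. -/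
def Cfg.Typ (C : Cfg ι) (W S : Finset ι) (c : ι → Fin 3) (ε δ : ℝ) (v : C.V) : Prop :=
  (∀ k ∈ S, C.c v k = c k ∧ ε * C.sig W v ≤ C.A v k) ∧
    ∀ k ∈ W, k ∉ S → C.A v k ≤ δ * C.sig W v

/-- The type `(S, c)` carries a positive proportion of the mass `σ`. -/
def Charged (𝒰 : Ultrafilter J) (𝒞 : J → Cfg ι) (W S : Finset ι) (c : ι → Fin 3) : Prop :=
  ∃ ε μ : ℝ, 0 < ε ∧ 0 < μ ∧ ∀ δ : ℝ, 0 < δ → ∀ᶠ j in (𝒰 : Filter J),
    μ ≤ (𝒞 j).mass ((𝒞 j).sig W) ((𝒞 j).Typ W S c ε δ)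

/-- The same with the weights `w` of the infinite places (the finite places have `w v = 0`). -/
def Cfg.ATyp (C : Cfg ι) (W S : Finset ι) (c : ι → Fin 3) (ε δ : ℝ) (v : C.V) : Prop :=
  (∀ k ∈ S, C.c v k = c k ∧ ε * C.w v ≤ C.A v k) ∧ ∀ k ∈ W, k ∉ S → C.A v k ≤ δ * C.w v

def ArchCharged (𝒰 : Ultrafilter J) (𝒞 : J → Cfg ι) (W S : Finset ι) (c : ι → Fin 3) : Prop :=
  ∃ ε μ : ℝ, 0 < ε ∧ 0 < μ ∧ ∀ δ : ℝ, 0 < δ → ∀ᶠ j in (𝒰 : Filter J),
    μ ≤ (𝒞 j).mass (𝒞 j).w ((𝒞 j).ATyp W S c ε δ)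

variable [Fintype ι]

/-- **No concentration**: for a charged type `(S, c)`, `S ≠ ∅`, a space of exponent vectors of height
`0`, free of `t_(c k)` for `k ∈ S`, on which the orders at `t_(c k) = 1` (`k ∈ S`) and at
`t_(c k) = 0` (`k ∈ W \ S`) separate the points, has dimension at most `|W \ S|`. -/
def NoConc [DecidableEq ι] (𝒰 : Ultrafilter J) (𝒞 : J → Cfg ι) (W : Finset ι) : Prop :=
  ∀ (S : Finset ι) (c : ι → Fin 3), S ⊆ W → S.Nonempty → Charged 𝒰 𝒞 W S c →
    ∀ R : Submodule ℝ (E ι), R ≤ ker 𝒰 𝒞 → R ≤ supp W → R ≤ ZZ S c →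
      (∀ y ∈ R, (∀ k ∈ S, be (c k) (y k) = 0) → (∀ k ∈ W, k ∉ S → al (c k) (y k) = 0) → y = 0) →
      finrank ℝ R ≤ (W \ S).card

end

end Pool.Agent.LAll
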