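import Pool.Agent.LThree.Pw

set_option autoImplicit false

/-! UV22. Sums of exponentials in `d` variables and their Taylor polynomials. The case `d = 1` is
`Pool/Agent/LThree/ExpSum.lean` and `Pw.lean` (complete proofs, to be adapted). -/

namespace Pool.Agent.LAll

open Real

/-- A sum of exponentials `∑ a_k exp (∑ i, l_k i * t i)` with `|l_k i| ≤ Λ`, `∑ |a_k| ≤ B`. -/
def ExpD (d : ℕ) (Λ B : ℝ) (f : (Fin d → ℝ) → ℝ) : Prop :=
  ∃ (n : ℕ) (a : Fin n → ℝ) (l : Fin n → Fin d → ℝ), (∀ k i, |l k i| ≤ Λ) ∧ ∑ k, |a k| ≤ B ∧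
    ∀ t, f t = ∑ k, a k * exp (∑ i, l k i * t i)

variable {d : ℕ}

theorem ExpD.mono {Λ B Λ' B' : ℝ} {f : (Fin d → ℝ) → ℝ} (h : ExpD d Λ B f) (h1 : Λ ≤ Λ')
    (h2 : B ≤ B') : ExpD d Λ' B' f := by
  obtain ⟨n, a, l, g1, g2, g3⟩ := h
  exact ⟨n, a, l, fun k i => (g1 k i).trans h1, g2.trans h2, g3⟩

theorem ExpD.const (Λ c : ℝ) (hΛ : 0 ≤ Λ) : ExpD d Λ |c| (fun _ => c) :=
  ⟨1, fun _ => c, fun _ _ => 0, fun _ _ => by simpa using hΛ, by simp, fun t => by simp⟩

theorem ExpD.exp (Λ : ℝ) (l : Fin d → ℝ) (hl : ∀ i, |l i| ≤ Λ) :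
    ExpD d Λ 1 (fun t => Real.exp (∑ i, l i * t i)) :=
  ⟨1, fun _ => 1, fun _ => l, fun _ i => hl i, by simp, fun t => by simp⟩

theorem ExpD.add {Λ B B' : ℝ} {f g : (Fin d → ℝ) → ℝ} (hf : ExpD d Λ B f) (hg : ExpD d Λ B' g) :
    ExpD d Λ (B + B') (fun t => f t + g t) := by
  obtain ⟨n, a, l, f1, f2, f3⟩ := hf
  obtain ⟨m, b, k, g1, g2, g3⟩ := hg
  refine ⟨n + m, Fin.append a b, Fin.append l k, ?_, ?_, ?_⟩
  · intro i
    refine Fin.addCases (fun i => ?_) (fun i => ?_) i
    · rw [Fin.append_left]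
      exact f1 i
    · rw [Fin.append_right]
      exact g1 i
  · rw [Fin.sum_univ_add]
    simp only [Fin.append_left, Fin.append_right]
    exact add_le_add f2 g2
  · intro t
    rw [Fin.sum_univ_add]
    simp only [Fin.append_left, Fin.append_right]
    rw [f3, g3]

theorem ExpD.neg {Λ B : ℝ} {f : (Fin d → ℝ) → ℝ} (hf : ExpD d Λ B f) :
    ExpD d Λ B (fun t => -f t) := by
  obtain ⟨n, a, l, f1, f2, f3⟩ := hf
  refine ⟨n, fun k => -a k, l, f1, by simpa using f2, fun t => ?_⟩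
  change -f t = ∑ k, -a k * Real.exp (∑ i, l k i * t i)
  rw [f3, ← Finset.sum_neg_distrib]
  exact Finset.sum_congr rfl fun k _ => by ring

theorem ExpD.mul {Λ Λ' B B' : ℝ} {f g : (Fin d → ℝ) → ℝ} (hf : ExpD d Λ B f)
    (hg : ExpD d Λ' B' g) : ExpD d (Λ + Λ') (B * B') (fun t => f t * g t) := by
  obtain ⟨n, a, l, f1, f2, f3⟩ := hf
  obtain ⟨m, b, k, g1, g2, g3⟩ := hg
  refine ⟨n * m, fun i => a (finProdFinEquiv.symm i).1 * b (finProdFinEquiv.symm i).2,
    fun i r => l (finProdFinEquiv.symm i).1 r + k (finProdFinEquiv.symm i).2 r, ?_, ?_, ?_⟩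
  · intro i r
    exact (abs_add_le _ _).trans (add_le_add (f1 _ _) (g1 _ _))
  · rw [Equiv.sum_comp finProdFinEquiv.symm (fun p : Fin n × Fin m => |a p.1 * b p.2|),
      Fintype.sum_prod_type]
    simp only [abs_mul]
    rw [← Finset.sum_mul_sum]
    exact mul_le_mul f2 g2 (Finset.sum_nonneg fun _ _ => abs_nonneg _)
      ((Finset.sum_nonneg fun _ _ => abs_nonneg _).trans f2)
  · intro t
    change f t * g t = _
    rw [Equiv.sum_comp finProdFinEquiv.symm (fun p : Fin n × Fin m =>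
      a p.1 * b p.2 * Real.exp (∑ r, (l p.1 r + k p.2 r) * t r)), Fintype.sum_prod_type, f3, g3,
      Finset.sum_mul_sum]
    refine Finset.sum_congr rfl fun i _ => Finset.sum_congr rfl fun j _ => ?_
    simp only [add_mul, Finset.sum_add_distrib]
    rw [Real.exp_add]
    ring

theorem ExpD.prod {β : Type} (s : Finset β) (Λ B : β → ℝ) (f : β → (Fin d → ℝ) → ℝ)
    (h : ∀ b ∈ s, ExpD d (Λ b) (B b) (f b)) :
    ExpD d (∑ b ∈ s, Λ b) (∏ b ∈ s, B b) (fun t => ∏ b ∈ s, f b t) := by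
  classical
  induction s using Finset.induction_on with
  | empty =>
    simp only [Finset.sum_empty, Finset.prod_empty]
    have := ExpD.const (d := d) 0 1 le_rfl
    rwa [abs_one] at this
  | insert b s hb ih =>
    simp only [Finset.sum_insert hb, Finset.prod_insert hb]
    exact (h b (Finset.mem_insert_self b s)).mul
      (ih fun c hc => h c (Finset.mem_insert_of_mem hc))

private theorem exp_rem (s : ℝ) (M : ℕ) :
    |Real.exp s - ∑ m ∈ Finset.range M, s ^ m / m.factorial| ≤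
      |s| ^ M / M.factorial * Real.exp |s| := by
  have h1 : HasSum (fun n : ℕ => s ^ n / n.factorial) (Real.exp s) := by
    rw [Real.exp_eq_exp_ℝ]
    exact NormedSpace.expSeries_div_hasSum_exp s
  have h2 : HasSum (fun n : ℕ => |s| ^ n / n.factorial) (Real.exp |s|) := by
    rw [Real.exp_eq_exp_ℝ]
    exact NormedSpace.expSeries_div_hasSum_exp |s|
  have h3 := (hasSum_nat_add_iff' M).2 h1
  have h4 := h2.mul_left (|s| ^ M / M.factorial)
  have h5 := h3.norm_le_of_bounded h4 (fun n => ?_)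
  · rwa [Real.norm_eq_abs] at h5
  · rw [Real.norm_eq_abs, abs_div, abs_pow, Nat.abs_cast, pow_add]
    have h6 : (n.factorial : ℝ) * M.factorial ≤ (n + M).factorial := by
      exact_mod_cast Nat.le_of_dvd (Nat.factorial_pos _)
        (Nat.factorial_mul_factorial_dvd_factorial_add n M)
    have h7 : (0 : ℝ) < (n.factorial : ℝ) * M.factorial := by positivity
    calc |s| ^ n * |s| ^ M / ((n + M).factorial : ℝ) ≤
        |s| ^ n * |s| ^ M / ((n.factorial : ℝ) * M.factorial) := by gcongr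
      _ = |s| ^ M / M.factorial * (|s| ^ n / n.factorial) := by
          field_simp

private theorem exp_part (s : ℝ) (M : ℕ) :
    |∑ m ∈ Finset.range M, s ^ m / m.factorial| ≤ Real.exp |s| := by
  refine (Finset.abs_sum_le_sum_abs _ _).trans ?_
  refine le_trans (le_of_eq ?_) (Real.sum_le_exp_of_nonneg (abs_nonneg s) M)
  refine Finset.sum_congr rfl fun m _ => ?_
  rw [abs_div, abs_pow, Nat.abs_cast]

private theorem prod_diff {ι : Type} (s : Finset ι) (x y : ι → ℝ) (E δ : ℝ) (hE : 1 ≤ E)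
    (hδ : 0 ≤ δ) (hx : ∀ i ∈ s, |x i| ≤ E) (hy : ∀ i ∈ s, |y i| ≤ E)
    (hxy : ∀ i ∈ s, |x i - y i| ≤ δ) :
    |∏ i ∈ s, x i - ∏ i ∈ s, y i| ≤ s.card * δ * E ^ s.card := by
  classical
  induction s using Finset.induction_on with
  | empty => simp
  | insert b s hb ih =>
    have i1 := ih (fun i hi => hx i (Finset.mem_insert_of_mem hi))
      (fun i hi => hy i (Finset.mem_insert_of_mem hi))
      (fun i hi => hxy i (Finset.mem_insert_of_mem hi))
    have hX : |∏ i ∈ s, x i| ≤ E ^ s.card := by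
      rw [Finset.abs_prod]
      calc ∏ i ∈ s, |x i| ≤ ∏ _i ∈ s, E := Finset.prod_le_prod (fun i _ => abs_nonneg _)
            fun i hi => hx i (Finset.mem_insert_of_mem hi)
        _ = E ^ s.card := by rw [Finset.prod_const]
    have hb1 := hxy b (Finset.mem_insert_self b s)
    have hb2 := hy b (Finset.mem_insert_self b s)
    have hE0 : 0 ≤ E := by linarith
    have hp : 0 ≤ E ^ s.card := by positivity
    rw [Finset.prod_insert hb, Finset.prod_insert hb, Finset.card_insert_of_notMem hb]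
    have e : x b * ∏ i ∈ s, x i - y b * ∏ i ∈ s, y i =
        (x b - y b) * ∏ i ∈ s, x i + y b * (∏ i ∈ s, x i - ∏ i ∈ s, y i) := by ring
    rw [e]
    refine (abs_add_le _ _).trans ?_
    rw [abs_mul, abs_mul]
    have h1 : |x b - y b| * |∏ i ∈ s, x i| ≤ δ * E ^ s.card :=
      mul_le_mul hb1 hX (abs_nonneg _) hδ
    have h2 : |y b| * |∏ i ∈ s, x i - ∏ i ∈ s, y i| ≤ E * (s.card * δ * E ^ s.card) :=
      mul_le_mul hb2 i1 (abs_nonneg _) hE0
    have h3 : δ * E ^ s.card ≤ E * (δ * E ^ s.card) :=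
      le_mul_of_one_le_left (mul_nonneg hδ hp) hE
    have h4 : ((s.card + 1 : ℕ) : ℝ) * δ * E ^ (s.card + 1) =
        E * (δ * E ^ s.card) + E * (s.card * δ * E ^ s.card) := by
      push_cast
      ring
    rw [h4]
    linarith

/-- **Taylor polynomial** on the cube `|t i| ≤ 1`: `exp (∑ l_i t_i) = ∏ exp (l_i t_i)`, each factor is
at most `exp Λ`, its Taylor polynomial with `M` terms is at most `exp Λ`, the remainder is at most
`Λ ^ M / M! * exp Λ` (`exp_rem` in `LThree/ExpSum.lean` is private, copy it); the difference of the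
products is at most `d * Λ ^ M / M! * exp Λ * exp (d Λ)`. The product of the Taylor polynomials is
`∑_m ∏ (l_i ^ m_i / m_i!) ∏ t_i ^ m_i` (`Finset.prod_univ_sum`), coefficients at most `exp (d Λ)`. -/
theorem ExpD.taylor {Λ B : ℝ} (hΛ : 0 ≤ Λ) (hB : 0 ≤ B) {f : (Fin d → ℝ) → ℝ} (hf : ExpD d Λ B f)
    (M : ℕ) :
    ∃ τ : (Fin d → Fin M) → ℝ, (∀ m, |τ m| ≤ B * Real.exp (d * Λ)) ∧
      ∀ t : Fin d → ℝ, (∀ i, |t i| ≤ 1) →
        |f t - ∑ m : Fin d → Fin M, τ m * ∏ i, t i ^ (m i : ℕ)| ≤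
          B * (d * (Λ ^ M / M.factorial) * Real.exp ((d + 1) * Λ)) := by
  obtain ⟨n, a, l, f1, f2, f3⟩ := hf
  refine ⟨fun m => ∑ k, a k * ∏ i, (l k i ^ (m i : ℕ) / (m i : ℕ).factorial), fun m => ?_,
    fun t ht => ?_⟩
  · have hprod : ∀ k, |∏ i, (l k i ^ (m i : ℕ) / (m i : ℕ).factorial)| ≤
        Real.exp (d * Λ) := by
      intro k
      rw [Finset.abs_prod]
      calc ∏ i, |l k i ^ (m i : ℕ) / ((m i : ℕ).factorial : ℝ)| ≤ ∏ _i : Fin d, Real.exp Λ := by
            refine Finset.prod_le_prod (fun i _ => abs_nonneg _) fun i _ => ?_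
            rw [abs_div, abs_pow, Nat.abs_cast]
            refine le_trans ?_ (Real.pow_div_factorial_le_exp Λ hΛ (m i))
            gcongr
            exact f1 k i
        _ = Real.exp (d * Λ) := by
            rw [Finset.prod_const, Finset.card_univ, Fintype.card_fin, ← Real.exp_nat_mul]
    calc |∑ k, a k * ∏ i, (l k i ^ (m i : ℕ) / ((m i : ℕ).factorial : ℝ))| ≤
          ∑ k, |a k * ∏ i, (l k i ^ (m i : ℕ) / ((m i : ℕ).factorial : ℝ))| :=
          Finset.abs_sum_le_sum_abs _ _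
      _ ≤ ∑ k, |a k| * Real.exp (d * Λ) := by
          refine Finset.sum_le_sum fun k _ => ?_
          rw [abs_mul]
          exact mul_le_mul_of_nonneg_left (hprod k) (abs_nonneg _)
      _ = (∑ k, |a k|) * Real.exp (d * Λ) := by rw [Finset.sum_mul]
      _ ≤ B * Real.exp (d * Λ) := mul_le_mul_of_nonneg_right f2 (Real.exp_pos _).le
  · have hmain : ∀ k, |Real.exp (∑ i, l k i * t i) -
        ∏ i, ∑ m ∈ Finset.range M, (l k i * t i) ^ m / m.factorial| ≤
        d * (Λ ^ M / M.factorial) * Real.exp ((d + 1) * Λ) := by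
      intro k
      have hlt : ∀ i, |l k i * t i| ≤ Λ := by
        intro i
        rw [abs_mul]
        calc |l k i| * |t i| ≤ Λ * 1 := mul_le_mul (f1 k i) (ht i) (abs_nonneg _) hΛ
          _ = Λ := mul_one Λ
      have h1 := prod_diff Finset.univ (fun i => Real.exp (l k i * t i))
        (fun i => ∑ m ∈ Finset.range M, (l k i * t i) ^ m / m.factorial) (Real.exp Λ)
        (Λ ^ M / M.factorial * Real.exp Λ) (Real.one_le_exp hΛ) (by positivity)
        (fun i _ => by
          rw [Real.abs_exp]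
          exact Real.exp_le_exp.2 ((le_abs_self _).trans (hlt i)))
        (fun i _ => (exp_part _ _).trans (Real.exp_le_exp.2 (hlt i)))
        (fun i _ => (exp_rem _ _).trans (by
          have := hlt i
          gcongr))
      rw [← Real.exp_sum, Finset.card_univ, Fintype.card_fin, ← Real.exp_nat_mul] at h1
      refine h1.trans (le_of_eq ?_)
      rw [add_mul, one_mul, Real.exp_add]
      ring
    have e1 : f t - ∑ m : Fin d → Fin M, (∑ k, a k * ∏ i, (l k i ^ (m i : ℕ) /
        ((m i : ℕ).factorial : ℝ))) * ∏ i, t i ^ (m i : ℕ) =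
        ∑ k, a k * (Real.exp (∑ i, l k i * t i) -
          ∏ i, ∑ m ∈ Finset.range M, (l k i * t i) ^ m / m.factorial) := by
      rw [f3]
      simp only [mul_sub, Finset.sum_sub_distrib, Finset.sum_mul]
      congr 1
      rw [Finset.sum_comm]
      refine Finset.sum_congr rfl fun k _ => ?_
      have e2 : ∀ i, ∑ m ∈ Finset.range M, (l k i * t i) ^ m / (m.factorial : ℝ) =
          ∑ m : Fin M, (l k i * t i) ^ (m : ℕ) / ((m : ℕ).factorial : ℝ) := fun i =>
        Finset.sum_range (fun m => (l k i * t i) ^ m / (m.factorial : ℝ))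
      simp only [e2]
      rw [Finset.prod_univ_sum, Fintype.piFinset_univ, Finset.mul_sum]
      refine Finset.sum_congr rfl fun m _ => ?_
      rw [mul_assoc, ← Finset.prod_mul_distrib]
      congr 1
      refine Finset.prod_congr rfl fun i _ => ?_
      rw [mul_pow]
      ring
    rw [e1]
    calc |∑ k, a k * (Real.exp (∑ i, l k i * t i) -
          ∏ i, ∑ m ∈ Finset.range M, (l k i * t i) ^ m / m.factorial)|
        ≤ ∑ k, |a k * (Real.exp (∑ i, l k i * t i) -
          ∏ i, ∑ m ∈ Finset.range M, (l k i * t i) ^ m / m.factorial)| :=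
          Finset.abs_sum_le_sum_abs _ _
      _ ≤ ∑ k, |a k| * (d * (Λ ^ M / M.factorial) * Real.exp ((d + 1) * Λ)) := by
          refine Finset.sum_le_sum fun k _ => ?_
          rw [abs_mul]
          exact mul_le_mul_of_nonneg_left (hmain k) (abs_nonneg _)
      _ = (∑ k, |a k|) * (d * (Λ ^ M / M.factorial) * Real.exp ((d + 1) * Λ)) := by
          rw [Finset.sum_mul]
      _ ≤ B * (d * (Λ ^ M / M.factorial) * Real.exp ((d + 1) * Λ)) :=
          mul_le_mul_of_nonneg_right f2 (by positivity)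

private theorem pw_expD (a b : Fin d → ℝ) (U : ℝ) (hU : 0 ≤ U) (ha : ∀ i, |a i| ≤ U)
    (hb : ∀ i, |b i| ≤ U) (n : ℕ) :
    ExpD d (2 * U * n) (4 ^ n) (fun t =>
      (LThree.pw (1 + Real.exp (2 * ∑ i, t i * a i) - Real.exp (2 * ∑ i, t i * b i))
        (Real.exp (2 * ∑ i, t i * a i)) n).1) ∧
    ExpD d (2 * U * n) (4 ^ n) (fun t =>
      (LThree.pw (1 + Real.exp (2 * ∑ i, t i * a i) - Real.exp (2 * ∑ i, t i * b i))
        (Real.exp (2 * ∑ i, t i * a i)) n).2) := by
  have hexp : ∀ c : Fin d → ℝ, (∀ i, |c i| ≤ U) →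
      ExpD d (2 * U) 1 (fun t => Real.exp (2 * ∑ i, t i * c i)) := by
    intro c hc
    have h1 := ExpD.exp (d := d) (2 * U) (fun i => 2 * c i)
      (fun i => by
        rw [abs_mul, abs_of_pos (by norm_num : (0 : ℝ) < 2)]
        linarith [hc i])
    have e : (fun t : Fin d → ℝ => Real.exp (∑ i, 2 * c i * t i)) =
        fun t => Real.exp (2 * ∑ i, t i * c i) := by
      funext t
      congr 1
      rw [Finset.mul_sum]
      exact Finset.sum_congr rfl fun i _ => by ring
    rwa [e] at h1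
  induction n with
  | zero =>
    simp only [LThree.pw, CharP.cast_eq_zero, mul_zero, pow_zero]
    refine ⟨?_, ?_⟩
    · have := ExpD.const (d := d) 0 1 le_rfl
      rwa [abs_one] at this
    · exact (ExpD.const (d := d) 0 0 le_rfl).mono le_rfl (by norm_num)
  | succ n ih =>
    obtain ⟨i1, i2⟩ := ih
    have hn : (2 * U * ((n + 1 : ℕ) : ℝ)) = 2 * U + 2 * U * n := by push_cast; ring
    have h4 : (1 : ℝ) * 4 ^ n ≤ 4 ^ (n + 1) := by
      rw [pow_succ]
      have : (0 : ℝ) < 4 ^ n := by positivity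
      linarith
    rw [hn]
    simp only [LThree.pw]
    refine ⟨?_, ?_⟩
    · exact ((hexp a ha).mul i2).neg.mono le_rfl h4
    · have hS : ExpD d (2 * U) 3 (fun t =>
          1 + Real.exp (2 * ∑ i, t i * a i) - Real.exp (2 * ∑ i, t i * b i)) := by
        have h1 := ((ExpD.const (d := d) (2 * U) 1 (by positivity)).add (hexp a ha)).add
          (hexp b hb).neg
        have e : (|(1 : ℝ)| + 1 + 1) = 3 := by norm_num
        rw [e] at h1
        have e2 : (fun t : Fin d → ℝ =>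
            1 + Real.exp (2 * ∑ i, t i * a i) + -Real.exp (2 * ∑ i, t i * b i)) =
            fun t => 1 + Real.exp (2 * ∑ i, t i * a i) - Real.exp (2 * ∑ i, t i * b i) := by
          funext t
          ring
        rwa [e2] at h1
      have h5 := (i1.mono (Λ' := 2 * U + 2 * U * n) (by linarith) le_rfl).add (hS.mul i2)
      exact h5.mono le_rfl (by rw [pow_succ]; linarith)

/-- The functions `pwc` of `LThree/Pw.lean` along a parametrised subspace: with
`y₀ = ∑ a_i t_i`, `y₁ = ∑ b_i t_i`, `S = 1 + exp (2 y₀) - exp (2 y₁)`, `Q = exp (2 y₀)` (as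
`pwc_expSum`). -/
theorem pwc_expD (a b : Fin d → ℝ) (U : ℝ) (hU : 0 ≤ U) (ha : ∀ i, |a i| ≤ U)
    (hb : ∀ i, |b i| ≤ U) (n : ℕ) (c : Fin 2) :
    ExpD d (2 * U * n) (4 ^ n) (fun t =>
      LThree.pwc (1 + Real.exp (2 * ∑ i, t i * a i) - Real.exp (2 * ∑ i, t i * b i))
        (Real.exp (2 * ∑ i, t i * a i)) n c) := by
  obtain ⟨h1, h2⟩ := pw_expD a b U hU ha hb n
  unfold LThree.pwc
  split_ifs
  · exact h1
  · exact h2

end Pool.Agent.LAll
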