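import Pool.Agent.LAll.Defs

set_option autoImplicit false

/-! UV03. A selection theorem of Rado type: the choice of the corners of the inactive coordinates. -/

namespace Pool.Agent.LAll

open Module

variable {ι : Type} [Fintype ι] [DecidableEq ι]

omit [Fintype ι] in
/-- replace the coordinate `m` by `0` -/
private noncomputable def pz (m : ι) : E ι →ₗ[ℝ] E ι where
  toFun y := fun k => if k = m then 0 else y k
  map_add' y z := by
    funext k
    by_cases h : k = m
    · simp [h]
    · simp [h]
  map_smul' r y := by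
    funext k
    by_cases h : k = m
    · simp [h]
    · simp [h]

omit [Fintype ι] in
private theorem pz_self (m : ι) (y : E ι) : pz m y m = 0 := if_pos rfl

omit [Fintype ι] in
private theorem pz_ne {m k : ι} (h : k ≠ m) (y : E ι) : pz m y k = y k := if_neg h

/-- the elements of `R` supported on `M` with `al i (y m) = 0` -/
private def Rc (R : Submodule ℝ (E ι)) (M : Finset ι) (m : ι) (i : Fin 3) :
    Submodule ℝ (E ι) :=
  R ⊓ supp M ⊓ LinearMap.ker ((al i).comp (LinearMap.proj m : E ι →ₗ[ℝ] (Fin 2 → ℝ)))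

omit [Fintype ι] [DecidableEq ι] in
private theorem mem_Rc {R : Submodule ℝ (E ι)} {M : Finset ι} {m : ι} {i : Fin 3} {y : E ι} :
    y ∈ Rc R M m i ↔ (y ∈ R ∧ y ∈ supp M) ∧ al i (y m) = 0 := Iff.rfl

/-- **Choice of corners.** If `dim (R ⊓ supp M') ≤ |M'|` for all `M' ⊆ M`, then there are corners
`c m ∈ {0, 1}` such that no `y ≠ 0` in `R ⊓ supp M` satisfies `al (c m) (y m) = 0` for all `m ∈ M`.

Proof by induction on `M` (`Finset.induction_on`, for all `R`). `M = ∅`: `R ⊓ supp ∅ = ⊥`.
`M = insert m M₀`, `m ∉ M₀`. For a corner `i ∈ {0, 1}` put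
`R_i = {y ∈ R ⊓ supp M | al i (y m) = 0}` and `π : E ι → E ι`, `π y = ` (`y` with the coordinate `m`
replaced by `0`), `R'_i = R_i.map π`. Say that `i` is GOOD if `finrank (R_i ⊓ supp (insert m M')) ≤ |M'|`
for all `M' ⊆ M₀`.
(1) If `i` is good: `π` is injective on `R_i` (kernel = elements of `R_i` supported on `{m}`:
`M' = ∅`), and for `M' ⊆ M₀`: `R'_i ⊓ supp M'` is the image of `R_i ⊓ supp (insert m M')`, so has
dimension `≤ |M'|`. By induction (for `R'_i`) there is `c'` for `M₀`; let `c = c'` with `c m = i`. If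
`y ∈ R ⊓ supp M` has `al (c k) (y k) = 0` for all `k ∈ M`, then `y ∈ R_i`, `π y ∈ R'_i ⊓ supp M₀`, so
`π y = 0`, so `y ∈ R_i ⊓ supp {m} = ⊥`.
(2) One of `0`, `1` is good: otherwise there are `A, B ⊆ M₀` with
`finrank (R_0 ⊓ supp (insert m A)) ≥ |A| + 1` and `finrank (R_1 ⊓ supp (insert m B)) ≥ |B| + 1`. The
intersection of the two spaces is contained in `R ⊓ supp (A ∩ B)` (`al 0 (y m) = y m 0 = 0` and
`al 1 (y m) = y m 1 = 0` give `y m = 0`), of dimension `≤ |A ∩ B|`; their sum is contained in
`R ⊓ supp (insert m (A ∪ B))`, of dimension `≤ |A ∪ B| + 1`. But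
`|A| + 1 + |B| + 1 - |A ∩ B| = |A ∪ B| + 2` (`Submodule.finrank_sup_add_finrank_inf_eq`,
`Finset.card_union_add_card_inter`). -/
theorem rado (M : Finset ι) (R : Submodule ℝ (E ι))
    (h : ∀ M' ⊆ M, finrank ℝ (R ⊓ supp M' : Submodule ℝ (E ι)) ≤ M'.card) :
    ∃ c : ι → Fin 3, (∀ k, c k ≠ 2) ∧ ∀ y ∈ R, y ∈ supp M → (∀ m ∈ M, al (c m) (y m) = 0) →
      y = 0 := by
  induction M using Finset.induction_on generalizing R with
  | empty =>
    have h02 : (0 : Fin 3) ≠ 2 := by decide
    refine ⟨fun _ => 0, fun _ => h02, fun y _ hy _ => ?_⟩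
    funext k
    exact hy k (Finset.notMem_empty k)
  | insert m M₀ hm ih =>
    -- one of the two corners is good
    have hgood : ∃ i : Fin 3, i ≠ 2 ∧ ∀ M' ⊆ M₀,
        finrank ℝ (Rc R (insert m M₀) m i ⊓ supp (insert m M') : Submodule ℝ (E ι)) ≤
          M'.card := by
      by_contra hcon
      push Not at hcon
      obtain ⟨A, hA, hA'⟩ := hcon 0 (by decide)
      obtain ⟨B, hB, hB'⟩ := hcon 1 (by decide)
      set U : Submodule ℝ (E ι) := Rc R (insert m M₀) m 0 ⊓ supp (insert m A) with hU
      set W : Submodule ℝ (E ι) := Rc R (insert m M₀) m 1 ⊓ supp (insert m B) with hW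
      have h1 : U ⊓ W ≤ R ⊓ supp (A ∩ B) := by
        rintro y ⟨⟨hy1, hy2⟩, ⟨hy3, hy4⟩⟩
        have h0 : y m = 0 := by
          have e1 : y m 0 = 0 := (mem_Rc.1 hy1).2
          have e2 : y m 1 = 0 := (mem_Rc.1 hy3).2
          funext i
          fin_cases i
          · exact e1
          · exact e2
        refine ⟨(mem_Rc.1 hy1).1.1, fun k hk => ?_⟩
        by_cases hkm : k = m
        · rw [hkm]
          exact h0
        · by_cases hkA : k ∈ A
          · refine hy4 k fun h' => ?_
            rcases Finset.mem_insert.1 h' with h'' | h''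
            · exact hkm h''
            · exact hk (Finset.mem_inter.2 ⟨hkA, h''⟩)
          · refine hy2 k fun h' => ?_
            rcases Finset.mem_insert.1 h' with h'' | h''
            · exact hkm h''
            · exact hkA h''
      have h2 : U ⊔ W ≤ R ⊓ supp (insert m (A ∪ B)) := by
        refine sup_le ?_ ?_
        · rintro y ⟨hy1, hy2⟩
          exact ⟨(mem_Rc.1 hy1).1.1,
            supp_mono (Finset.insert_subset_insert m Finset.subset_union_left) hy2⟩
        · rintro y ⟨hy1, hy2⟩
          exact ⟨(mem_Rc.1 hy1).1.1,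
            supp_mono (Finset.insert_subset_insert m Finset.subset_union_right) hy2⟩
      have h3 : finrank ℝ (U ⊓ W : Submodule ℝ (E ι)) ≤ (A ∩ B).card :=
        (Submodule.finrank_mono h1).trans
          (h _ (Finset.inter_subset_left.trans (hA.trans (Finset.subset_insert _ _))))
      have h4 : finrank ℝ (U ⊔ W : Submodule ℝ (E ι)) ≤ (A ∪ B).card + 1 :=
        (Submodule.finrank_mono h2).trans
          ((h _ (Finset.insert_subset_insert m (Finset.union_subset hA hB))).trans
            (Finset.card_insert_le _ _))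
      have h5 := Submodule.finrank_sup_add_finrank_inf_eq U W
      have h6 := Finset.card_union_add_card_inter A B
      omega
    obtain ⟨i, hi2, hi⟩ := hgood
    set Q : Submodule ℝ (E ι) := Rc R (insert m M₀) m i with hQ
    obtain ⟨c', hc', hc''⟩ := ih (Q.map (pz m)) (by
      intro M' hM'
      have h1 : (Q.map (pz m) ⊓ supp M' : Submodule ℝ (E ι)) ≤
          (Q ⊓ supp (insert m M') : Submodule ℝ (E ι)).map (pz m) := by
        rintro y' ⟨⟨y, hy, rfl⟩, hy'⟩
        refine ⟨y, ⟨hy, fun k hk => ?_⟩, rfl⟩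
        have hkm : k ≠ m := fun h' => hk (Finset.mem_insert.2 (Or.inl h'))
        have h2 := hy' k fun h' => hk (Finset.mem_insert.2 (Or.inr h'))
        rwa [pz_ne hkm] at h2
      exact (Submodule.finrank_mono h1).trans ((Submodule.finrank_map_le _ _).trans (hi M' hM')))
    refine ⟨fun k => if k = m then i else c' k, fun k => ?_, fun y hyR hyM hy => ?_⟩
    · dsimp only
      split_ifs
      · exact hi2
      · exact hc' k
    · have hym : al i (y m) = 0 := by
        have := hy m (Finset.mem_insert_self m M₀)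
        simpa using this
      have hyQ : y ∈ Q := mem_Rc.2 ⟨⟨hyR, hyM⟩, hym⟩
      have h0 : pz m y = 0 := by
        refine hc'' _ ⟨y, hyQ, rfl⟩ (fun k hk => ?_) fun k hk => ?_
        · by_cases hkm : k = m
          · rw [hkm]
            exact pz_self m y
          · rw [pz_ne hkm]
            refine hyM k fun h' => ?_
            rcases Finset.mem_insert.1 h' with h'' | h''
            · exact hkm h''
            · exact hk h''
        · have hkm : k ≠ m := fun h' => hm (h' ▸ hk)
          rw [pz_ne hkm]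
          have := hy k (Finset.mem_insert_of_mem hk)
          simpa [hkm] using this
      have h1 := hi ∅ (Finset.empty_subset _)
      rw [Finset.card_empty, Nat.le_zero, Submodule.finrank_eq_zero] at h1
      have h2 : y ∈ (Q ⊓ supp (insert m ∅) : Submodule ℝ (E ι)) := by
        refine ⟨hyQ, fun k hk => ?_⟩
        have hkm : k ≠ m := fun h' => hk (Finset.mem_insert.2 (Or.inl h'))
        rw [← pz_ne hkm y, h0]
        rfl
      rw [h1] at h2
      exact (Submodule.mem_bot ℝ).1 h2

end Pool.Agent.LAll
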