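import Pool.Agent.LAll.SumA
import Pool.Agent.LAll.ChargedEx
import Pool.Agent.LAll.Rado

set_option autoImplicit false

/-! UV05. From no concentration to the rank: theorems (Ia) and (Ib). -/

namespace Pool.Agent.LAll

open Filter Topology Module

variable {ι : Type} [Fintype ι] [DecidableEq ι] {J : Type}

/-- the test values at the three corners -/
private def yc (c : Fin 3) : Fin 2 → ℝ := ![![-1, 0], ![0, -1], ![0, 1]] c

private theorem al_yc (c : Fin 3) : al c (yc c) = -1 := by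
  fin_cases c <;> simp [al, yc]

omit [DecidableEq ι] in
/-- every vector has a bound for its entries -/
private theorem exists_bd (r : E ι) : ∃ Y : ℝ, 0 ≤ Y ∧ ∀ k i, |r k i| ≤ Y := by
  refine ⟨∑ k, ∑ i, |r k i|, Finset.sum_nonneg fun k _ => Finset.sum_nonneg fun i _ =>
    abs_nonneg _, fun k i => ?_⟩
  refine (Finset.single_le_sum (f := fun i => |r k i|) (fun i _ => abs_nonneg _)
    (Finset.mem_univ i)).trans ?_
  exact Finset.single_le_sum (f := fun k => ∑ i, |r k i|)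
    (fun k _ => Finset.sum_nonneg fun i _ => abs_nonneg _) (Finset.mem_univ k)

/-- the local lower bound at a place of the type -/
private theorem pair_lower (C : Cfg ι) (W S : Finset ι) (c : ι → Fin 3) (hS : S ⊆ W)
    (hS0 : S.Nonempty) (r : E ι) (hr : r ∈ supp W) (h1 : ∀ k ∈ S, al (c k) (r k) = -1)
    (Y ε δ : ℝ) (hY : ∀ k i, |r k i| ≤ Y) (hY0 : 0 ≤ Y) (hδ : 0 ≤ δ)
    (hδε : 2 * Y * δ * W.card ≤ ε / 2) (v : C.V) (hv : C.Typ W S c ε δ v) :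
    ε / 2 * C.sig W v ≤ |C.pair v r| + 2 * Y * (∑ k ∈ W, C.e k) * C.w v := by
  have hσ : 0 ≤ C.sig W v := C.sig_nonneg W v
  have e1 : C.pair v r = ∑ k ∈ W, ∑ i, r k i * C.L v k i := by
    unfold Cfg.pair
    symm
    apply Finset.sum_subset (Finset.subset_univ W)
    intro k _ hk
    rw [hr k hk]
    simp
  have e2 : ∑ k ∈ W, ∑ i, r k i * C.L v k i =
      ∑ k ∈ S, ∑ i, r k i * C.L v k i + ∑ k ∈ W \ S, ∑ i, r k i * C.L v k i := by
    rw [add_comm, Finset.sum_sdiff hS]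
  have e3 : ∑ k ∈ W, C.e k = ∑ k ∈ S, C.e k + ∑ k ∈ W \ S, C.e k := by
    rw [add_comm, Finset.sum_sdiff hS]
  have hS1 : ∑ k ∈ S, (C.A v k - 2 * Y * (C.w v * C.e k)) ≤
      ∑ k ∈ S, ∑ i, r k i * C.L v k i := by
    refine Finset.sum_le_sum fun k hk => ?_
    have h2 := C.pair_local v k (r k) Y (hY k)
    rw [(hv.1 k hk).1, h1 k hk] at h2
    have h3 := abs_le.1 h2
    linarith [h3.1]
  have hS2 : ∑ k ∈ W \ S, (-(2 * Y * (δ * C.sig W v)) - 2 * Y * (C.w v * C.e k)) ≤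
      ∑ k ∈ W \ S, ∑ i, r k i * C.L v k i := by
    refine Finset.sum_le_sum fun k hk => ?_
    rw [Finset.mem_sdiff] at hk
    have h2 := (abs_le.1 (C.pair_local v k (r k) Y (hY k))).1
    have h3 := abs_al_le (C.c v k) (r k) Y (hY k)
    have h4 := hv.2 k hk.1 hk.2
    have h5 : C.A v k * al (C.c v k) (r k) ≤ 2 * Y * (δ * C.sig W v) := by
      calc C.A v k * al (C.c v k) (r k) ≤ C.A v k * |al (C.c v k) (r k)| :=
            mul_le_mul_of_nonneg_left (le_abs_self _) (C.A0 v k)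
        _ ≤ C.A v k * (2 * Y) := mul_le_mul_of_nonneg_left h3 (C.A0 v k)
        _ ≤ (δ * C.sig W v) * (2 * Y) := mul_le_mul_of_nonneg_right h4 (by linarith)
        _ = 2 * Y * (δ * C.sig W v) := by ring
    linarith
  obtain ⟨k₀, hk₀⟩ := hS0
  have hA : ε * C.sig W v ≤ ∑ k ∈ S, C.A v k :=
    (hv.1 k₀ hk₀).2.trans (Finset.single_le_sum (f := fun k => C.A v k)
      (fun k _ => C.A0 v k) hk₀)
  rw [Finset.sum_sub_distrib, ← Finset.mul_sum, ← Finset.mul_sum] at hS1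
  rw [Finset.sum_sub_distrib, ← Finset.mul_sum, ← Finset.mul_sum, Finset.sum_const,
    nsmul_eq_mul] at hS2
  have hcard : ((W \ S).card : ℝ) ≤ W.card := by
    exact_mod_cast Finset.card_le_card Finset.sdiff_subset
  have hX : 0 ≤ 2 * Y * (δ * C.sig W v) := by positivity
  have hB : ((W \ S).card : ℝ) * (2 * Y * (δ * C.sig W v)) ≤ ε / 2 * C.sig W v := by
    calc ((W \ S).card : ℝ) * (2 * Y * (δ * C.sig W v))
        ≤ (W.card : ℝ) * (2 * Y * (δ * C.sig W v)) := mul_le_mul_of_nonneg_right hcard hX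
      _ = 2 * Y * δ * W.card * C.sig W v := by ring
      _ ≤ ε / 2 * C.sig W v := mul_le_mul_of_nonneg_right hδε hσ
  have hab := le_abs_self (C.pair v r)
  rw [e1, e2] at hab ⊢
  rw [e3]
  have hsplit : ε * C.sig W v = ε / 2 * C.sig W v + ε / 2 * C.sig W v := by ring
  have hm : ((W \ S).card : ℝ) * -(2 * Y * (δ * C.sig W v)) =
      -(((W \ S).card : ℝ) * (2 * Y * (δ * C.sig W v))) := by ring
  rw [hm] at hS2
  have hw : 2 * Y * (∑ k ∈ S, C.e k + ∑ k ∈ W \ S, C.e k) * C.w v =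
      2 * Y * (C.w v * ∑ k ∈ S, C.e k) + 2 * Y * (C.w v * ∑ k ∈ W \ S, C.e k) := by ring
  rw [hw]
  linarith

/-- **A vector of height `0` cannot see a charged type.** If `(S, c)` is charged for `W`, `S ≠ ∅`, then
`(ker ⊓ supp W) ⊔ (supp W ⊓ ZZ S c) ≠ supp W`.

Proof. Let `y₀ ∈ supp W` be a vector with `al (c k) (y₀ k) = -1` for `k ∈ S` and `y₀ k = 0` for `k ∉ S`
(`y₀ k = (-1, 0), (0, -1), (0, 1)` for `c k = 0, 1, 2`). If the sum is `supp W`, then `y₀ = r + z` with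
`r ∈ ker`, `z ∈ supp W ⊓ ZZ S c`, `r ∈ supp W`. Let `Y` bound all the entries of `y₀`, `r`, `z`
(absolute values). Let `ε, μ` be as in `Charged` and `δ = ε / (8 (Y + 1) (W.card + 1))` (or smaller). At
a place `v` of the type (`Typ W S c ε δ v`), by `Cfg.pair_local` and `c v k = c k` for `k ∈ S`:
`pair v y₀ ≥ ∑_{k ∈ S} A v k - 2 Y w v ∑_{k ∈ W} e k ≥ ε σ v - 2 Y w v ∑_{k ∈ W} e k` (`S ≠ ∅`), and
`|pair v z| ≤ ∑_{k ∈ W \ S} 2 Y A v k + 2 Y w v ∑_{k ∈ W} e k ≤ 2 Y |W| δ σ v + ...` (the terms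
`al (c v k) (z k)` vanish for `k ∈ S`; `pair v` only sees `k ∈ W`, as the vectors are in `supp W`). So
`|pair v r| ≥ pair v y₀ - |pair v z| ≥ (ε / 2) σ v - 4 Y w v ∑_{k ∈ W} e k`. Summing over the places of
the type: `N r ≥ (ε / 2) μ - 4 Y ∑_{k ∈ W} e k` for most `j` (`∑ w = 1`), and `e k → 0`
(`Tame.err`), `N r → 0`: contradiction. -/
theorem sup_ne_supp {𝒰 : Ultrafilter J} {𝒞 : J → Cfg ι} {W₀ : Finset ι} (hT : Tame 𝒰 𝒞 W₀)
    (W : Finset ι) (hW : W ⊆ W₀) (S : Finset ι) (c : ι → Fin 3) (hS : S ⊆ W) (hS0 : S.Nonempty)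
    (hc : Charged 𝒰 𝒞 W S c) :
    (ker 𝒰 𝒞 ⊓ supp W) ⊔ (supp W ⊓ ZZ S c) ≠ supp W := by
  intro heq
  have hy0 : (fun k => if k ∈ S then yc (c k) else 0 : E ι) ∈ supp W := by
    intro k hk
    have : k ∉ S := fun h => hk (hS h)
    simp [this]
  rw [← heq] at hy0
  obtain ⟨r, hr, z, hz, hrz⟩ := Submodule.mem_sup.1 hy0
  have h1 : ∀ k ∈ S, al (c k) (r k) = -1 := by
    intro k hk
    have h2 : r k + z k = yc (c k) := by
      have := congrFun hrz k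
      simpa [hk] using this
    have h3 : r k = yc (c k) - z k := by rw [← h2]; abel
    rw [h3, map_sub, al_yc, hz.2 k hk, sub_zero]
  obtain ⟨Y, hY0, hY⟩ := exists_bd r
  obtain ⟨ε, μ, hε, hμ, hch⟩ := hc
  have hd : 0 < 4 * (Y + 1) * ((W.card : ℝ) + 1) := by positivity
  have hδ : 0 < ε / (4 * (Y + 1) * ((W.card : ℝ) + 1)) := div_pos hε hd
  have hδε : 2 * Y * (ε / (4 * (Y + 1) * ((W.card : ℝ) + 1))) * W.card ≤ ε / 2 := by
    rw [mul_div_assoc', div_mul_eq_mul_div, div_le_div_iff₀ hd two_pos]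
    have hW0 : (0 : ℝ) ≤ W.card := Nat.cast_nonneg _
    have : 0 ≤ ε * (Y + W.card + 1) := by positivity
    nlinarith
  have hkey := hch _ hδ
  have hN : Tendsto (fun j => (𝒞 j).N r + 2 * Y * ∑ k ∈ W, (𝒞 j).e k) (𝒰 : Filter J)
      (𝓝 (0 + 2 * Y * ∑ k ∈ W, (0 : ℝ))) := by
    refine Tendsto.add hr.1 (Tendsto.const_mul _ (tendsto_finsetSum _ fun k hk => ?_))
    exact hT.err k (hW hk)
  have h0 : (0 : ℝ) + 2 * Y * ∑ k ∈ W, (0 : ℝ) = 0 := by simp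
  rw [h0] at hN
  have hev : ∀ᶠ j in (𝒰 : Filter J),
      (𝒞 j).N r + 2 * Y * ∑ k ∈ W, (𝒞 j).e k < ε / 2 * μ :=
    hN.eventually (gt_mem_nhds (by positivity))
  obtain ⟨j, hj1, hj2⟩ := (hkey.and hev).exists
  have hmk := (𝒞 j).markov ((𝒞 j).sig W)
    (fun v => |(𝒞 j).pair v r| + 2 * Y * (∑ k ∈ W, (𝒞 j).e k) * (𝒞 j).w v)
    ((𝒞 j).Typ W S c ε (ε / (4 * (Y + 1) * ((W.card : ℝ) + 1)))) (ε / 2)
    (fun v => add_nonneg (abs_nonneg _) (mul_nonneg (mul_nonneg (by linarith)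
      (Finset.sum_nonneg fun k _ => (𝒞 j).e0 k)) ((𝒞 j).w0 v)))
    (fun v hv => pair_lower (𝒞 j) W S c hS hS0 r hr.2 h1 Y ε _ hY hY0 hδ.le hδε v hv)
  rw [Finset.sum_add_distrib, ← Finset.mul_sum, (𝒞 j).w1, mul_one] at hmk
  have hmk2 : ε / 2 * μ ≤ ε / 2 * (𝒞 j).mass ((𝒞 j).sig W)
      ((𝒞 j).Typ W S c ε (ε / (4 * (Y + 1) * ((W.card : ℝ) + 1)))) :=
    mul_le_mul_of_nonneg_left hj1 (by linarith)
  have hNr : (𝒞 j).N r = ∑ v, |(𝒞 j).pair v r| := rfl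
  rw [hNr] at hj2
  linarith

/-- **(Ia) from (Ib).** `exists_charged` (with `Tame.le_sig`) gives a charged type `(S, c)`, `S ≠ ∅`. If
`finrank (ker ⊓ supp W) ≥ W.card` then, by `Submodule.finrank_sup_add_finrank_inf_eq` for
`ker ⊓ supp W` and `supp W ⊓ ZZ S c` (`finrank_supp_ZZ`: dimension `2 |W| - |S|`; the intersection has
dimension `≤ |W \ S| = |W| - |S|` by `hIb`), the sum has dimension `≥ |W| + 2 |W| - |S| - |W| + |S| = 2 |W|`,
so it is `supp W` (`finrank_supp`, `Submodule.eq_of_le_of_finrank_le`): contradiction to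
`sup_ne_supp`. -/
theorem Ia_of_Ib {𝒰 : Ultrafilter J} {𝒞 : J → Cfg ι} {W₀ : Finset ι} (hT : Tame 𝒰 𝒞 W₀)
    (W : Finset ι) (hW : W ⊆ W₀) (hne : W.Nonempty)
    (hIb : ∀ (S : Finset ι) (c : ι → Fin 3), S ⊆ W → S.Nonempty → Charged 𝒰 𝒞 W S c →
      finrank ℝ (ker 𝒰 𝒞 ⊓ supp W ⊓ ZZ S c : Submodule ℝ (E ι)) ≤ (W \ S).card) :
    finrank ℝ (ker 𝒰 𝒞 ⊓ supp W : Submodule ℝ (E ι)) + 1 ≤ W.card := by
  by_contra hcon
  push Not at hcon
  obtain ⟨S, c, hS, hS0, hc⟩ := exists_charged 𝒰 𝒞 W hne (1 / 2) (by norm_num)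
    (hT.le_sig W hW hne)
  have h1 := hIb S c hS hS0 hc
  have h2 := finrank_supp_ZZ W S c hS
  have h3 := Submodule.finrank_sup_add_finrank_inf_eq (ker 𝒰 𝒞 ⊓ supp W) (supp W ⊓ ZZ S c)
  have h4 : (ker 𝒰 𝒞 ⊓ supp W) ⊓ (supp W ⊓ ZZ S c) = ker 𝒰 𝒞 ⊓ supp W ⊓ ZZ S c := by
    rw [← inf_assoc, inf_assoc (ker 𝒰 𝒞), inf_idem]
  rw [h4] at h3
  have h5 := Finset.card_sdiff_add_card_eq_card hS
  have h6 := finrank_supp W
  have hle : (ker 𝒰 𝒞 ⊓ supp W) ⊔ (supp W ⊓ ZZ S c) ≤ supp W :=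
    sup_le inf_le_right inf_le_left
  refine sup_ne_supp hT W hW S c hS hS0 hc (Submodule.eq_of_le_of_finrank_le hle ?_)
  omega

/-- The charged property does not depend on the corners outside `S`. -/
theorem Charged.congr {𝒰 : Ultrafilter J} {𝒞 : J → Cfg ι} {W S : Finset ι} {c c' : ι → Fin 3}
    (h : Charged 𝒰 𝒞 W S c) (hc : ∀ k ∈ S, c' k = c k) : Charged 𝒰 𝒞 W S c' := by
  obtain ⟨ε, μ, hε, hμ, hh⟩ := h
  refine ⟨ε, μ, hε, hμ, fun δ hδ => (hh δ hδ).mono fun j hj => hj.trans ?_⟩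
  refine (𝒞 j).mass_mono _ _ _ (fun v => (𝒞 j).sig_nonneg W v) fun v hv => ⟨fun k hk => ?_, hv.2⟩
  rw [hc k hk]
  exact hv.1 k hk

/-- **(Ib) from `NoConc` and (Ia) for the proper subsets.** Suppose
`R = ker ⊓ supp W ⊓ ZZ S c` has dimension `≥ |W \ S| + 1`. With `M = W \ S` the hypothesis of `rado` holds for
`M` and `R`: for `∅ ≠ M' ⊆ M`, `R ⊓ supp M' ≤ ker ⊓ supp M'` has dimension `≤ |M'| - 1` by `hIa`
(`M' ≠ W` as `S ≠ ∅`); for `M' = ∅` it is `0`. Let `c'` be the corners of `rado` and `c''` = `c` on `S`,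
`c'` outside `S`. `(S, c'')` is charged (`Charged.congr`), `R ≤ ZZ S c''`, and the separation hypothesis of
`NoConc` holds: if `y ∈ R`, `be (c'' k) (y k) = 0` for `k ∈ S` and `al (c'' k) (y k) = 0` for
`k ∈ W \ S`, then `y k = 0` for `k ∈ S` (`eq_zero_of_al_be`, `y ∈ ZZ S c`), so `y ∈ supp M`, so `y = 0` by
`rado`. So `NoConc` gives `finrank R ≤ |W \ S|`. -/
theorem Ib_of_noConc {𝒰 : Ultrafilter J} {𝒞 : J → Cfg ι} (W : Finset ι) (hN : NoConc 𝒰 𝒞 W)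
    (hIa : ∀ M' : Finset ι, M' ⊆ W → M' ≠ W → M'.Nonempty →
      finrank ℝ (ker 𝒰 𝒞 ⊓ supp M' : Submodule ℝ (E ι)) + 1 ≤ M'.card)
    (S : Finset ι) (c : ι → Fin 3) (hS : S ⊆ W) (hS0 : S.Nonempty) (hc : Charged 𝒰 𝒞 W S c) :
    finrank ℝ (ker 𝒰 𝒞 ⊓ supp W ⊓ ZZ S c : Submodule ℝ (E ι)) ≤ (W \ S).card := by
  obtain ⟨c', -, hc'⟩ := rado (W \ S) (ker 𝒰 𝒞 ⊓ supp W ⊓ ZZ S c) (by
    intro M' hM'
    rcases M'.eq_empty_or_nonempty with h | h
    · have h0 : (ker 𝒰 𝒞 ⊓ supp W ⊓ ZZ S c) ⊓ supp M' = ⊥ := by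
        rw [eq_bot_iff]
        intro y hy
        rw [Submodule.mem_bot]
        funext k
        exact hy.2 k (by rw [h]; exact Finset.notMem_empty k)
      rw [h0, finrank_bot]
      exact Nat.zero_le _
    · have h1 : M' ⊆ W := hM'.trans Finset.sdiff_subset
      have h2 : M' ≠ W := by
        intro h2
        obtain ⟨k, hk⟩ := hS0
        have := hM' (h2 ▸ hS hk : k ∈ M')
        rw [Finset.mem_sdiff] at this
        exact this.2 hk
      have h3 := hIa M' h1 h2 h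
      have h4 : finrank ℝ ((ker 𝒰 𝒞 ⊓ supp W ⊓ ZZ S c) ⊓ supp M' : Submodule ℝ (E ι)) ≤
          finrank ℝ (ker 𝒰 𝒞 ⊓ supp M' : Submodule ℝ (E ι)) :=
        Submodule.finrank_mono (inf_le_inf_right _ (inf_le_left.trans inf_le_left))
      omega)
  have hcc : ∀ k ∈ S, (fun k => if k ∈ S then c k else c' k : ι → Fin 3) k = c k := by
    intro k hk
    simp [hk]
  refine hN S (fun k => if k ∈ S then c k else c' k) hS hS0 (hc.congr hcc) _
    (inf_le_left.trans inf_le_left) (inf_le_left.trans inf_le_right) ?_ ?_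
  · intro y hy k hk
    rw [hcc k hk]
    exact hy.2 k hk
  · intro y hy h1 h2
    have h3 : ∀ k ∈ S, y k = 0 := by
      intro k hk
      have h4 := h1 k hk
      rw [if_pos hk] at h4
      exact eq_zero_of_al_be (c k) (y k) (hy.2 k hk) h4
    have h5 : y ∈ supp (W \ S) := by
      intro k hk
      by_cases hkW : k ∈ W
      · by_cases hkS : k ∈ S
        · exact h3 k hkS
        · exact absurd (Finset.mem_sdiff.2 ⟨hkW, hkS⟩) hk
      · exact hy.1.2 k hkW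
    refine hc' y hy h5 fun m hm => ?_
    rw [Finset.mem_sdiff] at hm
    have h6 := h2 m hm.1 hm.2
    rw [if_neg hm.2] at h6
    exact h6

/-- **(Ia) and (Ib)** for all nonempty `W' ⊆ W`: strong induction on `W'.card` with the two previous
theorems. -/
theorem Iab {𝒰 : Ultrafilter J} {𝒞 : J → Cfg ι} {W₀ : Finset ι} (hT : Tame 𝒰 𝒞 W₀)
    (W : Finset ι) (hW : W ⊆ W₀) (hN : ∀ W' ⊆ W, W'.Nonempty → NoConc 𝒰 𝒞 W') :
    ∀ W' ⊆ W, W'.Nonempty →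
      (∀ (S : Finset ι) (c : ι → Fin 3), S ⊆ W' → S.Nonempty → Charged 𝒰 𝒞 W' S c →
        finrank ℝ (ker 𝒰 𝒞 ⊓ supp W' ⊓ ZZ S c : Submodule ℝ (E ι)) ≤ (W' \ S).card) ∧
      finrank ℝ (ker 𝒰 𝒞 ⊓ supp W' : Submodule ℝ (E ι)) + 1 ≤ W'.card := by
  intro W'
  induction W' using Finset.strongInduction with
  | H W' ih =>
    intro hW' hne
    have hIb : ∀ (S : Finset ι) (c : ι → Fin 3), S ⊆ W' → S.Nonempty → Charged 𝒰 𝒞 W' S c →
        finrank ℝ (ker 𝒰 𝒞 ⊓ supp W' ⊓ ZZ S c : Submodule ℝ (E ι)) ≤ (W' \ S).card :=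
      fun S c hS hS0 hc => Ib_of_noConc W' (hN W' hW' hne)
        (fun M' h1 h2 h3 => (ih M' (lt_of_le_of_ne h1 h2) (h1.trans hW') h3).2) S c hS hS0 hc
    exact ⟨hIb, Ia_of_Ib hT W' (hW'.trans hW) hne hIb⟩

end Pool.Agent.LAll
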