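import Pool.Agent.LAll.Trop

set_option autoImplicit false

/-! UV18. Moebius substitution in a polynomial. -/

namespace Pool.Agent.LAll

open MvPolynomial in
/-- the substituted monomial factor -/
private noncomputable def hp {ι : Type} (c : ι → Fin 3) (D : ℕ) (k : ι) (a : ℕ) :
    MvPolynomial ι ℤ :=
  ![X k ^ a, (1 - X k) ^ a, (1 - X k) ^ (D - a)] (c k)

private def up {K : Type} [Field K] (c : Fin 3) (D : ℕ) (x : K) : K :=
  ![1, 1, (1 - x) ^ D] c

private theorem up_ne_zero {K : Type} [Field K] (c : Fin 3) (D : ℕ) {x : K} (h : 1 - x ≠ 0) :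
    up c D x ≠ 0 := by
  fin_cases c
  · simp [up]
  · simp [up]
  · simpa [up] using fun h1 => absurd h1 h

private theorem aeval_hp {ι K : Type} [Field K] (c : ι → Fin 3) {D : ℕ} (k : ι) {a : ℕ}
    (ha : a ≤ D) (x : ι → K) (hx : 1 - x k ≠ 0) :
    MvPolynomial.aeval x (hp c D k a) = up (c k) D (x k) * tt (c k) (x k) ^ a := by
  unfold hp up tt
  generalize c k = j
  fin_cases j
  · simp
  · simp
  · simp only [Fin.reduceFinMk, Matrix.cons_val, map_pow, map_sub, map_one,
      MvPolynomial.aeval_X]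
    rw [inv_pow, ← div_eq_mul_inv, eq_div_iff (pow_ne_zero _ hx), ← pow_add,
      Nat.sub_add_cancel ha]

/-- **Moebius substitution.** A nonzero polynomial in the `t_k = tt (c k) (x k)` gives a nonzero
polynomial in the `x_k`.

Proof. Let `D ≥` all exponents in `F`; `f = ∑_m F_m ∏_k h_k(m_k)` with `h_k(a) = X_k ^ a` if `c k = 0`,
`(1 - X_k) ^ a` if `c k = 1`, `(1 - X_k) ^ (D - a)` if `c k = 2`. For all `x` with `1 - x_k ≠ 0`:
`f(x) = ∏_{c k = 2} (1 - x_k) ^ D * F(t)`, so `F(t) = 0` implies `f(x) = 0`. `f ≠ 0`: otherwise `F(t) = 0` for all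
`t` of the form `tt (c k) (x k)`, `x_k ∈ ℚ`, `x_k ≠ 0, 1`, i.e. for all `t` with
`t_k ∈ ℚ \ {0, 1}` (`tt c` is a bijection of `ℚ \ {0, 1}`), an infinite set, so `F = 0`
(`MvPolynomial.funext_set` or `MvPolynomial.funext` on infinite sets, after mapping `F` to `ℚ`). -/
theorem moebius {ι : Type} (W : Finset ι) (c : ι → Fin 3) (F : MvPolynomial {k // k ∈ W} ℤ)
    (hF : F ≠ 0) :
    ∃ f : MvPolynomial ι ℤ, f ≠ 0 ∧ ∀ (K : Type) [Field K] [CharZero K] (x : ι → K),
      (∀ k, x k ≠ 0) → (∀ k, 1 - x k ≠ 0) →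
      MvPolynomial.aeval (fun k : {k // k ∈ W} => tt (c k) (x k)) F = 0 →
      MvPolynomial.aeval x f = 0 := by
  classical
  obtain ⟨D, hD⟩ : ∃ D : ℕ, ∀ m ∈ F.support, ∀ k, m k ≤ D := by
    refine ⟨F.support.sup fun m => Finset.univ.sup m, fun m hm k => ?_⟩
    exact (Finset.le_sup (f := m) (Finset.mem_univ k)).trans
      (Finset.le_sup (f := fun m : {k // k ∈ W} →₀ ℕ => Finset.univ.sup m) hm)
  set f : MvPolynomial ι ℤ := ∑ m ∈ F.support,
    MvPolynomial.C (F.coeff m) * ∏ k : {k // k ∈ W}, hp c D k (m k) with hf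
  have key : ∀ (K : Type) [Field K] (x : ι → K), (∀ k, 1 - x k ≠ 0) →
      MvPolynomial.aeval x f = (∏ k : {k // k ∈ W}, up (c k) D (x k)) *
        MvPolynomial.aeval (fun k : {k // k ∈ W} => tt (c k) (x k)) F := by
    intro K _ x hx
    rw [hf, map_sum, MvPolynomial.aeval_def (fun k : {k // k ∈ W} => tt (c k) (x k)),
      MvPolynomial.eval₂_eq', Finset.mul_sum]
    refine Finset.sum_congr rfl fun m hm => ?_
    rw [map_mul, map_prod, MvPolynomial.algHom_C,
      Finset.prod_congr rfl fun (k : {k // k ∈ W}) _ => aeval_hp c (k : ι) (hD m hm k) x (hx k),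
      Finset.prod_mul_distrib]
    ring
  refine ⟨f, fun h0 => hF ?_, fun K _ _ x _ hx h => by rw [key K x hx, h, mul_zero]⟩
  have h1 : MvPolynomial.map (Int.castRingHom ℚ) F = 0 := by
    refine MvPolynomial.funext_set (fun _ => ({0, 1} : Set ℚ)ᶜ)
      (fun _ => (Set.toFinite _).infinite_compl) fun t ht => ?_
    have ht0 : ∀ k, t k ≠ 0 := fun k h => ht k (Set.mem_univ k) (by simp [h])
    have ht1 : ∀ k, t k ≠ 1 := fun k h => ht k (Set.mem_univ k) (by simp [h])
    rw [map_zero, MvPolynomial.eval_map]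
    set x : ι → ℚ := fun k => if hk : k ∈ W then
      ![t ⟨k, hk⟩, 1 - t ⟨k, hk⟩, 1 - (t ⟨k, hk⟩)⁻¹] (c k) else 2 with hx
    have hx1 : ∀ k, 1 - x k ≠ 0 := by
      intro k
      rw [hx]
      dsimp only
      split_ifs with hk
      · have h2 := ht0 ⟨k, hk⟩
        have h3 := ht1 ⟨k, hk⟩
        generalize c k = j
        fin_cases j
        · simpa using sub_ne_zero.2 (Ne.symm h3)
        · simpa using h2
        · simpa using h2
      · norm_num
    have hxt : ∀ k : {k // k ∈ W}, tt (c k) (x k) = t k := by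
      rintro ⟨k, hk⟩
      rw [hx]
      dsimp only
      rw [dif_pos hk]
      generalize c k = j
      fin_cases j
      · simp [tt]
      · simp [tt]
      · simp [tt]
    have h2 := key ℚ x hx1
    rw [h0, map_zero] at h2
    have h3 : ∏ k : {k // k ∈ W}, up (c k) D (x k) ≠ 0 :=
      Finset.prod_ne_zero_iff.2 fun k _ => up_ne_zero _ _ (hx1 k)
    have h4 := (mul_eq_zero.1 h2.symm).resolve_left h3
    have h5 : (fun k : {k // k ∈ W} => tt (c k) (x k)) = t := funext hxt
    rw [h5, MvPolynomial.aeval_def] at h4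
    exact h4
  exact MvPolynomial.map_injective _ Int.cast_injective (by rw [h1, map_zero])

end Pool.Agent.LAll
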