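import Pool.Agent.LAll.NVDefs
import Pool.Agent.LAll.TayBd
import Pool.Agent.LAll.Moebius

set_option autoImplicit false

/-! UV19. Nonvanishing for a block: coordinates of comparable heights. -/

namespace Pool.Agent.LAll

open NumberField Height Real Module Filter Topology

/-- The polynomials of bounded degrees and bounded coefficients are finite in number. -/
private theorem finite_polys {W : Type} [Fintype W] (D B : ℕ) :
    {F : MvPolynomial W ℤ | (∀ k, F.degreeOf k ≤ D) ∧ ∀ m, |F.coeff m| ≤ (B : ℤ)}.Finite := by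
  classical
  set m0 : W →₀ ℕ := Finsupp.equivFunOnFinite.symm (fun _ => D) with hm0
  have hbox : (Set.Iic m0).Finite := Set.finite_Iic m0
  have : Finite (Set.Iic m0) := hbox
  let φ : MvPolynomial W ℤ → (Set.Iic m0 → ℤ) := fun F m => F.coeff m.1
  refine Set.Finite.of_finite_image (f := φ) ?_ ?_
  · refine Set.Finite.subset (Set.Finite.pi' (fun _ : Set.Iic m0 => Set.finite_Icc (-(B : ℤ)) B)) ?_
    rintro _ ⟨F, ⟨-, h2⟩, rfl⟩ m
    exact abs_le.1 (h2 m.1)
  · intro F hF G hG h
    ext m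
    by_cases hm : m ∈ Set.Iic m0
    · exact congrFun h ⟨m, hm⟩
    · have key : ∀ P : MvPolynomial W ℤ, (∀ k, P.degreeOf k ≤ D) → P.coeff m = 0 := by
        intro P hP
        by_contra hne
        apply hm
        intro k
        have h1 : m k ≤ P.degreeOf k :=
          MvPolynomial.monomial_le_degreeOf k (MvPolynomial.mem_support_iff.2 hne)
        simpa [hm0] using h1.trans (hP k)
      rw [key F hF.1, key G hG.1]

/-- **Block.** If the heights of the coordinates in `W` tend to infinity (only `H k ≥ 1` is used) and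
are comparable along `𝒰`, then `NV` holds.

Proof. Given `c, C, q`: for most `j`, `1 ≤ H k` and `H k ≤ A H l` (`k, l ∈ W`) with a constant `A`, so
`n_k = ⌈q ∑ H / H k⌉ ≤ N₁ := ⌈q |W| A⌉ + 1`. The polynomials `F : MvPolynomial {k // k ∈ W} ℤ` with
`degreeOf k ≤ |C| N₁` and `|coeff| ≤ exp (|C| |W| N₁)` form a finite set `𝓕` (finitely many monomials,
finitely many integers: e.g. `F ↦ (coefficients on the box)` is injective into a finite type). For each
`F ≠ 0` of `𝓕` let `f_F` be the polynomial of `moebius`; by `Gen` and finiteness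
(`Filter.eventually_all_finset`/`Set.Finite`), for most `j` all `aeval x f_F ≠ 0`, so
`aeval t F ≠ 0`, which is the Taylor coefficient `m = 0` (`coeff_zero_tay`), of weight `0`. -/
theorem nv_block {ι J : Type} [Fintype ι] [DecidableEq ι] (𝒰 : Ultrafilter J) (P : J → Pt ι)
    (hG : Gen 𝒰 P) (W : Finset ι) (h1 : ∀ k ∈ W, ∀ᶠ j in (𝒰 : Filter J), 1 ≤ (P j).H k)
    (hc : ∀ k ∈ W, ∀ l ∈ W, ∃ A : ℝ, ∀ᶠ j in (𝒰 : Filter J), (P j).H k ≤ A * (P j).H l) :
    NV 𝒰 P W := by
  intro c C q hq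
  choose! A hA using hc
  set A0 : ℝ := ∑ k ∈ W, ∑ l ∈ W, |A k l| with hA0
  have hA0k : ∀ k ∈ W, ∀ l ∈ W, A k l ≤ A0 := by
    intro k hk l hl
    calc A k l ≤ |A k l| := le_abs_self _
      _ ≤ ∑ l ∈ W, |A k l| := Finset.single_le_sum (f := fun l => |A k l|)
          (fun _ _ => abs_nonneg _) hl
      _ ≤ A0 := Finset.single_le_sum (f := fun k => ∑ l ∈ W, |A k l|)
          (fun _ _ => Finset.sum_nonneg fun _ _ => abs_nonneg _) hk
  have hA00 : 0 ≤ A0 := Finset.sum_nonneg fun _ _ => Finset.sum_nonneg fun _ _ => abs_nonneg _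
  set N1 : ℕ := ⌈q * (W.card * A0)⌉₊ with hN1
  set D : ℕ := ⌈|C| * N1⌉₊ with hD
  set B : ℕ := ⌈exp (|C| * (W.card * N1))⌉₊ with hB
  have hfin := finite_polys (W := {k // k ∈ W}) D B
  have e1 : ∀ᶠ j in (𝒰 : Filter J), ∀ k ∈ W, 1 ≤ (P j).H k := by
    rw [Filter.eventually_all_finset]
    exact h1
  have e2 : ∀ᶠ j in (𝒰 : Filter J), ∀ k ∈ W, ∀ l ∈ W, (P j).H k ≤ A k l * (P j).H l := by
    rw [Filter.eventually_all_finset]
    intro k hk
    rw [Filter.eventually_all_finset]
    exact fun l hl => hA k hk l hl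
  have e3 : ∀ᶠ j in (𝒰 : Filter J), ∀ F ∈ {F : MvPolynomial {k // k ∈ W} ℤ |
      (∀ k, F.degreeOf k ≤ D) ∧ ∀ m, |F.coeff m| ≤ (B : ℤ)}, F ≠ 0 →
      MvPolynomial.aeval (fun k : {k // k ∈ W} => tt (c k) ((P j).x k)) F ≠ 0 := by
    rw [Filter.eventually_all_finite hfin]
    intro F _
    by_cases hF : F = 0
    · exact Filter.Eventually.of_forall fun j h => absurd hF h
    · obtain ⟨f, hf, hfx⟩ := moebius W c F hF
      filter_upwards [hG f hf] with j hj _ h0
      exact hj (hfx (P j).K (P j).x (P j).ne0 (P j).ne1 h0)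
  filter_upwards [e1, e2, e3] with j hj1 hj2 hj3 F hF hdeg hcoef
  have hn : ∀ k ∈ W, (P j).n W q k ≤ N1 := by
    intro k hk
    have hHk : 1 ≤ (P j).H k := hj1 k hk
    have hHk0 : 0 < (P j).H k := by linarith
    refine Nat.ceil_mono ?_
    rw [div_le_iff₀ hHk0]
    unfold Pt.T
    have hs : ∑ l ∈ W, (P j).H l ≤ W.card * A0 * (P j).H k := by
      calc ∑ l ∈ W, (P j).H l ≤ ∑ _l ∈ W, A0 * (P j).H k := by
            refine Finset.sum_le_sum fun l hl => (hj2 l hl k hk).trans ?_
            exact mul_le_mul_of_nonneg_right (hA0k l hl k hk) hHk0.le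
        _ = W.card * A0 * (P j).H k := by
            rw [Finset.sum_const, nsmul_eq_mul]
            ring
    calc q * ∑ l ∈ W, (P j).H l ≤ q * (W.card * A0 * (P j).H k) :=
          mul_le_mul_of_nonneg_left hs (by linarith)
      _ = q * (W.card * A0) * (P j).H k := by ring
  have hC : C ≤ |C| := le_abs_self C
  have hC0 : 0 ≤ |C| := abs_nonneg C
  have hmem : F ∈ {F : MvPolynomial {k // k ∈ W} ℤ |
      (∀ k, F.degreeOf k ≤ D) ∧ ∀ m, |F.coeff m| ≤ (B : ℤ)} := by
    refine ⟨fun k => ?_, fun m => ?_⟩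
    · have h2 : (F.degreeOf k : ℝ) ≤ |C| * N1 := by
        refine (hdeg k).trans ?_
        have h3 : ((P j).n W q k : ℝ) ≤ N1 := by exact_mod_cast hn k k.2
        calc C * ((P j).n W q k : ℝ) ≤ |C| * ((P j).n W q k : ℝ) :=
              mul_le_mul_of_nonneg_right hC (Nat.cast_nonneg _)
          _ ≤ |C| * N1 := mul_le_mul_of_nonneg_left h3 hC0
      have h4 : (F.degreeOf k : ℝ) ≤ D := h2.trans (Nat.le_ceil _)
      exact_mod_cast h4
    · have hsum : ∑ k : {k // k ∈ W}, ((P j).n W q k : ℝ) ≤ W.card * N1 := by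
        calc ∑ k : {k // k ∈ W}, ((P j).n W q k : ℝ) ≤ ∑ _k : {k // k ∈ W}, (N1 : ℝ) := by
              refine Finset.sum_le_sum fun k _ => ?_
              exact_mod_cast hn k k.2
          _ = W.card * N1 := by
              rw [Finset.sum_const, nsmul_eq_mul, Finset.card_univ, Fintype.card_coe]
      have hsum0 : 0 ≤ ∑ k : {k // k ∈ W}, ((P j).n W q k : ℝ) :=
        Finset.sum_nonneg fun _ _ => Nat.cast_nonneg _
      have h2 : |((F.coeff m : ℤ) : ℝ)| ≤ B := by
        refine (hcoef m).trans (le_trans (exp_le_exp.2 ?_) (Nat.le_ceil _))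
        calc C * ∑ k : {k // k ∈ W}, ((P j).n W q k : ℝ)
            ≤ |C| * ∑ k : {k // k ∈ W}, ((P j).n W q k : ℝ) :=
              mul_le_mul_of_nonneg_right hC hsum0
          _ ≤ |C| * (W.card * N1) := mul_le_mul_of_nonneg_left hsum hC0
      exact_mod_cast h2
  refine ⟨0, ?_, ?_⟩
  · simp
  · rw [coeff_zero_tay]
    exact hj3 F hmem hF

end Pool.Agent.LAll
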