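import Mathlib

set_option autoImplicit false

/-! Theorems U and V: definitions for the auxiliary polynomial. -/

namespace Pool.Agent.LAll

open MvPolynomial

/-- `∏ X_k ^ p_k (1 - X_k) ^ q_k`. -/
noncomputable def bin {W : Type} [Fintype W] (p q : W → ℕ) : MvPolynomial W ℤ :=
  ∏ k, X k ^ p k * (1 - X k) ^ q k

/-- The Taylor expansion at `t` of a polynomial with integer coefficients. -/
noncomputable def tay {W K : Type} [Field K] (t : W → K) (F : MvPolynomial W ℤ) :
    MvPolynomial W K :=
  aeval (fun k => X k + C (t k)) F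

theorem tay_add {W K : Type} [Field K] (t : W → K) (F G : MvPolynomial W ℤ) :
    tay t (F + G) = tay t F + tay t G := map_add _ _ _

theorem tay_mul {W K : Type} [Field K] (t : W → K) (F G : MvPolynomial W ℤ) :
    tay t (F * G) = tay t F * tay t G := map_mul _ _ _

theorem tay_sum {W K α : Type} [Field K] (t : W → K) (s : Finset α) (F : α → MvPolynomial W ℤ) :
    tay t (∑ a ∈ s, F a) = ∑ a ∈ s, tay t (F a) := map_sum _ _ _

end Pool.Agent.LAll
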