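import Pool.Agent.DD7719.Roth
import Pool.Agent.LAll.PolyDefs

set_option autoImplicit false

/-! UV20. Roth's lemma, uniform in the number field (with absolute heights). -/

namespace Pool.Agent.LAll

open NumberField Height Real Module MvPolynomial Pool.Agent.DD7719

/-- The induction step of `Pool/Agent/DD7719/Roth.lean` with explicit constants. Copy the proof of
`roth_step` (it is written for one field `K`; the only change is that `σ'`, `C'` and the inductive
statement for this `K` are given, and that the constants are not hidden in an existential). -/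
theorem roth_step' (K : Type) [Field K] [NumberField K] (m : ℕ) (τ : ℝ) (hτ : 0 < τ) (σ' C' : ℝ)
    (hσ' : 0 < σ') (hσ'1 : σ' ≤ 1 / 2) (hC' : 0 < C')
    (IH : RothStmt K m ((min τ 1) ^ 2 / 64) σ' C') :
    RothStmt K (m + 1) τ (min σ' (min τ 1 / 4))
      (max (3 * C') (128 * finrank ℚ K / (min τ 1) ^ 2)) := by
  obtain ⟨τ₁, hτ₁⟩ : ∃ τ₁, τ₁ = min τ 1 := ⟨_, rfl⟩
  rw [← hτ₁] at IH ⊢
  have hτ₁0 : 0 < τ₁ := by rw [hτ₁]; exact lt_min hτ one_pos
  have hτ₁1 : τ₁ ≤ 1 := by rw [hτ₁]; exact min_le_right _ _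
  have hτ₁τ : τ₁ ≤ τ := by rw [hτ₁]; exact min_le_left _ _
  have hσ'0 : 0 < σ' := hσ'
  have hC'0 : 0 < C' := hC'
  have hIH : RothStmt K m (τ₁ ^ 2 / 64) σ' C' := IH
  have hd : 0 < (Module.finrank ℚ K : ℝ) := by exact_mod_cast Module.finrank_pos
  obtain ⟨σ, hσ⟩ : ∃ σ, σ = min σ' (τ₁ / 4) := ⟨_, rfl⟩
  obtain ⟨C, hC⟩ : ∃ C, C = max (3 * C') (128 * Module.finrank ℚ K / τ₁ ^ 2) := ⟨_, rfl⟩
  rw [← hσ, ← hC]
  have hσ0 : 0 < σ := by rw [hσ]; exact lt_min hσ'0 (by positivity)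
  have hσσ' : σ ≤ σ' := by rw [hσ]; exact min_le_left _ _
  have hστ : σ ≤ τ₁ / 4 := by rw [hσ]; exact min_le_right _ _
  have hC3 : 3 * C' ≤ C := by rw [hC]; exact le_max_left _ _
  have hCd : 128 * Module.finrank ℚ K / τ₁ ^ 2 ≤ C := by rw [hC]; exact le_max_right _ _
  intro r ξ F B hr hlac hF0 hdeg hB hint hl1 hheight
  by_contra hcon
  push Not at hcon
  have hr0 : (0 : ℝ) < r 0 := by exact_mod_cast hr 0
  obtain ⟨S, hS⟩ : ∃ S : ℝ, S = ∑ h', (r h' : ℝ) := ⟨_, rfl⟩
  have hS0 : 0 < S := by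
    rw [hS]
    exact Finset.sum_pos (fun h _ => by exact_mod_cast hr h) ⟨0, Finset.mem_univ _⟩
  rw [← hS] at hheight
  have hlogB : 0 ≤ Real.log B := Real.log_nonneg hB
  obtain ⟨n, hn0, hn, b, μ, U, V, hb, hμ, hU0, hV0, hW⟩ :=
    exists_wronskian F hF0 (r 0) (fun i hi => hdeg i hi 0)
  have hn0' : (0 : ℝ) < n := by exact_mod_cast hn0
  obtain ⟨W, hWdef⟩ : ∃ W, W = (Matrix.of fun i j => hasse (Finsupp.cons (b j) (μ i)) F).det :=
    ⟨_, rfl⟩
  rw [← hWdef] at hW
  -- lower bound for the index of W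
  have hlow : LGE (wt r) (∑ j : Fin n, max 0 (τ₁ - (j : ℝ) / r 0 - σ)) (shift ξ W) := by
    rw [hWdef, shift_det]
    refine LGE.det _ _ fun i j => ?_
    rw [Matrix.of_apply, Matrix.of_apply]
    have h1 : LGE (wt r) τ₁ (shift ξ F) := fun i hi => hτ₁τ.trans (hcon i hi).le
    have h2 := lge_shift_hasse h1 (Finsupp.cons (b j) (μ i))
    intro κ hκ
    refine max_le ?_ ((?_ : _ ≤ _).trans (h2 κ hκ))
    · rw [wt_apply]
      exact Finset.sum_nonneg fun h _ => by positivity
    · have h3 : wt r (Finsupp.cons (b j) (μ i)) ≤ (j : ℝ) / r 0 + σ := by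
        rw [wt_apply, Fin.sum_univ_succ, Finsupp.cons_zero]
        refine add_le_add ?_ ?_
        · exact div_le_div_of_nonneg_right (by exact_mod_cast hb j) hr0.le
        · have h4 : ∀ h : Fin m, ((Finsupp.cons (b j) (μ i) h.succ : ℕ) : ℝ) / r h.succ ≤
              σ * ((μ i h : ℝ) / r 0) := by
            intro h
            rw [Finsupp.cons_succ]
            have h5 : (0 : ℝ) < r h.succ := by exact_mod_cast hr h.succ
            have h6 := hlac 0 h.succ (Fin.succ_pos h)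
            have h7 : (0 : ℝ) ≤ μ i h := Nat.cast_nonneg _
            rw [div_le_iff₀ h5, mul_div_assoc', div_mul_eq_mul_div, le_div_iff₀ hr0]
            nlinarith
          refine (Finset.sum_le_sum fun h _ => h4 h).trans ?_
          rw [← Finset.mul_sum, ← Finset.sum_div]
          have h8 : (∑ h, (μ i h : ℝ)) ≤ r 0 := by
            have h9 := hμ i
            rw [Finsupp.degree_eq_sum] at h9
            have h10 := i.2
            have h11 : ∑ h, μ i h ≤ r 0 := by omega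
            exact_mod_cast h11
          have h12 : (∑ h, (μ i h : ℝ)) / r 0 ≤ 1 := by rwa [div_le_one hr0]
          calc σ * ((∑ h, (μ i h : ℝ)) / r 0) ≤ σ * 1 := mul_le_mul_of_nonneg_left h12 hσ0.le
            _ = σ := mul_one _
      linarith
  -- integrality, size and degree of W
  have hWint : W ∈ intPoly (m + 1) K := by
    rw [hWdef]
    exact det_mem_intPoly _ fun i j => hasse_mem_intPoly hint _
  have hWl1 : ∀ φ : K →+* ℂ, l1 φ W ≤ (4 ^ (∑ h, r h) * B) ^ n := by
    intro φ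
    rw [hWdef]
    exact l1_wronskian φ F r hdeg hn B hB (hl1 φ)
      (Matrix.of fun i j => Finsupp.cons (b j) (μ i))
  have hWdeg : ∀ i ∈ W.support, ∀ h, i h ≤ n * r h := by
    intro i hi h
    have h1 : LGE (negExp h) (∑ j : Fin n, - (r h : ℝ)) W := by
      rw [hWdef]
      refine LGE.det _ _ fun i j => ?_
      rw [Matrix.of_apply]
      have h2 : LGE (negExp h) (-(r h : ℝ)) F := fun i hi => by
        have := hdeg i hi h
        change -(r h : ℝ) ≤ -(i h : ℝ)
        have h3 : (i h : ℝ) ≤ r h := by exact_mod_cast this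
        linarith
      refine (h2.hasse (Finsupp.cons (b j) (μ i))).mono ?_
      have h4 : negExp h (Finsupp.cons (b j) (μ i)) ≤ 0 := by
        change -((Finsupp.cons (b j) (μ i) h : ℕ) : ℝ) ≤ 0
        simp
      linarith
    have h2 := h1 i hi
    rw [Finset.sum_const, Finset.card_univ, Fintype.card_fin, nsmul_eq_mul] at h2
    change (n : ℝ) * -(r h : ℝ) ≤ -(i h : ℝ) at h2
    have h3 : (i h : ℝ) ≤ n * r h := by linarith
    exact_mod_cast h3
  obtain ⟨B', hB'⟩ : ∃ B', B' = (4 ^ (∑ h, r h) * B) ^ n := ⟨_, rfl⟩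
  rw [← hB'] at hWl1
  have hlogB' : Real.log B' ≤ n * (Real.log B + 2 * S) := by
    rw [hB', Real.log_pow, Real.log_mul (by positivity) (by positivity), Real.log_pow]
    refine mul_le_mul_of_nonneg_left ?_ hn0'.le
    have h1 : ((∑ h, r h : ℕ) : ℝ) = S := by rw [hS]; push_cast; rfl
    rw [h1]
    nlinarith [log_four_le]
  have hB'1 : 1 ≤ B' := by
    rw [hB']
    refine one_le_pow₀ ?_
    have : (1 : ℝ) ≤ 4 ^ (∑ h, r h) := one_le_pow₀ (by norm_num)
    nlinarith
  obtain ⟨ν₀, hν₀⟩ := MvPolynomial.ne_zero_iff.mp hV0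
  obtain ⟨κ₀, hκ₀⟩ := MvPolynomial.ne_zero_iff.mp hU0
  -- the polynomial U
  have hU' : ∀ κ, (V.coeff ν₀ • U).coeff κ = W.coeff (Finsupp.cons (ν₀ 0) κ) := by
    intro κ
    rw [hW, coeff_tns, ← eq_single, coeff_smul, smul_eq_mul, mul_comm]
  have hV' : ∀ a, (U.coeff κ₀ • V).coeff (Finsupp.single 0 a) = W.coeff (Finsupp.cons a κ₀) := by
    intro a
    rw [hW, coeff_tns, coeff_smul, smul_eq_mul]
  obtain ⟨i', hi', hi'τ⟩ := hIH (fun h => n * r h.succ) (fun h => ξ h.succ) (V.coeff ν₀ • U) B'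
    (fun h => Nat.mul_pos hn0 (hr _))
    (by
      intro h h' hhh
      have h1 := hlac h.succ h'.succ (Fin.succ_lt_succ_iff.mpr hhh)
      push_cast
      have h2 : (0 : ℝ) ≤ r h'.succ := Nat.cast_nonneg _
      have h3 : (r h.succ : ℝ) ≤ σ' * r h'.succ := h1.trans (mul_le_mul_of_nonneg_right hσσ' h2)
      nlinarith)
    (smul_ne_zero hν₀ hU0)
    (by
      intro i hi h
      rw [MvPolynomial.mem_support_iff, hU'] at hi
      have := hWdeg _ (MvPolynomial.mem_support_iff.mpr hi) h.succ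
      rwa [Finsupp.cons_succ] at this)
    hB'1
    (by intro κ; rw [hU']; exact hWint _)
    (fun φ => (l1_slice_le φ W (ν₀ 0) _ hU').trans (hWl1 φ))
    (by
      intro h
      have h1 := hheight h.succ
      have h2 : ∑ h' : Fin m, ((n * r h'.succ : ℕ) : ℝ) ≤ n * S := by
        rw [hS, Fin.sum_univ_succ]
        push_cast
        rw [← Finset.mul_sum]
        nlinarith
      have h3 : C' * (Real.log B' + ∑ h' : Fin m, ((n * r h'.succ : ℕ) : ℝ)) ≤
          n * (C * (Real.log B + S)) := by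
        calc C' * (Real.log B' + ∑ h' : Fin m, ((n * r h'.succ : ℕ) : ℝ))
            ≤ C' * (n * (Real.log B + 2 * S) + n * S) :=
              mul_le_mul_of_nonneg_left (add_le_add hlogB' h2) hC'0.le
          _ = n * (C' * (Real.log B + 3 * S)) := by ring
          _ ≤ n * (C * (Real.log B + S)) := by
              refine mul_le_mul_of_nonneg_left ?_ hn0'.le
              calc C' * (Real.log B + 3 * S) ≤ 3 * C' * (Real.log B + S) := by nlinarith
                _ ≤ C * (Real.log B + S) := mul_le_mul_of_nonneg_right hC3 (by positivity)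
      refine h3.trans ?_
      push_cast
      rw [mul_assoc]
      exact mul_le_mul_of_nonneg_left h1 hn0'.le)
  obtain ⟨e, he, heh⟩ := onevar_index (fun _ => ξ 0) (U.coeff κ₀ • V) (smul_ne_zero hκ₀ hV0)
    (by intro ν; rw [eq_single ν, hV']; exact hWint _) B'
    (fun φ => (l1_slice_le' φ W κ₀ _ hV').trans (hWl1 φ))
  -- the index of W
  have hmem : Finsupp.cons e i' ∈ (shift ξ W).support := by
    rw [MvPolynomial.mem_support_iff, hW, shift_tns, coeff_tns]
    rw [shift_smul, MvPolynomial.mem_support_iff, coeff_smul, smul_eq_mul] at hi' he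
    exact mul_ne_zero (right_ne_zero_of_mul hi') (right_ne_zero_of_mul he)
  have h1 := hlow _ hmem
  have h2 := sum_lower (r 0) n (hr 0) hn τ₁ σ hτ₁0 hτ₁1 hστ
  have h3 : wt r (Finsupp.cons e i') = (e : ℝ) / r 0 + ∑ h : Fin m, (i' h : ℝ) / r h.succ := by
    rw [wt_apply, Fin.sum_univ_succ, Finsupp.cons_zero]
    simp only [Finsupp.cons_succ]
  have h4 : ∑ h : Fin m, (i' h : ℝ) / r h.succ ≤ n * (τ₁ ^ 2 / 64) := by
    calc ∑ h : Fin m, (i' h : ℝ) / r h.succ
        = n * ∑ h : Fin m, (i' h : ℝ) / ((n * r h.succ : ℕ) : ℝ) := by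
          rw [Finset.mul_sum]
          refine Finset.sum_congr rfl fun h _ => ?_
          push_cast
          have h5 : (r h.succ : ℝ) ≠ 0 := by exact_mod_cast (hr h.succ).ne'
          field_simp
      _ ≤ n * (τ₁ ^ 2 / 64) := mul_le_mul_of_nonneg_left hi'τ hn0'.le
  have h5 : (e : ℝ) / r 0 ≤ n * (τ₁ ^ 2 / 64) := by
    have h6 := hheight 0
    have h7 : (0 : ℝ) < Real.log B + S := by positivity
    have hC0 : 0 < C := lt_of_lt_of_le (by positivity) hC3
    have h8 : 0 < r 0 * Height.logHeight₁ (ξ 0) := lt_of_lt_of_le (by positivity) h6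
    have h9 : 0 < Height.logHeight₁ (ξ 0) := (mul_pos_iff_of_pos_left hr0).mp h8
    rw [div_le_iff₀ hr0]
    have h10 : (e : ℝ) * Height.logHeight₁ (ξ 0) ≤
        (n * (τ₁ ^ 2 / 64) * r 0) * Height.logHeight₁ (ξ 0) := by
      calc (e : ℝ) * Height.logHeight₁ (ξ 0) ≤ Module.finrank ℚ K * Real.log B' := heh
        _ ≤ Module.finrank ℚ K * (n * (Real.log B + 2 * S)) :=
            mul_le_mul_of_nonneg_left hlogB' hd.le
        _ ≤ Module.finrank ℚ K * (n * (2 * (Real.log B + S))) := by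
            refine mul_le_mul_of_nonneg_left (mul_le_mul_of_nonneg_left ?_ hn0'.le) hd.le
            linarith
        _ = (n * (τ₁ ^ 2 / 64)) * (128 * Module.finrank ℚ K / τ₁ ^ 2 * (Real.log B + S)) := by
            field_simp
            ring
        _ ≤ (n * (τ₁ ^ 2 / 64)) * (r 0 * Height.logHeight₁ (ξ 0)) := by
            refine mul_le_mul_of_nonneg_left ?_ (by positivity)
            exact (mul_le_mul_of_nonneg_right hCd h7.le).trans h6
        _ = (n * (τ₁ ^ 2 / 64) * r 0) * Height.logHeight₁ (ξ 0) := by ring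
    exact le_of_mul_le_mul_right h10 h9
  rw [h3] at h1
  have h6 : (0 : ℝ) < n * τ₁ ^ 2 := by positivity
  linarith

/-- Uniform version: the constant is `C * [K : ℚ]`. Induction on `m` with `roth_step'`
(`max (3 C'' d) (128 d / τ₁²) = d * max (3 C'') (128 / τ₁²)`, `d = [K : ℚ] ≥ 1`; `m = 0` as in `roth_aux`:
`RothStmt K 0 τ σ C` holds for all `σ`, `C`). -/
theorem roth_auxU (m : ℕ) : ∀ τ : ℝ, 0 < τ → ∃ σ : ℝ, 0 < σ ∧ σ ≤ 1 / 2 ∧ ∃ C : ℝ, 0 < C ∧
    ∀ (K : Type) [Field K] [NumberField K], RothStmt K m τ σ (C * finrank ℚ K) := by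
  induction m with
  | zero =>
    intro τ hτ
    refine ⟨1 / 2, by norm_num, le_rfl, 1, one_pos, ?_⟩
    intro K _ _ r ξ F B hr hlac hF0 hdeg hB hint hl1 hheight
    have h1 : shift ξ F ≠ 0 := by rwa [Ne, shift_eq_zero_iff]
    obtain ⟨i, hi⟩ := MvPolynomial.ne_zero_iff.mp h1
    exact ⟨i, MvPolynomial.mem_support_iff.mpr hi, by simpa using hτ.le⟩
  | succ m ih =>
    intro τ hτ
    have hτ₁ : 0 < min τ 1 := lt_min hτ one_pos
    obtain ⟨σ', hσ', hσ'1, C', hC', IH⟩ := ih ((min τ 1) ^ 2 / 64) (by positivity)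
    refine ⟨min σ' (min τ 1 / 4), lt_min hσ' (by positivity), (min_le_left _ _).trans hσ'1,
      max (3 * C') (128 / (min τ 1) ^ 2), lt_max_of_lt_left (by positivity), ?_⟩
    intro K _ _
    have hd : 0 < (finrank ℚ K : ℝ) := by exact_mod_cast Module.finrank_pos
    have h := roth_step' K m τ hτ σ' (C' * finrank ℚ K) hσ' hσ'1 (by positivity) (IH K)
    have he : max (3 * C') (128 / (min τ 1) ^ 2) * (finrank ℚ K : ℝ) =
        max (3 * (C' * finrank ℚ K)) (128 * finrank ℚ K / (min τ 1) ^ 2) := by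
      rw [max_mul_of_nonneg _ _ hd.le]
      congr 1 <;> ring
    rw [he]
    exact h

/-- **Roth's lemma, uniform in `K`**, for polynomials with integer coefficients. Apply `roth_auxU` to
`F.map (algebraMap ℤ K)` (`≠ 0`: characteristic `0`; `MvPolynomial.map_injective`), with the bound
`2 ^ (∑ r) * B` for `l1` (`l1_le_of_coeff`) as in the last theorem of `DD7719/Roth.lean`;
`shift ξ (F.map _) = tay ξ F` (both are `aeval`s: `bind₁`). The hypothesis with
`logHeight₁ (ξ h) / [K : ℚ]` is multiplied by `[K : ℚ]`. -/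
theorem roth_uniform (m : ℕ) (τ : ℝ) (hτ : 0 < τ) :
    ∃ σ C : ℝ, 0 < σ ∧ 0 < C ∧ ∀ (K : Type) [Field K] [NumberField K] (r : Fin m → ℕ)
      (ξ : Fin m → K) (F : MvPolynomial (Fin m) ℤ) (B : ℝ),
      (∀ h, 0 < r h) → (∀ h h' : Fin m, h < h' → (r h : ℝ) ≤ σ * r h') → F ≠ 0 →
      (∀ h, F.degreeOf h ≤ r h) → 1 ≤ B → (∀ i, |((F.coeff i : ℤ) : ℝ)| ≤ B) →
      (∀ h, C * (log B + ∑ h', (r h' : ℝ)) ≤ r h * (logHeight₁ (ξ h) / finrank ℚ K)) →
      ∃ i : Fin m →₀ ℕ, (tay ξ F).coeff i ≠ 0 ∧ ∑ h, (i h : ℝ) / r h ≤ τ := by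
  obtain ⟨σ, hσ0, hσ1, C, hC0, hmain⟩ := roth_auxU m τ hτ
  refine ⟨σ, 2 * C, hσ0, by positivity, ?_⟩
  intro K _ _ r ξ F B hr hlac hF0 hdeg hB hcoef hheight
  have hd : 0 < (finrank ℚ K : ℝ) := by exact_mod_cast Module.finrank_pos
  have hinj : Function.Injective (algebraMap ℤ K) := RingHom.injective_int _
  have hF0' : MvPolynomial.map (algebraMap ℤ K) F ≠ 0 := by
    intro h
    apply hF0
    apply MvPolynomial.map_injective _ hinj
    rw [h, map_zero]
  have hdeg0 : ∀ i ∈ F.support, ∀ h, i h ≤ r h := fun i hi h =>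
    (MvPolynomial.degreeOf_le_iff.mp (hdeg h)) i hi
  have hdeg' : ∀ i ∈ (MvPolynomial.map (algebraMap ℤ K) F).support, ∀ h, i h ≤ r h := by
    intro i hi h
    exact hdeg0 i (MvPolynomial.support_map_subset _ _ hi) h
  have h2 : (1 : ℝ) ≤ 2 ^ (∑ h, r h) := one_le_pow₀ (by norm_num)
  have hsh : shift ξ (MvPolynomial.map (algebraMap ℤ K) F) = tay ξ F := by
    rw [shift, tay, MvPolynomial.bind₁, MvPolynomial.aeval_map_algebraMap]
  have hnorm : ∀ (i : Fin m →₀ ℕ) (φ : K →+* ℂ),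
      ‖φ ((MvPolynomial.map (algebraMap ℤ K) F).coeff i)‖ ≤ B := by
    intro i φ
    rw [MvPolynomial.coeff_map]
    have h3 : φ (algebraMap ℤ K (F.coeff i)) = ((F.coeff i : ℤ) : ℂ) := by simp
    rw [h3, Complex.norm_intCast]
    exact hcoef i
  obtain ⟨i, hi, hiτ⟩ := hmain K r ξ (MvPolynomial.map (algebraMap ℤ K) F)
    (2 ^ (∑ h, r h) * B) hr hlac hF0' hdeg' (by nlinarith)
    (by
      intro i
      rw [MvPolynomial.coeff_map]
      exact isIntegral_algebraMap)
    (fun φ => l1_le_of_coeff φ _ r hdeg' B fun i => hnorm i φ)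
    (by
      intro h
      have h0 := hheight h
      rw [Real.log_mul (by positivity) (by positivity), Real.log_pow]
      have h3 : ((∑ h, r h : ℕ) : ℝ) = ∑ h', (r h' : ℝ) := by push_cast; rfl
      rw [h3]
      have h4 : 0 ≤ ∑ h', (r h' : ℝ) := Finset.sum_nonneg fun h _ => Nat.cast_nonneg _
      have h5 : 0 ≤ Real.log B := Real.log_nonneg hB
      have h6 := Real.log_two_lt_d9
      have h7 : (∑ h', (r h' : ℝ)) * Real.log 2 ≤ ∑ h', (r h' : ℝ) := by nlinarith
      have h8 : C * ((∑ h', (r h' : ℝ)) * Real.log 2 + Real.log B + ∑ h', (r h' : ℝ)) ≤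
          r h * (logHeight₁ (ξ h) / finrank ℚ K) := by
        refine le_trans ?_ h0
        nlinarith
      calc C * finrank ℚ K *
            ((∑ h', (r h' : ℝ)) * Real.log 2 + Real.log B + ∑ h', (r h' : ℝ))
          = C * ((∑ h', (r h' : ℝ)) * Real.log 2 + Real.log B + ∑ h', (r h' : ℝ)) *
            finrank ℚ K := by ring
        _ ≤ r h * (logHeight₁ (ξ h) / finrank ℚ K) * finrank ℚ K :=
            mul_le_mul_of_nonneg_right h8 hd.le
        _ = r h * logHeight₁ (ξ h) := by field_simp)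
  rw [hsh] at hi
  exact ⟨i, MvPolynomial.mem_support_iff.mp hi, hiτ⟩

end Pool.Agent.LAll
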