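import Pool.Agent.LAll.NVDefs
import Pool.Agent.LAll.RothU
import Pool.Agent.DD7719.UltraLim

set_option autoImplicit false

/-! UV21. Nonvanishing for a chain: coordinates of very different heights. -/

namespace Pool.Agent.LAll

open NumberField Height Real Module Filter Topology

private theorem tay_rename {W : Type} {m : ℕ} {K : Type} [Field K] (e : W ≃ Fin m) (t : W → K)
    (F : MvPolynomial W ℤ) :
    tay (fun h => t (e.symm h)) (MvPolynomial.rename e F) = MvPolynomial.rename e (tay t F) := by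
  unfold tay
  induction F using MvPolynomial.induction_on with
  | C a => simp
  | add p q hp hq => rw [map_add, map_add, map_add, map_add, hp, hq]
  | mul_X p k hp =>
    rw [map_mul, map_mul, map_mul, map_mul, hp, MvPolynomial.rename_X, MvPolynomial.aeval_X,
      MvPolynomial.aeval_X, map_add, MvPolynomial.rename_X, MvPolynomial.rename_C]
    simp only [Equiv.symm_apply_apply]

private theorem coeff_rename_equiv {W : Type} {m : ℕ} {R : Type} [CommRing R] (e : W ≃ Fin m)
    (G : MvPolynomial W R) (i : Fin m →₀ ℕ) :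
    (MvPolynomial.rename e G).coeff i = G.coeff (Finsupp.equivMapDomain e.symm i) := by
  have h : i = (Finsupp.equivMapDomain e.symm i).mapDomain e := by
    rw [Finsupp.equivMapDomain_eq_mapDomain, ← Finsupp.mapDomain_comp]
    have h1 : (e : W → Fin m) ∘ (e.symm : Fin m → W) = id := funext fun x => e.apply_symm_apply x
    rw [h1, Finsupp.mapDomain_id]
  conv_lhs => rw [h]
  exact MvPolynomial.coeff_rename_mapDomain e e.injective G _

/-- Taylor expansion and renaming of the variables. -/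
theorem coeff_tay_rename {W : Type} {m : ℕ} {K : Type} [Field K] (e : W ≃ Fin m) (t : W → K)
    (F : MvPolynomial W ℤ) (i : Fin m →₀ ℕ) :
    (tay (fun h => t (e.symm h)) (MvPolynomial.rename e F)).coeff i =
      (tay t F).coeff (Finsupp.equivMapDomain e.symm i) := by
  rw [tay_rename, coeff_rename_equiv]

/-- **Chain.** If the heights of the coordinates in `W` tend to infinity and for any two different
coordinates one of the two ratios of heights tends to `0` along `𝒰`, then `NV` holds.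

Proof. Let `c, C, q` be given; enlarge `C` to an integer `C ≥ 1` (`C' = ⌈|C|⌉₊ + 1`). `m = W.card`,
`τ = 1 / C`, `σ, C_R` from `roth_uniform m τ`. For most `j`: `H k ≥ 2` (so `H k - log 2 ≥ H k / 2`),
`∑_{k ∈ W} 1 / H k ≤ 1 / (8 C_R)` (or smaller), and for all `k ≠ l` in `W`: `H k ≤ (σ/2) H l` or
`H l ≤ (σ/2) H k`. Fix such a `j` and `F`. Sort `W` by decreasing height: an equivalence
`e : {k // k ∈ W} ≃ Fin m` with `h < h' → H (e.symm h') ≤ H (e.symm h)` (`DD7719.M.exists_sort`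
for `- H`), hence `H (e.symm h') ≤ (σ/2) H (e.symm h)` for `h < h'` (the other alternative
`H (e.symm h) ≤ (σ/2) H (e.symm h') ≤ (σ/2) H (e.symm h)` is impossible, as `σ/2 < 1`; take
`min σ 1` for `σ`). Apply `roth_uniform` with `r h = C n_(e.symm h)`, `ξ h = t_(e.symm h)`, the
polynomial `rename e F`, `B = exp (C ∑ n)`:
degrees (`MvPolynomial.degreeOf_rename_of_injective`), coefficients (`coeff_rename_...`);
`r h / r h' = n_h / n_h' ≤ (2 T / H_h) / (T / H_h') = 2 H_h' / H_h ≤ σ` for `h < h'` (`Pt.n_bounds`);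
`C_R (log B + ∑ r) = 2 C_R C ∑ n ≤ 4 C_R C T ∑ 1 / H k ≤ C T / 2 ≤ C n_h H_h / 2 ≤ r h * ht (t_h)`
(`ht_tt`: `ht t_h ≥ H_h - log 2 ≥ H_h / 2`). We get `i` with nonzero Taylor coefficient and
`∑ i_h / (C n_h) ≤ 1 / C`, i.e. `∑ i_h / n_h ≤ 1`; `coeff_tay_rename`. -/
theorem nv_chain {ι J : Type} [Fintype ι] [DecidableEq ι] (𝒰 : Ultrafilter J) (P : J → Pt ι)
    (W : Finset ι) (h1 : ∀ k ∈ W, Tendsto (fun j => (P j).H k) (𝒰 : Filter J) atTop)
    (hc : ∀ k ∈ W, ∀ l ∈ W, k ≠ l →
      Tendsto (fun j => (P j).H k / (P j).H l) (𝒰 : Filter J) (𝓝 0) ∨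
      Tendsto (fun j => (P j).H l / (P j).H k) (𝒰 : Filter J) (𝓝 0)) :
    NV 𝒰 P W := by
  classical
  intro c C q hq
  obtain ⟨C', hC1, hCC⟩ : ∃ C' : ℕ, 1 ≤ C' ∧ C ≤ C' := by
    refine ⟨⌈|C|⌉₊ + 1, by omega, ?_⟩
    push_cast
    linarith [le_abs_self C, Nat.le_ceil |C|]
  have hC1' : (1 : ℝ) ≤ C' := by exact_mod_cast hC1
  have hC0 : (0 : ℝ) < C' := by linarith
  obtain ⟨m, hm⟩ : ∃ m, m = Fintype.card {k // k ∈ W} := ⟨_, rfl⟩
  have e₀ : {k // k ∈ W} ≃ Fin m := by
    rw [hm]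
    exact Fintype.equivFin _
  obtain ⟨σ, D, hσ, hD, hR⟩ := roth_uniform m (1 / C') (by positivity)
  obtain ⟨σ₁, hσ₁⟩ : ∃ σ₁ : ℝ, σ₁ = min σ 1 := ⟨_, rfl⟩
  have hσ1 : 0 < σ₁ := by rw [hσ₁]; exact lt_min hσ one_pos
  have hσ2 : σ₁ ≤ σ := by rw [hσ₁]; exact min_le_left _ _
  have hσ3 : σ₁ ≤ 1 := by rw [hσ₁]; exact min_le_right _ _
  have E1 : ∀ᶠ j in (𝒰 : Filter J), ∀ k ∈ W, max 2 (8 * D * (m + 1)) ≤ (P j).H k :=
    (Filter.eventually_all_finset W).2 fun k hk => (h1 k hk).eventually_ge_atTop _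
  have E2 : ∀ᶠ j in (𝒰 : Filter J), ∀ k ∈ W, ∀ l ∈ W, k ≠ l →
      (P j).H k / (P j).H l < σ₁ / 2 ∨ (P j).H l / (P j).H k < σ₁ / 2 := by
    refine (Filter.eventually_all_finset W).2 fun k hk =>
      (Filter.eventually_all_finset W).2 fun l hl => ?_
    by_cases hkl : k = l
    · exact Eventually.of_forall fun j h => absurd hkl h
    · rcases hc k hk l hl hkl with h | h
      · exact (h.eventually_lt_const (half_pos hσ1)).mono fun j hj _ => Or.inl hj
      · exact (h.eventually_lt_const (half_pos hσ1)).mono fun j hj _ => Or.inr hj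
  filter_upwards [E1, E2] with j hE1 hE2 F hF hdeg hcoef
  obtain ⟨Q, hQ⟩ : ∃ Q, Q = P j := ⟨_, rfl⟩
  rw [← hQ] at hE1 hE2 hdeg hcoef ⊢
  have hH2 : ∀ k ∈ W, 2 ≤ Q.H k := fun k hk => (le_max_left _ _).trans (hE1 k hk)
  have hH3 : ∀ k ∈ W, 8 * D * (m + 1) ≤ Q.H k := fun k hk => (le_max_right _ _).trans (hE1 k hk)
  have hb := fun (k : ι) (hk : k ∈ W) => Q.n_bounds W q hq k hk fun l hl => by
    linarith [hH2 l hl]
  -- sorting
  obtain ⟨e, he⟩ := DD7719.M.exists_sort e₀ fun k : {k // k ∈ W} => -Q.H k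
  have hlt : ∀ h h' : Fin m, h < h' →
      Q.H (e.symm h') ≤ σ₁ / 2 * Q.H (e.symm h) := by
    intro h h' hh
    have h2 : Q.H (e.symm h') ≤ Q.H (e.symm h) := by
      have := he hh.le
      simp only at this
      linarith
    have hne : (e.symm h : ι) ≠ (e.symm h' : ι) := by
      intro h3
      exact hh.ne (e.symm.injective (Subtype.ext h3))
    have p1 : 0 < Q.H (e.symm h) := by linarith [hH2 _ (e.symm h).2]
    have p2 : 0 < Q.H (e.symm h') := by linarith [hH2 _ (e.symm h').2]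
    rcases hE2 _ (e.symm h).2 _ (e.symm h').2 hne with h3 | h3
    · rw [div_lt_iff₀ p2] at h3
      nlinarith
    · rw [div_lt_iff₀ p1] at h3
      exact h3.le
  obtain ⟨T, hT⟩ : ∃ T, T = Q.T W q := ⟨_, rfl⟩
  have hn0 : ∀ k ∈ W, (1 : ℝ) ≤ Q.n W q k := fun k hk => hq.trans (hb k hk).2.1
  have hn1 : ∀ k ∈ W, T ≤ Q.n W q k * Q.H k := fun k hk => by
    rw [hT]; exact (hb k hk).2.2.2.2.2.1
  have hn2 : ∀ k ∈ W, (Q.n W q k : ℝ) ≤ 2 * T / Q.H k := fun k hk => by
    rw [hT]; exact (hb k hk).2.2.2.1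
  have hsum0 : (0 : ℝ) ≤ ∑ k : {k // k ∈ W}, (Q.n W q k : ℝ) :=
    Finset.sum_nonneg fun k _ => Nat.cast_nonneg _
  have hsum : ∑ h : Fin m, ((C' * Q.n W q (e.symm h) : ℕ) : ℝ) =
      C' * ∑ k : {k // k ∈ W}, (Q.n W q k : ℝ) := by
    push_cast
    rw [← Finset.mul_sum, Equiv.sum_comp e.symm fun k : {k // k ∈ W} => (Q.n W q k : ℝ)]
  obtain ⟨i, hi1, hi2⟩ := hR Q.K (fun h => C' * Q.n W q (e.symm h))
    (fun h => tt (c (e.symm h)) (Q.x (e.symm h))) (MvPolynomial.rename e F)
    (exp (C' * ∑ k : {k // k ∈ W}, (Q.n W q k : ℝ)))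
    (fun h => by
      have h2 := hn0 _ (e.symm h).2
      have h3 : 1 ≤ Q.n W q (e.symm h) := by exact_mod_cast h2
      exact Nat.mul_pos hC1 h3)
    (fun h h' hh => by
      have h2 := hlt h h' hh
      have h3 := hn2 _ (e.symm h).2
      have h4 := hn1 _ (e.symm h').2
      have p1 : 0 < Q.H (e.symm h) := by linarith [hH2 _ (e.symm h).2]
      have p2 : 0 < Q.H (e.symm h') := by linarith [hH2 _ (e.symm h').2]
      have h5 := hn0 _ (e.symm h').2
      have h6 : (Q.n W q (e.symm h) : ℝ) ≤ σ * Q.n W q (e.symm h') := by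
        refine h3.trans ?_
        rw [div_le_iff₀ p1]
        have h7 : (Q.n W q (e.symm h') : ℝ) * Q.H (e.symm h') ≤
            Q.n W q (e.symm h') * (σ₁ / 2 * Q.H (e.symm h)) :=
          mul_le_mul_of_nonneg_left h2 (by linarith)
        have h8 : σ₁ * (Q.n W q (e.symm h') * Q.H (e.symm h)) ≤
            σ * (Q.n W q (e.symm h') * Q.H (e.symm h)) :=
          mul_le_mul_of_nonneg_right hσ2 (mul_nonneg (by linarith) p1.le)
        nlinarith
      push_cast
      nlinarith)
    (fun h0 => hF (MvPolynomial.rename_injective _ e.injective (by rw [h0, map_zero])))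
    (fun h => by
      have h2 := MvPolynomial.degreeOf_rename_of_injective (p := F) e.injective (e.symm h)
      rw [Equiv.apply_symm_apply] at h2
      rw [h2]
      have h3 := hdeg (e.symm h)
      have h4 := hn0 _ (e.symm h).2
      have h5 : ((F.degreeOf (e.symm h) : ℕ) : ℝ) ≤ ((C' * Q.n W q (e.symm h) : ℕ) : ℝ) := by
        push_cast
        refine h3.trans (mul_le_mul_of_nonneg_right hCC (by linarith))
      exact_mod_cast h5)
    (Real.one_le_exp (mul_nonneg hC0.le hsum0))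
    (fun i => by
      rw [coeff_rename_equiv]
      exact (hcoef _).trans (Real.exp_le_exp.2 (mul_le_mul_of_nonneg_right hCC hsum0)))
    (fun h => by
      have h2 := hn1 _ (e.symm h).2
      have h3 := hn0 _ (e.symm h).2
      have h4 : Q.H (e.symm h) ≤ ht (tt (c (e.symm h)) (Q.x (e.symm h))) + log 2 :=
        (ht_tt (c (e.symm h)) (Q.x (e.symm h))).2
      have hlog : log 2 ≤ 1 := by
        have := Real.log_two_lt_d9
        linarith
      have h5 : Q.H (e.symm h) / 2 ≤ ht (tt (c (e.symm h)) (Q.x (e.symm h))) := by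
        have := hH2 _ (e.symm h).2
        linarith
      have hT0 : 0 < T := by rw [hT]; exact (hb _ (e.symm h).2).1
      rw [hsum, Real.log_exp]
      change D * (C' * ∑ k : {k // k ∈ W}, (Q.n W q k : ℝ) +
        C' * ∑ k : {k // k ∈ W}, (Q.n W q k : ℝ)) ≤
        ((C' * Q.n W q (e.symm h) : ℕ) : ℝ) * ht (tt (c (e.symm h)) (Q.x (e.symm h)))
      have hS : ∑ k : {k // k ∈ W}, (Q.n W q k : ℝ) ≤ T / (4 * D) := by
        calc ∑ k : {k // k ∈ W}, (Q.n W q k : ℝ)
            ≤ ∑ _k : {k // k ∈ W}, T / (4 * D * (m + 1)) := by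
              refine Finset.sum_le_sum fun k _ => (hn2 k k.2).trans ?_
              have p1 : 0 < Q.H k := by linarith [hH2 k k.2]
              have p2 : 0 < 4 * D * ((m : ℝ) + 1) := by positivity
              rw [div_le_div_iff₀ p1 p2]
              have := hH3 k k.2
              nlinarith
          _ = m * (T / (4 * D * (m + 1))) := by
              rw [Finset.sum_const, Finset.card_univ, ← hm, nsmul_eq_mul]
          _ ≤ T / (4 * D) := by
              rw [← mul_div_assoc, div_le_div_iff₀ (by positivity) (by positivity)]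
              have hmT : (0 : ℝ) ≤ T * (4 * D) := by positivity
              nlinarith
      have hS' : 4 * D * ∑ k : {k // k ∈ W}, (Q.n W q k : ℝ) ≤ T := by
        rw [le_div_iff₀ (by positivity)] at hS
        linarith
      have h6 : (Q.n W q (e.symm h) : ℝ) * (Q.H (e.symm h) / 2) ≤
          Q.n W q (e.symm h) * ht (tt (c (e.symm h)) (Q.x (e.symm h))) :=
        mul_le_mul_of_nonneg_left h5 (by linarith)
      push_cast
      have h7 : 2 * D * ∑ k : {k // k ∈ W}, (Q.n W q k : ℝ) ≤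
          Q.n W q (e.symm h) * ht (tt (c (e.symm h)) (Q.x (e.symm h))) := by
        linarith
      calc D * (C' * ∑ k : {k // k ∈ W}, (Q.n W q k : ℝ) +
            C' * ∑ k : {k // k ∈ W}, (Q.n W q k : ℝ))
          = C' * (2 * D * ∑ k : {k // k ∈ W}, (Q.n W q k : ℝ)) := by ring
        _ ≤ C' * (Q.n W q (e.symm h) * ht (tt (c (e.symm h)) (Q.x (e.symm h)))) :=
            mul_le_mul_of_nonneg_left h7 hC0.le
        _ = C' * Q.n W q (e.symm h) * ht (tt (c (e.symm h)) (Q.x (e.symm h))) := by ring)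
  refine ⟨Finsupp.equivMapDomain e.symm i, ?_, ?_⟩
  · have h2 : ∑ h : Fin m, (i h : ℝ) / ((C' * Q.n W q (e.symm h) : ℕ) : ℝ) =
        (∑ k : {k // k ∈ W}, ((Finsupp.equivMapDomain e.symm i k : ℕ) : ℝ) / Q.n W q k) / C' := by
      rw [Finset.sum_div, ← Equiv.sum_comp e.symm fun k : {k // k ∈ W} =>
        ((Finsupp.equivMapDomain e.symm i k : ℕ) : ℝ) / Q.n W q k / C']
      refine Finset.sum_congr rfl fun h _ => ?_
      rw [Finsupp.equivMapDomain_apply, Equiv.symm_symm, Equiv.apply_symm_apply]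
      push_cast
      rw [div_div, mul_comm (C' : ℝ)]
    rw [h2, div_le_div_iff_of_pos_right hC0] at hi2
    exact hi2
  · rw [← coeff_tay_rename e (fun k : {k // k ∈ W} => tt (c k) (Q.x k)) F i]
    exact hi1

end Pool.Agent.LAll
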