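import Pool.Agent.LAll.PtCfg

set_option autoImplicit false

/-! UV11. Relations give exponent vectors of height `0`. -/

namespace Pool.Agent.LAll

open NumberField Height Real Module Filter Topology Pool.Agent.LThree

variable {ι : Type} [Fintype ι] [DecidableEq ι]

omit [Fintype ι] [DecidableEq ι] in
private lemma rs_clear_den {κ : Type} [Finite κ] (v : κ → ℚ) :
    ∃ N : ℕ, 0 < N ∧ ∃ a : κ → ℤ, ∀ i, (a i : ℚ) = N * v i := by
  obtain ⟨b, hb⟩ := IsLocalization.exist_integer_multiples_of_finite (nonZeroDivisors ℤ) v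
  choose a ha using hb
  have hb0 : (b : ℤ) ≠ 0 := nonZeroDivisors.coe_ne_zero b
  refine ⟨(b : ℤ).natAbs, Int.natAbs_pos.2 hb0, fun i => Int.sign (b : ℤ) * a i, fun i => ?_⟩
  have h1 : ((a i : ℤ) : ℚ) = (b : ℤ) * v i := by
    have h2 := ha i
    rw [Algebra.smul_def] at h2
    exact_mod_cast h2
  rw [Int.cast_mul, h1, ← mul_assoc, ← Int.cast_mul, Int.sign_mul_self_eq_natAbs,
    Int.cast_natCast]

/-- the scaling map -/
private noncomputable def rs_map (s : ι → ℝ) : (ι ⊕ ι → ℝ) →ₗ[ℝ] E ι where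
  toFun a := fun k i => s k * ![a (Sum.inl k), a (Sum.inr k)] i
  map_add' a b := by
    funext k i
    fin_cases i
    · simp [mul_add]
    · simp [mul_add]
  map_smul' r a := by
    funext k i
    fin_cases i
    · simp [mul_left_comm]
    · simp [mul_left_comm]

omit [Fintype ι] [DecidableEq ι] in
private lemma rs_map_inj (s : ι → ℝ) (hs : ∀ k, s k ≠ 0) : LinearMap.ker (rs_map s) = ⊥ := by
  rw [LinearMap.ker_eq_bot']
  intro a ha
  funext c
  rcases c with k | k
  · have h1 := congrFun (congrFun ha k) 0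
    change s k * a (Sum.inl k) = 0 at h1
    exact (mul_eq_zero.1 h1).resolve_left (hs k)
  · have h1 := congrFun (congrFun ha k) 1
    change s k * a (Sum.inr k) = 0 at h1
    exact (mul_eq_zero.1 h1).resolve_left (hs k)

omit [DecidableEq ι] in
/-- rational relations and logarithms -/
private lemma rs_rel (P : Pt ι) (U : Submodule ℚ (ι ⊕ ι → ℚ))
    (hU : ∀ a : ι ⊕ ι → ℤ, (fun i => (a i : ℚ)) ∈ U → ∃ m : ℕ, 0 < m ∧ mono (co P.x) a ^ m = 1)
    (a : ι ⊕ ι → ℚ) (ha : a ∈ U) (v : P.V) : ∑ c, (a c : ℝ) * lam v (co P.x c) = 0 := by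
  obtain ⟨N, hN, n, hn⟩ := rs_clear_den a
  have h1 : (fun i => (n i : ℚ)) ∈ U := by
    have h2 : (fun i => (n i : ℚ)) = (N : ℚ) • a := by
      funext i
      rw [hn i]
      rfl
    rw [h2]
    exact Submodule.smul_mem _ _ ha
  obtain ⟨m, hm, h2⟩ := hU n h1
  have h3 := lam_of_pow_eq_one v _ m hm h2
  have h4 : lam v (mono (co P.x) n) = ∑ c, (n c : ℝ) * lam v (co P.x c) := by
    unfold mono
    rw [lam_prod v _ _ fun c _ => zpow_ne_zero _ (P.co_ne c)]
    exact Finset.sum_congr rfl fun c _ => lam_zpow v _ _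
  have h5 : ∀ c, (n c : ℝ) = N * (a c : ℝ) := by
    intro c
    have := hn c
    exact_mod_cast congrArg (fun q : ℚ => (q : ℝ)) this
  rw [h4] at h3
  simp only [h5, mul_assoc] at h3
  rw [← Finset.mul_sum] at h3
  have hN' : (N : ℝ) ≠ 0 := Nat.cast_ne_zero.2 hN.ne'
  exact (mul_eq_zero.1 h3).resolve_left hN'

/-- the rational vectors which are supported on `M` -/
private lemma rs_dim (U0 : Submodule ℚ (ι ⊕ ι → ℚ)) (M : Finset ι) :
    ∃ V : Submodule ℚ (ι ⊕ ι → ℚ), V ≤ U0 ∧
      (∀ a ∈ V, ∀ k ∉ M, a (Sum.inl k) = 0 ∧ a (Sum.inr k) = 0) ∧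
      finrank ℚ U0 + 2 * M.card ≤ finrank ℚ V + 2 * Fintype.card ι := by
  set R : (ι ⊕ ι → ℚ) →ₗ[ℚ] ({k // k ∉ M} ⊕ {k // k ∉ M} → ℚ) :=
    LinearMap.funLeft ℚ ℚ (Sum.map Subtype.val Subtype.val) with hR
  have hrn := LinearMap.finrank_range_add_finrank_ker (R.domRestrict U0)
  have hrange : finrank ℚ (LinearMap.range (R.domRestrict U0)) ≤
      2 * (Fintype.card ι - M.card) := by
    refine (Submodule.finrank_le _).trans ?_
    rw [finrank_fintype_fun_eq_card, Fintype.card_sum, Fintype.card_subtype_compl,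
      Fintype.card_coe]
    omega
  have hMι : M.card ≤ Fintype.card ι := Finset.card_le_univ M
  refine ⟨(LinearMap.ker (R.domRestrict U0)).map U0.subtype, Submodule.map_subtype_le _ _, ?_, ?_⟩
  · rintro _ ⟨a, ha, rfl⟩ k hk
    have h1 : R a = 0 := ha
    exact ⟨congrFun h1 (Sum.inl ⟨k, hk⟩), congrFun h1 (Sum.inr ⟨k, hk⟩)⟩
  · have h1 : finrank ℚ ((LinearMap.ker (R.domRestrict U0)).map U0.subtype) =
        finrank ℚ (LinearMap.ker (R.domRestrict U0)) :=
      (Submodule.equivSubtypeMap U0 (LinearMap.ker (R.domRestrict U0))).symm.finrank_eq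
    rw [h1]
    omega

/-- **Relations give exponent vectors of height `0`.** `RankLe ρ (co x)`: there is a space
`U` of rational exponent vectors (`ι ⊕ ι → ℚ`) with `2 |ι| ≤ finrank U + ρ` such that the integral ones
give roots of unity. `U ⊓ {supported on M}` has dimension `≥ 2 |M| - ρ` (codimension formula), take a
`ℚ`-basis `a_l` of it. A rational vector of `U` has an integral multiple in `U`
(`IsLocalization.exist_integer_multiples_of_finite`; `clear_den` in `LThree/FieldThm.lean`), so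
`∑ k, a (inl k) lam v x_k + a (inr k) lam v (1 - x_k) = 0` for all `v` (`lam_of_pow_eq_one`, `lam_prod`,
`lam_zpow`). The vectors `y_l k i = sc k * a_l (inl k or inr k)` have `pair v y_l = 0`; they are linearly
independent over `ℝ` (the `a_l` are independent over `ℚ`, hence over `ℝ`: e.g. extend them to a `ℚ`-basis
of `ι ⊕ ι → ℚ`, the change of basis matrix is invertible over `ℚ`, hence over `ℝ`; or
`LinearIndependent` and `Matrix.rank`/determinants, `RingHom.mapMatrix`). `U' =` their span. -/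
theorem rank_sub (B M : Finset ι) (P : Pt ι) (ρ : ℕ) (h : RankLe ρ (co P.x)) :
    ∃ U : Submodule ℝ (E ι), U ≤ supp M ∧ 2 * M.card ≤ finrank ℝ U + ρ ∧
      ∀ y ∈ U, (P.cfg B).N y = 0 := by
  classical
  obtain ⟨U0, hcard, hU0⟩ := h
  rw [Fintype.card_sum] at hcard
  obtain ⟨V, hVU, hVM, hV⟩ := rs_dim U0 M
  let b := finBasis ℚ V
  let a : Fin (finrank ℚ V) → ι ⊕ ι → ℚ := fun l => (b l : ι ⊕ ι → ℚ)
  have ha : LinearIndependent ℚ a := b.linearIndependent.map' V.subtype (Submodule.ker_subtype _)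
  have haU : ∀ l, a l ∈ U0 := fun l => hVU (b l).2
  have haM : ∀ l, ∀ k ∉ M, a l (Sum.inl k) = 0 ∧ a l (Sum.inr k) = 0 := fun l => hVM _ (b l).2
  let y : Fin (finrank ℚ V) → E ι := fun l =>
    rs_map (P.sc B) (algebraMap ℚ ℝ ∘ a l)
  have hy : LinearIndependent ℝ y :=
    (linearIndependent_algebraMap_comp_iff.2 ha).map' (rs_map (P.sc B))
      (rs_map_inj _ fun k => (P.sc_pos B k).ne')
  refine ⟨Submodule.span ℝ (Set.range y), ?_, ?_, ?_⟩
  · rw [Submodule.span_le]
    rintro _ ⟨l, rfl⟩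
    intro k hk
    funext i
    obtain ⟨h1, h2⟩ := haM l k hk
    change P.sc B k * ![algebraMap ℚ ℝ (a l (Sum.inl k)), algebraMap ℚ ℝ (a l (Sum.inr k))] i = 0
    rw [h1, h2, map_zero]
    fin_cases i
    · exact mul_zero _
    · exact mul_zero _
  · rw [finrank_span_eq_card hy, Fintype.card_fin]
    omega
  · have hpair : ∀ v : (P.cfg B).V, ∀ z ∈ Submodule.span ℝ (Set.range y),
        (P.cfg B).pair v z = 0 := by
      intro v z hz
      induction hz using Submodule.span_induction with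
      | mem z hz =>
        obtain ⟨l, rfl⟩ := hz
        have h1 := rs_rel P U0 hU0 (a l) (haU l) v
        rw [Fintype.sum_sum_type, ← Finset.sum_add_distrib] at h1
        rw [← h1]
        unfold Cfg.pair
        refine Finset.sum_congr rfl fun k _ => ?_
        rw [Fin.sum_univ_two]
        change P.sc B k * ((a l (Sum.inl k) : ℚ) : ℝ) * (lam v (P.x k) / P.sc B k) +
          P.sc B k * ((a l (Sum.inr k) : ℚ) : ℝ) * (lam v (1 - P.x k) / P.sc B k) =
          (a l (Sum.inl k) : ℝ) * lam v (P.x k) + (a l (Sum.inr k) : ℝ) * lam v (1 - P.x k)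
        have h2 := (P.sc_pos B k).ne'
        field_simp
      | zero =>
        unfold Cfg.pair
        simp
      | add z w _ _ hz hw => rw [Cfg.pair_add, hz, hw, add_zero]
      | smul r z _ hz => rw [Cfg.pair_smul, hz, mul_zero]
    intro z hz
    unfold Cfg.N
    refine Finset.sum_eq_zero fun v _ => ?_
    rw [hpair v z hz, abs_zero]

end Pool.Agent.LAll
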