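import Pool.Agent.LAll.NoConcOf
import Pool.Agent.LAll.NVBlock
import Pool.Agent.LAll.NVChain
import Pool.Agent.LAll.BoundedEnd
import Pool.Agent.LAll.Classes
import Pool.Agent.LAll.CountCl
import Pool.Agent.LAll.RankSub
import Pool.Agent.LAll.IaIb

set_option autoImplicit false

/-! UV29. Theorems U and V over number fields. -/

namespace Pool.Agent.LAll

open NumberField Height Real Module Filter Topology Pool.Agent.LThree

section

variable {ι J : Type} [Fintype ι] [DecidableEq ι]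

/-- **Rank bounds.** `W ⊆ Bᶜ`, `NV` for all nonempty subsets of `W`, and all points of rank `≤ ρ`.

Proof. `Iab` (with `W₀ = Bᶜ`, `tame_cfg`, `noConc_of_NV` for the subsets) for `W' = W` (if `W ≠ ∅`) gives
`finrank (ker ⊓ supp W) + 1 ≤ |W|` and (Ib). `ker_finrank` with `rank_sub` (`M = W`, `d = 2 |W| - ρ`):
`2 |W| ≤ finrank (ker ⊓ supp W) + ρ`. This is (a). (b): `bounded_rank` (for `W = ∅`: `supp ∅ = ⊥`, the
hypotheses are trivial) and `ker_finrank` with `M = W ∪ B`: `2 (|W| + |B|) ≤ |W| + |B| + ρ`. -/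
theorem rank_bounds {𝒰 : Ultrafilter J} {P : J → Pt ι} {B : Finset ι} (hG : Gen 𝒰 P)
    (hB : Split 𝒰 P B) (ρ : ℕ) (hρ : ∀ j, RankLe ρ (co (P j).x)) (W : Finset ι) (hW : W ⊆ Bᶜ)
    (hNV : ∀ W' ⊆ W, W'.Nonempty → NV 𝒰 P W') :
    (W.Nonempty → W.card + 1 ≤ ρ) ∧ (B.Nonempty → W.card + B.card ≤ ρ) := by
  have hT := tame_cfg 𝒰 P B hB
  have hI := Iab hT W hW fun W' h hne => noConc_of_NV hB W' (h.trans hW) (hNV W' h hne)
  have hM : ∀ M : Finset ι, 2 * M.card ≤
      finrank ℝ (ker 𝒰 (fun j => (P j).cfg B) ⊓ supp M : Submodule ℝ (E ι)) + ρ := by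
    intro M
    have h1 := ker_finrank 𝒰 (fun j => (P j).cfg B) hT.bd M (2 * M.card - ρ)
      (Filter.Eventually.of_forall fun j => by
        obtain ⟨U, hU1, hU2, hU3⟩ := rank_sub B M (P j) ρ (hρ j)
        exact ⟨U, hU1, by omega, hU3⟩)
    omega
  constructor
  · intro hne
    have h1 := (hI W subset_rfl hne).2
    have h2 := hM W
    omega
  · intro hBne
    have hIa : finrank ℝ (ker 𝒰 (fun j => (P j).cfg B) ⊓ supp W : Submodule ℝ (E ι)) ≤
        W.card := by
      rcases W.eq_empty_or_nonempty with h | h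
      · have h0 : ker 𝒰 (fun j => (P j).cfg B) ⊓ supp W = ⊥ := by
          rw [eq_bot_iff]
          intro y hy
          rw [Submodule.mem_bot]
          funext k
          exact hy.2 k (by rw [h]; exact Finset.notMem_empty k)
        rw [h0, finrank_bot]
        exact Nat.zero_le _
      · have h1 := (hI W subset_rfl h).2
        omega
    have h1 := bounded_rank hG hB hBne W hW hIa fun S c hS hS0 hc =>
      (hI W subset_rfl (hS0.mono hS)).1 S c hS hS0 hc
    have h2 := hM (W ∪ B)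
    have hWB : Disjoint W B := by
      rw [Finset.disjoint_left]
      intro k hk hkB
      exact (Finset.mem_compl.mp (hW hk)) hkB
    rw [Finset.card_union_of_disjoint hWB] at h2
    omega

end

/-- **Theorem U over number fields.** By contradiction: `exists_generic` with
`Q P = RankLe ρ (co P.x)`, `exists_split`, and `count_classes` with `R = Comp 𝒰 P`; blocks: `rank_bounds`
with `nv_block` (subsets of a block are blocks; `H k ≥ 1` eventually), chains: `nv_chain` with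
`not_comp`. `card (Fin ((ρ - 1) ^ 2 + 2)) ≤ (ρ - 1) ^ 2 + 1` is false. (A number field `K` and
`x : Fin r → K` with `x i ≠ 0`, `1 - x i ≠ 0` is a `Pt`.) -/
theorem field_U (ρ : ℕ) (hρ : 1 ≤ ρ) :
    ∃ f : MvPolynomial (Fin ((ρ - 1) ^ 2 + 2)) ℤ, f ≠ 0 ∧
      ∀ (K : Type) [Field K] [NumberField K] (x : Fin ((ρ - 1) ^ 2 + 2) → K),
        (∀ i, x i ≠ 0 ∧ x i ≠ 1) → RankLe ρ (co x) → MvPolynomial.aeval x f = 0 := by
  by_contra hcon
  have hgen : ¬ ∃ f : MvPolynomial (Fin ((ρ - 1) ^ 2 + 2)) ℤ, f ≠ 0 ∧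
      ∀ P : Pt (Fin ((ρ - 1) ^ 2 + 2)), RankLe ρ (co P.x) → MvPolynomial.aeval P.x f = 0 := by
    rintro ⟨f, hf, hP⟩
    exact hcon ⟨f, hf, fun K _ _ x hx hr =>
      hP ⟨K, x, fun i => (hx i).1, fun i => sub_ne_zero.2 (hx i).2.symm⟩ hr⟩
  obtain ⟨J, 𝒰, P, hQ, hG⟩ := exists_generic _ hgen
  obtain ⟨B, hB⟩ := exists_split 𝒰 P
  have key := count_classes B (Comp 𝒰 P) (comp_equivalence 𝒰 P) ρ hρ
    (fun W hW hc => rank_bounds hG hB ρ hQ W hW fun W' hW' _ =>
      nv_block 𝒰 P hG W'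
        (fun k hk => (hB.unb k (Finset.mem_compl.1 (hW (hW' hk)))).eventually_ge_atTop 1)
        (fun k hk l hl => (hc k (hW' hk) l (hW' hl)).1))
    (fun W hW hc => rank_bounds hG hB ρ hQ W hW fun W' hW' _ =>
      nv_chain 𝒰 P W'
        (fun k hk => hB.unb k (Finset.mem_compl.1 (hW (hW' hk))))
        (fun k hk l hl hkl => not_comp 𝒰 P hB k l (Finset.mem_compl.1 (hW (hW' hk)))
          (Finset.mem_compl.1 (hW (hW' hl))) (hc k (hW' hk) l (hW' hl) hkl)))
  rw [Fintype.card_fin] at key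
  omega

/-- **Theorem V over number fields.** By contradiction: `exists_generic` with `Q P` = rank `≤ r - 1`
and the condition on the heights; `exists_split`: `B`. For `i ∉ B`, `H i → ∞`, so for most `j` the
alternative `H i ≤ C` fails and `max H ≤ C H i`; so all coordinates outside `B` are comparable, and
`rank_bounds` with `W = Bᶜ` and `nv_block` gives `|Bᶜ| + 1 ≤ r - 1` (if `B = ∅`; `r ≥ 1`) or
`r = |Bᶜ| + |B| ≤ r - 1`: contradictions. (`r = 0`: `r - 1 = 0`; take `f = 1`? no: for `r = 0` the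
statement assumes `1 ≤ r`.) -/
theorem field_V (r : ℕ) (hr : 1 ≤ r) (C : ℝ) :
    ∃ f : MvPolynomial (Fin r) ℤ, f ≠ 0 ∧
      ∀ (K : Type) [Field K] [NumberField K] (x : Fin r → K),
        (∀ i, x i ≠ 0 ∧ x i ≠ 1) → RankLe (r - 1) (co x) →
        (∀ i, ht (x i) ≤ C ∨ ∀ k, ht (x k) ≤ C * ht (x i)) → MvPolynomial.aeval x f = 0 := by
  by_contra hcon
  have hgen : ¬ ∃ f : MvPolynomial (Fin r) ℤ, f ≠ 0 ∧
      ∀ P : Pt (Fin r), (RankLe (r - 1) (co P.x) ∧
        ∀ i, ht (P.x i) ≤ C ∨ ∀ k, ht (P.x k) ≤ C * ht (P.x i)) →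
        MvPolynomial.aeval P.x f = 0 := by
    rintro ⟨f, hf, hP⟩
    exact hcon ⟨f, hf, fun K _ _ x hx hr hh =>
      hP ⟨K, x, fun i => (hx i).1, fun i => sub_ne_zero.2 (hx i).2.symm⟩ ⟨hr, hh⟩⟩
  obtain ⟨J, 𝒰, P, hQ, hG⟩ := exists_generic _ hgen
  obtain ⟨B, hB⟩ := exists_split 𝒰 P
  have hcomp : ∀ k l : Fin r, l ∉ B → ∀ᶠ j in (𝒰 : Filter J), (P j).H k ≤ C * (P j).H l := by
    intro k l hl
    filter_upwards [(hB.unb l hl).eventually_gt_atTop C] with j hj
    rcases (hQ j).2 l with h | h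
    · exact absurd hj (not_lt.2 h)
    · exact h k
  have key := rank_bounds hG hB (r - 1) (fun j => (hQ j).1) Bᶜ subset_rfl fun W' hW' _ =>
    nv_block 𝒰 P hG W'
      (fun k hk => (hB.unb k (Finset.mem_compl.1 (hW' hk))).eventually_ge_atTop 1)
      (fun k _ l hl => ⟨C, hcomp k l (Finset.mem_compl.1 (hW' hl))⟩)
  have hcard : (Bᶜ : Finset (Fin r)).card + B.card = r := by
    rw [Finset.card_compl_add_card, Fintype.card_fin]
  rcases B.eq_empty_or_nonempty with h | h
  · rw [h, Finset.card_empty, add_zero] at hcard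
    rw [h] at key
    have hne : (∅ᶜ : Finset (Fin r)).Nonempty := by
      rw [← Finset.card_pos, hcard]
      omega
    have h2 := key.1 hne
    rw [hcard] at h2
    omega
  · have h2 := key.2 h
    rw [hcard] at h2
    omega

end Pool.Agent.LAll
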