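import Pool.Agent.LAll.Defs

set_option autoImplicit false

/-! UV01. The dimension of the limit kernel. -/

namespace Pool.Agent.LAll

open Filter Topology Module

variable {ι : Type} [Fintype ι] [DecidableEq ι] {J : Type}

private def suppEquiv (M : Finset ι) :
    (supp M : Submodule ℝ (E ι)) ≃ₗ[ℝ] ({k // k ∈ M} → Fin 2 → ℝ) where
  toFun y := fun k => y.1 k.1
  map_add' y z := rfl
  map_smul' r y := rfl
  invFun z := ⟨fun k => if h : k ∈ M then z ⟨k, h⟩ else 0, fun k hk => by simp [hk]⟩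
  left_inv y := by
    apply Subtype.ext
    funext k
    by_cases h : k ∈ M
    · simp [h]
    · simp only [h, dif_neg, not_false_eq_true]
      exact (y.2 k h).symm
  right_inv z := by
    funext k
    simp [k.2]

theorem finrank_supp (M : Finset ι) : finrank ℝ (supp M : Submodule ℝ (E ι)) = 2 * M.card := by
  rw [(suppEquiv M).finrank_eq, Module.finrank_pi_fintype]
  simp [mul_comm]

omit [DecidableEq ι] in
private theorem exists_compl_in (K S : Submodule ℝ (E ι)) (hKS : K ≤ S) :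
    ∃ F : Submodule ℝ (E ι), F ≤ S ∧ F ⊓ K = ⊥ ∧ finrank ℝ F + finrank ℝ K = finrank ℝ S := by
  obtain ⟨F', hF'⟩ := Submodule.exists_isCompl K
  have h1 : (F' ⊓ S) ⊓ K = ⊥ := by
    rw [eq_bot_iff]
    intro y hy
    have h2 : y ∈ K ⊓ F' := ⟨hy.2, hy.1.1⟩
    rwa [hF'.inf_eq_bot] at h2
  have h3 : (F' ⊓ S) ⊔ K = S := by
    have h4 : K ⊔ F' ⊓ S = (K ⊔ F') ⊓ S := (sup_inf_assoc_of_le F' hKS).symm
    rw [sup_comm, h4, hF'.sup_eq_top, top_inf_eq]
  refine ⟨F' ⊓ S, inf_le_right, h1, ?_⟩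
  have h5 := Submodule.finrank_sup_add_finrank_inf_eq (F' ⊓ S) K
  rw [h1, h3, finrank_bot, add_zero] at h5
  exact h5.symm

omit [DecidableEq ι] in
private theorem N_bound (𝒰 : Ultrafilter J) (𝒞 : J → Cfg ι)
    (hbd : ∀ k, ∃ C : ℝ, ∀ᶠ j in (𝒰 : Filter J), ∀ i, ∑ v, |(𝒞 j).L v k i| ≤ C) :
    ∃ C : ℝ, ∀ᶠ j in (𝒰 : Filter J), ∀ y : E ι, (𝒞 j).N y ≤ ‖y‖ * C := by
  choose C hC using hbd
  refine ⟨∑ k, ∑ _i : Fin 2, C k, ?_⟩
  have h1 : ∀ᶠ j in (𝒰 : Filter J), ∀ k, ∀ i, ∑ v, |(𝒞 j).L v k i| ≤ C k :=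
    Filter.eventually_all.2 hC
  filter_upwards [h1] with j hj y
  refine ((𝒞 j).N_le y ‖y‖ fun k i => ?_).trans ?_
  · have h2 : ‖y k i‖ ≤ ‖y‖ := (norm_le_pi_norm (y k) i).trans (norm_le_pi_norm y k)
    rwa [Real.norm_eq_abs] at h2
  · exact mul_le_mul_of_nonneg_left (Finset.sum_le_sum fun k _ => Finset.sum_le_sum fun i _ => hj k i)
      (norm_nonneg _)

/-- If for most `j` there is a space `U ≤ supp M` of dimension at least `d` with `N_j = 0` on `U`, then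
the kernel `ker ⊓ supp M` has dimension at least `d`.

Proof. Let `K = ker 𝒰 𝒞 ⊓ supp M` and suppose `finrank K < d`. Let `F` be a complement of `K` in
`supp M`, i.e. `F ≤ supp M`, `F ⊓ K = ⊥`, `finrank F + finrank K = finrank (supp M)` (take a complement
`F'` of `K` in `E ι` (`Submodule.exists_isCompl`) and `F = F' ⊓ supp M`; modular law). For the `j` of the
hypothesis `U_j ⊓ F ≠ ⊥` (dimensions: `finrank U_j + finrank F ≥ d + finrank (supp M) - finrank K >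
finrank (supp M)`, `Submodule.finrank_add_finrank_le_of_disjoint` or
`Submodule.finrank_sup_add_finrank_inf_eq`), so there is `u_j ∈ U_j ⊓ F` with `‖u_j‖ = 1` (sup norm of
`ι → Fin 2 → ℝ`; scale), for the other `j` put `u_j = 0`. The closed unit ball is compact (proper
space), so `u_j → u` along `𝒰` (`IsCompact.ultrafilter_le_nhds` for the ultrafilter `𝒰.map u`);
`‖u‖ = 1` and `u ∈ F` (closed, finite dimensional: `Submodule.closed_of_finiteDimensional`). For most `j`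
`N_j u ≤ N_j u_j + N_j (u - u_j) ≤ ‖u - u_j‖ * ∑ k, ∑ i, ∑ v |L v k i| ≤ C ‖u - u_j‖` (`Cfg.N_add`,
`Cfg.N_le`, hypothesis `hbd` for the finitely many `k`, `Filter.eventually_all`). So `u ∈ ker`, hence
`u ∈ K ⊓ F = ⊥`: contradiction. -/
theorem ker_finrank (𝒰 : Ultrafilter J) (𝒞 : J → Cfg ι)
    (hbd : ∀ k, ∃ C : ℝ, ∀ᶠ j in (𝒰 : Filter J), ∀ i, ∑ v, |(𝒞 j).L v k i| ≤ C)
    (M : Finset ι) (d : ℕ)
    (h : ∀ᶠ j in (𝒰 : Filter J), ∃ U : Submodule ℝ (E ι), U ≤ supp M ∧ d ≤ finrank ℝ U ∧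
      ∀ y ∈ U, (𝒞 j).N y = 0) :
    d ≤ finrank ℝ (ker 𝒰 𝒞 ⊓ supp M : Submodule ℝ (E ι)) := by
  by_contra hcon
  push Not at hcon
  obtain ⟨F, hFS, hFK, hdim⟩ := exists_compl_in (ker 𝒰 𝒞 ⊓ supp M) (supp M) inf_le_right
  -- the vectors `u_j`
  have h1 : ∀ᶠ j in (𝒰 : Filter J), ∃ u : E ι, u ∈ F ∧ ‖u‖ = 1 ∧ (𝒞 j).N u = 0 := by
    filter_upwards [h] with j hj
    obtain ⟨U, hUS, hdU, hU⟩ := hj
    have h2 : U ⊓ F ≠ ⊥ := by
      intro h0
      have h3 := Submodule.finrank_sup_add_finrank_inf_eq U F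
      rw [h0, finrank_bot, add_zero] at h3
      have h4 : finrank ℝ (U ⊔ F : Submodule ℝ (E ι)) ≤ finrank ℝ (supp M : Submodule ℝ (E ι)) :=
        Submodule.finrank_mono (sup_le hUS hFS)
      omega
    obtain ⟨y, hy, hy0⟩ := Submodule.exists_mem_ne_zero_of_ne_bot h2
    have hn : ‖y‖ ≠ 0 := norm_ne_zero_iff.2 hy0
    refine ⟨‖y‖⁻¹ • y, F.smul_mem _ hy.2, ?_, hU _ (U.smul_mem _ hy.1)⟩
    rw [norm_smul, norm_inv, norm_norm, inv_mul_cancel₀ hn]
  classical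
  let u : J → E ι := fun j =>
    if hj : ∃ u : E ι, u ∈ F ∧ ‖u‖ = 1 ∧ (𝒞 j).N u = 0 then hj.choose else 0
  have hu : ∀ᶠ j in (𝒰 : Filter J), u j ∈ F ∧ ‖u j‖ = 1 ∧ (𝒞 j).N (u j) = 0 := by
    filter_upwards [h1] with j hj
    have h2 : u j = hj.choose := dif_pos hj
    rw [h2]
    exact hj.choose_spec
  have hball : ∀ᶠ j in (𝒰 : Filter J), u j ∈ Metric.closedBall (0 : E ι) 1 := by
    filter_upwards [hu] with j hj
    rw [mem_closedBall_zero_iff]
    exact hj.2.1.le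
  obtain ⟨z, -, hz⟩ := (isCompact_closedBall (0 : E ι) 1).ultrafilter_le_nhds (𝒰.map u)
    (by
      rw [Filter.le_principal_iff]
      exact hball)
  have hz' : Tendsto u (𝒰 : Filter J) (𝓝 z) := hz
  have hzn : ‖z‖ = 1 := by
    have h2 : Tendsto (fun j => ‖u j‖) (𝒰 : Filter J) (𝓝 ‖z‖) := hz'.norm
    have h3 : Tendsto (fun j => ‖u j‖) (𝒰 : Filter J) (𝓝 1) :=
      (tendsto_congr' (by filter_upwards [hu] with j hj using hj.2.1)).2 tendsto_const_nhds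
    exact tendsto_nhds_unique h2 h3
  have hzF : z ∈ F := by
    have h2 : IsClosed (F : Set (E ι)) := Submodule.closed_of_finiteDimensional F
    exact h2.mem_of_tendsto hz' (by filter_upwards [hu] with j hj using hj.1)
  obtain ⟨C, hC⟩ := N_bound 𝒰 𝒞 hbd
  have hzK : z ∈ ker 𝒰 𝒞 := by
    rw [mem_ker]
    have h2 : Tendsto (fun j => ‖z - u j‖ * C) (𝒰 : Filter J) (𝓝 0) := by
      have h3 : Tendsto (fun j => ‖z - u j‖) (𝒰 : Filter J) (𝓝 ‖z - z‖) :=
        (tendsto_const_nhds.sub hz').norm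
      rw [sub_self, norm_zero] at h3
      have h4 := h3.mul_const C
      rwa [zero_mul] at h4
    refine squeeze_zero' (Filter.Eventually.of_forall fun j => (𝒞 j).N_nonneg _) ?_ h2
    filter_upwards [hu, hC] with j hj hCj
    have h3 : (𝒞 j).N z ≤ (𝒞 j).N (u j) + (𝒞 j).N (z - u j) := by
      have h4 := (𝒞 j).N_add (u j) (z - u j)
      rwa [add_sub_cancel] at h4
    rw [hj.2.2, zero_add] at h3
    exact h3.trans (hCj _)
  have h5 : z ∈ F ⊓ (ker 𝒰 𝒞 ⊓ supp M) := ⟨hzF, hzK, hFS hzF⟩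
  rw [hFK, Submodule.mem_bot] at h5
  rw [h5, norm_zero] at hzn
  exact zero_ne_one hzn

end Pool.Agent.LAll
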