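import Pool.Agent.LAll.PtCfg
import Pool.Agent.LAll.PolyDefs

set_option autoImplicit false

/-! Theorems U and V: degrees and the nonvanishing property. -/

namespace Pool.Agent.LAll

open NumberField Height Real Module Filter Topology

section

variable {ι : Type}

/-- `T = q * ∑_{k ∈ W} H k`. -/
noncomputable def Pt.T (P : Pt ι) (W : Finset ι) (q : ℝ) : ℝ := q * ∑ k ∈ W, P.H k

/-- The degrees `n_k = ⌈T / H k⌉`. -/
noncomputable def Pt.n (P : Pt ι) (W : Finset ι) (q : ℝ) (k : ι) : ℕ := ⌈P.T W q / P.H k⌉₊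

/-- For `k ∈ W`, `1 ≤ H l` for all `l ∈ W`, `q ≥ 1`:
`q ≤ n_k`, `T / H k ≤ n_k ≤ 2 T / H k`, `T ≤ n_k H k ≤ T + H k ≤ T (1 + 1/q)`. -/
theorem Pt.n_bounds (P : Pt ι) (W : Finset ι) (q : ℝ) (hq : 1 ≤ q) (k : ι) (hk : k ∈ W)
    (h : ∀ l ∈ W, 1 ≤ P.H l) :
    0 < P.T W q ∧ q ≤ P.n W q k ∧ P.T W q / P.H k ≤ P.n W q k ∧
      (P.n W q k : ℝ) ≤ 2 * P.T W q / P.H k ∧ P.H k ≤ P.T W q / q ∧
      P.T W q ≤ P.n W q k * P.H k ∧ P.n W q k * P.H k ≤ P.T W q + P.H k := by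
  have hH : 1 ≤ P.H k := h k hk
  have hH0 : 0 < P.H k := by linarith
  have hsum : P.H k ≤ ∑ l ∈ W, P.H l :=
    Finset.single_le_sum (fun l hl => by have := h l hl; linarith) hk
  have hT : q * P.H k ≤ P.T W q := mul_le_mul_of_nonneg_left hsum (by linarith)
  have hT0 : 0 < P.T W q := lt_of_lt_of_le (by positivity) hT
  have h1 : P.T W q / P.H k ≤ P.n W q k := Nat.le_ceil _
  have h2 : q ≤ P.T W q / P.H k := by rwa [le_div_iff₀ hH0]
  have h3 : (P.n W q k : ℝ) < P.T W q / P.H k + 1 := Nat.ceil_lt_add_one (by positivity)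
  have h4 : P.n W q k * P.H k ≤ P.T W q + P.H k := by
    have h5 := mul_le_mul_of_nonneg_right h3.le hH0.le
    rwa [add_mul, div_mul_cancel₀ _ hH0.ne', one_mul] at h5
  have h6 : P.T W q ≤ P.n W q k * P.H k := by
    rwa [div_le_iff₀ hH0] at h1
  refine ⟨hT0, h2.trans h1, h1, ?_, ?_, h6, h4⟩
  · have : (2 : ℝ) * P.T W q / P.H k = P.T W q / P.H k + P.T W q / P.H k := by ring
    rw [this]
    linarith
  · rw [le_div_iff₀ (by linarith)]
    linarith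

end

/-- **Nonvanishing (NV)** for the coordinates in `W`: no nonzero integral polynomial in the
coordinates `t_k = tt (c k) (x k)`, `k ∈ W`, of degrees `≤ C n_k` and coefficients
`≤ exp (C ∑ n_k)` vanishes together with all its derivatives of weight `≤ 1`. -/
def NV {ι J : Type} (𝒰 : Ultrafilter J) (P : J → Pt ι) (W : Finset ι) : Prop :=
  ∀ (c : ι → Fin 3) (C q : ℝ), 1 ≤ q → ∀ᶠ j in (𝒰 : Filter J),
    ∀ F : MvPolynomial {k // k ∈ W} ℤ, F ≠ 0 →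
      (∀ k, (F.degreeOf k : ℝ) ≤ C * (P j).n W q k) →
      (∀ m, |((F.coeff m : ℤ) : ℝ)| ≤ exp (C * ∑ k : {k // k ∈ W}, ((P j).n W q k : ℝ))) →
      ∃ m : {k // k ∈ W} →₀ ℕ, ∑ k, (m k : ℝ) / (P j).n W q k ≤ 1 ∧
        (tay (fun k : {k // k ∈ W} => tt (c k) ((P j).x k)) F).coeff m ≠ 0

end Pool.Agent.LAll
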