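import Pool.Agent.LAll.ArchTypes

set_option autoImplicit false

/-! UV07. At most infinite places the logarithms of the bounded coordinates are near one of finitely
many subspaces of dimension at most `b - 1`. -/

namespace Pool.Agent.LAll

open Filter Topology Module

variable {ι : Type} [Fintype ι] [DecidableEq ι] {J : Type}

/-- **Approximate solutions are near solutions.** `T = s ∘ T` on the range: take a linear map
`s : (α → ℝ) → F` with `T ∘ s ∘ T = T` (`LinearMap.exists_rightInverse_of_surjective` for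
`T.rangeRestrict`, extended from the range to `α → ℝ` by `LinearMap.exists_extend`), it is bounded
(`LinearMap.toContinuousLinearMap`, `ContinuousLinearMap.le_opNorm`): `f' = f - s (T f)`. -/
theorem near_ker {F : Type} [NormedAddCommGroup F] [NormedSpace ℝ F] [FiniteDimensional ℝ F]
    {α : Type} [Fintype α] (T : F →ₗ[ℝ] (α → ℝ)) :
    ∃ C : ℝ, 0 ≤ C ∧ ∀ f : F, ∃ f' ∈ LinearMap.ker T, ‖f - f'‖ ≤ C * ‖T f‖ := by
  obtain ⟨g, hg⟩ := LinearMap.exists_rightInverse_of_surjective T.rangeRestrict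
    (LinearMap.range_rangeRestrict T)
  have hg' : ∀ y, T.rangeRestrict (g y) = y := fun y => by
    exact LinearMap.congr_fun hg y
  refine ⟨‖LinearMap.toContinuousLinearMap g‖, ContinuousLinearMap.opNorm_nonneg _,
    fun f => ?_⟩
  refine ⟨f - g (T.rangeRestrict f), ?_, ?_⟩
  · rw [LinearMap.mem_ker, map_sub]
    have h1 : T (g (T.rangeRestrict f)) = ((T.rangeRestrict (g (T.rangeRestrict f)) :
        LinearMap.range T) : α → ℝ) := rfl
    rw [h1, hg']
    simp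
  · rw [sub_sub_cancel]
    exact (LinearMap.toContinuousLinearMap g).le_opNorm (T.rangeRestrict f)

/-- Restriction to the coordinates in `M`. -/
private def ns_res (M : Finset ι) : E ι →ₗ[ℝ] E ι where
  toFun f := fun k => if k ∈ M then f k else 0
  map_add' f g := by
    funext k
    by_cases h : k ∈ M <;> simp [h]
  map_smul' r f := by
    funext k
    by_cases h : k ∈ M <;> simp [h]

omit [Fintype ι] in
private theorem ns_res_mem (M : Finset ι) (f : E ι) : ns_res M f ∈ supp M := by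
  intro k hk
  simp [ns_res, hk]

omit [Fintype ι] in
private theorem ns_res_apply (M : Finset ι) (f : E ι) {k : ι} (hk : k ∈ M) :
    ns_res M f k = f k := by
  simp [ns_res, hk]

/-- The pairing with finitely many vectors. -/
private def ns_T {n : ℕ} (M : Finset ι) (q : Fin n → E ι) : (supp M : Submodule ℝ (E ι)) →ₗ[ℝ]
    (Fin n → ℝ) where
  toFun f := fun a => ∑ k ∈ M, ∑ i, q a k i * (f : E ι) k i
  map_add' f g := by
    funext a
    simp only [Submodule.coe_add, Pi.add_apply, mul_add, Finset.sum_add_distrib]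
  map_smul' r f := by
    funext a
    simp only [Submodule.coe_smul, Pi.smul_apply, smul_eq_mul, RingHom.id_apply,
      Finset.mul_sum, mul_left_comm]

omit [Fintype ι] [DecidableEq ι] in
private theorem ns_T_apply {n : ℕ} (M : Finset ι) (q : Fin n → E ι)
    (f : (supp M : Submodule ℝ (E ι))) (a : Fin n) :
    ns_T M q f a = ∑ k ∈ M, ∑ i, q a k i * (f : E ι) k i := rfl

omit [DecidableEq ι] in
private theorem ns_abs_le_norm (f : E ι) (k : ι) (i : Fin 2) : |f k i| ≤ ‖f‖ :=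
  (norm_le_pi_norm (f k) i).trans (norm_le_pi_norm f k)

omit [Fintype ι] in
private theorem ns_T_surj {n : ℕ} (M : Finset ι) (q : Fin n → E ι) (hq : ∀ a, q a ∈ supp M)
    (hli : LinearIndependent ℝ q) : Function.Surjective (ns_T M q) := by
  have hmem : ∀ r : Fin n → ℝ, ∑ a, r a • q a ∈ (supp M : Submodule ℝ (E ι)) := fun r =>
    Submodule.sum_mem _ fun a _ => Submodule.smul_mem _ _ (hq a)
  let S : (Fin n → ℝ) →ₗ[ℝ] (supp M : Submodule ℝ (E ι)) :=
    { toFun := fun r => ⟨∑ a, r a • q a, hmem r⟩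
      map_add' := fun r s => by
        apply Subtype.ext
        simp only [Pi.add_apply, add_smul, Finset.sum_add_distrib, Submodule.coe_add]
      map_smul' := fun t r => by
        apply Subtype.ext
        simp only [Pi.smul_apply, smul_eq_mul, RingHom.id_apply, Submodule.coe_smul,
          Finset.smul_sum, mul_smul] }
  have hS : ∀ r, ((S r : (supp M : Submodule ℝ (E ι))) : E ι) = ∑ a, r a • q a := fun r => rfl
  have hinj : Function.Injective ((ns_T M q).comp S) := by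
    rw [injective_iff_map_eq_zero]
    intro r hr
    have h1 : ∀ a, ∑ k ∈ M, ∑ i, q a k i * ((S r : (supp M : Submodule ℝ (E ι))) : E ι) k i = 0 := by
      intro a
      have := congrFun hr a
      simpa [ns_T_apply] using this
    have h2 : ∑ k ∈ M, ∑ i, ((S r : (supp M : Submodule ℝ (E ι))) : E ι) k i *
        ((S r : (supp M : Submodule ℝ (E ι))) : E ι) k i = 0 := by
      have h3 : ∀ k i, ((S r : (supp M : Submodule ℝ (E ι))) : E ι) k i = ∑ a, r a * q a k i := by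
        intro k i
        rw [hS]
        simp [Finset.sum_apply]
      calc ∑ k ∈ M, ∑ i, ((S r : (supp M : Submodule ℝ (E ι))) : E ι) k i *
            ((S r : (supp M : Submodule ℝ (E ι))) : E ι) k i
          = ∑ k ∈ M, ∑ i, ∑ a, r a * (q a k i *
            ((S r : (supp M : Submodule ℝ (E ι))) : E ι) k i) := by
              refine Finset.sum_congr rfl fun k _ => Finset.sum_congr rfl fun i _ => ?_
              conv_lhs => rw [h3 k i]
              rw [Finset.sum_mul]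
              refine Finset.sum_congr rfl fun a _ => ?_
              rw [← h3 k i]
              ring
        _ = ∑ a, r a * ∑ k ∈ M, ∑ i, q a k i *
            ((S r : (supp M : Submodule ℝ (E ι))) : E ι) k i := by
              have h4 : ∀ k, ∑ i, ∑ a, r a * (q a k i *
                  ((S r : (supp M : Submodule ℝ (E ι))) : E ι) k i) =
                  ∑ a, ∑ i, r a * (q a k i *
                  ((S r : (supp M : Submodule ℝ (E ι))) : E ι) k i) := fun k =>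
                Finset.sum_comm
              rw [Finset.sum_congr rfl fun k _ => h4 k, Finset.sum_comm]
              refine Finset.sum_congr rfl fun a _ => ?_
              rw [Finset.mul_sum]
              refine Finset.sum_congr rfl fun k _ => ?_
              rw [Finset.mul_sum]
        _ = 0 := by
              refine Finset.sum_eq_zero fun a _ => ?_
              rw [h1 a, mul_zero]
    have h5 : ((S r : (supp M : Submodule ℝ (E ι))) : E ι) = 0 := by
      funext k i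
      by_cases hk : k ∈ M
      · have h6 := (Finset.sum_eq_zero_iff_of_nonneg (fun k _ =>
          Finset.sum_nonneg fun i _ => mul_self_nonneg _)).1 h2 k hk
        have h7 := (Finset.sum_eq_zero_iff_of_nonneg (fun i _ => mul_self_nonneg _)).1 h6 i
          (Finset.mem_univ i)
        exact mul_self_eq_zero.1 h7
      · have := (S r).2 k hk
        rw [this]
        rfl
    rw [hS] at h5
    funext a
    exact Fintype.linearIndependent_iff.1 hli r h5 a
  have hsurj : Function.Surjective ((ns_T M q).comp S) :=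
    LinearMap.injective_iff_surjective.1 hinj
  intro y
  obtain ⟨r, hr⟩ := hsurj y
  exact ⟨S r, hr⟩

/-- **One type.** Let `Q ≤ supp M` be a space of exponent vectors. There are a space `A ≤ supp B` with
`finrank A ≤ 2 |M| - finrank Q`, finitely many vectors of `Q` and a constant `C` such that every `f` in
`supp M` which pairs to at most `ε` with these vectors of `Q` is, on the coordinates in `B`, at distance
at most `C ε` from `A`.

Proof. Let `q : Fin n → E ι` be a basis of `Q` and `T : supp M → (Fin n → ℝ)`,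
`T f = (∑ k, ∑ i, q a k i * f k i)_a`. `ker T` has dimension `2 |M| - n` (the forms are independent on
`supp M`, as `q` is independent in `supp M`: if `∑ r_a q_a` pairs to zero with all of `supp M` then it is
`0`, pair it with itself), and `A` is its image under the restriction to `B` (`f ↦` `f` on `B`, `0`
outside), so `finrank A ≤ finrank (ker T)` (`Submodule.finrank_map_le`). `near_ker`. The sup norm bounds
every entry. -/
theorem annih (M B : Finset ι) (hB : B ⊆ M) (Q : Submodule ℝ (E ι)) (hQ : Q ≤ supp M) :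
    ∃ (A : Submodule ℝ (E ι)) (C : ℝ) (q : Finset (E ι)), A ≤ supp B ∧
      finrank ℝ A + finrank ℝ Q ≤ 2 * M.card ∧ 0 < C ∧ (∀ y ∈ q, y ∈ Q) ∧
      ∀ (f : E ι) (ε : ℝ), 0 ≤ ε → (∀ y ∈ q, |∑ k ∈ M, ∑ i, y k i * f k i| ≤ ε) →
        ∃ a ∈ A, ∀ k ∈ B, ∀ i, |f k i - a k i| ≤ C * ε := by
  classical
  let n := finrank ℝ Q
  let b : Basis (Fin n) ℝ Q := finBasis ℝ Q
  let q : Fin n → E ι := fun a => (b a : E ι)
  have hqQ : ∀ a, q a ∈ Q := fun a => (b a).2
  have hli : LinearIndependent ℝ q :=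
    b.linearIndependent.map' Q.subtype (Submodule.ker_subtype Q)
  have hsurj := ns_T_surj M q (fun a => hQ (hqQ a)) hli
  have hker : finrank ℝ (LinearMap.ker (ns_T M q)) + n = 2 * M.card := by
    have h1 := LinearMap.finrank_range_add_finrank_ker (ns_T M q)
    rw [LinearMap.range_eq_top.2 hsurj, finrank_top, finrank_supp] at h1
    have h2 : finrank ℝ (Fin n → ℝ) = n := by simp
    omega
  obtain ⟨C, hC0, hC⟩ := near_ker (ns_T M q)
  let φ : (supp M : Submodule ℝ (E ι)) →ₗ[ℝ] E ι := (ns_res B).comp (supp M).subtype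
  refine ⟨(LinearMap.ker (ns_T M q)).map φ, C + 1, Finset.univ.image q, ?_, ?_, by linarith,
    ?_, ?_⟩
  · rintro _ ⟨f, _, rfl⟩
    exact ns_res_mem B _
  · have h1 := Submodule.finrank_map_le φ (LinearMap.ker (ns_T M q))
    have h2 : finrank ℝ Q = n := rfl
    omega
  · intro y hy
    obtain ⟨a, _, rfl⟩ := Finset.mem_image.1 hy
    exact hqQ a
  · intro f ε hε hf
    let fM : (supp M : Submodule ℝ (E ι)) := ⟨ns_res M f, ns_res_mem M f⟩
    have hT : ‖ns_T M q fM‖ ≤ ε := by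
      rw [pi_norm_le_iff_of_nonneg hε]
      intro a
      rw [Real.norm_eq_abs, ns_T_apply]
      have h1 := hf (q a) (Finset.mem_image_of_mem _ (Finset.mem_univ a))
      have h2 : ∑ k ∈ M, ∑ i, q a k i * (fM : E ι) k i = ∑ k ∈ M, ∑ i, q a k i * f k i := by
        refine Finset.sum_congr rfl fun k hk => ?_
        refine Finset.sum_congr rfl fun i _ => ?_
        have : (fM : E ι) k = f k := ns_res_apply M f hk
        rw [this]
      rw [h2]
      exact h1
    obtain ⟨f', hf', hn⟩ := hC fM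
    refine ⟨φ f', Submodule.mem_map_of_mem hf', fun k hk i => ?_⟩
    have h3 : φ f' k = (f' : E ι) k := ns_res_apply B _ hk
    have h4 : (fM : E ι) k = f k := ns_res_apply M f (hB hk)
    have h5 : |((fM - f' : (supp M : Submodule ℝ (E ι))) : E ι) k i| ≤ ‖fM - f'‖ :=
      ns_abs_le_norm _ k i
    rw [Submodule.coe_sub, Pi.sub_apply, Pi.sub_apply, h4] at h5
    rw [h3]
    calc |f k i - (f' : E ι) k i| ≤ ‖fM - f'‖ := h5
      _ ≤ C * ‖ns_T M q fM‖ := hn
      _ ≤ C * ε := mul_le_mul_of_nonneg_left hT hC0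
      _ ≤ (C + 1) * ε := by nlinarith

omit [Fintype ι] [DecidableEq ι] in
private theorem ns_mass_mono (C : Cfg ι) (p q : C.V → Prop)
    (h : ∀ v, 0 < C.w v → p v → q v) : C.mass C.w p ≤ C.mass C.w q := by
  classical
  unfold Cfg.mass
  refine Finset.sum_le_sum fun v _ => ?_
  rcases eq_or_lt_of_le (C.w0 v) with h0 | h0
  · rw [← h0]
    simp
  · by_cases h1 : p v
    · rw [if_pos h1, if_pos (h v h0 h1)]
    · rw [if_neg h1]
      split_ifs
      · exact h0.le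
      · exact le_rfl

/-- The data for one type. -/
private theorem ns_one_type {𝒰 : Ultrafilter J} {𝒞 : J → Cfg ι} {W₀ : Finset ι}
    (hT : Tame 𝒰 𝒞 W₀) (W B : Finset ι) (hWB : Disjoint W B)
    (hIa : finrank ℝ (ker 𝒰 𝒞 ⊓ supp W : Submodule ℝ (E ι)) ≤ W.card)
    (hIb : ∀ (S : Finset ι) (c : ι → Fin 3), S ⊆ W → S.Nonempty → Charged 𝒰 𝒞 W S c →
      finrank ℝ (ker 𝒰 𝒞 ⊓ supp W ⊓ ZZ S c : Submodule ℝ (E ι)) ≤ (W \ S).card)
    (hker : W.card + B.card + 1 ≤ finrank ℝ (ker 𝒰 𝒞 ⊓ supp (W ∪ B) : Submodule ℝ (E ι)))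
    (S : Finset ι) (c : ι → Fin 3) (hS : S ⊆ W) (hc : ArchCharged 𝒰 𝒞 W S c) :
    ∃ (A : Submodule ℝ (E ι)) (C : ℝ) (q : Finset (E ι)) (r z : E ι → E ι),
      (A ≤ supp B ∧ finrank ℝ A + 1 ≤ B.card) ∧ 0 < C ∧
      (∀ y ∈ q, y = r y + z y ∧ r y ∈ ker 𝒰 𝒞 ∧ r y ∈ supp (W ∪ B) ∧ z y ∈ supp W ∧
        z y ∈ ZZ S c) ∧
      ∀ (f : E ι) (ε : ℝ), 0 ≤ ε → (∀ y ∈ q, |∑ k ∈ W ∪ B, ∑ i, y k i * f k i| ≤ ε) →
        ∃ a ∈ A, ∀ k ∈ B, ∀ i, |f k i - a k i| ≤ C * ε := by
  classical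
  let K : Submodule ℝ (E ι) := ker 𝒰 𝒞 ⊓ supp (W ∪ B)
  let Z : Submodule ℝ (E ι) := supp W ⊓ ZZ S c
  have hKZ : finrank ℝ (K ⊓ Z : Submodule ℝ (E ι)) ≤ (W \ S).card := by
    rcases S.eq_empty_or_nonempty with h0 | h0
    · have h1 : (K ⊓ Z : Submodule ℝ (E ι)) ≤ ker 𝒰 𝒞 ⊓ supp W := by
        intro y hy
        exact ⟨hy.1.1, hy.2.1⟩
      have h2 := (Submodule.finrank_mono h1).trans hIa
      rw [h0, Finset.sdiff_empty]
      exact h2
    · have h1 : (K ⊓ Z : Submodule ℝ (E ι)) ≤ ker 𝒰 𝒞 ⊓ supp W ⊓ ZZ S c := by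
        intro y hy
        exact ⟨⟨hy.1.1, hy.2.1⟩, hy.2.2⟩
      exact (Submodule.finrank_mono h1).trans
        (hIb S c hS h0 (charged_of_arch hT W S c hS h0 hc))
  have hZ := finrank_supp_ZZ W S c hS
  have hsum := Submodule.finrank_sup_add_finrank_inf_eq K Z
  have hcard : (W \ S).card + S.card = W.card := Finset.card_sdiff_add_card_eq_card hS
  have hQle : K ⊔ Z ≤ supp (W ∪ B) := by
    refine sup_le inf_le_right ?_
    exact inf_le_left.trans (supp_mono Finset.subset_union_left)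
  obtain ⟨A, C, q, hA, hfin, hC, hq, hf⟩ := annih (W ∪ B) B Finset.subset_union_right (K ⊔ Z) hQle
  have hdec : ∀ y : E ι, ∃ r z : E ι, y ∈ q → y = r + z ∧ r ∈ ker 𝒰 𝒞 ∧ r ∈ supp (W ∪ B) ∧
      z ∈ supp W ∧ z ∈ ZZ S c := by
    intro y
    by_cases hy : y ∈ q
    · obtain ⟨r, hr, z, hz, hrz⟩ := Submodule.mem_sup.1 (hq y hy)
      exact ⟨r, z, fun _ => ⟨hrz.symm, hr.1, hr.2, hz.1, hz.2⟩⟩
    · exact ⟨0, 0, fun h => absurd h hy⟩
  choose r z hrz using hdec
  refine ⟨A, C, q, r, z, ⟨hA, ?_⟩, hC, fun y hy => hrz y hy, hf⟩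
  have hM : (W ∪ B).card = W.card + B.card := Finset.card_union_of_disjoint hWB
  have hK' : W.card + B.card + 1 ≤ finrank ℝ K := hker
  have hZ' : finrank ℝ Z + S.card = 2 * W.card := hZ
  omega

/-- The pairing of a vector free of the active small coordinates. -/
private theorem ns_pair_z (C : Cfg ι) (v : C.V) (W S : Finset ι) (c : ι → Fin 3) (z : E ι)
    (hz : z ∈ supp W) (hzz : z ∈ ZZ S c) (hcv : ∀ k ∈ S, C.c v k = c k) (Y δ : ℝ) (hY0 : 0 ≤ Y)
    (hY : ∀ k i, |z k i| ≤ Y) (hδ : 0 ≤ δ) (hA : ∀ k ∈ W, k ∉ S → C.A v k ≤ δ * C.w v) :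
    |C.pair v z| ≤ C.w v * (2 * Y * ∑ k ∈ W, C.e k + W.card * (2 * Y * δ)) := by
  have h1 : C.pair v z = ∑ k ∈ W, ∑ i, z k i * C.L v k i := by
    unfold Cfg.pair
    symm
    refine Finset.sum_subset (Finset.subset_univ W) fun k _ hk => ?_
    rw [hz k hk]
    simp
  have h2 : ∀ k ∈ W, |∑ i, z k i * C.L v k i| ≤
      C.w v * (2 * Y * C.e k) + C.w v * (2 * Y * δ) := by
    intro k hk
    have h3 := C.pair_local v k (z k) Y (hY k)
    have hw := C.w0 v
    have hp : 0 ≤ C.w v * (2 * Y * δ) := by positivity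
    by_cases hkS : k ∈ S
    · rw [hcv k hkS, hzz k hkS, mul_zero, add_zero] at h3
      calc _ ≤ 2 * Y * (C.w v * C.e k) := h3
        _ ≤ _ := by linarith
    · have h4 := abs_al_le (C.c v k) (z k) Y (hY k)
      have h5 := hA k hk hkS
      have h6 : |C.A v k * al (C.c v k) (z k)| ≤ C.w v * (2 * Y * δ) := by
        rw [abs_mul, abs_of_nonneg (C.A0 v k)]
        calc C.A v k * |al (C.c v k) (z k)| ≤ (δ * C.w v) * (2 * Y) :=
              mul_le_mul h5 h4 (abs_nonneg _) (by positivity)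
          _ = _ := by ring
      have h7 : ∑ i, z k i * C.L v k i = (∑ i, z k i * C.L v k i +
          C.A v k * al (C.c v k) (z k)) - C.A v k * al (C.c v k) (z k) := by ring
      rw [h7]
      refine (abs_sub _ _).trans ?_
      linarith
  rw [h1]
  refine (Finset.abs_sum_le_sum_abs _ _).trans ((Finset.sum_le_sum h2).trans (le_of_eq ?_))
  rw [Finset.sum_add_distrib, Finset.sum_const, nsmul_eq_mul, ← Finset.mul_sum,
    ← Finset.mul_sum]
  ring

omit [DecidableEq ι] in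
/-- Vectors of height zero pair to little at most places. -/
private theorem ns_ker_mass {𝒰 : Ultrafilter J} {𝒞 : J → Cfg ι} (R : Finset (E ι))
    (hR : ∀ r ∈ R, r ∈ ker 𝒰 𝒞) (κ η : ℝ) (hκ : 0 < κ) (hη : 0 < η) :
    ∀ᶠ j in (𝒰 : Filter J), (𝒞 j).mass (𝒞 j).w (fun v => ∃ r ∈ R,
      κ * (𝒞 j).w v < |(𝒞 j).pair v r|) ≤ η := by
  classical
  have h1 : Tendsto (fun j => ∑ r ∈ R, (𝒞 j).N r) (𝒰 : Filter J) (𝓝 (∑ _r ∈ R, 0)) :=
    tendsto_finsetSum _ fun r hr => hR r hr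
  rw [Finset.sum_const_zero] at h1
  have h2 : ∀ᶠ j in (𝒰 : Filter J), ∑ r ∈ R, (𝒞 j).N r < κ * η :=
    h1.eventually_lt_const (by positivity)
  filter_upwards [h2] with j hj
  have h3 := (𝒞 j).mass_exists_le (𝒞 j).w R (fun r v => κ * (𝒞 j).w v < |(𝒞 j).pair v r|)
    (𝒞 j).w0
  have h4 : ∀ r ∈ R, κ * (𝒞 j).mass (𝒞 j).w (fun v => κ * (𝒞 j).w v < |(𝒞 j).pair v r|) ≤
      (𝒞 j).N r := fun r _ =>
    (𝒞 j).markov (𝒞 j).w (fun v => |(𝒞 j).pair v r|) _ κ (fun v => abs_nonneg _)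
      fun v hv => hv.le
  have h5 := Finset.sum_le_sum h4
  rw [← Finset.mul_sum] at h5
  have h6 : κ * ∑ r ∈ R, (𝒞 j).mass (𝒞 j).w (fun v => κ * (𝒞 j).w v < |(𝒞 j).pair v r|) ≤
      κ * η := h5.trans hj.le
  exact h3.trans (le_of_mul_le_mul_left h6 hκ)

/-- **Near subspaces.** `W` unbounded coordinates, `B` further coordinates (bounded ones),
`finrank (ker ⊓ supp (W ∪ B)) ≥ |W| + |B| + 1`.

Proof. For every arch-charged type `(S, c)`, `S ⊆ W`, let
`Q = (ker ⊓ supp (W ∪ B)) ⊔ (supp W ⊓ ZZ S c) ≤ supp (W ∪ B)`. The intersection of the two spaces is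
`ker ⊓ supp W ⊓ ZZ S c` (as `supp W ≤ supp (W ∪ B)`), of dimension `≤ |W \ S|` by `hIb` if `S ≠ ∅`
(`charged_of_arch`), and of dimension `≤ |W|` by `hIa` if `S = ∅`. So
`finrank Q ≥ (|W| + |B| + 1) + (2 |W| - |S|) - (|W| - |S|) = 2 |W| + |B| + 1` (`finrank_supp_ZZ`), and `annih` with
`M = W ∪ B` (disjoint) gives `A_(S,c) ≤ supp B` with
`finrank A ≤ 2 |W| + 2 |B| - (2 |W| + |B| + 1) = |B| - 1`, a constant `C_(S,c)` and vectors `q_(S,c)`. `𝒜` is
the (finite) set of all these `A_(S,c)` (finitely many pairs).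
Write each vector of each `q_(S,c)` as `y = r + z` with `r ∈ ker ⊓ supp (W ∪ B)`,
`z ∈ supp W ⊓ ZZ S c`; let `Y` bound all entries of all these finitely many vectors. Let `ε' > 0` be
small: `C_(S,c) ε' ≤ ε`. For most `j`, by Markov (`Cfg.markov` with `g = |pair v r|`, `N r → 0`) the places
with `|pair v r| > (ε' / 2) w v` for one of the `r` have `w`-mass `≤ η / 2`; by `arch_types` with
`δ₀ = ε' / (8 (Y + 1) (|W| + 1))` and `η / 2` all the other places up to `w`-mass `η / 2` have an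
arch-charged type `(S, c)` with `c v k = c k` on `S` and `A v k ≤ δ₀ w v` on `W \ S`. At these places
`|pair v z| ≤ ∑_{k ∈ W \ S} A v k 2 Y + 2 Y w v ∑_{k ∈ W} e k ≤ (ε' / 2) w v` for most `j`
(`Cfg.pair_local`, `abs_al_le`, `e k → 0`), so `|pair v y| ≤ ε' w v` for `y ∈ q_(S,c)`. If `w v > 0` apply
the property of `annih` to `f = (w v)⁻¹ • L v` and `ε'`, and multiply by `w v`. -/
theorem near_subspaces {𝒰 : Ultrafilter J} {𝒞 : J → Cfg ι} {W₀ : Finset ι} (hT : Tame 𝒰 𝒞 W₀)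
    (W B : Finset ι) (hW : W ⊆ W₀) (hWB : Disjoint W B)
    (hIa : finrank ℝ (ker 𝒰 𝒞 ⊓ supp W : Submodule ℝ (E ι)) ≤ W.card)
    (hIb : ∀ (S : Finset ι) (c : ι → Fin 3), S ⊆ W → S.Nonempty → Charged 𝒰 𝒞 W S c →
      finrank ℝ (ker 𝒰 𝒞 ⊓ supp W ⊓ ZZ S c : Submodule ℝ (E ι)) ≤ (W \ S).card)
    (hker : W.card + B.card + 1 ≤ finrank ℝ (ker 𝒰 𝒞 ⊓ supp (W ∪ B) : Submodule ℝ (E ι))) :
    ∃ 𝒜 : Finset (Submodule ℝ (E ι)), (∀ A ∈ 𝒜, A ≤ supp B ∧ finrank ℝ A + 1 ≤ B.card) ∧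
      ∀ ε η : ℝ, 0 < ε → 0 < η → ∀ᶠ j in (𝒰 : Filter J),
        1 - η ≤ (𝒞 j).mass (𝒞 j).w (fun v => ∃ A ∈ 𝒜, ∃ a ∈ A, ∀ k ∈ B, ∀ i,
          |(𝒞 j).L v k i - (𝒞 j).w v * a k i| ≤ ε * (𝒞 j).w v) := by
  classical
  have hall : ∀ P : Finset ι × (ι → Fin 3), ∃ (A : Submodule ℝ (E ι)) (C : ℝ)
      (q : Finset (E ι)) (r z : E ι → E ι), (P.1 ⊆ W ∧ ArchCharged 𝒰 𝒞 W P.1 P.2) →
      (A ≤ supp B ∧ finrank ℝ A + 1 ≤ B.card) ∧ 0 < C ∧
      (∀ y ∈ q, y = r y + z y ∧ r y ∈ ker 𝒰 𝒞 ∧ r y ∈ supp (W ∪ B) ∧ z y ∈ supp W ∧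
        z y ∈ ZZ P.1 P.2) ∧
      ∀ (f : E ι) (ε : ℝ), 0 ≤ ε → (∀ y ∈ q, |∑ k ∈ W ∪ B, ∑ i, y k i * f k i| ≤ ε) →
        ∃ a ∈ A, ∀ k ∈ B, ∀ i, |f k i - a k i| ≤ C * ε := by
    intro P
    by_cases hP : P.1 ⊆ W ∧ ArchCharged 𝒰 𝒞 W P.1 P.2
    · obtain ⟨A, C, q, r, z, h⟩ := ns_one_type hT W B hWB hIa hIb hker P.1 P.2 hP.1 hP.2
      exact ⟨A, C, q, r, z, fun _ => h⟩
    · exact ⟨⊥, 0, ∅, id, id, fun h => absurd h hP⟩
  choose A C q r z hdat using hall
  let PP : Finset (Finset ι × (ι → Fin 3)) :=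
    Finset.univ.filter fun P => P.1 ⊆ W ∧ ArchCharged 𝒰 𝒞 W P.1 P.2
  have hPP : ∀ P, P ∈ PP ↔ (P.1 ⊆ W ∧ ArchCharged 𝒰 𝒞 W P.1 P.2) := fun P => by
    simp [PP]
  refine ⟨PP.image A, ?_, ?_⟩
  · intro A' hA'
    obtain ⟨P, hP, rfl⟩ := Finset.mem_image.1 hA'
    exact (hdat P ((hPP P).1 hP)).1
  intro ε η hε hη
  let Cm : ℝ := 1 + ∑ P ∈ PP, C P
  have hCpos : ∀ P ∈ PP, 0 < C P := fun P hP => (hdat P ((hPP P).1 hP)).2.1
  have hCm : 0 < Cm := by
    have : 0 ≤ ∑ P ∈ PP, C P := Finset.sum_nonneg fun P hP => (hCpos P hP).le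
    simp only [Cm]
    linarith
  have hCle : ∀ P ∈ PP, C P ≤ Cm := fun P hP => by
    have := Finset.single_le_sum (f := C) (fun P hP => (hCpos P hP).le) hP
    simp only [Cm]
    linarith
  let ε' : ℝ := ε / Cm
  have hε' : 0 < ε' := div_pos hε hCm
  have hCε : ∀ P ∈ PP, C P * ε' ≤ ε := fun P hP => by
    calc C P * ε' ≤ Cm * ε' := mul_le_mul_of_nonneg_right (hCle P hP) hε'.le
      _ = ε := by
        simp only [ε']
        field_simp
  let Y : ℝ := ∑ P ∈ PP, ∑ y ∈ q P, ‖z P y‖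
  have hY0 : 0 ≤ Y := Finset.sum_nonneg fun P _ => Finset.sum_nonneg fun y _ => norm_nonneg _
  have hY : ∀ P ∈ PP, ∀ y ∈ q P, ∀ k i, |z P y k i| ≤ Y := by
    intro P hP y hy k i
    refine (ns_abs_le_norm (z P y) k i).trans ?_
    refine (Finset.single_le_sum (f := fun y => ‖z P y‖) (fun y _ => norm_nonneg _) hy).trans ?_
    exact Finset.single_le_sum (f := fun P => ∑ y ∈ q P, ‖z P y‖)
      (fun P _ => Finset.sum_nonneg fun y _ => norm_nonneg _) hP
  let δ₀ : ℝ := ε' / (8 * (Y + 1) * (W.card + 1))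
  have hδ₀ : 0 < δ₀ := by positivity
  have hδbound : (W.card : ℝ) * (2 * Y * δ₀) ≤ ε' / 4 := by
    have h1 : (W.card : ℝ) * (2 * Y * δ₀) = ε' / 4 * (Y / (Y + 1)) *
        ((W.card : ℝ) / (W.card + 1)) := by
      simp only [δ₀]
      have : (0 : ℝ) < (W.card : ℝ) + 1 := by positivity
      have : (0 : ℝ) < Y + 1 := by positivity
      field_simp
      ring
    rw [h1]
    have h2 : Y / (Y + 1) ≤ 1 := by
      rw [div_le_one (by positivity)]
      linarith
    have h3 : (W.card : ℝ) / (W.card + 1) ≤ 1 := by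
      rw [div_le_one (by positivity)]
      linarith
    have h4 : 0 ≤ Y / (Y + 1) := by positivity
    have h5 : 0 ≤ (W.card : ℝ) / (W.card + 1) := by positivity
    calc ε' / 4 * (Y / (Y + 1)) * ((W.card : ℝ) / (W.card + 1))
        ≤ ε' / 4 * 1 * 1 := by
          apply mul_le_mul _ h3 h5 (by positivity)
          exact mul_le_mul_of_nonneg_left h2 (by positivity)
      _ = ε' / 4 := by ring
  let 𝓡 : Finset (E ι) := PP.biUnion fun P => (q P).image (r P)
  have h𝓡 : ∀ x ∈ 𝓡, x ∈ ker 𝒰 𝒞 := by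
    intro x hx
    obtain ⟨P, hP, hx⟩ := Finset.mem_biUnion.1 hx
    obtain ⟨y, hy, rfl⟩ := Finset.mem_image.1 hx
    exact ((hdat P ((hPP P).1 hP)).2.2.1 y hy).2.1
  have hev1 := ns_ker_mass 𝓡 h𝓡 (ε' / 2) (η / 2) (by positivity) (by positivity)
  have hev2 := arch_types 𝒰 𝒞 W δ₀ (η / 2) hδ₀ (by positivity)
  have hev3 : ∀ᶠ j in (𝒰 : Filter J), 2 * Y * ∑ k ∈ W, (𝒞 j).e k < ε' / 4 := by
    have h1 : Tendsto (fun j => 2 * Y * ∑ k ∈ W, (𝒞 j).e k) (𝒰 : Filter J)
        (𝓝 (2 * Y * ∑ _k ∈ W, (0 : ℝ))) :=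
      (tendsto_finsetSum _ fun k hk => hT.err k (hW hk)).const_mul _
    rw [Finset.sum_const_zero, mul_zero] at h1
    exact h1.eventually_lt_const (by positivity)
  filter_upwards [hev1, hev2, hev3] with j hj1 hj2 hj3
  have hkey : (𝒞 j).mass (𝒞 j).w (fun v =>
      ∃ (S : Finset ι) (c : ι → Fin 3), S ⊆ W ∧ ArchCharged 𝒰 𝒞 W S c ∧
        (∀ k ∈ S, (𝒞 j).c v k = c k) ∧ ∀ k ∈ W, k ∉ S → (𝒞 j).A v k ≤ δ₀ * (𝒞 j).w v) ≤
      (𝒞 j).mass (𝒞 j).w (fun v => ∃ A' ∈ PP.image A, ∃ a ∈ A', ∀ k ∈ B, ∀ i,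
          |(𝒞 j).L v k i - (𝒞 j).w v * a k i| ≤ ε * (𝒞 j).w v) +
      (𝒞 j).mass (𝒞 j).w (fun v => ∃ r ∈ 𝓡, ε' / 2 * (𝒞 j).w v < |(𝒞 j).pair v r|) := by
    refine le_trans ?_ ((𝒞 j).mass_or_le (𝒞 j).w _ _ (𝒞 j).w0)
    refine ns_mass_mono (𝒞 j) _ _ fun v hv hSc => ?_
    obtain ⟨S, c, hS, hc, hcv, hAv⟩ := hSc
    by_cases hbad : ∃ r ∈ 𝓡, ε' / 2 * (𝒞 j).w v < |(𝒞 j).pair v r|
    · exact Or.inr hbad
    left
    push Not at hbad
    have hP : (S, c) ∈ PP := (hPP (S, c)).2 ⟨hS, hc⟩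
    obtain ⟨_, _, hyq, hfa⟩ := hdat (S, c) ⟨hS, hc⟩
    have hpair : ∀ y ∈ q (S, c), |(𝒞 j).pair v y| ≤ ε' * (𝒞 j).w v := by
      intro y hy
      obtain ⟨hy0, _, _, hzW, hzZ⟩ := hyq y hy
      have h1 : |(𝒞 j).pair v (r (S, c) y)| ≤ ε' / 2 * (𝒞 j).w v :=
        hbad _ (Finset.mem_biUnion.2 ⟨(S, c), hP, Finset.mem_image_of_mem _ hy⟩)
      have h2 := ns_pair_z (𝒞 j) v W S c (z (S, c) y) hzW hzZ hcv Y δ₀ hY0
        (hY (S, c) hP y hy) hδ₀.le hAv
      have h3 : |(𝒞 j).pair v (z (S, c) y)| ≤ ε' / 2 * (𝒞 j).w v := by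
        refine h2.trans ?_
        rw [mul_comm (ε' / 2)]
        exact mul_le_mul_of_nonneg_left (by linarith) hv.le
      rw [hy0, Cfg.pair_add]
      refine (abs_add_le _ _).trans ?_
      linarith
    let f : E ι := ((𝒞 j).w v)⁻¹ • (𝒞 j).L v
    have hf : ∀ y ∈ q (S, c), |∑ k ∈ W ∪ B, ∑ i, y k i * f k i| ≤ ε' := by
      intro y hy
      obtain ⟨hy0, _, hrs, hzW, _⟩ := hyq y hy
      have hysupp : y ∈ supp (W ∪ B) := by
        rw [hy0]
        exact Submodule.add_mem _ hrs (supp_mono Finset.subset_union_left hzW)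
      have h1 : ∑ k ∈ W ∪ B, ∑ i, y k i * f k i = ((𝒞 j).w v)⁻¹ * (𝒞 j).pair v y := by
        have h2 : ∑ k ∈ W ∪ B, ∑ i, y k i * f k i = ∑ k, ∑ i, y k i * f k i := by
          refine Finset.sum_subset (Finset.subset_univ _) fun k _ hk => ?_
          rw [hysupp k hk]
          simp
        rw [h2]
        unfold Cfg.pair
        rw [Finset.mul_sum]
        refine Finset.sum_congr rfl fun k _ => ?_
        rw [Finset.mul_sum]
        refine Finset.sum_congr rfl fun i _ => ?_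
        simp only [f, Pi.smul_apply, smul_eq_mul]
        ring
      rw [h1, abs_mul, abs_of_pos (inv_pos.2 hv)]
      calc ((𝒞 j).w v)⁻¹ * |(𝒞 j).pair v y| ≤ ((𝒞 j).w v)⁻¹ * (ε' * (𝒞 j).w v) :=
            mul_le_mul_of_nonneg_left (hpair y hy) (inv_pos.2 hv).le
        _ = ε' := by
            field_simp
    obtain ⟨a, ha, hab⟩ := hfa f ε' hε'.le hf
    refine ⟨A (S, c), Finset.mem_image_of_mem _ hP, a, ha, fun k hk i => ?_⟩
    have h1 := hab k hk i
    have h2 : (𝒞 j).L v k i - (𝒞 j).w v * a k i = (𝒞 j).w v * (f k i - a k i) := by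
      simp only [f, Pi.smul_apply, smul_eq_mul]
      field_simp
    rw [h2, abs_mul, abs_of_pos hv, mul_comm ε]
    exact mul_le_mul_of_nonneg_left (h1.trans (hCε (S, c) hP)) hv.le
  linarith

end Pool.Agent.LAll
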