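import Mathlib

set_option autoImplicit false

/-! UV31. Linearly independent real vectors, scaled, separate the integers. -/

namespace Pool.Agent.LAll

open Module

/-- **Scaling.** The linear map `e ↦ ∑ e_j o_j`, `(Fin κ → ℝ) → (W → ℝ)`, is injective, hence
antilipschitz (`LinearMap.exists_antilipschitzWith`): `‖∑ e_j o_j‖ ≥ c ‖e‖ ≥ c` for integral
`e ≠ 0` (sup norms); the sup norm is attained at some coordinate (for `W` empty the hypothesis
implies `κ = 0` and there is no `e ≠ 0`). `N = 2 / c`. -/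
theorem exists_sep {κ : ℕ} {W : Type} [Fintype W] (o : Fin κ → W → ℝ)
    (ho : LinearIndependent ℝ o) :
    ∃ N : ℝ, 0 < N ∧ ∀ e : Fin κ → ℤ, e ≠ 0 → ∃ k, 2 ≤ |∑ j, (e j : ℝ) * (N * o j k)| := by
  classical
  have hinj : Function.Injective (Fintype.linearCombination ℝ o) :=
    ho.fintypeLinearCombination_injective
  have hker : LinearMap.ker (Fintype.linearCombination ℝ o) = ⊥ := LinearMap.ker_eq_bot.2 hinj
  obtain ⟨K, hK, hA⟩ := LinearMap.exists_antilipschitzWith _ hker
  have hK' : (0 : ℝ) < K := by exact_mod_cast hK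
  refine ⟨2 * K, by positivity, fun e he => ?_⟩
  by_contra hcon
  push Not at hcon
  obtain ⟨j0, hj0⟩ : ∃ j, e j ≠ 0 := by
    by_contra h
    push Not at h
    exact he (funext h)
  set x : Fin κ → ℝ := fun j => (e j : ℝ) with hx
  have h1 : (1 : ℝ) ≤ ‖x‖ := by
    have h2 : ‖x j0‖ ≤ ‖x‖ := norm_le_pi_norm x j0
    refine le_trans ?_ h2
    rw [Real.norm_eq_abs, hx]
    show (1 : ℝ) ≤ |(e j0 : ℝ)|
    rw [← Int.cast_abs]
    exact_mod_cast Int.one_le_abs hj0
  have h2 : ‖x‖ ≤ K * ‖Fintype.linearCombination ℝ o x‖ := by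
    have h3 := hA.le_mul_dist x 0
    rwa [map_zero, dist_zero_right, dist_zero_right] at h3
  have h3 : ‖Fintype.linearCombination ℝ o x‖ < 1 / K := by
    rw [pi_norm_lt_iff (by positivity)]
    intro k
    have h4 := hcon k
    have h5 : ∑ j, (e j : ℝ) * (2 * K * o j k) = 2 * K * Fintype.linearCombination ℝ o x k := by
      rw [Fintype.linearCombination_apply, Finset.sum_apply, Finset.mul_sum]
      refine Finset.sum_congr rfl fun j _ => ?_
      rw [Pi.smul_apply, smul_eq_mul, hx]
      ring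
    rw [h5, abs_mul, abs_of_pos (by positivity : (0 : ℝ) < 2 * K)] at h4
    rw [Real.norm_eq_abs, lt_div_iff₀ hK']
    linarith
  have h6 : K * ‖Fintype.linearCombination ℝ o x‖ < K * (1 / K) :=
    mul_lt_mul_of_pos_left h3 hK'
  rw [mul_one_div_cancel hK'.ne'] at h6
  linarith

end Pool.Agent.LAll
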