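import Pool.Agent.LAll.OnePoint
import Pool.Agent.LAll.Core
import Pool.Agent.LAll.Sep

set_option autoImplicit false

/-! UV17. No concentration from the core and the nonvanishing property. -/

namespace Pool.Agent.LAll

open NumberField Height Real Module Filter Topology

variable {ι J : Type} [Fintype ι] [DecidableEq ι]

/-- **(III-2) No concentration.** Let `(S, c)` be charged for `W ⊆ Bᶜ` with `ε`, `μ`
(we may assume `ε ≤ 1`: `Typ` is monotone in `ε`), and `R` as in `NoConc` with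
`finrank R ≥ |W \ S| + 1 = κ`. Choose linearly independent `r_j ∈ R`, `j : Fin κ`. The order map
`O : R → ({k // k ∈ W} → ℝ)`, `O y k = be (c k) (y k)` for `k ∈ S`, `al (c k) (y k)` otherwise, is linear and
injective, so the `O r_j` are linearly independent; `exists_sep` gives `N`; replace `r_j` by `N r_j`.
Apply `core` with the index type `{k // k ∈ W}`, `S' = {k | (k : ι) ∈ S}`,
`α_jk = al (c k) (r_j k)`, `β_jk = be (c k) (r_j k)` (`α = 0` on `S'`, `r_j ∈ ZZ S c`), `C₀ = 32`,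
`μ' = ε μ / 2`: `C, δ, N₀`. Choose `δ' > 0` with `8 δ' |W| R₀ ≤ δ / 2` (`R₀` a bound of `∑ σ`,
`Tame.sig_le`), then `q ≥ 1`, `q ≥ N₀`, `8 Y |W| / q ≤ δ / 2`. For most `j`: `sum_L_le`, the mass of
`Typ W S c ε δ'` is `≥ μ`, `6 ∑ e k ≤ ε μ / 2`, `16 |W| ∑ e k ≤ δ / 2`, `N_j (r_j) ≤ δ / 2`,
`2 ∑ 1 / H k ≤ δ`, so `one_point` and `typ_places` give all the hypotheses of `core`
(`Finset.sum_ite` for the last sum), and its conclusion contradicts `NV` (for the same `c`, `C`, `q`). -/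
theorem noConc_of_NV {𝒰 : Ultrafilter J} {P : J → Pt ι} {B : Finset ι} (hB : Split 𝒰 P B)
    (W : Finset ι) (hW : W ⊆ Bᶜ) (hNV : NV 𝒰 P W) : NoConc 𝒰 (fun j => (P j).cfg B) W := by
  intro S c hSW hSne hch R hRker hRsupp hRZZ hRsep
  by_contra hlt
  have hκ : (W \ S).card + 1 ≤ finrank ℝ R := by omega
  clear hlt
  obtain ⟨ε₀, μ, hε₀, hμ, hch⟩ := hch
  obtain ⟨ε, hε, hε1, hεε⟩ : ∃ ε : ℝ, 0 < ε ∧ ε ≤ 1 ∧ ε ≤ ε₀ :=
    ⟨min ε₀ 1, lt_min hε₀ one_pos, min_le_right _ _, min_le_left _ _⟩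
  -- the linearly independent vectors
  obtain ⟨f, hf⟩ := exists_linearIndependent_of_le_finrank hκ
  let O : R →ₗ[ℝ] ({k // k ∈ W} → ℝ) := LinearMap.pi fun k =>
    (if (k : ι) ∈ S then be (c k) else al (c k)) ∘ₗ (LinearMap.proj (k : ι)) ∘ₗ R.subtype
  have hO : ∀ (y : R) (k : {k // k ∈ W}), O y k =
      if (k : ι) ∈ S then be (c k) ((y : E ι) k) else al (c k) ((y : E ι) k) := by
    intro y k
    show (if (k : ι) ∈ S then be (c k) else al (c k)) ((y : E ι) k) = _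
    split_ifs <;> rfl
  have hOker : LinearMap.ker O = ⊥ := by
    rw [LinearMap.ker_eq_bot']
    intro y hy
    apply Subtype.ext
    refine hRsep y y.2 (fun k hk => ?_) (fun k hk hkS => ?_)
    · have h := congrFun hy ⟨k, hSW hk⟩
      rw [hO, if_pos hk] at h
      exact h
    · have h := congrFun hy ⟨k, hk⟩
      rw [hO, if_neg hkS] at h
      exact h
  have hOf := hf.map' O hOker
  obtain ⟨N, hN, hsep⟩ := exists_sep (O ∘ f) hOf
  -- the vectors after scaling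
  let r : Fin ((W \ S).card + 1) → E ι := fun j => N • (f j : E ι)
  have hrR : ∀ j, r j ∈ R := fun j => R.smul_mem N (f j).2
  let S' : Finset {k // k ∈ W} := Finset.univ.filter fun k => (k : ι) ∈ S
  have hmS' : ∀ k : {k // k ∈ W}, k ∈ S' ↔ (k : ι) ∈ S := fun k => by simp [S']
  have hS'ne : S'.Nonempty := by
    obtain ⟨k, hk⟩ := hSne
    exact ⟨⟨k, hSW hk⟩, (hmS' _).2 hk⟩
  have hS'c : S'ᶜ.card + 1 = (W \ S).card + 1 := by
    congr 1
    refine Finset.card_bij (fun k _ => (k : ι)) ?_ ?_ ?_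
    · intro k hk
      rw [Finset.mem_compl, hmS'] at hk
      exact Finset.mem_sdiff.2 ⟨k.2, hk⟩
    · intro a _ b _ h
      exact Subtype.ext h
    · intro k hk
      rw [Finset.mem_sdiff] at hk
      exact ⟨⟨k, hk.1⟩, by rw [Finset.mem_compl, hmS']; exact hk.2, rfl⟩
  obtain ⟨C, δ, N₀, hC, hδ, hcore⟩ := core S' hS'ne hS'c
    (fun j k => al (c k) (r j k)) (fun j k => be (c k) (r j k))
    (fun j k hk => hRZZ (hrR j) k ((hmS' k).1 hk))
    (fun e he => by
      obtain ⟨k, hk⟩ := hsep e he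
      refine ⟨k, hk.trans (le_of_eq ?_)⟩
      congr 1
      refine Finset.sum_congr rfl fun j _ => ?_
      congr 1
      show N * O (f j) k = _
      rw [hO]
      by_cases h : (k : ι) ∈ S
      · rw [if_pos h, if_pos ((hmS' k).2 h)]
        exact (map_smul (be (c k)) N _).symm
      · rw [if_neg h, if_neg (fun h' => h ((hmS' k).1 h'))]
        exact (map_smul (al (c k)) N _).symm)
    32 (ε * μ / 2) (by norm_num) (by positivity)
  -- the constants
  have hTame := tame_cfg 𝒰 P B hB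
  obtain ⟨R₀, hR₀, hsig⟩ := hTame.sig_le W
  have hWne : W.Nonempty := hSne.mono hSW
  have hw : (1 : ℝ) ≤ W.card := by exact_mod_cast hWne.card_pos
  have hw0 : (0 : ℝ) < W.card := by linarith
  obtain ⟨Y, hY0, hY⟩ : ∃ Y : ℝ, 0 ≤ Y ∧ ∀ j k i, |r j k i| ≤ Y := by
    refine ⟨∑ j, ∑ k, ∑ i, |r j k i|, by positivity, fun j k i => ?_⟩
    have h1 : |r j k i| ≤ ∑ i, |r j k i| :=
      Finset.single_le_sum (f := fun i => |r j k i|) (fun _ _ => abs_nonneg _)
        (Finset.mem_univ i)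
    have h2 : ∑ i, |r j k i| ≤ ∑ k, ∑ i, |r j k i| :=
      Finset.single_le_sum (f := fun k => ∑ i, |r j k i|)
        (fun _ _ => Finset.sum_nonneg fun _ _ => abs_nonneg _) (Finset.mem_univ k)
    have h3 : ∑ k, ∑ i, |r j k i| ≤ ∑ j, ∑ k, ∑ i, |r j k i| :=
      Finset.single_le_sum (f := fun j => ∑ k, ∑ i, |r j k i|)
        (fun _ _ => Finset.sum_nonneg fun _ _ => Finset.sum_nonneg fun _ _ => abs_nonneg _)
        (Finset.mem_univ j)
    exact h1.trans (h2.trans h3)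
  obtain ⟨δ', hδ', hδ'2⟩ : ∃ δ' : ℝ, 0 < δ' ∧ 8 * δ' * W.card * R₀ ≤ δ / 2 := by
    refine ⟨δ / (16 * W.card * R₀), by positivity, le_of_eq ?_⟩
    field_simp
    ring
  obtain ⟨q, hq1, hqN, hqY⟩ : ∃ q : ℝ, 1 ≤ q ∧ (N₀ : ℝ) ≤ q ∧ 8 * Y * W.card / q ≤ δ / 2 := by
    refine ⟨max (max 1 (N₀ : ℝ)) (16 * Y * W.card / δ), ?_, ?_, ?_⟩
    · exact (le_max_left _ _).trans (le_max_left _ _)
    · exact (le_max_right _ _).trans (le_max_left _ _)
    · have h1 : (1 : ℝ) ≤ max (max 1 (N₀ : ℝ)) (16 * Y * W.card / δ) :=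
        (le_max_left _ _).trans (le_max_left _ _)
      have h2 : 16 * Y * W.card / δ ≤ max (max 1 (N₀ : ℝ)) (16 * Y * W.card / δ) :=
        le_max_right _ _
      rw [div_le_iff₀ hδ] at h2
      rw [div_le_iff₀ (by linarith)]
      linarith
  -- the events
  have hE : Tendsto (fun j => ∑ k ∈ W, ((P j).cfg B).e k) (𝒰 : Filter J) (𝓝 0) := by
    have h := tendsto_finsetSum W (fun k hk => hTame.err k (hW hk))
    simpa using h
  have ev1 : ∀ᶠ j in (𝒰 : Filter J), ∀ k ∈ W, (P j).sc B k = (P j).H k ∧ 1 ≤ (P j).H k ∧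
      ∀ i, ∑ v, |((P j).cfg B).L v k i| ≤ 4 := by
    rw [Filter.eventually_all_finset]
    intro k hk
    exact sum_L_le 𝒰 P B hB k (Finset.mem_compl.1 (hW hk))
  have ev2 := hch δ' hδ'
  have ev3 : ∀ᶠ j in (𝒰 : Filter J), ∑ k ∈ W, ((P j).cfg B).e k < ε * μ / 12 :=
    hE.eventually_lt_const (by positivity)
  have ev4 : ∀ᶠ j in (𝒰 : Filter J), ∑ k ∈ W, ((P j).cfg B).e k < δ / (32 * W.card) :=
    hE.eventually_lt_const (by positivity)
  have ev5 : ∀ᶠ j in (𝒰 : Filter J), ∀ l, ((P j).cfg B).N (r l) < δ / 2 := by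
    rw [Filter.eventually_all]
    intro l
    have h : Tendsto (fun j => ((P j).cfg B).N (r l)) (𝒰 : Filter J) (𝓝 0) := hRker (hrR l)
    exact h.eventually_lt_const (by positivity)
  have ev6 := hNV c C q hq1
  obtain ⟨j, h1, h2, h3, h4, h5, h6, h7⟩ :=
    (ev1.and (ev2.and (ev3.and (ev4.and (ev5.and (ev6.and hsig)))))).exists
  have hsc : ∀ k ∈ W, (P j).sc B k = (P j).H k := fun k hk => (h1 k hk).1
  have hH : ∀ k ∈ W, 1 ≤ (P j).H k := fun k hk => (h1 k hk).2.1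
  have hL : ∀ k ∈ W, ∀ i, ∑ v, |((P j).cfg B).L v k i| ≤ 4 := fun k hk => (h1 k hk).2.2
  have hT : 0 < (P j).T W q := by
    obtain ⟨k, hk⟩ := hWne
    exact ((P j).n_bounds W q hq1 k hk hH).1
  obtain ⟨o1, o2, o3⟩ := one_point (P j) B W q hq1 c hH hsc hL
  have hM : μ ≤ ((P j).cfg B).mass (((P j).cfg B).sig W) (((P j).cfg B).Typ W S c ε δ') := by
    refine h2.trans (Cfg.mass_mono _ _ _ _ (fun v => Cfg.sig_nonneg _ W v) ?_)
    rintro v ⟨hv1, hv2⟩
    refine ⟨fun k hk => ⟨(hv1 k hk).1, ?_⟩, hv2⟩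
    exact (mul_le_mul_of_nonneg_right hεε (Cfg.sig_nonneg _ W v)).trans (hv1 k hk).2
  obtain ⟨𝒱, g, g1, g2, g3, g4⟩ :=
    typ_places (P j) B W S hSW q hq1 c ε δ' hε hε1 hδ' hH hsc μ hM R₀ h7
  have hE2 : 16 * (W.card : ℝ) * ∑ k ∈ W, ((P j).cfg B).e k ≤ δ / 2 := by
    have h := h4.le
    rw [le_div_iff₀ (by positivity)] at h
    linarith
  have hE0 : 0 ≤ ∑ k ∈ W, ((P j).cfg B).e k := Finset.sum_nonneg fun k _ => ((P j).cfg B).e0 k
  have hE1 : ∑ k ∈ W, ((P j).cfg B).e k ≤ δ := by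
    have h : ∑ k ∈ W, ((P j).cfg B).e k ≤ (W.card : ℝ) * ∑ k ∈ W, ((P j).cfg B).e k :=
      le_mul_of_one_le_left hE0 hw
    linarith
  have hEH : 2 * ∑ k ∈ W, 1 / (P j).H k = ∑ k ∈ W, ((P j).cfg B).e k := by
    rw [Finset.mul_sum]
    refine Finset.sum_congr rfl fun k hk => ?_
    show _ = 2 / (P j).sc B k
    rw [hsc k hk]
    ring
  obtain ⟨F, hF0, hF1, hF2, hF3⟩ := hcore (P j).K (P j).S
    (fun k : {k // k ∈ W} => tt (c k) ((P j).x k)) (fun k : {k // k ∈ W} => (P j).n W q k)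
    ((P j).T W q) hT
    (fun k => tt_ne_zero (c k) ((P j).x k) ((P j).ne0 k) ((P j).ne1 k))
    (fun k => tt_off (c k) ((P j).x k) ((P j).ne0 k) ((P j).ne1 k) ((P j).off0 k) ((P j).off1 k))
    (fun k => by
      have h := ((P j).n_bounds W q hq1 k k.2 hH).2.1
      exact_mod_cast hqN.trans h)
    o1
    (fun l => by
      refine (o2 (r l) Y (hRsupp (hrR l)) (hY l)).trans ?_
      rw [mul_comm]
      refine mul_le_mul_of_nonneg_right ?_ hT.le
      have := h5 l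
      linarith)
    (by
      refine o3.trans ?_
      have e1 : 2 * (P j).T W q * ∑ k ∈ W, 1 / (P j).H k =
          (∑ k ∈ W, ((P j).cfg B).e k) * (P j).T W q := by
        rw [← hEH]
        ring
      rw [e1]
      exact mul_le_mul_of_nonneg_right hE1 hT.le)
    ⟨𝒱, g, g1, fun v hv k hk => g2 v hv k ((hmS' k).1 hk), by
      refine le_trans ?_ g3
      rw [mul_comm]
      refine mul_le_mul_of_nonneg_left ?_ hT.le
      linarith, by
      refine le_trans (le_of_eq ?_) (g4.trans ?_)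
      · refine Finset.sum_congr rfl fun v _ => ?_
        rw [Finset.sum_ite, add_comm]
        congr 1
        refine Finset.sum_congr ?_ fun _ _ => rfl
        ext k
        rw [Finset.mem_compl, hmS']
        simp
      · rw [mul_comm]
        refine mul_le_mul_of_nonneg_right ?_ hT.le
        linarith⟩
  obtain ⟨m, hm1, hm2⟩ := h6 F hF0 hF1 hF2
  exact hm2 (hF3 m hm1)

end Pool.Agent.LAll
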