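import Pool.Agent.LAll.KerDim

set_option autoImplicit false

/-! UV04. Easy consequences of `Tame` and dimensions of the spaces `supp W ⊓ ZZ S c`. -/

namespace Pool.Agent.LAll

open Filter Topology Module

variable {ι : Type} [Fintype ι] [DecidableEq ι] {J : Type}

private theorem exists_al_eq_one (c : Fin 3) : ∃ z : Fin 2 → ℝ, al c z = 1 := by
  fin_cases c
  · exact ⟨![1, 0], by simp [al]⟩
  · exact ⟨![0, 1], by simp [al]⟩
  · exact ⟨![-1, 0], by simp [al]⟩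

private theorem finrank_inf_ker {M : Type} [AddCommGroup M] [Module ℝ M] [FiniteDimensional ℝ M]
    (U : Submodule ℝ M) (f : M →ₗ[ℝ] ℝ) (u : M) (hu : u ∈ U) (hf : f u ≠ 0) :
    finrank ℝ (U ⊓ LinearMap.ker f : Submodule ℝ M) + 1 = finrank ℝ U := by
  have h1 := LinearMap.finrank_range_add_finrank_ker (f.domRestrict U)
  have h2 : LinearMap.range (f.domRestrict U) = ⊤ := by
    rw [LinearMap.range_eq_top]
    intro r
    refine ⟨(r / f u) • ⟨u, hu⟩, ?_⟩
    simp only [map_smul, LinearMap.domRestrict_apply, smul_eq_mul]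
    field_simp
  have h3 : finrank ℝ (U ⊓ LinearMap.ker f : Submodule ℝ M) =
      finrank ℝ (LinearMap.ker (f.domRestrict U)) := by
    have h4 : (LinearMap.ker (f.domRestrict U)).map U.subtype = U ⊓ LinearMap.ker f := by
      ext x
      simp only [Submodule.mem_map, LinearMap.mem_ker, LinearMap.domRestrict_apply,
        Submodule.subtype_apply, Subtype.exists, exists_and_right, Submodule.mem_inf]
      constructor
      · rintro ⟨a, ⟨ha, h⟩, rfl⟩
        exact ⟨ha, h⟩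
      · rintro ⟨hx, h⟩
        exact ⟨x, ⟨hx, h⟩, rfl⟩
    rw [← h4]
    exact Submodule.finrank_map_subtype_eq U _
  rw [h2, finrank_top, finrank_self] at h1
  omega

/-- `al (c k)` is a nonzero linear form for each `k`; e.g. `finrank_supp` and induction on `S`, or the
rank-nullity theorem for the linear map `supp W → (S → ℝ)`, `y ↦ (al (c k) (y k))_k`, which is onto. -/
theorem finrank_supp_ZZ (W S : Finset ι) (c : ι → Fin 3) (hS : S ⊆ W) :
    finrank ℝ (supp W ⊓ ZZ S c : Submodule ℝ (E ι)) + S.card = 2 * W.card := by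
  induction S using Finset.induction_on with
  | empty =>
    have h1 : (supp W ⊓ ZZ ∅ c : Submodule ℝ (E ι)) = supp W := by
      refine le_antisymm inf_le_left fun y hy => ⟨hy, ?_⟩
      intro k hk
      simp at hk
    rw [h1, finrank_supp, Finset.card_empty, add_zero]
  | insert k S hk ih =>
    have hkW : k ∈ W := hS (Finset.mem_insert_self k S)
    have hSW : S ⊆ W := (Finset.subset_insert k S).trans hS
    have h0 := ih hSW
    let f : E ι →ₗ[ℝ] ℝ := (al (c k)).comp (LinearMap.proj k)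
    have hf : ∀ y, f y = al (c k) (y k) := fun y => rfl
    have h1 : (supp W ⊓ ZZ (insert k S) c : Submodule ℝ (E ι)) =
        (supp W ⊓ ZZ S c) ⊓ LinearMap.ker f := by
      ext y
      simp only [Submodule.mem_inf, mem_ZZ, Finset.mem_insert, forall_eq_or_imp,
        LinearMap.mem_ker, hf]
      tauto
    obtain ⟨z, hz⟩ := exists_al_eq_one (c k)
    let u : E ι := fun j => if j = k then z else 0
    have huk : u k = z := if_pos rfl
    have hne : ∀ j, j ≠ k → u j = 0 := fun j hj => if_neg hj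
    have hu : u ∈ (supp W ⊓ ZZ S c : Submodule ℝ (E ι)) := by
      refine ⟨?_, ?_⟩
      · intro j hj
        exact hne j (fun h => hj (h ▸ hkW))
      · intro j hj
        rw [hne j (fun h => hk (h ▸ hj)), map_zero]
    have h2 := finrank_inf_ker (supp W ⊓ ZZ S c : Submodule ℝ (E ι)) f u hu
      (by rw [hf, huk, hz]; exact one_ne_zero)
    rw [h1, Finset.card_insert_of_notMem hk]
    omega

/-- `A v k ≤ |L v k 0| + |L v k 1| + w v * e k`: every direction has a coordinate of absolute value `1`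
(`Cfg.tri`). -/
theorem Cfg.A_le (C : Cfg ι) (v : C.V) (k : ι) :
    C.A v k ≤ |C.L v k 0| + |C.L v k 1| + C.w v * C.e k := by
  have h0 := abs_le.1 (C.tri v k 0)
  have h1 := abs_le.1 (C.tri v k 1)
  have a0 := neg_abs_le (C.L v k 0)
  have a1 := neg_abs_le (C.L v k 1)
  have b0 := le_abs_self (C.L v k 0)
  have b1 := le_abs_self (C.L v k 1)
  have c0 := abs_nonneg (C.L v k 0)
  have c1 := abs_nonneg (C.L v k 1)
  generalize C.c v k = c at h0 h1
  fin_cases c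
  · simp [dir] at h0 h1
    linarith
  · simp [dir] at h0 h1
    linarith
  · simp [dir] at h0 h1
    linarith

/-- `|L v k i| ≤ A v k + w v * e k`. -/
theorem Cfg.abs_L_le (C : Cfg ι) (v : C.V) (k : ι) (i : Fin 2) :
    |C.L v k i| ≤ C.A v k + C.w v * C.e k := by
  have h0 := C.tri v k i
  have hA := C.A0 v k
  have h1 : |dir (C.c v k) i| ≤ 1 := by
    generalize C.c v k = c
    fin_cases c <;> fin_cases i <;> simp [dir]
  have h2 : |C.A v k * dir (C.c v k) i| ≤ C.A v k := by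
    rw [abs_mul, abs_of_nonneg hA]
    exact mul_le_of_le_one_right hA h1
  calc |C.L v k i| = |C.A v k * dir (C.c v k) i + (C.L v k i - C.A v k * dir (C.c v k) i)| := by
        rw [add_sub_cancel]
    _ ≤ |C.A v k * dir (C.c v k) i| + |C.L v k i - C.A v k * dir (C.c v k) i| := abs_add_le _ _
    _ ≤ C.A v k + C.w v * C.e k := add_le_add h2 h0

/-- The pairing at one place: `∑ i, z i * L v k i = - A v k * al (c v k) z + O(w v * e k)`
(`sum_mul_dir`, `Cfg.tri`). -/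
theorem Cfg.pair_local (C : Cfg ι) (v : C.V) (k : ι) (z : Fin 2 → ℝ) (Y : ℝ)
    (hY : ∀ i, |z i| ≤ Y) :
    |∑ i, z i * C.L v k i + C.A v k * al (C.c v k) z| ≤ 2 * Y * (C.w v * C.e k) := by
  have h1 : ∑ i, z i * C.L v k i + C.A v k * al (C.c v k) z =
      ∑ i, z i * (C.L v k i - C.A v k * dir (C.c v k) i) := by
    have h2 := sum_mul_dir (C.c v k) z
    have h3 : al (C.c v k) z = -∑ i, z i * dir (C.c v k) i := by rw [h2, neg_neg]
    rw [h3, Fin.sum_univ_two, Fin.sum_univ_two, Fin.sum_univ_two]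
    ring
  rw [h1]
  have hwe : 0 ≤ C.w v * C.e k := mul_nonneg (C.w0 v) (C.e0 k)
  calc |∑ i, z i * (C.L v k i - C.A v k * dir (C.c v k) i)|
      ≤ ∑ i, |z i * (C.L v k i - C.A v k * dir (C.c v k) i)| := Finset.abs_sum_le_sum_abs _ _
    _ ≤ ∑ _i : Fin 2, Y * (C.w v * C.e k) := by
        refine Finset.sum_le_sum fun i _ => ?_
        rw [abs_mul]
        exact mul_le_mul (hY i) (C.tri v k i) (abs_nonneg _) ((abs_nonneg _).trans (hY i))
    _ = 2 * Y * (C.w v * C.e k) := by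
        rw [Fin.sum_univ_two]
        ring

/-- `|al c z| ≤ 2 Y`. -/
theorem abs_al_le (c : Fin 3) (z : Fin 2 → ℝ) (Y : ℝ) (hY : ∀ i, |z i| ≤ Y) : |al c z| ≤ 2 * Y := by
  have h0 := abs_le.1 (hY 0)
  have h1 := abs_le.1 (hY 1)
  rw [abs_le]
  fin_cases c
  · show -(2 * Y) ≤ al 0 z ∧ al 0 z ≤ 2 * Y
    rw [al_zero]
    constructor <;> linarith
  · show -(2 * Y) ≤ al 1 z ∧ al 1 z ≤ 2 * Y
    rw [al_one]
    constructor <;> linarith
  · show -(2 * Y) ≤ al 2 z ∧ al 2 z ≤ 2 * Y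
    rw [al_two]
    constructor <;> linarith

/-- `|be c z| ≤ Y`. -/
theorem abs_be_le (c : Fin 3) (z : Fin 2 → ℝ) (Y : ℝ) (hY : ∀ i, |z i| ≤ Y) : |be c z| ≤ Y := by
  fin_cases c
  · exact hY 1
  · exact hY 0
  · exact hY 0

/-- `∑ v, A v k` is bounded (`Cfg.A_le`, `Tame.bd`, `e k ≤ 2`, `∑ w = 1`). -/
theorem Tame.A_le {𝒰 : Ultrafilter J} {𝒞 : J → Cfg ι} {W : Finset ι} (h : Tame 𝒰 𝒞 W) (k : ι) :
    ∃ C : ℝ, 0 < C ∧ ∀ᶠ j in (𝒰 : Filter J), ∑ v, (𝒞 j).A v k ≤ C := by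
  obtain ⟨C, hC⟩ := h.bd k
  refine ⟨2 * |C| + 2, by positivity, hC.mono fun j hj => ?_⟩
  have h0 := hj 0
  have h1 := hj 1
  have hC' := le_abs_self C
  calc ∑ v, (𝒞 j).A v k
      ≤ ∑ v, (|(𝒞 j).L v k 0| + |(𝒞 j).L v k 1| + (𝒞 j).w v * (𝒞 j).e k) :=
        Finset.sum_le_sum fun v _ => (𝒞 j).A_le v k
    _ = ∑ v, |(𝒞 j).L v k 0| + ∑ v, |(𝒞 j).L v k 1| + (∑ v, (𝒞 j).w v) * (𝒞 j).e k := by
        rw [Finset.sum_add_distrib, Finset.sum_add_distrib, Finset.sum_mul]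
    _ ≤ 2 * |C| + 2 := by
        rw [(𝒞 j).w1, one_mul]
        have := (𝒞 j).e2 k
        linarith

/-- `∑ v, sig W' v` is bounded (sum of the previous bounds over `k ∈ W'`). -/
theorem Tame.sig_le {𝒰 : Ultrafilter J} {𝒞 : J → Cfg ι} {W : Finset ι} (h : Tame 𝒰 𝒞 W)
    (W' : Finset ι) :
    ∃ C : ℝ, 0 < C ∧ ∀ᶠ j in (𝒰 : Filter J), ∑ v, (𝒞 j).sig W' v ≤ C := by
  choose C hC0 hC using fun k => h.A_le k
  refine ⟨∑ k ∈ W', C k + 1, ?_, ?_⟩
  · have := Finset.sum_nonneg fun k (_ : k ∈ W') => (hC0 k).le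
    linarith
  · have h1 : ∀ᶠ j in (𝒰 : Filter J), ∀ k, ∑ v, (𝒞 j).A v k ≤ C k :=
      Filter.eventually_all.2 hC
    refine h1.mono fun j hj => ?_
    have h2 : ∑ v, (𝒞 j).sig W' v = ∑ k ∈ W', ∑ v, (𝒞 j).A v k := by
      unfold Cfg.sig
      exact Finset.sum_comm
    rw [h2]
    have h3 := Finset.sum_le_sum fun k (_ : k ∈ W') => hj k
    linarith

/-- `1 / 2 ≤ ∑ v, sig W' v` for `∅ ≠ W' ⊆ W` (`Tame.low`, `Cfg.abs_L_le`, `e k → 0`). -/
theorem Tame.le_sig {𝒰 : Ultrafilter J} {𝒞 : J → Cfg ι} {W : Finset ι} (h : Tame 𝒰 𝒞 W)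
    (W' : Finset ι) (hW' : W' ⊆ W) (hne : W'.Nonempty) :
    ∀ᶠ j in (𝒰 : Filter J), 1 / 2 ≤ ∑ v, (𝒞 j).sig W' v := by
  obtain ⟨k, hk⟩ := hne
  have h1 := h.low k (hW' hk)
  have h2 := (h.err k (hW' hk)).eventually_lt_const (show (0 : ℝ) < 1 / 2 by norm_num)
  filter_upwards [h1, h2] with j h1 h2
  have h3 : ∑ v, |(𝒞 j).L v k 0| ≤ ∑ v, (𝒞 j).A v k + (𝒞 j).e k := by
    calc ∑ v, |(𝒞 j).L v k 0| ≤ ∑ v, ((𝒞 j).A v k + (𝒞 j).w v * (𝒞 j).e k) :=
          Finset.sum_le_sum fun v _ => (𝒞 j).abs_L_le v k 0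
      _ = ∑ v, (𝒞 j).A v k + (𝒞 j).e k := by
          rw [Finset.sum_add_distrib, ← Finset.sum_mul, (𝒞 j).w1, one_mul]
  have h4 : ∑ v, (𝒞 j).A v k ≤ ∑ v, (𝒞 j).sig W' v := by
    refine Finset.sum_le_sum fun v _ => ?_
    exact Finset.single_le_sum (f := fun k => (𝒞 j).A v k) (fun i _ => (𝒞 j).A0 v i) hk
  linarith

end Pool.Agent.LAll
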