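import Pool.Agent.LAll.NVDefs
import Pool.Agent.LAll.SumA

set_option autoImplicit false

/-! UV16. The estimates for one point. -/

namespace Pool.Agent.LAll

open NumberField Height Real Module Filter Topology

variable {ι J : Type} [Fintype ι] [DecidableEq ι]

/-- the logarithms are the entries of the configuration times the scale -/
private theorem lam_eq (P : Pt ι) (B W : Finset ι) (h1 : ∀ k ∈ W, 1 ≤ P.H k)
    (hsc : ∀ k ∈ W, P.sc B k = P.H k) (k : ι) (hk : k ∈ W) (v : Plc P.K P.S) :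
    lam v (P.x k) = P.H k * (P.cfg B).L v k 0 ∧
      lam v (1 - P.x k) = P.H k * (P.cfg B).L v k 1 := by
  have h0 : P.H k ≠ 0 := (one_pos.trans_le (h1 k hk)).ne'
  have e1 : (P.cfg B).L v k 0 = lam v (P.x k) / P.sc B k := rfl
  have e2 : (P.cfg B).L v k 1 = lam v (1 - P.x k) / P.sc B k := rfl
  rw [e1, e2, hsc k hk]
  constructor <;> field_simp

private theorem sum_wE {V : Type} [Fintype V] (w : V → ℝ) (hw : ∑ v, w v = 1) (a E : ℝ) :
    ∑ v, a * w v * E = a * E := by
  rw [← Finset.sum_mul, ← Finset.mul_sum, hw, mul_one]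

private theorem sum_T {V : Type} (T : ℝ) (s : Finset V) (f g : V → ℝ) :
    ∑ v ∈ s, T * (f v - g v) = T * (∑ v ∈ s, f v - ∑ v ∈ s, g v) := by
  rw [← Finset.mul_sum, Finset.sum_sub_distrib]

private theorem sum_sw {V : Type} [Fintype V] (s w : V → ℝ) (hw : ∑ v, w v = 1) {δ E : ℝ} :
    ∑ v, (δ * s v + w v * E) = δ * ∑ v, s v + E := by
  rw [Finset.sum_add_distrib, ← Finset.mul_sum, ← Finset.sum_mul, hw, one_mul]

private theorem nH_bounds (P : Pt ι) (W : Finset ι) (q : ℝ) (hq : 1 ≤ q)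
    (h1 : ∀ k ∈ W, 1 ≤ P.H k) (k : ι) (hk : k ∈ W) :
    0 < P.T W q ∧ P.T W q ≤ P.n W q k * P.H k ∧ P.n W q k * P.H k ≤ 2 * P.T W q ∧
      P.n W q k * P.H k - P.T W q ≤ P.T W q / q := by
  obtain ⟨a1, -, -, -, a5, a6, a7⟩ := P.n_bounds W q hq k hk h1
  have h2 : P.T W q / q ≤ P.T W q := div_le_self a1.le hq
  exact ⟨a1, a6, by linarith, by linarith⟩

/-- **The estimates for one point.** Everything that the core needs, for one point `P` with
`H k ≥ 1` (`k ∈ W`), the scale `sc k = H k` and `∑ v, |L v k i| ≤ 4` for `k ∈ W`, `r` a vector in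
`supp W` with entries `≤ Y`.
(1) `n_k ∑ v (|lam t_k| + |lam (1 - t_k)|) ≤ 32 T`: by `abs_lam_tt` the sum is at most
`2 ∑ v (|lam x_k| + |lam (1 - x_k)|) = 2 H k ∑ v (|L v k 0| + |L v k 1|) ≤ 16 H k`; `n_k H k ≤ 2 T`.
(2) `∑ v |∑ k n_k (al r_k lam t_k + be r_k lam (1 - t_k))| ≤ T N(r) + 8 Y |W| T / q`: by `al_be_lam` the
inner sum is `∑_{k ∈ W} n_k H k ∑ i, r k i L v k i`, `T ≤ n_k H k ≤ T + H k ≤ T + T / q`.
(3) `∑_{k ∈ W} n_k ≤ ∑ 2 T / H k`. -/
theorem one_point (P : Pt ι) (B W : Finset ι) (q : ℝ) (hq : 1 ≤ q) (c : ι → Fin 3)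
    (h1 : ∀ k ∈ W, 1 ≤ P.H k) (hsc : ∀ k ∈ W, P.sc B k = P.H k)
    (hL : ∀ k ∈ W, ∀ i, ∑ v, |(P.cfg B).L v k i| ≤ 4) :
    (∀ k : {k // k ∈ W}, P.n W q k * ∑ v : Plc P.K P.S,
      (|lam v (tt (c k) (P.x k))| + |lam v (1 - tt (c k) (P.x k))|) ≤ 32 * P.T W q) ∧
    (∀ (r : E ι) (Y : ℝ), r ∈ supp W → (∀ k i, |r k i| ≤ Y) →
      ∑ v : Plc P.K P.S, |∑ k : {k // k ∈ W}, P.n W q k *
        (al (c k) (r k) * lam v (tt (c k) (P.x k)) +
          be (c k) (r k) * lam v (1 - tt (c k) (P.x k)))| ≤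
        P.T W q * ((P.cfg B).N r + 8 * Y * W.card / q)) ∧
    ∑ k : {k // k ∈ W}, (P.n W q k : ℝ) ≤ 2 * P.T W q * ∑ k ∈ W, 1 / P.H k := by
  have hH0 : ∀ k ∈ W, 0 < P.H k := fun k hk => one_pos.trans_le (h1 k hk)
  have hLs : ∀ k ∈ W, ∀ i, ∑ v : Plc P.K P.S, |(P.cfg B).L v k i| ≤ 4 := hL
  refine ⟨?_, ?_, ?_⟩
  · rintro ⟨k, hk⟩
    obtain ⟨b1, b2, b3, -⟩ := nH_bounds P W q hq h1 k hk
    have h3 : ∑ v : Plc P.K P.S,
        (|lam v (tt (c k) (P.x k))| + |lam v (1 - tt (c k) (P.x k))|) ≤ 16 * P.H k := by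
      calc ∑ v : Plc P.K P.S, (|lam v (tt (c k) (P.x k))| + |lam v (1 - tt (c k) (P.x k))|)
          ≤ ∑ v : Plc P.K P.S, 2 * P.H k * (|(P.cfg B).L v k 0| + |(P.cfg B).L v k 1|) := by
            refine Finset.sum_le_sum fun v _ => ?_
            obtain ⟨d1, d2⟩ := abs_lam_tt v (c k) (P.x k) (P.ne0 k) (P.ne1 k)
            obtain ⟨e1, e2⟩ := lam_eq P B W h1 hsc k hk v
            rw [e1, e2, abs_mul, abs_mul, abs_of_pos (hH0 k hk)] at d1 d2
            linarith
        _ = 2 * P.H k * (∑ v : Plc P.K P.S, |(P.cfg B).L v k 0| +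
              ∑ v : Plc P.K P.S, |(P.cfg B).L v k 1|) := by
            rw [← Finset.mul_sum, Finset.sum_add_distrib]
        _ ≤ 2 * P.H k * (4 + 4) := by
            have := hH0 k hk
            have f1 := hLs k hk 0
            have f2 := hLs k hk 1
            gcongr
        _ = 16 * P.H k := by ring
    calc (P.n W q k : ℝ) * ∑ v : Plc P.K P.S,
          (|lam v (tt (c k) (P.x k))| + |lam v (1 - tt (c k) (P.x k))|)
        ≤ P.n W q k * (16 * P.H k) := mul_le_mul_of_nonneg_left h3 (Nat.cast_nonneg _)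
      _ = 16 * (P.n W q k * P.H k) := by ring
      _ ≤ 32 * P.T W q := by linarith
  · intro r Y hr hY
    have hpair : ∀ v : Plc P.K P.S, (P.cfg B).pair v r =
        ∑ k : {k // k ∈ W}, ∑ i, r k i * (P.cfg B).L v k i := by
      intro v
      have e2 : ∑ k ∈ W, ∑ i, r k i * (P.cfg B).L v k i =
          ∑ k, ∑ i, r k i * (P.cfg B).L v k i :=
        Finset.sum_subset (Finset.subset_univ W) fun k _ hk =>
          Finset.sum_eq_zero fun i _ => by rw [hr k hk, Pi.zero_apply, zero_mul]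
      have e3 := Finset.sum_coe_sort W fun k => ∑ i, r k i * (P.cfg B).L v k i
      exact e2.symm.trans e3.symm
    have hin : ∀ v : Plc P.K P.S, |∑ k : {k // k ∈ W}, P.n W q k *
        (al (c k) (r k) * lam v (tt (c k) (P.x k)) +
          be (c k) (r k) * lam v (1 - tt (c k) (P.x k)))| ≤
        P.T W q * |(P.cfg B).pair v r| +
          ∑ k : {k // k ∈ W}, P.T W q / q * Y *
            (|(P.cfg B).L v k 0| + |(P.cfg B).L v k 1|) := by
      intro v
      have e1 : ∑ k : {k // k ∈ W}, (P.n W q k : ℝ) *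
          (al (c k) (r k) * lam v (tt (c k) (P.x k)) +
            be (c k) (r k) * lam v (1 - tt (c k) (P.x k))) =
          P.T W q * (P.cfg B).pair v r + ∑ k : {k // k ∈ W},
            (P.n W q k * P.H k - P.T W q) * ∑ i, r k i * (P.cfg B).L v k i := by
        rw [hpair v, Finset.mul_sum, ← Finset.sum_add_distrib]
        refine Finset.sum_congr rfl fun k _ => ?_
        obtain ⟨g1, g2⟩ := lam_eq P B W h1 hsc k k.2 v
        rw [al_be_lam v (c k) (P.x k) (P.ne0 k) (P.ne1 k) (r k), g1, g2, Fin.sum_univ_two]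
        ring
      rw [e1]
      refine (abs_add_le _ _).trans (add_le_add ?_ ?_)
      · rw [abs_mul]
        rcases W.eq_empty_or_nonempty with hW | ⟨k, hk⟩
        · have : P.T W q = 0 := by
            rw [Pt.T, hW, Finset.sum_empty, mul_zero]
          rw [this]
          simp
        · rw [abs_of_pos (nH_bounds P W q hq h1 k hk).1]
      · refine (Finset.abs_sum_le_sum_abs _ _).trans (Finset.sum_le_sum fun k _ => ?_)
        obtain ⟨b1, b2, b3, b4⟩ := nH_bounds P W q hq h1 k k.2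
        rw [abs_mul, abs_of_nonneg (by linarith), mul_assoc]
        refine mul_le_mul b4 ?_ (abs_nonneg _) (div_nonneg b1.le (by linarith))
        rw [Fin.sum_univ_two]
        refine (abs_add_le _ _).trans ?_
        rw [abs_mul, abs_mul, mul_add]
        exact add_le_add (mul_le_mul_of_nonneg_right (hY k 0) (abs_nonneg _))
          (mul_le_mul_of_nonneg_right (hY k 1) (abs_nonneg _))
    calc ∑ v : Plc P.K P.S, |∑ k : {k // k ∈ W}, P.n W q k *
        (al (c k) (r k) * lam v (tt (c k) (P.x k)) +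
          be (c k) (r k) * lam v (1 - tt (c k) (P.x k)))|
        ≤ ∑ v : Plc P.K P.S, (P.T W q * |(P.cfg B).pair v r| +
          ∑ k : {k // k ∈ W}, P.T W q / q * Y *
            (|(P.cfg B).L v k 0| + |(P.cfg B).L v k 1|)) :=
          Finset.sum_le_sum fun v _ => hin v
      _ = P.T W q * (P.cfg B).N r + ∑ k : {k // k ∈ W}, P.T W q / q * Y *
            (∑ v : Plc P.K P.S, |(P.cfg B).L v k 0| +
              ∑ v : Plc P.K P.S, |(P.cfg B).L v k 1|) := by
          rw [Finset.sum_add_distrib, ← Finset.mul_sum, Finset.sum_comm]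
          congr 1
          refine Finset.sum_congr rfl fun k _ => ?_
          rw [← Finset.mul_sum, Finset.sum_add_distrib]
      _ ≤ P.T W q * (P.cfg B).N r + ∑ k : {k // k ∈ W}, P.T W q / q * Y * (4 + 4) := by
          refine add_le_add le_rfl (Finset.sum_le_sum fun k _ => ?_)
          have b1 := (nH_bounds P W q hq h1 k k.2).1
          have hY0 : 0 ≤ Y := (abs_nonneg _).trans (hY k 0)
          exact mul_le_mul_of_nonneg_left (add_le_add (hLs k k.2 0) (hLs k k.2 1))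
            (mul_nonneg (div_nonneg b1.le (by linarith)) hY0)
      _ = P.T W q * ((P.cfg B).N r + 8 * Y * W.card / q) := by
          rw [Finset.sum_const, Finset.card_univ, Fintype.card_coe, nsmul_eq_mul]
          ring
  · rw [Finset.mul_sum, ← Finset.sum_coe_sort W fun k => 2 * P.T W q * (1 / P.H k)]
    refine Finset.sum_le_sum fun k _ => ?_
    obtain ⟨-, -, -, a4, -⟩ := P.n_bounds W q hq k k.2 h1
    rw [mul_one_div]
    exact a4

/-- **The places of the charged type** for one point. Let `𝒱` be the places with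
`Typ W S c ε δ v` and `4 w v E ≤ ε σ v`, `E = ∑_{k ∈ W} e k` (`e k = 2 / H k`), and
`g v = T (ε σ v - 2 w v E)`. For `k ∈ S` and `v ∈ 𝒱` (`c v k = c k`): by `lam_tt_corner` with
`lam = H k L`, `A = H k A v k`, error `H k w v e k`: `- n_k lam t_k ≥ n_k H k (A v k - w v e k) ≥
T (ε σ v - w v e k)` (the bracket is `≥ 0`, `n_k H k ≥ T`) `≥ g v ≥ 0`, and
`n_k |lam (1 - t_k)| ≤ 2 T * 2 w v e k`. For `k ∈ W \ S`:
`n_k (|lam t_k| + |lam (1 - t_k)|) ≤ 2 n_k H k (|L v k 0| + |L v k 1|) ≤ 4 T (2 A v k + 2 w v e k) ≤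
8 T (δ σ v + w v e k)` (`Cfg.abs_L_le`).
The sum of `g` over `𝒱`: the places of the type with `ε σ v < 4 w v E` have `ε σ`-mass at most `4 E`, so
`∑_𝒱 g ≥ T (ε mass - 4 E - 2 E)`. The last sum is at most
`T (8 δ |W| ∑ σ + 16 |W| E)`. -/
theorem typ_places (P : Pt ι) (B W S : Finset ι) (hS : S ⊆ W) (q : ℝ) (hq : 1 ≤ q)
    (c : ι → Fin 3) (ε δ : ℝ) (hε : 0 < ε) (hε1 : ε ≤ 1) (hδ : 0 < δ)
    (h1 : ∀ k ∈ W, 1 ≤ P.H k) (hsc : ∀ k ∈ W, P.sc B k = P.H k) (M : ℝ)
    (hM : M ≤ (P.cfg B).mass ((P.cfg B).sig W) ((P.cfg B).Typ W S c ε δ)) (R : ℝ)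
    (hR : ∑ v, (P.cfg B).sig W v ≤ R) :
    ∃ (𝒱 : Finset (Plc P.K P.S)) (g : Plc P.K P.S → ℝ), (∀ v ∈ 𝒱, 0 ≤ g v) ∧
      (∀ v ∈ 𝒱, ∀ k : {k // k ∈ W}, (k : ι) ∈ S →
        g v ≤ -(P.n W q k * lam v (tt (c k) (P.x k)))) ∧
      P.T W q * (ε * M - 6 * ∑ k ∈ W, (P.cfg B).e k) ≤ ∑ v ∈ 𝒱, g v ∧
      ∑ v ∈ 𝒱, (∑ k : {k // k ∈ W}, if (k : ι) ∈ S then
          P.n W q k * |lam v (1 - tt (c k) (P.x k))|
        else P.n W q k * (|lam v (tt (c k) (P.x k))| + |lam v (1 - tt (c k) (P.x k))|)) ≤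
        P.T W q * (8 * δ * W.card * R + 16 * W.card * ∑ k ∈ W, (P.cfg B).e k) := by
  have hH0 : ∀ k ∈ W, 0 < P.H k := fun k hk => one_pos.trans_le (h1 k hk)
  have hT : 0 ≤ P.T W q := by
    unfold Pt.T
    exact mul_nonneg (by linarith) (Finset.sum_nonneg fun k hk => (hH0 k hk).le)
  set C : Cfg ι := P.cfg B with hC
  set E : ℝ := ∑ k ∈ W, C.e k with hE
  have hE0 : 0 ≤ E := Finset.sum_nonneg fun k _ => C.e0 k
  have heE : ∀ k ∈ W, C.e k ≤ E := fun k hk =>
    Finset.single_le_sum (f := C.e) (fun l _ => C.e0 l) hk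
  have hw1 : ∑ v : Plc P.K P.S, C.w v = 1 := C.w1
  have hw0 : ∀ v : Plc P.K P.S, 0 ≤ C.w v := C.w0
  have hs0 : ∀ v : Plc P.K P.S, 0 ≤ C.sig W v := C.sig_nonneg W
  have hR' : ∑ v : Plc P.K P.S, C.sig W v ≤ R := hR
  classical
  let 𝒱 : Finset (Plc P.K P.S) := Finset.univ.filter fun v =>
    C.Typ W S c ε δ v ∧ 4 * C.w v * E ≤ ε * C.sig W v
  have hmem : ∀ v, v ∈ 𝒱 ↔ C.Typ W S c ε δ v ∧ 4 * C.w v * E ≤ ε * C.sig W v := fun v => by
    simp [𝒱]
  -- the corner
  have hcor : ∀ v : Plc P.K P.S, ∀ k ∈ W, C.c v k = c k →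
      |lam v (tt (c k) (P.x k)) + P.H k * C.A v k| ≤ P.H k * (C.w v * C.e k) ∧
        |lam v (1 - tt (c k) (P.x k))| ≤ 2 * (P.H k * (C.w v * C.e k)) := by
    intro v k hk hck
    have h0 := (hH0 k hk).ne'
    obtain ⟨f1, f2, f3⟩ := P.siz_spec v k
    have g1 : P.cor v k = c k := hck
    rw [g1] at f2 f3
    have g2 := lam_tt_corner v (c k) (P.x k) (P.ne0 k) (P.ne1 k) _ _ f2 f3
    have g3 : P.H k * C.A v k = P.siz v k := by
      have : C.A v k = P.siz v k / P.sc B k := rfl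
      rw [this, hsc k hk]
      field_simp
    have g4 : P.H k * (C.w v * C.e k) = 2 * wt v := by
      have e1 : C.e k = 2 / P.sc B k := rfl
      have e2 : C.w v = wt v := rfl
      rw [e1, e2, hsc k hk]
      field_simp
    rw [g3, g4]
    exact g2
  refine ⟨𝒱, fun v => P.T W q * (ε * C.sig W v - 2 * C.w v * E), ?_, ?_, ?_, ?_⟩
  · intro v hv
    have h2 := ((hmem v).1 hv).2
    have h3 : 0 ≤ C.w v * E := mul_nonneg (hw0 v) hE0
    refine mul_nonneg hT ?_
    linarith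
  · rintro v hv ⟨k, hk⟩ hkS
    obtain ⟨hty, h2⟩ := (hmem v).1 hv
    obtain ⟨h3, h4⟩ := hty.1 k hkS
    obtain ⟨h5, -⟩ := hcor v k hk h3
    obtain ⟨b1, b2, b3, -⟩ := nH_bounds P W q hq h1 k hk
    have h6 : C.w v * C.e k ≤ C.w v * E := mul_le_mul_of_nonneg_left (heE k hk) (hw0 v)
    have h7 : 0 ≤ C.w v * E := mul_nonneg (hw0 v) hE0
    have h8 : 0 ≤ ε * C.sig W v - C.w v * E := by linarith
    have h9 := (abs_le.1 h5).2
    show P.T W q * (ε * C.sig W v - 2 * C.w v * E) ≤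
      -((P.n W q k : ℝ) * lam v (tt (c k) (P.x k)))
    calc P.T W q * (ε * C.sig W v - 2 * C.w v * E)
        ≤ P.T W q * (ε * C.sig W v - C.w v * E) :=
          mul_le_mul_of_nonneg_left (by linarith) hT
      _ ≤ P.n W q k * P.H k * (ε * C.sig W v - C.w v * E) :=
          mul_le_mul_of_nonneg_right b2 h8
      _ ≤ P.n W q k * P.H k * (C.A v k - C.w v * C.e k) :=
          mul_le_mul_of_nonneg_left (by linarith) (hT.trans b2)
      _ = P.n W q k * (P.H k * C.A v k - P.H k * (C.w v * C.e k)) := by ring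
      _ ≤ P.n W q k * (-lam v (tt (c k) (P.x k))) :=
          mul_le_mul_of_nonneg_left (by linarith) (Nat.cast_nonneg _)
      _ = -((P.n W q k : ℝ) * lam v (tt (c k) (P.x k))) := by ring
  · have hm : C.mass (C.sig W) (C.Typ W S c ε δ) =
        ∑ v : Plc P.K P.S, if C.Typ W S c ε δ v then C.sig W v else 0 := by
      unfold Cfg.mass
      refine Finset.sum_congr rfl fun v _ => ?_
      split_ifs <;> rfl
    have h2 : ε * M ≤ ∑ v ∈ 𝒱, ε * C.sig W v + 4 * E := by
      calc ε * M ≤ ε * ∑ v : Plc P.K P.S, (if C.Typ W S c ε δ v then C.sig W v else 0) := by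
            rw [← hm]
            exact mul_le_mul_of_nonneg_left hM hε.le
        _ ≤ ∑ v : Plc P.K P.S, ((if v ∈ 𝒱 then ε * C.sig W v else 0) + 4 * C.w v * E) := by
            rw [Finset.mul_sum]
            refine Finset.sum_le_sum fun v _ => ?_
            have h7 : 0 ≤ C.w v * E := mul_nonneg (hw0 v) hE0
            by_cases h3 : C.Typ W S c ε δ v
            · rw [if_pos h3]
              by_cases h4 : v ∈ 𝒱
              · rw [if_pos h4]
                linarith
              · rw [if_neg h4]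
                have h5 : ¬ 4 * C.w v * E ≤ ε * C.sig W v := fun h5 => h4 ((hmem v).2 ⟨h3, h5⟩)
                linarith
            · rw [if_neg h3, mul_zero]
              have h6 : 0 ≤ if v ∈ 𝒱 then ε * C.sig W v else 0 := by
                split_ifs
                · exact mul_nonneg hε.le (hs0 v)
                · exact le_rfl
              linarith
        _ = ∑ v ∈ 𝒱, ε * C.sig W v + 4 * E := by
            rw [Finset.sum_add_distrib, Finset.sum_ite_mem, Finset.univ_inter]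
            congr 1
            exact sum_wE (fun v : Plc P.K P.S => C.w v) hw1 4 E
    have h3 : ∑ v ∈ 𝒱, 2 * C.w v * E ≤ 2 * E := by
      refine (Finset.sum_le_sum_of_subset_of_nonneg (Finset.subset_univ _) fun v _ _ => ?_).trans
        (sum_wE (fun v : Plc P.K P.S => C.w v) hw1 2 E).le
      exact mul_nonneg (mul_nonneg zero_le_two (hw0 v)) hE0
    refine le_trans ?_ (sum_T (P.T W q) 𝒱 (fun v : Plc P.K P.S => ε * C.sig W v)
      (fun v : Plc P.K P.S => 2 * C.w v * E)).ge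
    exact mul_le_mul_of_nonneg_left (by linarith) hT
  · have hterm : ∀ v ∈ 𝒱, ∀ k : {k // k ∈ W}, (if (k : ι) ∈ S then
          P.n W q k * |lam v (1 - tt (c k) (P.x k))|
        else P.n W q k * (|lam v (tt (c k) (P.x k))| + |lam v (1 - tt (c k) (P.x k))|)) ≤
        8 * P.T W q * (δ * C.sig W v + C.w v * E) := by
      rintro v hv ⟨k, hk⟩
      obtain ⟨hty, -⟩ := (hmem v).1 hv
      obtain ⟨b1, b2, b3, -⟩ := nH_bounds P W q hq h1 k hk
      have h6 : C.w v * C.e k ≤ C.w v * E := mul_le_mul_of_nonneg_left (heE k hk) (hw0 v)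
      have h60 : 0 ≤ C.w v * C.e k := mul_nonneg (hw0 v) (C.e0 k)
      have h7 : 0 ≤ δ * C.sig W v := mul_nonneg hδ.le (hs0 v)
      have hn0 : (0 : ℝ) ≤ P.n W q k := Nat.cast_nonneg _
      by_cases hkS : k ∈ S
      · rw [if_pos hkS]
        obtain ⟨-, h5⟩ := hcor v k hk (hty.1 k hkS).1
        calc (P.n W q k : ℝ) * |lam v (1 - tt (c k) (P.x k))|
            ≤ P.n W q k * (2 * (P.H k * (C.w v * C.e k))) := mul_le_mul_of_nonneg_left h5 hn0
          _ = 2 * (P.n W q k * P.H k) * (C.w v * C.e k) := by ring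
          _ ≤ 2 * (2 * P.T W q) * (C.w v * C.e k) :=
              mul_le_mul_of_nonneg_right (by linarith) h60
          _ ≤ 8 * P.T W q * (C.w v * C.e k) := mul_le_mul_of_nonneg_right (by linarith) h60
          _ ≤ 8 * P.T W q * (δ * C.sig W v + C.w v * E) :=
              mul_le_mul_of_nonneg_left (by linarith) (by linarith)
      · rw [if_neg hkS]
        obtain ⟨d1, d2⟩ := abs_lam_tt v (c k) (P.x k) (P.ne0 k) (P.ne1 k)
        obtain ⟨e1, e2⟩ := lam_eq P B W h1 hsc k hk v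
        rw [e1, e2, abs_mul, abs_mul, abs_of_pos (hH0 k hk)] at d1 d2
        have l1 : |(P.cfg B).L v k 0| ≤ C.A v k + C.w v * C.e k := C.abs_L_le v k 0
        have l2 : |(P.cfg B).L v k 1| ≤ C.A v k + C.w v * C.e k := C.abs_L_le v k 1
        have h8 : C.A v k ≤ δ * C.sig W v := hty.2 k hk hkS
        have h9 : |(P.cfg B).L v k 0| + |(P.cfg B).L v k 1| ≤
            2 * (δ * C.sig W v + C.w v * E) := by linarith
        calc (P.n W q k : ℝ) * (|lam v (tt (c k) (P.x k))| + |lam v (1 - tt (c k) (P.x k))|)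
            ≤ P.n W q k * (2 * P.H k * (|(P.cfg B).L v k 0| + |(P.cfg B).L v k 1|)) :=
              mul_le_mul_of_nonneg_left (by linarith) hn0
          _ ≤ P.n W q k * (2 * P.H k * (2 * (δ * C.sig W v + C.w v * E))) :=
              mul_le_mul_of_nonneg_left
                (mul_le_mul_of_nonneg_left h9 (by have := hH0 k hk; linarith)) hn0
          _ = 4 * (P.n W q k * P.H k) * (δ * C.sig W v + C.w v * E) := by ring
          _ ≤ 8 * P.T W q * (δ * C.sig W v + C.w v * E) :=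
              mul_le_mul_of_nonneg_right (by linarith) (by linarith)
    calc ∑ v ∈ 𝒱, (∑ k : {k // k ∈ W}, if (k : ι) ∈ S then
          P.n W q k * |lam v (1 - tt (c k) (P.x k))|
        else P.n W q k * (|lam v (tt (c k) (P.x k))| + |lam v (1 - tt (c k) (P.x k))|))
        ≤ ∑ v ∈ 𝒱, ∑ _k : {k // k ∈ W}, 8 * P.T W q * (δ * C.sig W v + C.w v * E) :=
          Finset.sum_le_sum fun v hv => Finset.sum_le_sum fun k _ => hterm v hv k
      _ = 8 * P.T W q * W.card * ∑ v ∈ 𝒱, (δ * C.sig W v + C.w v * E) := by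
          rw [Finset.mul_sum]
          refine Finset.sum_congr rfl fun v _ => ?_
          rw [Finset.sum_const, Finset.card_univ, Fintype.card_coe, nsmul_eq_mul]
          ring
      _ ≤ 8 * P.T W q * W.card * ∑ v : Plc P.K P.S, (δ * C.sig W v + C.w v * E) := by
          refine mul_le_mul_of_nonneg_left ?_ (by positivity)
          exact Finset.sum_le_sum_of_subset_of_nonneg (Finset.subset_univ _) fun v _ _ =>
            add_nonneg (mul_nonneg hδ.le (hs0 v)) (mul_nonneg (hw0 v) hE0)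
      _ = 8 * P.T W q * W.card * (δ * ∑ v : Plc P.K P.S, C.sig W v + E) := by
          rw [sum_sw (fun v : Plc P.K P.S => C.sig W v) (fun v : Plc P.K P.S => C.w v) hw1]
      _ ≤ 8 * P.T W q * W.card * (δ * R + 2 * E) := by
          refine mul_le_mul_of_nonneg_left ?_ (by positivity)
          have := mul_le_mul_of_nonneg_left hR' hδ.le
          linarith
      _ = P.T W q * (8 * δ * W.card * R + 16 * W.card * E) := by ring

end Pool.Agent.LAll
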