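import Mathlib

set_option autoImplicit false

/-! Theorems U and V: definitions for the places of a number field. -/

namespace Pool.Agent.LAll

open NumberField Height Real Module

/-- The places which are used: all infinite places and the finite places in `S`. -/
abbrev Plc (K : Type) [Field K] [NumberField K] (S : Finset (FinitePlace K)) : Type :=
  InfinitePlace K ⊕ {v : FinitePlace K // v ∈ S}

section

variable {K : Type} [Field K] [NumberField K] {S : Finset (FinitePlace K)}

/-- The absolute value. -/
def ab (v : Plc K S) (z : K) : ℝ :=
  Sum.elim (fun v : InfinitePlace K => v z) (fun v : {v : FinitePlace K // v ∈ S} => v.1 z) v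

/-- The local degree (`1` for finite places: the absolute value is normalised). -/
noncomputable def dg (v : Plc K S) : ℝ :=
  Sum.elim (fun v : InfinitePlace K => (v.mult : ℝ)) (fun _ => 1) v

/-- The normalised logarithm of the absolute value: the sum over all places is `0`, the sum of the
positive parts is the absolute height. -/
noncomputable def lam (v : Plc K S) (z : K) : ℝ := dg v * log (ab v z) / finrank ℚ K

/-- The weight of the place: `[K_v : ℝ] / [K : ℚ]` for infinite places, `0` for finite places. -/
noncomputable def wt (v : Plc K S) : ℝ :=
  Sum.elim (fun v : InfinitePlace K => (v.mult : ℝ) / finrank ℚ K) (fun _ => 0) v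

/-- `z` is a unit outside `S`. -/
def Off (S : Finset (FinitePlace K)) (z : K) : Prop := ∀ v : FinitePlace K, v ∉ S → v z = 1

/-- `z` is integral outside `S`. -/
def IntOff (S : Finset (FinitePlace K)) (z : K) : Prop := ∀ v : FinitePlace K, v ∉ S → v z ≤ 1

/-- The absolute height. -/
noncomputable def ht (z : K) : ℝ := logHeight₁ z / finrank ℚ K

end

end Pool.Agent.LAll
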