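import Pool.Agent.LAll.PolyDefs

set_option autoImplicit false

/-! UV12. Coefficients of products of polynomials in separate variables; independence. -/

namespace Pool.Agent.LAll

open MvPolynomial

variable {W : Type} [Fintype W] [DecidableEq W]

/-- Expand every factor (`Polynomial.as_sum_support` or `Polynomial.aeval_eq_sum_range`), use
`Finset.prod_univ_sum` and compare the monomials. -/
theorem coeff_prod {R : Type} [CommRing R] (g : W → Polynomial R) (m : W →₀ ℕ) :
    (∏ k, Polynomial.aeval (X k : MvPolynomial W R) (g k)).coeff m = ∏ k, (g k).coeff (m k) := by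
  have h1 : ∀ p : W → ℕ, ∏ k, ((g k).coeff (p k) • (X k : MvPolynomial W R) ^ p k) =
      monomial (Finsupp.equivFunOnFinite.symm p) (∏ k, (g k).coeff (p k)) := by
    intro p
    rw [monomial_eq, Finsupp.prod_fintype _ _ (fun i => pow_zero _), map_prod,
      ← Finset.prod_mul_distrib]
    refine Finset.prod_congr rfl fun k _ => ?_
    rw [smul_eq_C_mul]
    rfl
  simp only [Polynomial.aeval_eq_sum_range]
  rw [Finset.prod_univ_sum, coeff_sum]
  have h2 : ∀ p : W → ℕ, (∏ k, ((g k).coeff (p k) • (X k : MvPolynomial W R) ^ p k)).coeff m =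
      if p = m then ∏ k, (g k).coeff (m k) else 0 := by
    intro p
    rw [h1, coeff_monomial]
    by_cases hp : p = m
    · have h3 : Finsupp.equivFunOnFinite.symm p = m := by
        rw [hp]
        exact Finsupp.equivFunOnFinite.symm_apply_apply m
      rw [if_pos h3, if_pos hp, hp]
    · have h3 : ¬ Finsupp.equivFunOnFinite.symm p = m := by
        intro h
        apply hp
        rw [← h]
        rfl
      rw [if_neg h3, if_neg hp]
  rw [Finset.sum_congr rfl fun p _ => h2 p, Finset.sum_ite_eq']
  by_cases hm : (m : W → ℕ) ∈ Fintype.piFinset fun k => Finset.range ((g k).natDegree + 1)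
  · rw [if_pos hm]
  · rw [if_neg hm]
    rw [Fintype.mem_piFinset] at hm
    push Not at hm
    obtain ⟨k, hk⟩ := hm
    rw [Finset.mem_range, not_lt] at hk
    exact (Finset.prod_eq_zero (Finset.mem_univ k)
      (Polynomial.coeff_eq_zero_of_natDegree_lt (by omega))).symm

private theorem bin_eq (p q : W → ℕ) :
    bin p q = ∏ k, Polynomial.aeval (X k : MvPolynomial W ℤ)
      (Polynomial.X ^ p k * (1 - Polynomial.X) ^ q k : Polynomial ℤ) := by
  rw [bin]
  refine Finset.prod_congr rfl fun k _ => ?_
  simp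

private theorem coeff_bin (p q : W → ℕ) (m : W →₀ ℕ) : (bin p q).coeff m =
    ∏ k, (Polynomial.X ^ p k * (1 - Polynomial.X) ^ q k : Polynomial ℤ).coeff (m k) := by
  rw [bin_eq, coeff_prod]

private theorem coeff_aux (q : ℕ) : ∀ n : ℕ,
    ((1 - Polynomial.X : Polynomial ℤ) ^ q).coeff n ≠ 0 → n ≤ q := by
  intro n hn
  have h1 : ((1 - Polynomial.X : Polynomial ℤ) ^ q).natDegree ≤ q := by
    have h2 : (1 - Polynomial.X : Polynomial ℤ).natDegree ≤ 1 := by
      refine (Polynomial.natDegree_sub_le _ _).trans ?_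
      simp
    have h3 := Polynomial.natDegree_pow_le_of_le q h2
    omega
  exact (Polynomial.le_natDegree_of_ne_zero hn).trans h1

private theorem coeff_aux2 (q : ℕ) : ∀ n : ℕ,
    |((1 - Polynomial.X : Polynomial ℤ) ^ q).coeff n| ≤ 2 ^ q := by
  induction q with
  | zero =>
    intro n
    rw [pow_zero, Polynomial.coeff_one]
    split_ifs <;> simp
  | succ q ih =>
    intro n
    rw [pow_succ, mul_sub, mul_one, Polynomial.coeff_sub]
    have h1 : |((1 - Polynomial.X : Polynomial ℤ) ^ q * Polynomial.X).coeff n| ≤ 2 ^ q := by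
      cases n with
      | zero => simp
      | succ n =>
        rw [Polynomial.coeff_mul_X]
        exact ih n
    have h2 := ih n
    have h3 := abs_sub ((((1 - Polynomial.X : Polynomial ℤ) ^ q)).coeff n)
      (((1 - Polynomial.X : Polynomial ℤ) ^ q * Polynomial.X).coeff n)
    rw [pow_succ]
    linarith

/-- The coefficients of `X ^ p (1 - X) ^ q` vanish outside `[p, p + q]` and are at most `2 ^ q`. -/
theorem coeff_one_var (p q n : ℕ) :
    ((Polynomial.X ^ p * (1 - Polynomial.X) ^ q : Polynomial ℤ).coeff n ≠ 0 → p ≤ n ∧ n ≤ p + q) ∧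
      |(Polynomial.X ^ p * (1 - Polynomial.X) ^ q : Polynomial ℤ).coeff n| ≤ 2 ^ q := by
  rw [Polynomial.coeff_X_pow_mul']
  constructor
  · intro h
    by_cases hp : p ≤ n
    · rw [if_pos hp] at h
      have := coeff_aux q (n - p) h
      exact ⟨hp, by omega⟩
    · rw [if_neg hp] at h
      exact absurd rfl h
  · by_cases hp : p ≤ n
    · rw [if_pos hp]
      exact coeff_aux2 q _
    · rw [if_neg hp, abs_zero]
      positivity

theorem coeff_bin_support (p q : W → ℕ) (m : W →₀ ℕ) (h : (bin p q).coeff m ≠ 0) :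
    ∀ k, p k ≤ m k ∧ m k ≤ p k + q k := by
  intro k
  rw [coeff_bin] at h
  exact (coeff_one_var (p k) (q k) (m k)).1 (Finset.prod_ne_zero_iff.1 h k (Finset.mem_univ k))

theorem abs_coeff_bin_le (p q : W → ℕ) (m : W →₀ ℕ) :
    |(((bin p q).coeff m : ℤ) : ℝ)| ≤ Real.exp (∑ k, (q k : ℝ)) := by
  rw [coeff_bin, Int.cast_prod, Finset.abs_prod, Real.exp_sum]
  refine Finset.prod_le_prod (fun k _ => abs_nonneg _) fun k _ => ?_
  have h1 := (coeff_one_var (p k) (q k) (m k)).2
  have h2 : |(((Polynomial.X ^ p k * (1 - Polynomial.X) ^ q k : Polynomial ℤ).coeff (m k) : ℤ) :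
      ℝ)| ≤ (2 : ℝ) ^ q k := by
    exact_mod_cast h1
  refine h2.trans ?_
  have h3 : (2 : ℝ) ≤ Real.exp 1 := by
    have := Real.add_one_le_exp (1 : ℝ)
    linarith
  calc (2 : ℝ) ^ q k ≤ (Real.exp 1) ^ q k := pow_le_pow_left₀ (by norm_num) h3 _
    _ = Real.exp (q k : ℝ) := by rw [← Real.exp_nat_mul, mul_one]

private theorem indep_aux {I : Type} [Fintype I] (o o' : I → W → ℕ)
    (hinj : Function.Injective o) : LinearIndependent ℤ fun a => bin (o a) (o' a) := by
  classical
  rw [Fintype.linearIndependent_iff]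
  intro c hc
  by_contra hcon
  push Not at hcon
  obtain ⟨i0, hi0⟩ := hcon
  obtain ⟨a, ha, hmin⟩ := (Finset.univ.filter fun i => c i ≠ 0).exists_min_image
    (fun i => ∑ k, o i k) ⟨i0, Finset.mem_filter.2 ⟨Finset.mem_univ _, hi0⟩⟩
  have ha0 : c a ≠ 0 := (Finset.mem_filter.1 ha).2
  let m : W →₀ ℕ := Finsupp.equivFunOnFinite.symm (o a)
  have hm : ∀ k, m k = o a k := fun k => rfl
  have h1 : (∑ i, c i • bin (o i) (o' i)).coeff m = 0 := by
    rw [hc, coeff_zero]
  rw [coeff_sum, Finset.sum_eq_single a] at h1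
  · rw [coeff_smul, smul_eq_mul, coeff_bin] at h1
    have h2 : ∏ k, (Polynomial.X ^ o a k * (1 - Polynomial.X) ^ o' a k : Polynomial ℤ).coeff
        (m k) = 1 := by
      refine Finset.prod_eq_one fun k _ => ?_
      rw [hm, Polynomial.coeff_X_pow_mul', if_pos le_rfl, Nat.sub_self,
        Polynomial.coeff_zero_eq_eval_zero]
      simp
    rw [h2, mul_one] at h1
    exact ha0 h1
  · intro b _ hb
    rw [coeff_smul, smul_eq_mul]
    by_cases hcb : c b = 0
    · rw [hcb, zero_mul]
    · by_cases hco : (bin (o b) (o' b)).coeff m = 0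
      · rw [hco, mul_zero]
      · exfalso
        have h2 := coeff_bin_support _ _ _ hco
        have h3 := hmin b (Finset.mem_filter.2 ⟨Finset.mem_univ _, hcb⟩)
        have h4 : ∀ k ∈ Finset.univ, o b k ≤ o a k := fun k _ => (h2 k).1
        have h5 : ∑ k, o b k = ∑ k, o a k := le_antisymm (Finset.sum_le_sum h4) h3
        have h6 := (Finset.sum_eq_sum_iff_of_le h4).1 h5
        exact hb (hinj (funext fun k => h6 k (Finset.mem_univ k)))
  · intro h
    exact absurd (Finset.mem_univ a) h

/-- **Independence.** Functions `∏ X_k ^ p_k (1 - X_k) ^ q_k` with different order vectors (the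
order `q_k` at `X_k = 1` for `k ∈ S`, the order `p_k` at `X_k = 0` for `k ∉ S`) are linearly independent.

Proof. Apply the algebra endomorphism `φ`, `φ X_k = 1 - X_k` for `k ∈ S`, `φ X_k = X_k` for `k ∉ S`
(`LinearIndependent.of_comp`): `φ (bin p q) = X ^ o * u` with `o k = q k` (`k ∈ S`), `p k` (`k ∉ S`), and
`u` a product of powers of `1 - X_k` (this is `bin o o'` with `o'` the other exponents!). If
`∑ c_a bin (o_a) (o'_a) = 0`, choose `a` with `c_a ≠ 0` and `∑ k, o_a k` minimal; the coefficient of
`X ^ o_a` in `bin (o_b) (o'_b)` is `0` unless `o_b ≤ o_a` (`coeff_bin_support`), so for `c_b ≠ 0` unless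
`o_b = o_a`, i.e. `b = a`, where it is `1`: so `c_a = 0`. -/
theorem bin_independent (S : Finset W) {I : Type} [Fintype I] (p q : I → W → ℕ)
    (hinj : Function.Injective fun a k => if k ∈ S then q a k else p a k) :
    LinearIndependent ℤ fun a => bin (p a) (q a) := by
  let φ : MvPolynomial W ℤ →ₐ[ℤ] MvPolynomial W ℤ :=
    aeval fun k => if k ∈ S then 1 - X k else X k
  refine LinearIndependent.of_comp φ.toLinearMap ?_
  have h1 : (φ.toLinearMap ∘ fun a => bin (p a) (q a)) =
      fun a => bin (fun k => if k ∈ S then q a k else p a k)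
        (fun k => if k ∈ S then p a k else q a k) := by
    funext a
    change φ (bin (p a) (q a)) = _
    rw [bin, bin, map_prod]
    refine Finset.prod_congr rfl fun k _ => ?_
    rw [map_mul, map_pow, map_pow, map_sub, map_one]
    have h2 : φ (X k) = if k ∈ S then 1 - X k else X k := aeval_X _ _
    rw [h2]
    by_cases hk : k ∈ S
    · simp only [hk, if_true]
      rw [sub_sub_cancel, mul_comm]
    · simp only [hk, if_false]
  rw [h1]
  exact indep_aux _ _ hinj

end Pool.Agent.LAll
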