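import Pool.Agent.LAll.Trop

set_option autoImplicit false

/-! UV10. The configuration of a point of `L^ι` over a number field. -/

namespace Pool.Agent.LAll

open NumberField Height Real Module Filter Topology Pool.Agent.LThree

/-- A point of `L^ι` over a number field. -/
structure Pt (ι : Type) where
  K : Type
  [fld : Field K]
  [nf : NumberField K]
  x : ι → K
  ne0 : ∀ i, x i ≠ 0
  ne1 : ∀ i, 1 - x i ≠ 0

attribute [instance] Pt.fld Pt.nf

section

variable {ι : Type}

theorem Pt.co_ne (P : Pt ι) (a : ι ⊕ ι) : co P.x a ≠ 0 := by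
  cases a with
  | inl i => exact P.ne0 i
  | inr i => exact P.ne1 i

/-- The absolute height of a coordinate. -/
noncomputable def Pt.H (P : Pt ι) (k : ι) : ℝ := ht (P.x k)

/-- The scale of a coordinate; `B` is the set of the coordinates which are not scaled. -/
noncomputable def Pt.sc [DecidableEq ι] (B : Finset ι) (P : Pt ι) (k : ι) : ℝ :=
  if k ∈ B then 1 else max (P.H k) 1

theorem Pt.one_le_sc [DecidableEq ι] (B : Finset ι) (P : Pt ι) (k : ι) : 1 ≤ P.sc B k := by
  unfold Pt.sc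
  split_ifs
  · exact le_rfl
  · exact le_max_right _ _

theorem Pt.sc_pos [DecidableEq ι] (B : Finset ι) (P : Pt ι) (k : ι) : 0 < P.sc B k :=
  one_pos.trans_le (P.one_le_sc B k)

variable [Finite ι]

/-- Finite places outside which all coordinates are units. -/
noncomputable def Pt.S (P : Pt ι) : Finset (FinitePlace P.K) :=
  (exists_S P.K (co P.x) P.co_ne).choose

theorem Pt.off (P : Pt ι) (a : ι ⊕ ι) : Off P.S (co P.x a) :=
  (exists_S P.K (co P.x) P.co_ne).choose_spec a

theorem Pt.off0 (P : Pt ι) (k : ι) : Off P.S (P.x k) := P.off (Sum.inl k)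

theorem Pt.off1 (P : Pt ι) (k : ι) : Off P.S (1 - P.x k) := P.off (Sum.inr k)

/-- The places which are used. -/
abbrev Pt.V (P : Pt ι) : Type := Plc P.K P.S

/-- The two numbers `x_k` and `1 - x_k`. -/
def Pt.z (P : Pt ι) (k : ι) (i : Fin 2) : P.K := ![P.x k, 1 - P.x k] i

/-- The corner of `x_k` at `v`. -/
noncomputable def Pt.cor (P : Pt ι) (v : P.V) (k : ι) : Fin 3 :=
  (lam_tri v (P.x k) (P.ne0 k) (P.ne1 k)).choose

/-- The size of `x_k` at `v`. -/
noncomputable def Pt.siz (P : Pt ι) (v : P.V) (k : ι) : ℝ :=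
  (lam_tri v (P.x k) (P.ne0 k) (P.ne1 k)).choose_spec.choose

theorem Pt.siz_spec (P : Pt ι) (v : P.V) (k : ι) :
    0 ≤ P.siz v k ∧ |lam v (P.x k) - P.siz v k * dir (P.cor v k) 0| ≤ 2 * wt v ∧
      |lam v (1 - P.x k) - P.siz v k * dir (P.cor v k) 1| ≤ 2 * wt v :=
  (lam_tri v (P.x k) (P.ne0 k) (P.ne1 k)).choose_spec.choose_spec

/-- **The configuration of a point.** -/
noncomputable def Pt.cfg [DecidableEq ι] (B : Finset ι) (P : Pt ι) : Cfg ι where
  V := P.V
  w := wt
  L v k i := lam v (P.z k i) / P.sc B k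
  c := P.cor
  A v k := P.siz v k / P.sc B k
  e k := 2 / P.sc B k
  w0 := wt_nonneg
  w1 := sum_wt
  A0 v k := div_nonneg (P.siz_spec v k).1 (P.sc_pos B k).le
  e0 k := div_nonneg zero_le_two (P.sc_pos B k).le
  e2 k := by
    rw [div_le_iff₀ (P.sc_pos B k)]
    have := P.one_le_sc B k
    linarith
  tri v k i := by
    have h1 := P.sc_pos B k
    obtain ⟨-, h2, h3⟩ := P.siz_spec v k
    have e1 : lam v (P.z k i) / P.sc B k - P.siz v k / P.sc B k * dir (P.cor v k) i =
        (lam v (P.z k i) - P.siz v k * dir (P.cor v k) i) / P.sc B k := by ring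
    have e2 : wt v * (2 / P.sc B k) = 2 * wt v / P.sc B k := by ring
    rw [e1, e2, abs_div, abs_of_pos h1]
    refine div_le_div_of_nonneg_right ?_ h1.le
    fin_cases i
    · exact h2
    · exact h3

end

/-- **Genericity**: a fixed nonzero polynomial vanishes at few of the points. -/
def Gen {ι J : Type} (𝒰 : Ultrafilter J) (P : J → Pt ι) : Prop :=
  ∀ f : MvPolynomial ι ℤ, f ≠ 0 → ∀ᶠ j in (𝒰 : Filter J), MvPolynomial.aeval (P j).x f ≠ 0

/-- The heights of the coordinates in `B` are bounded, those of the other ones tend to infinity. -/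
structure Split {ι J : Type} (𝒰 : Ultrafilter J) (P : J → Pt ι) (B : Finset ι) : Prop where
  bdd : ∀ k ∈ B, ∃ C : ℝ, ∀ᶠ j in (𝒰 : Filter J), (P j).H k ≤ C
  unb : ∀ k ∉ B, Tendsto (fun j => (P j).H k) (𝒰 : Filter J) atTop

section

variable {ι J : Type} [Fintype ι] [DecidableEq ι]

private theorem pc_log2 : log 2 ≤ 1 := by
  have := Real.log_two_lt_d9
  linarith

/-- The sum of the absolute values of the normalised logarithms. -/
private theorem pc_sum (B : Finset ι) (P : Pt ι) (k : ι) (i : Fin 2) :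
    ∑ v, |(P.cfg B).L v k i| = 2 * ht (P.z k i) / P.sc B k := by
  have h1 : ∀ v : P.V, |(P.cfg B).L v k i| = |lam v (P.z k i)| / P.sc B k := by
    intro v
    change |lam v (P.z k i) / P.sc B k| = _
    rw [abs_div, abs_of_pos (P.sc_pos B k)]
  have h2 : P.z k i ≠ 0 := by
    fin_cases i
    · exact P.ne0 k
    · exact P.ne1 k
  have h3 : Off P.S (P.z k i) := by
    fin_cases i
    · exact P.off0 k
    · exact P.off1 k
  change ∑ v : P.V, |(P.cfg B).L v k i| = _
  rw [Finset.sum_congr rfl fun v _ => h1 v, ← Finset.sum_div, sum_abs_lam h2 h3]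

omit [Fintype ι] [DecidableEq ι] in
private theorem pc_ht (P : Pt ι) (k : ι) (i : Fin 2) : ht (P.z k i) ≤ P.H k + log 2 := by
  have hl : 0 ≤ log 2 := Real.log_nonneg (by norm_num)
  fin_cases i
  · change ht (P.x k) ≤ ht (P.x k) + log 2
    linarith
  · exact ht_one_sub (P.x k)

/-- The sums of a coordinate of large height. -/
private theorem pc_large (B : Finset ι) (P : Pt ι) (k : ι) (hk : k ∉ B) (h1 : 1 ≤ P.H k) :
    P.sc B k = P.H k ∧ (∑ v, |(P.cfg B).L v k 0| = 2) ∧ ∀ i, ∑ v, |(P.cfg B).L v k i| ≤ 4 := by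
  have hs : P.sc B k = P.H k := by
    unfold Pt.sc
    rw [if_neg hk, max_eq_left h1]
  have h0 : 0 < P.H k := one_pos.trans_le h1
  refine ⟨hs, ?_, fun i => ?_⟩
  · rw [pc_sum, hs]
    change 2 * P.H k / P.H k = 2
    field_simp
  · rw [pc_sum, hs, div_le_iff₀ h0]
    have h2 := pc_ht P k i
    have h3 := pc_log2
    linarith

/-- `Tame` for the configurations of the points: `∑ v |lam v x_k| = 2 H k` (`sum_abs_lam`),
`∑ v |lam v (1 - x_k)| = 2 ht (1 - x_k) ≤ 2 H k + 2 log 2`; for `k ∉ B` and large `H k` the scale is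
`H k`, so the sums are `2` and `≤ 4`; for `k ∈ B` the scale is `1` and the sums are bounded. `e k =
2 / sc`. -/
theorem tame_cfg (𝒰 : Ultrafilter J) (P : J → Pt ι) (B : Finset ι) (h : Split 𝒰 P B) :
    Tame 𝒰 (fun j => (P j).cfg B) Bᶜ where
  bd k := by
    by_cases hk : k ∈ B
    · obtain ⟨C, hC⟩ := h.bdd k hk
      refine ⟨2 * (C + log 2), ?_⟩
      filter_upwards [hC] with j hj i
      rw [pc_sum]
      have hs : (P j).sc B k = 1 := by
        unfold Pt.sc
        rw [if_pos hk]
      rw [hs, div_one]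
      have h2 := pc_ht (P j) k i
      linarith
    · refine ⟨4, ?_⟩
      filter_upwards [(h.unb k hk).eventually_ge_atTop 1] with j hj
      exact (pc_large B (P j) k hk hj).2.2
  low k hk := by
    have hk' : k ∉ B := Finset.mem_compl.1 hk
    filter_upwards [(h.unb k hk').eventually_ge_atTop 1] with j hj
    rw [(pc_large B (P j) k hk' hj).2.1]
    norm_num
  err k hk := by
    have hk' : k ∉ B := Finset.mem_compl.1 hk
    have h1 : Tendsto (fun j => 2 / (P j).H k) (𝒰 : Filter J) (𝓝 0) :=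
      (h.unb k hk').const_div_atTop 2
    refine h1.congr' ?_
    filter_upwards [(h.unb k hk').eventually_ge_atTop 1] with j hj
    change 2 / (P j).H k = 2 / (P j).sc B k
    rw [(pc_large B (P j) k hk' hj).1]

/-- For `k ∉ B` and most `j`: `sc = H k` and `∑ v, |L v k i| ≤ 4`. -/
theorem sum_L_le (𝒰 : Ultrafilter J) (P : J → Pt ι) (B : Finset ι) (h : Split 𝒰 P B) (k : ι)
    (hk : k ∉ B) : ∀ᶠ j in (𝒰 : Filter J), (P j).sc B k = (P j).H k ∧ 1 ≤ (P j).H k ∧
      ∀ i, ∑ v, |((P j).cfg B).L v k i| ≤ 4 := by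
  filter_upwards [(h.unb k hk).eventually_ge_atTop 1] with j hj
  exact ⟨(pc_large B (P j) k hk hj).1, hj, (pc_large B (P j) k hk hj).2.2⟩

end

end Pool.Agent.LAll
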