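import Pool.Agent.LAll.ExpD
import Pool.Agent.LThree.Pigeon

set_option autoImplicit false

/-! UV23. Integer polynomials in `b` variables whose coordinates are tiny along finitely many
subspaces of dimension `< b`. The case `b = 2` is `Pool/Agent/LThree/SmallCoef.lean`. -/

namespace Pool.Agent.LAll

open Real

/-- The coordinate of `∏ x_i ^ n_i` at `∏ x_i ^ J_i`, `J_i ∈ {0, 1}`, at the point with
`log |x_i| = ∑ l, t l * u l i 0`, `log |1 - x_i| = ∑ l, t l * u l i 1`. -/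
noncomputable def gco {β : Type} [Fintype β] {d : ℕ} (u : Fin d → β → Fin 2 → ℝ) (t : Fin d → ℝ)
    (n : β → ℕ) (J : β → Fin 2) : ℝ :=
  ∏ i, LThree.pwc (1 + exp (2 * ∑ l, t l * u l i 0) - exp (2 * ∑ l, t l * u l i 1))
    (exp (2 * ∑ l, t l * u l i 0)) (n i) (J i)

private lemma sd_four (k : ℕ) : (4 : ℝ) ^ k ≤ exp (2 * k) := by
  have h1 : (4 : ℝ) ≤ exp 2 := by
    have h2 : exp (2 : ℝ) = exp 1 ^ 2 := by
      rw [← Real.exp_nat_mul]
      norm_num
    rw [h2]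
    have h3 := Real.exp_one_gt_d9
    nlinarith
  have h5 : exp (2 * (k : ℝ)) = exp 2 ^ k := by
    rw [← Real.exp_nat_mul]
    ring_nf
  rw [h5]
  exact pow_le_pow_left₀ (by norm_num) h1 k

private lemma sd_pow (N b : ℕ) : ((N : ℝ) + 1) ^ b ≤ exp (b * N) := by
  have h1 : (N : ℝ) + 1 ≤ exp N := Real.add_one_le_exp _
  rw [Real.exp_nat_mul]
  exact pow_le_pow_left₀ (by positivity) h1 b

private lemma sd_fact (x : ℝ) (hx : 0 ≤ x) (M : ℕ) (h : x * exp 2 ≤ M) :
    x ^ M / M.factorial ≤ exp (-M) := by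
  have h1 : x ≤ exp (-2) * M := by
    have h2 : x = exp (-2) * (x * exp 2) := by
      rw [mul_comm x, ← mul_assoc, ← Real.exp_add]
      norm_num
    rw [h2]
    exact mul_le_mul_of_nonneg_left h (Real.exp_pos _).le
  have h3 : x ^ M ≤ exp (-2) ^ M * (M : ℝ) ^ M := by
    rw [← mul_pow]
    exact pow_le_pow_left₀ hx h1 M
  have h4 : (M : ℝ) ^ M / M.factorial ≤ exp M :=
    Real.pow_div_factorial_le_exp (M : ℝ) (Nat.cast_nonneg M) M
  calc x ^ M / M.factorial ≤ exp (-2) ^ M * (M : ℝ) ^ M / M.factorial := by gcongr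
    _ = exp (-2) ^ M * ((M : ℝ) ^ M / M.factorial) := by ring
    _ ≤ exp (-2) ^ M * exp M := mul_le_mul_of_nonneg_left h4 (by positivity)
    _ = exp (-M) := by
        rw [← Real.exp_nat_mul, ← Real.exp_add]
        congr 1
        ring

private lemma sd_taylor {β : Type} [Fintype β] {d : ℕ} (U : ℝ) (hU : 1 ≤ U) (N M : ℕ)
    (u : Fin d → β → Fin 2 → ℝ) (hu : ∀ l i k, |u l i k| ≤ U) (n : β → Fin (N + 1))
    (J : β → Fin 2) : ∃ T : (Fin d → Fin M) → ℝ,
      (∀ m, |T m| ≤ 4 ^ (Fintype.card β * N) * exp (d * (2 * U * Fintype.card β * N))) ∧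
      ∀ t : Fin d → ℝ, (∀ l, |t l| ≤ 1) →
        |gco u t (fun i => (n i : ℕ)) J - ∑ m : Fin d → Fin M, T m * ∏ l, t l ^ (m l : ℕ)| ≤
        4 ^ (Fintype.card β * N) * (d * ((2 * U * Fintype.card β * N) ^ M / M.factorial) *
          exp ((d + 1) * (2 * U * Fintype.card β * N))) := by
  have hn : ∀ i, ((n i : ℕ) : ℝ) ≤ N := by
    intro i
    have := (n i).is_lt
    exact_mod_cast Nat.lt_succ_iff.1 this
  have h1 := ExpD.prod (d := d) (Finset.univ : Finset β) (fun i => 2 * U * ((n i : ℕ) : ℝ))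
    (fun i => (4 : ℝ) ^ (n i : ℕ))
    (fun i t => LThree.pwc (1 + exp (2 * ∑ l, t l * u l i 0) - exp (2 * ∑ l, t l * u l i 1))
      (exp (2 * ∑ l, t l * u l i 0)) (n i) (J i)) fun i _ =>
      pwc_expD (fun l => u l i 0) (fun l => u l i 1) U (by linarith) (fun l => hu l i 0)
        (fun l => hu l i 1) (n i) (J i)
  have h2 : ∑ i, 2 * U * ((n i : ℕ) : ℝ) ≤ 2 * U * Fintype.card β * N := by
    calc ∑ i, 2 * U * ((n i : ℕ) : ℝ) ≤ ∑ _i : β, 2 * U * (N : ℝ) :=
          Finset.sum_le_sum fun i _ => mul_le_mul_of_nonneg_left (hn i) (by linarith)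
      _ = 2 * U * Fintype.card β * N := by
          rw [Finset.sum_const, Finset.card_univ, nsmul_eq_mul]
          ring
  have h3 : ∏ i, (4 : ℝ) ^ (n i : ℕ) ≤ 4 ^ (Fintype.card β * N) := by
    rw [Finset.prod_pow_eq_pow_sum]
    refine pow_le_pow_right₀ (by norm_num) ?_
    calc ∑ i, (n i : ℕ) ≤ ∑ _i : β, N := Finset.sum_le_sum fun i _ => Nat.lt_succ_iff.1 (n i).is_lt
      _ = Fintype.card β * N := by rw [Finset.sum_const, Finset.card_univ, smul_eq_mul]
  have h4 : ExpD d (2 * U * Fintype.card β * N) (4 ^ (Fintype.card β * N))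
      (fun t => gco u t (fun i => (n i : ℕ)) J) := h1.mono h2 h3
  exact h4.taylor (by positivity) (by positivity) M

/-- the condition of the box principle -/
private lemma sd_card (U G : ℝ) (hU : 1 ≤ U) (hG : 1 ≤ G) (b d m C2 N : ℕ) (hd : d + 1 ≤ b)
    (hN : 1 ≤ N)
    (hNb : (3 * b + 4 + 2 * d * U * b + d * C2 + G) * (m * 2 ^ b * (C2 : ℝ) ^ d) ≤ N) :
    (2 * (((N : ℝ) + 1) ^ b * (⌊exp (N : ℝ)⌋₊ : ℝ) * (4 ^ (b * N) *
      exp (d * (2 * U * b * N)))) / (exp (-(G + 1) * N) / ((C2 * N : ℕ) : ℝ) ^ d) + 2) ^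
        (m * (2 ^ b * (C2 * N) ^ d)) <
      ((⌊exp (N : ℝ)⌋₊ : ℝ) + 1) ^ ((N + 1) ^ b) := by
  set X : ℝ := (⌊exp (N : ℝ)⌋₊ : ℝ) with hX
  have hNr : (1 : ℝ) ≤ N := by exact_mod_cast hN
  have hX1 : X ≤ exp N := Nat.floor_le (Real.exp_pos _).le
  have hX2 : exp (N : ℝ) < X + 1 := Nat.lt_floor_add_one _
  have hX0 : 0 ≤ X := Nat.cast_nonneg _
  have hM : ((C2 * N : ℕ) : ℝ) ^ d ≤ exp (d * (C2 * N : ℝ)) := by
    rw [Real.exp_nat_mul]
    refine pow_le_pow_left₀ (Nat.cast_nonneg _) ?_ d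
    push_cast
    have := Real.add_one_le_exp (C2 * N : ℝ)
    linarith
  have hbase : 2 * (((N : ℝ) + 1) ^ b * X * (4 ^ (b * N) *
      exp (d * (2 * U * b * N)))) / (exp (-(G + 1) * N) / ((C2 * N : ℕ) : ℝ) ^ d) + 2 ≤
      exp ((3 * b + 4 + 2 * d * U * b + d * C2 + G) * N) := by
    have e1 : 2 * (((N : ℝ) + 1) ^ b * X * (4 ^ (b * N) *
      exp (d * (2 * U * b * N)))) / (exp (-(G + 1) * N) / ((C2 * N : ℕ) : ℝ) ^ d) =
      2 * (((N : ℝ) + 1) ^ b * X * (4 ^ (b * N) * exp (d * (2 * U * b * N)))) *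
        (((C2 * N : ℕ) : ℝ) ^ d * exp ((G + 1) * N)) := by
      rw [div_div_eq_mul_div, div_eq_mul_inv, ← Real.exp_neg]
      rw [show -(-(G + 1) * (N : ℝ)) = (G + 1) * N by ring]
      ring
    have e2 : 2 * (((N : ℝ) + 1) ^ b * X * (4 ^ (b * N) * exp (d * (2 * U * b * N)))) *
        (((C2 * N : ℕ) : ℝ) ^ d * exp ((G + 1) * N)) ≤
        2 * (exp (b * N) * exp N * (exp (2 * (b * N : ℕ)) * exp (d * (2 * U * b * N)))) *
        (exp (d * (C2 * N : ℝ)) * exp ((G + 1) * N)) := by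
      have := sd_pow N b
      have := sd_four (b * N)
      gcongr
    have e3 : 2 * (exp (b * (N : ℝ)) * exp N * (exp (2 * (b * N : ℕ)) *
        exp (d * (2 * U * b * N)))) * (exp (d * (C2 * N : ℝ)) * exp ((G + 1) * N)) =
        2 * exp ((3 * b + 2 + 2 * d * U * b + d * C2 + G) * N) := by
      rw [mul_assoc, ← Real.exp_add, ← Real.exp_add, ← Real.exp_add, ← Real.exp_add,
        ← Real.exp_add]
      congr 2
      push_cast
      ring
    have e4 : (1 : ℝ) ≤ exp ((3 * b + 2 + 2 * d * U * b + d * C2 + G) * N) :=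
      Real.one_le_exp (by positivity)
    have e5 : (4 : ℝ) ≤ exp (2 * N) := by
      have h1 := sd_four 1
      rw [pow_one] at h1
      refine h1.trans (Real.exp_le_exp.2 ?_)
      push_cast
      linarith
    calc _ ≤ 2 * exp ((3 * b + 2 + 2 * d * U * b + d * C2 + G) * N) + 2 := by
          rw [e1]
          linarith [e2, e3]
      _ ≤ 4 * exp ((3 * b + 2 + 2 * d * U * b + d * C2 + G) * N) := by linarith
      _ ≤ exp (2 * N) * exp ((3 * b + 2 + 2 * d * U * b + d * C2 + G) * N) :=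
          mul_le_mul_of_nonneg_right e5 (by positivity)
      _ = exp ((3 * b + 4 + 2 * d * U * b + d * C2 + G) * N) := by
          rw [← Real.exp_add]
          congr 1
          ring
  have hb0 : 0 ≤ 2 * (((N : ℝ) + 1) ^ b * X * (4 ^ (b * N) *
      exp (d * (2 * U * b * N)))) / (exp (-(G + 1) * N) / ((C2 * N : ℕ) : ℝ) ^ d) + 2 := by
    positivity
  calc _ ≤ exp ((3 * b + 4 + 2 * d * U * b + d * C2 + G) * N) ^ (m * (2 ^ b * (C2 * N) ^ d)) :=
        pow_le_pow_left₀ hb0 hbase _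
    _ = exp ((3 * b + 4 + 2 * d * U * b + d * C2 + G) * (m * 2 ^ b * (C2 : ℝ) ^ d) *
        (N : ℝ) ^ (d + 1)) := by
        rw [← Real.exp_nat_mul]
        congr 1
        push_cast
        ring
    _ ≤ exp ((N : ℝ) * (N : ℝ) ^ (d + 1)) := by
        apply Real.exp_le_exp.2
        exact mul_le_mul_of_nonneg_right hNb (by positivity)
    _ ≤ exp ((((N + 1) ^ b : ℕ) : ℝ) * (N : ℝ)) := by
        apply Real.exp_le_exp.2
        rw [mul_comm]
        refine mul_le_mul_of_nonneg_right ?_ (by linarith)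
        push_cast
        exact (pow_le_pow_left₀ (by linarith) (by linarith) (d + 1)).trans
          (pow_le_pow_right₀ (by linarith) hd)
    _ = exp (N : ℝ) ^ ((N + 1) ^ b) := by
        rw [← Real.exp_nat_mul]
    _ < (X + 1) ^ ((N + 1) ^ b) :=
        pow_lt_pow_left₀ hX2 (Real.exp_pos _).le (by positivity)

/-- The case `U, G ≥ 1`. -/
private lemma sd_main {β : Type} [Fintype β] [DecidableEq β] (m d : ℕ)
    (hd : d + 1 ≤ Fintype.card β) (U G : ℝ) (hU : 1 ≤ U) (hG : 1 ≤ G)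
    (u : Fin m → Fin d → β → Fin 2 → ℝ) (hu : ∀ a l i k, |u a l i k| ≤ U) :
    ∃ N0 : ℕ, ∀ N : ℕ, N0 ≤ N →
      ∃ c : (β → Fin (N + 1)) → ℤ, c ≠ 0 ∧ (∀ n, |(c n : ℝ)| ≤ exp N) ∧
        ∀ (a : Fin m) (t : Fin d → ℝ), (∀ l, |t l| ≤ 1) → ∀ J : β → Fin 2,
          |∑ n, (c n : ℝ) * gco (u a) t (fun i => (n i : ℕ)) J| ≤ exp (-G * N) := by
  obtain ⟨b, hb⟩ : ∃ b, b = Fintype.card β := ⟨_, rfl⟩
  rw [← hb] at hd
  obtain ⟨C2, hC2⟩ := exists_nat_ge (3 * (b : ℝ) + 2 + d + 2 * (d + 1) * U * b + G +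
    2 * U * b * exp 2)
  have hb0 : (0 : ℝ) ≤ b := Nat.cast_nonneg b
  have hd0 : (0 : ℝ) ≤ d := Nat.cast_nonneg d
  have hC2a : 3 * (b : ℝ) + 2 + d + 2 * (d + 1) * U * b + G ≤ C2 := by
    have : 0 ≤ 2 * U * b * exp 2 := by positivity
    linarith
  have hC2b : 2 * U * b * exp 2 ≤ C2 := by
    have : 0 ≤ 3 * (b : ℝ) + 2 + d + 2 * (d + 1) * U * b + G := by positivity
    linarith
  obtain ⟨N0, hN0⟩ := exists_nat_ge ((3 * (b : ℝ) + 4 + 2 * d * U * b + d * C2 + G) *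
    (m * 2 ^ b * (C2 : ℝ) ^ d))
  refine ⟨max N0 1, fun N hN => ?_⟩
  have hN1 : 1 ≤ N := (le_max_right _ _).trans hN
  have hNr : (1 : ℝ) ≤ N := by exact_mod_cast hN1
  have hNb : (3 * (b : ℝ) + 4 + 2 * d * U * b + d * C2 + G) * (m * 2 ^ b * (C2 : ℝ) ^ d) ≤ N := by
    refine hN0.trans ?_
    exact_mod_cast (le_max_left _ _).trans hN
  have hC2r : (1 : ℝ) ≤ C2 := by
    have : 0 ≤ 2 * ((d : ℝ) + 1) * U * b := by positivity
    linarith
  set M : ℕ := C2 * N with hM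
  have hMr : (M : ℝ) = C2 * N := by rw [hM]; push_cast; ring
  have hM0r : (0 : ℝ) < M := by
    rw [hMr]
    positivity
  choose T hT1 hT2 using fun (a : Fin m) (n : β → Fin (N + 1)) (J : β → Fin 2) =>
    sd_taylor U hU N M (u a) (hu a) n J
  rw [← hb] at hT1 hT2
  set δ : ℝ := exp (-(G + 1) * N) / (M : ℝ) ^ d with hδ
  have hδ0 : 0 < δ := by positivity
  obtain ⟨c, hc0, hcX, hcδ⟩ := LThree.pigeon (J := β → Fin (N + 1))
    (I := Fin m × (β → Fin 2) × (Fin d → Fin M))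
    (fun n q => T q.1 n q.2.1 q.2.2) ⌊exp (N : ℝ)⌋₊
    (4 ^ (b * N) * exp (d * (2 * U * b * N))) δ (by positivity) hδ0
    (fun n q => hT1 _ _ _ _) (by
      have h1 := sd_card U G hU hG b d m C2 N hd hN1 hNb
      have h2 : Fintype.card (β → Fin (N + 1)) = (N + 1) ^ b := by
        rw [Fintype.card_fun, Fintype.card_fin, hb]
      have h3 : Fintype.card (Fin m × (β → Fin 2) × (Fin d → Fin M)) = m * (2 ^ b * M ^ d) := by
        rw [Fintype.card_prod, Fintype.card_prod, Fintype.card_fun, Fintype.card_fun,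
          Fintype.card_fin, Fintype.card_fin, Fintype.card_fin, Fintype.card_fin, hb]
      rw [h2, h3, hδ]
      have h4 : (((N + 1) ^ b : ℕ) : ℝ) = ((N : ℝ) + 1) ^ b := by push_cast; ring
      rw [h4]
      exact h1)
  have hcb : ∀ p, |(c p : ℝ)| ≤ exp N := by
    intro p
    have h1 : ((|c p| : ℤ) : ℝ) ≤ ((⌊exp (N : ℝ)⌋₊ : ℤ) : ℝ) := by exact_mod_cast hcX p
    rw [Int.cast_abs] at h1
    refine h1.trans ?_
    rw [Int.cast_natCast]
    exact Nat.floor_le (Real.exp_pos _).le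
  refine ⟨c, hc0, hcb, fun a t ht J => ?_⟩
  have e1 : ∑ n, (c n : ℝ) * gco (u a) t (fun i => (n i : ℕ)) J =
      ∑ k : Fin d → Fin M, (∏ l, t l ^ (k l : ℕ)) * ∑ n, (c n : ℝ) * T a n J k +
      ∑ n, (c n : ℝ) * (gco (u a) t (fun i => (n i : ℕ)) J -
        ∑ k : Fin d → Fin M, T a n J k * ∏ l, t l ^ (k l : ℕ)) := by
    have e2 : ∑ k : Fin d → Fin M, (∏ l, t l ^ (k l : ℕ)) * ∑ n, (c n : ℝ) * T a n J k =
        ∑ n, (c n : ℝ) * ∑ k : Fin d → Fin M, T a n J k * ∏ l, t l ^ (k l : ℕ) := by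
      simp only [Finset.mul_sum]
      rw [Finset.sum_comm]
      refine Finset.sum_congr rfl fun p _ => Finset.sum_congr rfl fun k _ => ?_
      ring
    rw [e2, ← Finset.sum_add_distrib]
    refine Finset.sum_congr rfl fun n _ => ?_
    ring
  have b1 : |∑ k : Fin d → Fin M, (∏ l, t l ^ (k l : ℕ)) * ∑ n, (c n : ℝ) * T a n J k| ≤
      exp (-(G + 1) * N) := by
    calc _ ≤ ∑ k : Fin d → Fin M, |(∏ l, t l ^ (k l : ℕ)) * ∑ n, (c n : ℝ) * T a n J k| :=
          Finset.abs_sum_le_sum_abs _ _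
      _ ≤ ∑ _k : Fin d → Fin M, δ := by
          refine Finset.sum_le_sum fun k _ => ?_
          rw [abs_mul]
          have h1 : |∏ l, t l ^ (k l : ℕ)| ≤ 1 := by
            rw [Finset.abs_prod]
            refine Finset.prod_le_one (fun l _ => abs_nonneg _) fun l _ => ?_
            rw [abs_pow]
            exact pow_le_one₀ (abs_nonneg _) (ht l)
          have h2 := hcδ (a, J, k)
          calc _ ≤ 1 * δ := mul_le_mul h1 h2 (abs_nonneg _) zero_le_one
            _ = δ := one_mul _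
      _ = exp (-(G + 1) * N) := by
          rw [Finset.sum_const, Finset.card_univ, Fintype.card_fun, Fintype.card_fin,
            Fintype.card_fin, nsmul_eq_mul, hδ]
          push_cast
          field_simp
  have hfac : (2 * U * b * N) ^ M / M.factorial ≤ exp (-M) := by
    refine sd_fact _ (by positivity) M ?_
    rw [hMr]
    have h2 : 2 * U * b * N * exp 2 = (2 * U * b * exp 2) * N := by ring
    rw [h2]
    exact mul_le_mul_of_nonneg_right hC2b (by linarith)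
  have hdN : (d : ℝ) ≤ exp (d * N) := by
    have h1 := Real.add_one_le_exp ((d : ℝ) * N)
    nlinarith
  have b2 : |∑ n, (c n : ℝ) * (gco (u a) t (fun i => (n i : ℕ)) J -
        ∑ k : Fin d → Fin M, T a n J k * ∏ l, t l ^ (k l : ℕ))| ≤ exp (-(G + 1) * N) := by
    calc _ ≤ ∑ n, |(c n : ℝ) * (gco (u a) t (fun i => (n i : ℕ)) J -
        ∑ k : Fin d → Fin M, T a n J k * ∏ l, t l ^ (k l : ℕ))| := Finset.abs_sum_le_sum_abs _ _
      _ ≤ ∑ _n : β → Fin (N + 1), exp N * (exp (2 * (b * N : ℕ)) *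
            (exp (d * N) * exp (-M) * exp ((d + 1) * (2 * U * b * N)))) := by
          refine Finset.sum_le_sum fun n _ => ?_
          rw [abs_mul]
          have h1 := hT2 a n J t ht
          have h2 : 4 ^ (b * N) * (d * ((2 * U * b * N) ^ M / M.factorial) *
              exp ((d + 1) * (2 * U * b * N))) ≤ exp (2 * (b * N : ℕ)) *
            (exp (d * N) * exp (-M) * exp ((d + 1) * (2 * U * b * N))) := by
            have := sd_four (b * N)
            gcongr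
          exact mul_le_mul (hcb n) (h1.trans h2) (abs_nonneg _) (Real.exp_pos _).le
      _ = ((N : ℝ) + 1) ^ b * (exp N * (exp (2 * (b * N : ℕ)) *
            (exp (d * N) * exp (-M) * exp ((d + 1) * (2 * U * b * N))))) := by
          rw [Finset.sum_const, Finset.card_univ, nsmul_eq_mul, Fintype.card_fun,
            Fintype.card_fin, ← hb]
          push_cast
          ring
      _ ≤ exp (b * N) * (exp N * (exp (2 * (b * N : ℕ)) *
            (exp (d * N) * exp (-M) * exp ((d + 1) * (2 * U * b * N))))) :=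
          mul_le_mul_of_nonneg_right (sd_pow N b) (by positivity)
      _ = exp ((3 * b + 1 + d + 2 * (d + 1) * U * b - C2) * N) := by
          rw [← Real.exp_add, ← Real.exp_add, ← Real.exp_add, ← Real.exp_add, ← Real.exp_add, hMr]
          congr 1
          push_cast
          ring
      _ ≤ exp (-(G + 1) * N) := by
          apply Real.exp_le_exp.2
          apply mul_le_mul_of_nonneg_right _ (by positivity)
          linarith
  rw [e1]
  have hexp : exp (-(G + 1) * N) * 2 ≤ exp (-G * N) := by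
    have h1 : (2 : ℝ) ≤ exp N := by
      have := Real.add_one_le_exp (N : ℝ)
      linarith
    have h2 : exp (-G * (N : ℝ)) = exp (-(G + 1) * N) * exp N := by
      rw [← Real.exp_add]
      congr 1
      ring
    rw [h2]
    exact mul_le_mul_of_nonneg_left h1 (Real.exp_pos _).le
  refine (abs_add_le _ _).trans ?_
  linarith

/-- **Small on finitely many subspaces.** `b = |β|`, `d + 1 ≤ b`.

Proof. We may assume `U, G ≥ 1`. For `n i ≤ N`: `t ↦ gco u t n J` is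
`ExpD d (2 U b N) (4 ^ (b N))` (`pwc_expD`, `ExpD.prod`, `ExpD.mono`). Let `C2 : ℕ` be large in terms of
`U, G, b, d` (`C2 ≥ 8 U b exp 2` and `C2 ≥ 3 + G + 2 b + 2 b + 2 (d + 1) U b + 2`), `M = C2 N`, `Λ = 2 U b N`,
and apply `LThree.pigeon` with the index sets `J = (β → Fin (N + 1))`,
`I = Fin m × (β → Fin 2) × (Fin d → Fin M)`, the Taylor coefficients of `ExpD.taylor`, bounded by
`R = 4 ^ (b N) exp (d Λ)`, `X = ⌊exp N⌋₊` and `δ = exp (- (G + 1) N) / M ^ d`. Main terms: at most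
`M ^ d δ = exp (-(G+1) N) ≤ exp (-G N) / 2`. Remainder: at most
`(N + 1) ^ b exp N 4 ^ (b N) d (Λ ^ M / M!) exp ((d + 1) Λ) ≤ exp (-G N) / 2`, as
`Λ ^ M / M! ≤ exp (- M)` (`sc_fact` in `LThree/SmallCoef.lean`: `Λ exp 2 ≤ M`), `(N+1)^b ≤ exp (b N)`,
`4 ^ (b N) ≤ exp (2 b N)`. The condition of `pigeon`: with a constant `C3` (depending on
`U, G, b, d, C2`) the left side is at most `exp (C3 N) ^ (m 2 ^ b (C2 N) ^ d)
= exp (C3 m 2 ^ b C2 ^ d N ^ (d + 1))`, the right side is at least `exp (N (N + 1) ^ b) ≥ exp (N ^ (b + 1))`,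
and `d + 1 ≤ b`: fine for `N > C3 m 2 ^ b C2 ^ d`. -/
theorem small_coefD {β : Type} [Fintype β] [DecidableEq β] (m d : ℕ) (hd : d + 1 ≤ Fintype.card β)
    (u : Fin m → Fin d → β → Fin 2 → ℝ) (G : ℝ) : ∃ N0 : ℕ, ∀ N : ℕ, N0 ≤ N →
      ∃ c : (β → Fin (N + 1)) → ℤ, c ≠ 0 ∧ (∀ n, |(c n : ℝ)| ≤ exp N) ∧
        ∀ (a : Fin m) (t : Fin d → ℝ), (∀ l, |t l| ≤ 1) → ∀ J : β → Fin 2,
          |∑ n, (c n : ℝ) * gco (u a) t (fun i => (n i : ℕ)) J| ≤ exp (-G * N) := by
  obtain ⟨U, hU1, hU⟩ : ∃ U : ℝ, 1 ≤ U ∧ ∀ a l i k, |u a l i k| ≤ U := by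
    obtain ⟨U, hU⟩ : ∃ U : ℝ, ∀ q : Fin m × Fin d × β × Fin 2,
        |u q.1 q.2.1 q.2.2.1 q.2.2.2| ≤ U := by
      obtain ⟨U, hU⟩ := (Set.finite_range fun q : Fin m × Fin d × β × Fin 2 =>
        |u q.1 q.2.1 q.2.2.1 q.2.2.2|).bddAbove
      exact ⟨U, fun q => hU ⟨q, rfl⟩⟩
    exact ⟨max U 1, le_max_right _ _, fun a l i k => (hU (a, l, i, k)).trans (le_max_left _ _)⟩
  obtain ⟨N0, h⟩ := sd_main m d hd U (max G 1) hU1 (le_max_right _ _) u hU
  refine ⟨N0, fun N hN => ?_⟩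
  obtain ⟨c, hc0, hcb, hc⟩ := h N hN
  refine ⟨c, hc0, hcb, fun a t ht J => (hc a t ht J).trans (Real.exp_le_exp.2 ?_)⟩
  have h1 : G ≤ max G 1 := le_max_left _ _
  have h2 : (0 : ℝ) ≤ N := Nat.cast_nonneg _
  nlinarith

end Pool.Agent.LAll
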