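import Pool.Agent.LAll.FieldUV
import Pool.Agent.LThree.FieldThm

set_option autoImplicit false

/-! UV30. From number fields to all fields of characteristic zero, and to groups of finite rank. -/

namespace Pool.Agent.LAll

open NumberField Height Real Module Pool.Agent.LThree

/-- **Groups of rank `≤ ρ`.** If all `z i` are in a subgroup `Γ` of `Fˣ` whose rank (as a `ℤ`-module,
= `dim Γ ⊗ ℚ`) is at most `ρ`, then `RankLe ρ z`.

Proof. The kernel `M` of `φ : (ι → ℤ) → Additive Γ`, `a ↦ ∑ a i • u i` (`u i ∈ Γ` with value `z i`)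
satisfies `rank M + rank (range φ) = card ι` (`rank_quotient_add_rank_of_isDomain` or
`LinearMap.rank_range_add_rank_ker`-like for domains) and `rank (range φ) ≤ rank Γ ≤ ρ`
(`Submodule.rank_le`), so `card ι ≤ finrank ℤ M + ρ`; for `a ∈ M`, `mono z a = 1`.
`LThree.rankLe_of_submodule`. -/
theorem rankLe_of_group {F : Type} [Field F] {ι : Type} [Fintype ι] (Γ : Subgroup Fˣ) (ρ : ℕ)
    (hΓ : Module.rank ℤ (Additive Γ) ≤ ρ) (z : ι → F) (hz : ∀ i, ∃ u ∈ Γ, (u : F) = z i) :
    RankLe ρ z := by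
  classical
  choose u huΓ hu using hz
  let v : ι → Additive Γ := fun i => Additive.ofMul (⟨u i, huΓ i⟩ : Γ)
  let φ : (ι → ℤ) →ₗ[ℤ] Additive Γ := Fintype.linearCombination ℤ v
  refine rankLe_of_submodule z ρ (LinearMap.ker φ) ?_ ?_
  · have h1 := LinearMap.rank_range_add_rank_ker φ
    have h2 : Module.rank ℤ (ι → ℤ) = (Fintype.card ι : Cardinal) := rank_fun'
    have h3 : Module.rank ℤ (LinearMap.range φ) ≤ ρ := (Submodule.rank_le _).trans hΓ
    have h4 : ((finrank ℤ (LinearMap.ker φ) : ℕ) : Cardinal) =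
        Module.rank ℤ (LinearMap.ker φ) := finrank_eq_rank ℤ _
    have h5 : (Fintype.card ι : Cardinal) ≤ ((finrank ℤ (LinearMap.ker φ) + ρ : ℕ) : Cardinal) := by
      rw [← h2, ← h1, Nat.cast_add, h4, add_comm]
      gcongr
    exact_mod_cast h5
  · intro a ha
    refine ⟨1, one_pos, ?_⟩
    rw [pow_one]
    have h1 : ∑ i, a i • v i = 0 := by
      rw [← Fintype.linearCombination_apply ℤ v a]
      exact ha
    have h2 : (∏ i, (⟨u i, huΓ i⟩ : Γ) ^ a i) = 1 := by
      apply Additive.ofMul.injective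
      rw [ofMul_prod, ofMul_one, ← h1]
      rfl
    have h3 := congrArg (fun g : Γ => ((g : Fˣ) : F)) h2
    simp only [Subgroup.val_finsetProd, Subgroup.coe_zpow, Units.coe_prod,
      Units.val_zpow_eq_zpow_val, Subgroup.coe_one, Units.val_one, hu] at h3
    exact h3

private lemma mono_smul' {F : Type} [Field F] {ι : Type} [Fintype ι] (z : ι → F) (m : ℕ)
    (a : ι → ℤ) : mono z (m • a) = mono z a ^ m := by
  unfold mono
  rw [← Finset.prod_pow]
  apply Finset.prod_congr rfl
  intro i _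
  rw [← zpow_natCast, ← zpow_mul]
  congr 1
  simp [mul_comm]

/-- integer vectors as rational vectors -/
private def toQ (ι : Type) : (ι → ℤ) →ₗ[ℤ] (ι → ℚ) where
  toFun a i := (a i : ℚ)
  map_add' a b := by
    funext i
    simp
  map_smul' c a := by
    funext i
    simp

private lemma clear_den {κ : Type} [Finite κ] (v : κ → ℚ) :
    ∃ N : ℕ, 0 < N ∧ ∃ a : κ → ℤ, ∀ i, (a i : ℚ) = N * v i := by
  obtain ⟨b, hb⟩ := IsLocalization.exist_integer_multiples_of_finite (nonZeroDivisors ℤ) v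
  choose a ha using hb
  have hb0 : (b : ℤ) ≠ 0 := nonZeroDivisors.coe_ne_zero b
  refine ⟨(b : ℤ).natAbs, Int.natAbs_pos.2 hb0, fun i => Int.sign (b : ℤ) * a i, fun i => ?_⟩
  have h1 : ((a i : ℤ) : ℚ) = (b : ℤ) * v i := by
    have h2 := ha i
    rw [Algebra.smul_def] at h2
    exact_mod_cast h2
  rw [Int.cast_mul, h1, ← mul_assoc, ← Int.cast_mul, Int.sign_mul_self_eq_natAbs,
    Int.cast_natCast]

/-- independent relations (as in `LThree.FieldThm`) -/
private lemma exists_rel {F : Type} [Field F] {ι : Type} [Fintype ι] {z : ι → F} {k : ℕ}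
    (h : RankLe k z) : ∃ (n : ℕ) (u : Fin n → ι → ℤ), Fintype.card ι ≤ n + k ∧
      LinearIndependent ℤ u ∧ ∀ j, mono z (u j) = 1 := by
  classical
  obtain ⟨U, hU, hz⟩ := h
  let b := finBasis ℚ U
  let v : Fin (finrank ℚ U) → ι → ℚ := fun j => (b j : ι → ℚ)
  have hv : LinearIndependent ℚ v :=
    b.linearIndependent.map' U.subtype (Submodule.ker_subtype U)
  choose N hN a ha using fun j => clear_den (v j)
  have haU : ∀ j, (fun i => (a j i : ℚ)) ∈ U := by
    intro j
    have h1 : (fun i => (a j i : ℚ)) = (N j : ℚ) • v j := by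
      funext i
      rw [ha j i]
      rfl
    rw [h1]
    exact Submodule.smul_mem _ _ (b j).2
  choose m hm hmz using fun j => hz (a j) (haU j)
  refine ⟨finrank ℚ U, fun j => m j • a j, hU, ?_, fun j => ?_⟩
  · have h1 : LinearIndependent ℚ fun j => toQ ι (m j • a j) := by
      have h2 : ∀ j, ((m j * N j : ℕ) : ℚ) ≠ 0 := fun j =>
        Nat.cast_ne_zero.2 (Nat.mul_pos (hm j) (hN j)).ne'
      have h3 := hv.units_smul fun j => Units.mk0 ((m j * N j : ℕ) : ℚ) (h2 j)
      convert h3 using 1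
      funext j i
      change ((m j • a j) i : ℤ) = ((m j * N j : ℕ) : ℚ) * v j i
      rw [Pi.smul_apply, nsmul_eq_mul]
      push_cast
      rw [ha j i]
      ring
    rw [← LinearIndependent.iff_fractionRing (R := ℤ) (K := ℚ)] at h1
    exact LinearIndependent.of_comp (toQ ι) h1
  · change mono z (m j • a j) = 1
    rw [mono_smul']
    exact hmz j

/-- Conversely independent relations give the rank. -/
private lemma rankLe_of_rel {F : Type} [Field F] {ι : Type} [Fintype ι] {z : ι → F} {k n : ℕ}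
    (hz : ∀ i, z i ≠ 0) (u : Fin n → ι → ℤ) (hn : Fintype.card ι ≤ n + k)
    (hu : LinearIndependent ℤ u) (h : ∀ j, mono z (u j) = 1) : RankLe k z := by
  classical
  refine rankLe_of_submodule z k (Submodule.span ℤ (Set.range u)) ?_ ?_
  · rw [finrank_span_eq_card hu, Fintype.card_fin]
    exact hn
  · intro a ha
    refine ⟨1, one_pos, ?_⟩
    rw [pow_one]
    induction ha using Submodule.span_induction with
    | mem a ha =>
      obtain ⟨j, rfl⟩ := ha
      exact h j
    | zero => simp [mono]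
    | add a b _ _ ha hb =>
      have h1 : mono z (a + b) = mono z a * mono z b := by
        unfold mono
        rw [← Finset.prod_mul_distrib]
        refine Finset.prod_congr rfl fun i _ => ?_
        rw [Pi.add_apply, zpow_add₀ (hz i)]
      rw [h1, ha, hb, one_mul]
    | smul c a _ ha =>
      have h1 : mono z (c • a) = mono z a ^ c := by
        unfold mono
        rw [← Finset.prod_zpow]
        refine Finset.prod_congr rfl fun i _ => ?_
        rw [Pi.smul_apply, smul_eq_mul, mul_comm, zpow_mul]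
      rw [h1, ha, one_zpow]

/-- Monomials in units and ring homomorphisms to a field. -/
private lemma mono_map {A F : Type} [CommRing A] [Field F] {ι : Type} [Fintype ι] (φ : A →+* F)
    (z : ι → Aˣ) (a : ι → ℤ) :
    mono (fun i => φ (z i : A)) a = φ ((∏ i, z i ^ a i : Aˣ) : A) := by
  have h1 : φ ((∏ i, z i ^ a i : Aˣ) : A) = (Units.map (φ : A →* F) (∏ i, z i ^ a i) : F) := rfl
  rw [h1, map_prod, Units.coe_prod]
  unfold mono
  refine Finset.prod_congr rfl fun i _ => ?_
  rw [map_zpow, Units.val_zpow_eq_zpow_val]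
  rfl

/-- A finitely generated `ℚ`-algebra has a homomorphism to a number field. -/
private lemma exists_point (A : Type) [CommRing A] [Nontrivial A] [Algebra ℚ A]
    [Algebra.FiniteType ℚ A] : ∃ (K : Type) (_ : Field K) (_ : NumberField K), Nonempty (A →+* K) := by
  obtain ⟨𝔪, h𝔪⟩ := Ideal.exists_maximal A
  let _ : Field (A ⧸ 𝔪) := Ideal.Quotient.field 𝔪
  have hft2 : Algebra.FiniteType ℚ (A ⧸ 𝔪) :=
    Algebra.FiniteType.of_surjective (Ideal.Quotient.mkₐ ℚ 𝔪) (Ideal.Quotient.mkₐ_surjective ℚ 𝔪)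
  have hfin : Module.Finite ℚ (A ⧸ 𝔪) := finite_of_finite_type_of_isJacobsonRing ℚ (A ⧸ 𝔪)
  have hchar : CharZero (A ⧸ 𝔪) := algebraRat.charZero (A ⧸ 𝔪)
  have halg : (Ideal.instAlgebraQuotient ℚ 𝔪 : Algebra ℚ (A ⧸ 𝔪)) =
      (DivisionRing.toRatAlgebra : Algebra ℚ (A ⧸ 𝔪)) := Subsingleton.elim _ _
  have h1 : @Module.Finite ℚ (A ⧸ 𝔪) _ _
      (DivisionRing.toRatAlgebra : Algebra ℚ (A ⧸ 𝔪)).toModule := by
    rw [← halg]
    exact hfin
  exact ⟨A ⧸ 𝔪, inferInstance, { to_charZero := hchar, to_finiteDimensional := h1 },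
    ⟨Ideal.Quotient.mk 𝔪⟩⟩

/-- Finitely many elements of a field of characteristic zero are in a ring which has a homomorphism
to a number field. -/
private lemma exists_spec {F : Type} [Field F] [CharZero F] (s : Finset F) :
    ∃ (A : Type) (_ : CommRing A) (K : Type) (_ : Field K) (_ : NumberField K) (φ : A →+* F)
      (_ : A →+* K), Function.Injective φ ∧ ∀ a ∈ s, ∃ b, φ b = a := by
  have hft : Algebra.FiniteType ℚ (Algebra.adjoin ℚ (s : Set F)) :=
    (Subalgebra.fg_iff_finiteType _).1 ⟨s, rfl⟩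
  obtain ⟨K, _, _, ⟨ψ⟩⟩ := exists_point (Algebra.adjoin ℚ (s : Set F))
  exact ⟨Algebra.adjoin ℚ (s : Set F), inferInstance, K, inferInstance, inferInstance,
    (Algebra.adjoin ℚ (s : Set F)).val, ψ, Subtype.val_injective,
    fun a ha => ⟨⟨a, Algebra.subset_adjoin ha⟩, rfl⟩⟩

/-- **Specialisation.** Let `U` be the space of `RankLe`. The group `{a : ι ⊕ ι → ℤ | (a : ℚ) ∈ U}` is
finitely generated (`Submodule` of a noetherian `ℤ`-module), generators `a_1, ..., a_s`, with
`mono (co x) (a_l) ^ m_l = 1`. Let `A` be the `ℚ`-subalgebra of `F` generated by the `x_i`, `x_i⁻¹`,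
`(1 - x_i)⁻¹` and `(aeval x f)⁻¹`: a domain, finitely generated over `ℚ`. Let `𝔪` be a maximal ideal; `K = A ⧸ 𝔪`
is a field, finitely generated as an algebra, hence finite over `ℚ` (`finite_of_finite_type_of_isJacobsonRing`),
hence a number field; `y_i` the class of `x_i`. The images of `x_i`, `1 - x_i`, `f(x)` are invertible, the
relations `mono (co y) (a_l) ^ m_l = 1` hold (write negative powers with the inverses in `A`: the units of `A`
map to the units of `K`, `Units.map`), and then `mono (co y) a ^ (∏ m_l) = 1` for all integral `a ∈ U`. -/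
theorem specialise {r : ℕ} (F : Type) [Field F] [CharZero F] (x : Fin r → F)
    (hx : ∀ i, x i ≠ 0 ∧ x i ≠ 1) (ρ : ℕ) (h : RankLe ρ (co x)) (f : MvPolynomial (Fin r) ℤ)
    (hf : MvPolynomial.aeval x f ≠ 0) :
    ∃ (K : Type) (_ : Field K) (_ : NumberField K) (y : Fin r → K),
      (∀ i, y i ≠ 0 ∧ y i ≠ 1) ∧ RankLe ρ (co y) ∧ MvPolynomial.aeval y f ≠ 0 := by
  classical
  obtain ⟨n, u, hn, hu, hu1⟩ := exists_rel h
  set w : F := MvPolynomial.aeval x f with hw
  obtain ⟨A, _, K, _, _, φ, ψ, hφ, hs⟩ := exists_spec ((Finset.univ.image x) ∪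
    (Finset.univ.image fun i => (x i)⁻¹) ∪ (Finset.univ.image fun i => (1 - x i)⁻¹) ∪ {w⁻¹})
  have hs1 : ∀ i, ∃ b, φ b = x i := fun i => hs _ (by simp)
  have hs2 : ∀ i, ∃ b, φ b = (x i)⁻¹ := fun i => hs _ (by simp)
  have hs3 : ∀ i, ∃ b, φ b = (1 - x i)⁻¹ := fun i => hs _ (by simp)
  obtain ⟨w', hw'⟩ : ∃ b, φ b = w⁻¹ := hs _ (by simp)
  choose xa hxa using hs1
  choose xi hxi using hs2
  choose xj hxj using hs3
  have hx1 : ∀ i, 1 - x i ≠ 0 := fun i => sub_ne_zero.2 (hx i).2.symm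
  -- the units
  have e1 : ∀ i, xa i * xi i = 1 := fun i => hφ (by
    rw [map_mul, map_one, hxa, hxi, mul_inv_cancel₀ (hx i).1])
  have e2 : ∀ i, (1 - xa i) * xj i = 1 := fun i => hφ (by
    rw [map_mul, map_one, map_sub, map_one, hxa, hxj, mul_inv_cancel₀ (hx1 i)])
  let zx : Fin r → Aˣ := fun i => Units.mkOfMulEqOne _ _ (e1 i)
  let z1 : Fin r → Aˣ := fun i => Units.mkOfMulEqOne _ _ (e2 i)
  let z : Fin r ⊕ Fin r → Aˣ := Sum.elim zx z1
  have hmap : ∀ {G : Type} [Field G] (χ : A →+* G), χ (MvPolynomial.aeval xa f) =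
      MvPolynomial.aeval (fun i => χ (xa i)) f := by
    intro G _ χ
    rw [MvPolynomial.aeval_def, MvPolynomial.aeval_def, MvPolynomial.hom_eval₂]
    congr 1
    exact RingHom.ext_int _ _
  have hwA : φ (MvPolynomial.aeval xa f) = w := by
    rw [hmap, hw]
    simp only [hxa]
  have e3 : MvPolynomial.aeval xa f * w' = 1 := hφ (by
    rw [map_mul, map_one, hwA, hw', mul_inv_cancel₀ hf])
  let y : Fin r → K := fun i => ψ (xa i)
  have hco : ∀ {G : Type} [Field G] (χ : A →+* G),
      (fun i => χ (z i : A)) = co (fun i => χ (xa i)) := by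
    intro G _ χ
    funext i
    rcases i with i | i
    · rfl
    · change χ (1 - xa i) = 1 - χ (xa i)
      rw [map_sub, map_one]
  have hy0 : ∀ i, y i ≠ 0 := by
    intro i h0
    have h1 := congrArg ψ (e1 i)
    rw [map_mul, map_one] at h1
    change y i * _ = 1 at h1
    rw [h0, zero_mul] at h1
    exact zero_ne_one h1
  have hy1 : ∀ i, 1 - y i ≠ 0 := by
    intro i h0
    have h1 := congrArg ψ (e2 i)
    rw [map_mul, map_one, map_sub, map_one] at h1
    change (1 - y i) * _ = 1 at h1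
    rw [h0, zero_mul] at h1
    exact zero_ne_one h1
  refine ⟨K, inferInstance, inferInstance, y,
    fun i => ⟨hy0 i, fun h1 => hy1 i (by rw [h1, sub_self])⟩, ?_, ?_⟩
  · refine rankLe_of_rel ?_ u hn hu ?_
    · rintro (i | i)
      · exact hy0 i
      · exact hy1 i
    · intro j
      have h1 : mono (fun i => φ (z i : A)) (u j) = 1 := by
        rw [hco]
        simp only [hxa]
        exact hu1 j
      rw [mono_map] at h1
      have h2 : ((∏ i, z i ^ u j i : Aˣ) : A) = 1 := hφ (h1.trans (map_one φ).symm)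
      have h3 := mono_map ψ z (u j)
      rw [h2, map_one, hco] at h3
      exact h3
  · intro h0
    have h1 := congrArg ψ e3
    rw [map_mul, map_one, hmap] at h1
    change MvPolynomial.aeval y f * _ = 1 at h1
    rw [h0, zero_mul] at h1
    exact zero_ne_one h1

/-- **Theorem U.** `field_U`, `specialise`, `rankLe_of_group` (for `z = co x`). -/
theorem theorem_U (ρ : ℕ) (hρ : 1 ≤ ρ) :
    ∃ f : MvPolynomial (Fin ((ρ - 1) ^ 2 + 2)) ℤ, f ≠ 0 ∧
      ∀ (F : Type) [Field F] [CharZero F] (Γ : Subgroup Fˣ), Module.rank ℤ (Additive Γ) ≤ ρ →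
        ∀ x : Fin ((ρ - 1) ^ 2 + 2) → F,
          (∀ i, (∃ u ∈ Γ, (u : F) = x i) ∧ ∃ u ∈ Γ, (u : F) = 1 - x i) →
          MvPolynomial.aeval x f = 0 := by
  obtain ⟨f, hf0, hf⟩ := field_U ρ hρ
  refine ⟨f, hf0, ?_⟩
  intro F _ _ Γ hΓ x hx
  by_contra hne
  have hx0 : ∀ i, x i ≠ 0 ∧ x i ≠ 1 := by
    intro i
    obtain ⟨⟨u, -, hu⟩, ⟨v, -, hv⟩⟩ := hx i
    refine ⟨?_, fun h1 => ?_⟩
    · rw [← hu]
      exact u.ne_zero
    · rw [h1, sub_self] at hv
      exact v.ne_zero hv
  have hr : RankLe ρ (co x) := by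
    refine rankLe_of_group Γ ρ hΓ (co x) ?_
    rintro (i | i)
    · exact (hx i).1
    · exact (hx i).2
  obtain ⟨K, _, _, y, hy, hyr, hyf⟩ := specialise F x hx0 ρ hr f hne
  exact hyf (hf K y hy hyr)

end Pool.Agent.LAll
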