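import Pool.Agent.LAll.Places
import Pool.Agent.LAll.Defs

set_option autoImplicit false

/-! UV09. The tropical line at one place. -/

namespace Pool.Agent.LAll

open NumberField Height Real Module

variable {K : Type} [Field K] [NumberField K] {S : Finset (FinitePlace K)}

private theorem tr_log {t : ℝ} (h1 : 1 / 3 ≤ t) (h2 : t ≤ 3) : |log t| ≤ 2 := by
  have ht : 0 < t := by linarith
  rw [abs_le]
  constructor
  · have h3 := Real.one_sub_inv_le_log_of_pos ht
    have h4 : t⁻¹ ≤ 3 := by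
      rw [inv_le_comm₀ ht (by norm_num)]
      linarith
    linarith
  · have h3 := Real.log_le_sub_one_of_pos ht
    linarith

private theorem tr_inf {a b : ℝ} (ha : 0 < a) (hb : 0 < b) (h1 : b ≤ 1 + a) (h2 : a ≤ 1 + b)
    (h3 : 1 ≤ a + b) : ∃ (c : Fin 3) (A : ℝ), 0 ≤ A ∧ |log a - A * dir c 0| ≤ 2 ∧
      |log b - A * dir c 1| ≤ 2 := by
  rcases le_or_gt a (1 / 2) with ha2 | ha2
  · refine ⟨0, -log a, ?_, ?_, ?_⟩
    · have := Real.log_nonpos ha.le (by linarith)
      linarith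
    · simp [dir]
    · have := tr_log (t := b) (by linarith) (by linarith)
      simpa [dir] using this
  rcases le_or_gt b (1 / 2) with hb2 | hb2
  · refine ⟨1, -log b, ?_, ?_, ?_⟩
    · have := Real.log_nonpos hb.le (by linarith)
      linarith
    · have := tr_log (t := a) (by linarith) (by linarith)
      simpa [dir] using this
    · simp [dir]
  rcases le_or_gt 2 a with ha3 | ha3
  · refine ⟨2, log a, Real.log_nonneg (by linarith), ?_, ?_⟩
    · simp [dir]
    · have h4 : 1 / 3 ≤ b / a := by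
        rw [le_div_iff₀ ha]
        linarith
      have h5 : b / a ≤ 3 := by
        rw [div_le_iff₀ ha]
        linarith
      have := tr_log h4 h5
      rw [Real.log_div hb.ne' ha.ne'] at this
      simpa [dir] using this
  · refine ⟨0, 0, le_rfl, ?_, ?_⟩
    · have := tr_log (t := a) (by linarith) (by linarith)
      simpa using this
    · have := tr_log (t := b) (by linarith) (by linarith)
      simpa using this

private theorem tr_fin {a b : ℝ} (ha : 0 < a) (hb : 0 < b) (h1 : b ≤ max 1 a)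
    (h2 : a ≤ max 1 b) (h3 : 1 ≤ max a b) : ∃ (c : Fin 3) (A : ℝ), 0 ≤ A ∧
      log a = A * dir c 0 ∧ log b = A * dir c 1 := by
  rcases lt_trichotomy a 1 with h | h | h
  · rw [max_eq_left h.le] at h1
    have h4 : b = 1 := le_antisymm h1 ((le_max_iff.1 h3).resolve_left (not_le.2 h))
    refine ⟨0, -log a, ?_, ?_, ?_⟩
    · have := Real.log_nonpos ha.le h.le
      linarith
    · simp [dir]
    · simp [dir, h4]
  · subst h
    rw [max_self] at h1
    refine ⟨1, -log b, ?_, ?_, ?_⟩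
    · have := Real.log_nonpos hb.le h1
      linarith
    · simp [dir]
    · simp [dir]
  · rw [max_eq_right h.le] at h1
    have h4 : a = b := le_antisymm ((le_max_iff.1 h2).resolve_left (not_le.2 h)) h1
    refine ⟨2, log a, Real.log_nonneg h.le, ?_, ?_⟩
    · simp [dir]
    · simp [dir, h4]

/-- **The pair `(log |x|, log |1 - x|)` is near one of three half lines.**

Finite place (`wt v = 0`, all is exact by the ultrametric inequality): `|x| < 1`: `|1 - x| = 1`,
`c = 0`, `A = -lam v x`. `|x| > 1`: `|1 - x| = |x|`, `c = 2`, `A = lam v x`. `|x| = 1`: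
`|1 - x| ≤ 1`, `c = 1`, `A = -lam v (1 - x)`.
Infinite place (`|.|` an absolute value, `dg v / [K:ℚ] = wt v`, so the claim is about `log`, with
error `2`): `|x| ≤ 1/2`: `c = 0`, `A = wt v * (-log |x|)`, `1/2 ≤ |1 - x| ≤ 3/2`.
`|1 - x| ≤ 1/2`: `c = 1` symmetric. `|x| ≥ 2`: `c = 2`, `A = wt v * log |x|`,
`|1 - x| / |x| ∈ [1/2, 3/2]`. Otherwise `1/2 < |x| < 2`, `1/2 < |1 - x| < 3`: `A = 0`,
`c` arbitrary, `log 3 ≤ 2`. -/
theorem lam_tri (v : Plc K S) (x : K) (hx0 : x ≠ 0) (hx1 : 1 - x ≠ 0) :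
    ∃ (c : Fin 3) (A : ℝ), 0 ≤ A ∧ |lam v x - A * dir c 0| ≤ 2 * wt v ∧
      |lam v (1 - x) - A * dir c 1| ≤ 2 * wt v := by
  have ha := ab_pos v hx0
  have hb := ab_pos v hx1
  have hn : (0 : ℝ) < finrank ℚ K := by exact_mod_cast finrank_pos
  rcases v with v | v
  · have e1 : ab (Sum.inl v : Plc K S) x = v x := rfl
    have e2 : ab (Sum.inl v : Plc K S) (1 - x) = v (1 - x) := rfl
    rw [e1] at ha
    rw [e2] at hb
    have t1 : v (1 - x) ≤ 1 + v x := by
      have h := v.1.sub_le_add 1 x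
      have h1 : v.1 1 = 1 := map_one v.1
      rw [h1] at h
      exact h
    have t2 : v x ≤ 1 + v (1 - x) := by
      have h := v.1.sub_le_add 1 (1 - x)
      have h1 : v.1 1 = 1 := map_one v.1
      rw [h1, sub_sub_cancel] at h
      exact h
    have t3 : 1 ≤ v x + v (1 - x) := by
      have h := v.1.add_le x (1 - x)
      have h1 : v.1 1 = 1 := map_one v.1
      rw [add_sub_cancel, h1] at h
      exact h
    obtain ⟨c, A, hA, h4, h5⟩ := tr_inf ha hb t1 t2 t3
    have hw : (0 : ℝ) ≤ (v.mult : ℝ) / finrank ℚ K := by positivity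
    have e3 : wt (Sum.inl v : Plc K S) = (v.mult : ℝ) / finrank ℚ K := rfl
    have e4 : ∀ z, lam (Sum.inl v : Plc K S) z = (v.mult : ℝ) / finrank ℚ K * log (v z) := by
      intro z
      show (v.mult : ℝ) * log (v z) / finrank ℚ K = _
      ring
    refine ⟨c, (v.mult : ℝ) / finrank ℚ K * A, mul_nonneg hw hA, ?_, ?_⟩
    · rw [e3, e4, mul_assoc, ← mul_sub, abs_mul, abs_of_nonneg hw, mul_comm 2]
      exact mul_le_mul_of_nonneg_left h4 hw
    · rw [e3, e4, mul_assoc, ← mul_sub, abs_mul, abs_of_nonneg hw, mul_comm 2]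
      exact mul_le_mul_of_nonneg_left h5 hw
  · have e1 : ab (Sum.inr v : Plc K S) x = v.1 x := rfl
    have e2 : ab (Sum.inr v : Plc K S) (1 - x) = v.1 (1 - x) := rfl
    rw [e1] at ha
    rw [e2] at hb
    have t0 : ∀ y z : K, v.1 (y - z) ≤ max (v.1 y) (v.1 z) := by
      intro y z
      have h := FinitePlace.add_le v.1 y (-z)
      rw [map_neg_eq_map, ← sub_eq_add_neg] at h
      exact h
    have t1 : v.1 (1 - x) ≤ max 1 (v.1 x) := by
      have h := t0 1 x
      rwa [map_one] at h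
    have t2 : v.1 x ≤ max 1 (v.1 (1 - x)) := by
      have h := t0 1 (1 - x)
      rwa [map_one, sub_sub_cancel] at h
    have t3 : 1 ≤ max (v.1 x) (v.1 (1 - x)) := by
      have h := FinitePlace.add_le v.1 x (1 - x)
      rwa [add_sub_cancel, map_one] at h
    obtain ⟨c, A, hA, h4, h5⟩ := tr_fin ha hb t1 t2 t3
    have e3 : wt (Sum.inr v : Plc K S) = 0 := rfl
    have e4 : ∀ z, lam (Sum.inr v : Plc K S) z = log (v.1 z) / finrank ℚ K := by
      intro z
      show 1 * log (v.1 z) / finrank ℚ K = _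
      rw [one_mul]
    refine ⟨c, A / finrank ℚ K, by positivity, ?_, ?_⟩
    · rw [e3, e4, h4, mul_div_right_comm, sub_self, abs_zero, mul_zero]
    · rw [e3, e4, h5, mul_div_right_comm, sub_self, abs_zero, mul_zero]

/-- The three coordinates. -/
def tt {F : Type} [Field F] (c : Fin 3) (x : F) : F := ![x, 1 - x, (1 - x)⁻¹] c

private theorem tr_off {F : Type} [Field F] {x : F} (hx1 : 1 - x ≠ 0) :
    1 - (1 - x)⁻¹ = -x * (1 - x)⁻¹ := by
  field_simp
  ring

theorem tt_ne_zero {F : Type} [Field F] (c : Fin 3) (x : F) (hx0 : x ≠ 0) (hx1 : 1 - x ≠ 0) :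
    tt c x ≠ 0 ∧ 1 - tt c x ≠ 0 := by
  fin_cases c
  · exact ⟨hx0, hx1⟩
  · refine ⟨hx1, ?_⟩
    show 1 - (1 - x) ≠ 0
    rwa [sub_sub_cancel]
  · refine ⟨inv_ne_zero hx1, ?_⟩
    show 1 - (1 - x)⁻¹ ≠ 0
    rw [tr_off hx1]
    exact mul_ne_zero (neg_ne_zero.2 hx0) (inv_ne_zero hx1)

/-- `1 - t_c = 1 - x, x, - x / (1 - x)`. -/
theorem tt_off (c : Fin 3) (x : K) (hx0 : x ≠ 0) (hx1 : 1 - x ≠ 0) (h0 : Off S x)
    (h1 : Off S (1 - x)) : Off S (tt c x) ∧ Off S (1 - tt c x) := by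
  fin_cases c
  · exact ⟨h0, h1⟩
  · refine ⟨h1, ?_⟩
    show Off S (1 - (1 - x))
    rwa [sub_sub_cancel]
  · refine ⟨fun v hv => ?_, fun v hv => ?_⟩
    · show v (1 - x)⁻¹ = 1
      rw [map_inv₀, h1 v hv, inv_one]
    · show v (1 - (1 - x)⁻¹) = 1
      rw [tr_off hx1, map_mul, map_inv₀, h1 v hv, inv_one, mul_one, map_neg_eq_map, h0 v hv]

private theorem tr_lam (v : Plc K S) (x : K) (hx0 : x ≠ 0) (hx1 : 1 - x ≠ 0) :
    lam v (1 - (1 - x)⁻¹) = lam v x - lam v (1 - x) := by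
  rw [tr_off hx1, lam_mul v (neg_ne_zero.2 hx0) (inv_ne_zero hx1), lam_neg, lam_inv]
  ring

/-- **Change of coordinates**: `x ^ y 0 * (1 - x) ^ y 1 = ± t_c ^ al * (1 - t_c) ^ be`. -/
theorem al_be_lam (v : Plc K S) (c : Fin 3) (x : K) (hx0 : x ≠ 0) (hx1 : 1 - x ≠ 0)
    (y : Fin 2 → ℝ) :
    al c y * lam v (tt c x) + be c y * lam v (1 - tt c x) =
      y 0 * lam v x + y 1 * lam v (1 - x) := by
  fin_cases c
  · rfl
  · show y 1 * lam v (1 - x) + y 0 * lam v (1 - (1 - x)) = _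
    rw [sub_sub_cancel]
    ring
  · show (-y 0 - y 1) * lam v (1 - x)⁻¹ + y 0 * lam v (1 - (1 - x)⁻¹) = _
    rw [tr_lam v x hx0 hx1, lam_inv]
    ring

/-- `lam v (t_c)` and `lam v (1 - t_c)` in terms of `lam v x`, `lam v (1 - x)`; in particular
both are at most `|lam v x| + |lam v (1 - x)|` in absolute value. -/
theorem abs_lam_tt (v : Plc K S) (c : Fin 3) (x : K) (hx0 : x ≠ 0) (hx1 : 1 - x ≠ 0) :
    |lam v (tt c x)| ≤ |lam v x| + |lam v (1 - x)| ∧
      |lam v (1 - tt c x)| ≤ |lam v x| + |lam v (1 - x)| := by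
  have h1 := abs_nonneg (lam v x)
  have h2 := abs_nonneg (lam v (1 - x))
  fin_cases c
  · exact ⟨le_add_of_nonneg_right h2, le_add_of_nonneg_left h1⟩
  · refine ⟨le_add_of_nonneg_left h1, ?_⟩
    show |lam v (1 - (1 - x))| ≤ _
    rw [sub_sub_cancel]
    exact le_add_of_nonneg_right h2
  · refine ⟨?_, ?_⟩
    · show |lam v (1 - x)⁻¹| ≤ _
      rw [lam_inv, abs_neg]
      exact le_add_of_nonneg_left h1
    · show |lam v (1 - (1 - x)⁻¹)| ≤ _
      rw [tr_lam v x hx0 hx1]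
      exact abs_sub _ _

/-- At a corner `c` with size `A`: `lam v t_c = -A`, `lam v (1 - t_c) = 0` up to the error. -/
theorem lam_tt_corner (v : Plc K S) (c : Fin 3) (x : K) (hx0 : x ≠ 0) (hx1 : 1 - x ≠ 0) (A e : ℝ)
    (h0 : |lam v x - A * dir c 0| ≤ e) (h1 : |lam v (1 - x) - A * dir c 1| ≤ e) :
    |lam v (tt c x) + A| ≤ e ∧ |lam v (1 - tt c x)| ≤ 2 * e := by
  have he : 0 ≤ e := (abs_nonneg _).trans h0
  fin_cases c
  · have h2 : |lam v x + A| ≤ e := by
      simpa [dir] using h0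
    have h3 : |lam v (1 - x)| ≤ e := by
      simpa [dir] using h1
    exact ⟨h2, h3.trans (by linarith)⟩
  · have h2 : |lam v x| ≤ e := by
      simpa [dir] using h0
    have h3 : |lam v (1 - x) + A| ≤ e := by
      simpa [dir] using h1
    refine ⟨h3, ?_⟩
    show |lam v (1 - (1 - x))| ≤ _
    rw [sub_sub_cancel]
    exact h2.trans (by linarith)
  · have h2 : |lam v x - A| ≤ e := by
      simpa [dir] using h0
    have h3 : |lam v (1 - x) - A| ≤ e := by
      simpa [dir] using h1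
    rw [abs_le] at h2 h3
    refine ⟨?_, ?_⟩
    · show |lam v (1 - x)⁻¹ + A| ≤ _
      rw [lam_inv, abs_le]
      constructor <;> linarith
    · show |lam v (1 - (1 - x)⁻¹)| ≤ _
      rw [tr_lam v x hx0 hx1, abs_le]
      constructor <;> linarith

theorem ht_tt (c : Fin 3) (x : K) : ht (tt c x) ≤ ht x + log 2 ∧ ht x ≤ ht (tt c x) + log 2 := by
  have h0 : 0 ≤ log 2 := Real.log_nonneg (by norm_num)
  have h1 := ht_one_sub x
  have h2 := ht_one_sub (1 - x)
  rw [sub_sub_cancel] at h2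
  fin_cases c
  · exact ⟨le_add_of_nonneg_right h0, le_add_of_nonneg_right h0⟩
  · exact ⟨h1, h2⟩
  · show ht (1 - x)⁻¹ ≤ _ ∧ _ ≤ ht (1 - x)⁻¹ + log 2
    rw [ht_inv]
    exact ⟨h1, h2⟩

end Pool.Agent.LAll
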